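import Pool.Agent.Lib.MP_c3da71_al.ARFd

/-! # Case I: small facts on `InG` (unfolded) -/

set_option autoImplicit false

namespace C3da71

variable {G : Type} [Group G] {E : Type} [DivisionRing E] {X : Type} [AddCommGroup X] [Module E X]

/-- `ρ g z ∈ W` in terms of the action on subspaces -/
theorem PAct.mem_act_inv_b (P : PAct G E X) (g : G) (W : Submodule E X) (z : X) :
    z ∈ P.act g⁻¹ W ↔ P.ρ g z ∈ W := by
  rw [← P.ρ_mem_act g, P.act_mul, mul_inv_cancel, P.act_one]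

theorem inG_act' (P : PAct G E X) {B : Subgroup G} (hB : B.Normal) {χ : B → ℝ} {x : X}
    (h : x ∈ Submodule.span E {z : X | ∃ b : B, 0 < χ b ∧ z = P.ρ (b : G) x}) (g : G) (χ' : B → ℝ)
    (hχ' : ∀ b c : B, (c : G) = g * b * g⁻¹ → χ' c = χ b) :
    P.ρ g x ∈ Submodule.span E {z : X | ∃ b : B, 0 < χ' b ∧ z = P.ρ (b : G) (P.ρ g x)} := by
  set W := Submodule.span E {z : X | ∃ b : B, 0 < χ' b ∧ z = P.ρ (b : G) (P.ρ g x)} with hW
  have h1 : Submodule.span E {z : X | ∃ b : B, 0 < χ b ∧ z = P.ρ (b : G) x} ≤ P.act g⁻¹ W := by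
    rw [Submodule.span_le]
    rintro _ ⟨b, hb, rfl⟩
    rw [SetLike.mem_coe, P.mem_act_inv_b]
    have hc : g * b * g⁻¹ ∈ B := hB.conj_mem b b.2 g
    have h2 : P.ρ (g * b * g⁻¹) (P.ρ g x) ∈ W :=
      Submodule.subset_span ⟨⟨_, hc⟩, by rw [hχ' b ⟨_, hc⟩ rfl]; exact hb, rfl⟩
    obtain ⟨c, hc1⟩ := P.mul g b
    obtain ⟨c', hc2⟩ := P.mul (g * b * g⁻¹) g
    have h3 : P.ρ g (P.ρ (b : G) x) = ((c * c'⁻¹ : Eˣ) : E) • P.ρ (g * b * g⁻¹) (P.ρ g x) := by
      rw [hc1, hc2, inv_mul_cancel_right, smul_smul, Units.val_mul, mul_assoc, Units.inv_mul,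
        mul_one]
    rw [h3]
    exact W.smul_mem _ h2
  exact (P.mem_act_inv_b g W x).1 (h1 h)

theorem exists_finset_inG' (P : PAct G E X) (B : Subgroup G) (x : X)
    (hx : ¬ LinearIndependent E (fun b : B => P.ρ (b : G) x)) :
    ∃ T : Finset B, (∀ t ∈ T, t ≠ 1) ∧ ∀ χ : B → ℝ, (∀ a b, χ (a * b) = χ a + χ b) →
      (∀ t ∈ T, χ t ≠ 0) → x ∈ Submodule.span E {z : X | ∃ b : B, 0 < χ b ∧ z = P.ρ (b : G) x} := by
  classical
  rw [linearIndependent_iff'] at hx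
  push Not at hx
  obtain ⟨S, s, hsum, b₁, hb₁, hsb₁⟩ := hx
  let S' : Finset B := S.filter (fun b => s b ≠ 0)
  have hsum' : ∑ b ∈ S', s b • P.ρ (b : G) x = 0 := by
    rw [← hsum]
    apply Finset.sum_subset (Finset.filter_subset _ _)
    intro b hb hb'
    have : s b = 0 := by
      by_contra h
      exact hb' (Finset.mem_filter.2 ⟨hb, h⟩)
    rw [this, zero_smul]
  have hS'ne : S'.Nonempty := ⟨b₁, Finset.mem_filter.2 ⟨hb₁, hsb₁⟩⟩
  refine ⟨((S' ×ˢ S').filter (fun p => p.1 ≠ p.2)).image (fun p => p.1⁻¹ * p.2), ?_, ?_⟩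
  · intro t ht
    obtain ⟨p, hp, rfl⟩ := Finset.mem_image.1 ht
    rw [Finset.mem_filter] at hp
    intro h
    exact hp.2 (inv_mul_eq_one.1 h)
  · intro χ hχ hT
    obtain ⟨b₀, hb₀, hmin⟩ := Finset.exists_min_image S' χ hS'ne
    have hχ1 : χ 1 = 0 := by
      have := hχ 1 1
      rw [mul_one] at this
      linarith
    have hχinv : ∀ a, χ a⁻¹ = -χ a := by
      intro a
      have := hχ a⁻¹ a
      rw [inv_mul_cancel, hχ1] at this
      linarith
    set W := Submodule.span E {z : X | ∃ b : B, 0 < χ b ∧ z = P.ρ (b : G) x} with hW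
    have hlt : ∀ b ∈ S', b ≠ b₀ → P.ρ (b : G) x ∈ P.act (b₀ : G) W := by
      intro b hb hne
      have h1 : χ (b₀⁻¹ * b) ≠ 0 := by
        apply hT
        rw [Finset.mem_image]
        exact ⟨(b₀, b), Finset.mem_filter.2 ⟨Finset.mem_product.2 ⟨hb₀, hb⟩, hne.symm⟩, rfl⟩
      have h2 : 0 < χ (b₀⁻¹ * b) := by
        have h3 := hmin b hb
        have h4 : χ (b₀⁻¹ * b) = χ b - χ b₀ := by rw [hχ, hχinv]; ring
        rw [h4] at h1 ⊢
        have h5 : 0 ≤ χ b - χ b₀ := by linarith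
        exact lt_of_le_of_ne h5 (Ne.symm h1)
      have h3 : P.ρ ((b₀⁻¹ * b : B) : G) x ∈ W := Submodule.subset_span ⟨_, h2, rfl⟩
      obtain ⟨c, hc⟩ := P.mul (b₀ : G) ((b₀⁻¹ * b : B) : G)
      have h4 : (b₀ : G) * ((b₀⁻¹ * b : B) : G) = (b : G) := by
        rw [Subgroup.coe_mul, Subgroup.coe_inv, mul_inv_cancel_left]
      have h5 : P.ρ (b : G) x = ((c⁻¹ : Eˣ) : E) • P.ρ (b₀ : G) (P.ρ ((b₀⁻¹ * b : B) : G) x) := by
        rw [hc, h4, smul_smul, Units.inv_mul, one_smul]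
      rw [h5]
      exact Submodule.smul_mem _ _ ((P.ρ_mem_act _ _ _).2 h3)
    have h6 : s b₀ • P.ρ (b₀ : G) x ∈ P.act (b₀ : G) W := by
      have h7 : s b₀ • P.ρ (b₀ : G) x = -∑ b ∈ S'.erase b₀, s b • P.ρ (b : G) x := by
        rw [← Finset.add_sum_erase S' _ hb₀] at hsum'
        exact eq_neg_of_add_eq_zero_left hsum'
      rw [h7]
      refine Submodule.neg_mem _ (Submodule.sum_mem _ (fun b hb => ?_))
      rw [Finset.mem_erase] at hb
      exact Submodule.smul_mem _ _ (hlt b hb.2 hb.1)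
    have hs0 : s b₀ ≠ 0 := (Finset.mem_filter.1 hb₀).2
    have h7 : P.ρ (b₀ : G) x ∈ P.act (b₀ : G) W := by
      have := Submodule.smul_mem _ (s b₀)⁻¹ h6
      rwa [smul_smul, inv_mul_cancel₀ hs0, one_smul] at this
    exact (P.ρ_mem_act _ _ _).1 h7

end C3da71
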