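import Pool.Agent.Lib.MP_c3da71_al.PCInd

set_option autoImplicit false

namespace C3da71

/-- ascending chain condition for the elements satisfying `L` below `X` -/
def ACC {α : Type*} [Preorder α] (L : α → Prop) (X : α) : Prop :=
  ∀ f : ℕ → α, (∀ n, L (f n)) → (∀ n, f n ≤ X) → Monotone f → ∃ n, ∀ m, n ≤ m → f m = f n

theorem ACC.mono {α : Type*} [Preorder α] {L L' : α → Prop} {X X' : α} (h : ACC L X)
    (hL : ∀ a, L' a → L a) (hX : X' ≤ X) : ACC L' X' :=
  fun f hf hfX hm => h f (fun n => hL _ (hf n)) (fun n => (hfX n).trans hX) hm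

section HB

variable {α : Type*} [CompleteLattice α]

/-- partial sums `⨆_{i<n} t^i X₀` -/
def psum (t : α ≃o α) (X₀ : α) : ℕ → α
  | 0 => ⊥
  | n + 1 => psum t X₀ n ⊔ t^[n] X₀

theorem psum_mono (t : α ≃o α) (X₀ : α) : Monotone (psum t X₀) :=
  monotone_nat_of_le_succ (fun _ => le_sup_left)

theorem t_psum_le (t : α ≃o α) (X₀ : α) (n : ℕ) : t (psum t X₀ n) ≤ psum t X₀ (n + 1) := by
  induction n with
  | zero => simp [psum]
  | succ n ih =>
    change t (psum t X₀ n ⊔ t^[n] X₀) ≤ psum t X₀ (n + 1) ⊔ t^[n + 1] X₀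
    rw [map_sup, Function.iterate_succ_apply']
    exact sup_le_sup_right ih _

theorem iSup_psum (t : α ≃o α) (X₀ : α) : ⨆ n, psum t X₀ n = ⨆ i : ℕ, t^[i] X₀ := by
  apply le_antisymm
  · apply iSup_le
    intro n
    induction n with
    | zero => exact bot_le
    | succ n ih => exact sup_le ih (le_iSup (fun i : ℕ => t^[i] X₀) n)
  · apply iSup_le
    intro i
    exact le_trans (le_sup_right : t^[i] X₀ ≤ psum t X₀ (i + 1)) (le_iSup (psum t X₀) (i + 1))

/-- leading coefficients -/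
def lead (t : α ≃o α) (X₀ : α) (n : ℕ) (B : α) : α := X₀ ⊓ t.symm^[n] (B ⊔ psum t X₀ n)

theorem symm_iterate_iterate (t : α ≃o α) (n : ℕ) (a : α) : t.symm^[n] (t^[n] a) = a := by
  induction n generalizing a with
  | zero => rfl
  | succ n ih =>
    rw [Function.iterate_succ_apply' t n a, Function.iterate_succ_apply, t.symm_apply_apply, ih]

theorem iterate_symm_iterate (t : α ≃o α) (n : ℕ) (a : α) : t^[n] (t.symm^[n] a) = a :=
  symm_iterate_iterate t.symm n a

theorem iterate_mono (t : α ≃o α) (n : ℕ) : Monotone (t^[n]) := t.monotone.iterate n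

theorem iterate_inf (t : α ≃o α) (n : ℕ) (a b : α) : t^[n] (a ⊓ b) = t^[n] a ⊓ t^[n] b := by
  induction n generalizing a b with
  | zero => rfl
  | succ n ih => rw [Function.iterate_succ_apply, map_inf, ih]; rfl

theorem lead_mono (t : α ≃o α) (X₀ : α) (n : ℕ) : Monotone (lead t X₀ n) := by
  intro B B' h
  exact inf_le_inf_left _ (iterate_mono t.symm n (sup_le_sup_right h _))

theorem lead_succ (t : α ≃o α) (X₀ : α) (n : ℕ) {B : α} (hB : t B ≤ B) :
    lead t X₀ n B ≤ lead t X₀ (n + 1) B := by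
  refine inf_le_inf_left _ ?_
  have h1 : B ⊔ psum t X₀ n ≤ t.symm (B ⊔ psum t X₀ (n + 1)) := by
    rw [← t.map_rel_iff, OrderIso.apply_symm_apply, map_sup]
    exact sup_le_sup hB (t_psum_le t X₀ n)
  rw [Function.iterate_succ_apply]
  exact iterate_mono t.symm n h1

theorem iterate_lead (t : α ≃o α) (X₀ : α) (n : ℕ) (B : α) :
    t^[n] (lead t X₀ n B) = t^[n] X₀ ⊓ (B ⊔ psum t X₀ n) := by
  rw [lead, iterate_inf, iterate_symm_iterate]

theorem inf_psum_eq [IsModularLattice α] (t : α ≃o α) (X₀ : α) {B B' : α} (hle : B ≤ B')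
    (h : ∀ n, lead t X₀ n B = lead t X₀ n B') (n : ℕ) : B ⊓ psum t X₀ n = B' ⊓ psum t X₀ n := by
  induction n with
  | zero => simp [psum]
  | succ n ih =>
    have h1 : t^[n] X₀ ⊓ (B ⊔ psum t X₀ n) = t^[n] X₀ ⊓ (B' ⊔ psum t X₀ n) := by
      rw [← iterate_lead, ← iterate_lead, h n]
    set P := psum t X₀ n with hP
    have hP1 : psum t X₀ (n + 1) = P ⊔ t^[n] X₀ := rfl
    have key : ∀ C : α, (C ⊓ (P ⊔ t^[n] X₀)) ⊔ P = P ⊔ (t^[n] X₀ ⊓ (C ⊔ P)) := by
      intro C
      have e1 : (C ⊓ (P ⊔ t^[n] X₀)) ⊔ P = (C ⊔ P) ⊓ (P ⊔ t^[n] X₀) := by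
        rw [inf_comm C, sup_comm, inf_comm (C ⊔ P), sup_comm C P,
          inf_comm (P ⊔ t^[n] X₀) C, inf_comm (P ⊔ t^[n] X₀) (P ⊔ C)]
        exact (sup_inf_assoc_of_le C le_sup_left).symm
      rw [e1, sup_comm P, inf_comm, sup_comm (t^[n] X₀) P]
      exact sup_inf_assoc_of_le _ le_sup_right
    rw [hP1]
    have hle' : B ⊓ (P ⊔ t^[n] X₀) ≤ B' ⊓ (P ⊔ t^[n] X₀) := inf_le_inf_right _ hle
    refine eq_of_le_of_inf_le_of_sup_le hle' (z := P) ?_ ?_
    · have h2 : B' ⊓ (P ⊔ t^[n] X₀) ⊓ P = B' ⊓ P := by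
        rw [inf_assoc, inf_eq_right.2 (le_sup_left : P ≤ P ⊔ t^[n] X₀)]
      have h3 : B ⊓ (P ⊔ t^[n] X₀) ⊓ P = B ⊓ P := by
        rw [inf_assoc, inf_eq_right.2 (le_sup_left : P ≤ P ⊔ t^[n] X₀)]
      rw [h2, h3, ih]
    · rw [key, key, h1]

/-- **Hilbert basis step** in an upper continuous modular lattice. -/
theorem HB [IsModularLattice α] [IsCompactlyGenerated α] (L : α → Prop)
    (hsup : ∀ a b, L a → L b → L (a ⊔ b)) (hinf : ∀ a b, L a → L b → L (a ⊓ b)) (hbot : L ⊥)
    (t : α ≃o α) (ht : ∀ a, L a → L (t a)) (ht' : ∀ a, L a → L (t.symm a)) (X₀ : α)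
    (hX₀ : L X₀) (h : ACC L X₀) :
    ACC (fun a => L a ∧ t a ≤ a) (⨆ i : ℕ, t^[i] X₀) := by
  classical
  have hit : ∀ (n : ℕ) a, L a → L (t^[n] a) := by
    intro n
    induction n with
    | zero => exact fun a ha => ha
    | succ n ih => intro a ha; rw [Function.iterate_succ_apply]; exact ih _ (ht a ha)
  have hit' : ∀ (n : ℕ) a, L a → L (t.symm^[n] a) := by
    intro n
    induction n with
    | zero => exact fun a ha => ha
    | succ n ih => intro a ha; rw [Function.iterate_succ_apply]; exact ih _ (ht' a ha)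
  have hpsum : ∀ n, L (psum t X₀ n) := by
    intro n
    induction n with
    | zero => exact hbot
    | succ n ih => exact hsup _ _ ih (hit n _ hX₀)
  have hlead : ∀ n B, L B → L (lead t X₀ n B) := fun n B hB =>
    hinf _ _ hX₀ (hit' n _ (hsup _ _ hB (hpsum n)))
  intro f hf hfX hmono
  have hlm : ∀ n n' B, t B ≤ B → n ≤ n' → lead t X₀ n B ≤ lead t X₀ n' B := by
    intro n n' B hB hnn'
    induction n', hnn' using Nat.le_induction with
    | base => exact le_rfl
    | succ m hm ih => exact ih.trans (lead_succ t X₀ m hB)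
  obtain ⟨N, hN⟩ := h (fun k => lead t X₀ k (f k)) (fun k => hlead k _ (hf k).1)
    (fun k => inf_le_left) (fun k k' hkk' =>
      (hlm k k' (f k) (hf k).2 hkk').trans (lead_mono t X₀ k' (hmono hkk')))
  have hM : ∀ n, ∃ M, ∀ m, M ≤ m → lead t X₀ n (f m) = lead t X₀ n (f M) := by
    intro n
    exact h (fun m => lead t X₀ n (f m)) (fun m => hlead n _ (hf m).1)
      (fun m => inf_le_left) (fun m m' hmm' => lead_mono t X₀ n (hmono hmm'))
  choose M hM using hM
  let K := N + ∑ n ∈ Finset.range N, M n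
  have hNK : N ≤ K := Nat.le_add_right _ _
  have hMK : ∀ n, n < N → M n ≤ K := by
    intro n hn
    have := Finset.single_le_sum (f := M) (fun i _ => Nat.zero_le _) (Finset.mem_range.2 hn)
    omega
  have hall : ∀ m, K ≤ m → ∀ n, lead t X₀ n (f K) = lead t X₀ n (f m) := by
    intro m hm n
    by_cases hn : n < N
    · rw [hM n m ((hMK n hn).trans hm), hM n K (hMK n hn)]
    · push Not at hn
      have key : ∀ m, N ≤ m → lead t X₀ n (f m) = lead t X₀ N (f N) := by
        intro m hm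
        apply le_antisymm
        · have h1 := (hlm n (max n m) (f m) (hf m).2 (le_max_left _ _)).trans
            (lead_mono t X₀ (max n m) (hmono (le_max_right n m)))
          rw [hN (max n m) (hn.trans (le_max_left _ _))] at h1
          exact h1
        · exact (hlm N n (f N) (hf N).2 hn).trans (lead_mono t X₀ n (hmono hm))
      rw [key K hNK, key m (hNK.trans hm)]
  refine ⟨K, fun m hm => ?_⟩
  have h1 := inf_psum_eq t X₀ (hmono hm) (hall m hm)
  have hdir : Directed (· ≤ ·) (psum t X₀) := (psum_mono t X₀).directed_le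
  have h2 : ∀ B, B ≤ ⨆ i : ℕ, t^[i] X₀ → B = ⨆ n, B ⊓ psum t X₀ n := by
    intro B hB
    rw [← iSup_psum] at hB
    rw [← hdir.inf_iSup_eq, inf_eq_left.2 hB]
  rw [h2 _ (hfX m), h2 _ (hfX K)]
  congr 1
  ext n
  exact (h1 n).symm

end HB

/-- Hall's theorem for the group `Q`, lattice form. -/
def HallProp (Q : Type) [Group Q] : Prop :=
  ∀ (α : Type) [CompleteLattice α] [IsModularLattice α] [IsCompactlyGenerated α] (L : α → Prop)
    (_ : ∀ s : Set α, (∀ a ∈ s, L a) → L (sSup s)) (_ : ∀ a b, L a → L b → L (a ⊓ b))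
    (act : Q → α ≃o α) (_ : ∀ g a, L a → L (act g a)) (_ : ∀ a, L a → act 1 a = a)
    (_ : ∀ g h a, L a → act (g * h) a = act g (act h a)) (X₀ : α) (_ : L X₀) (_ : ACC L X₀),
    ACC (fun a => L a ∧ ∀ g, act g a = a) (⨆ g, act g X₀)

theorem HallProp.cyclic (Q : Type) [Group Q] (hQ : IsCyclic Q) : HallProp Q := by
  classical
  intro α _ _ _ L hsS hinf act hact hone hmul X₀ hX₀ h
  obtain ⟨c, hc⟩ := hQ.exists_zpow_surjective
  let t := act c
  have hbot : L ⊥ := by
    have := hsS ∅ (by simp)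
    rwa [sSup_empty] at this
  have hsup : ∀ a b, L a → L b → L (a ⊔ b) := by
    intro a b ha hb
    have := hsS {a, b} (by
      intro x hx
      rcases hx with rfl | rfl
      · exact ha
      · exact hb)
    rwa [sSup_pair] at this
  have hsymm : ∀ a, L a → t.symm a = act c⁻¹ a := by
    intro a ha
    rw [OrderIso.symm_apply_eq]
    change a = act c (act c⁻¹ a)
    rw [← hmul _ _ _ ha, mul_inv_cancel, hone a ha]
  have ht : ∀ a, L a → L (t a) := fun a ha => hact c a ha
  have ht' : ∀ a, L a → L (t.symm a) := fun a ha => by rw [hsymm a ha]; exact hact _ _ ha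
  have h1 := HB L hsup hinf hbot t ht ht' X₀ hX₀ h
  let L₁ : α → Prop := fun a => L a ∧ t a ≤ a
  let X₁ : α := ⨆ i : ℕ, t^[i] X₀
  have hit : ∀ (n : ℕ) a, L a → L (t^[n] a) := by
    intro n
    induction n with
    | zero => exact fun a ha => ha
    | succ n ih => intro a ha; rw [Function.iterate_succ_apply]; exact ih _ (ht a ha)
  have hLX₁ : L X₁ := by
    refine hsS _ ?_
    rintro _ ⟨i, rfl⟩
    exact hit i _ hX₀
  have hX₁ : L₁ X₁ := by
    refine ⟨hLX₁, ?_⟩
    change t (⨆ i : ℕ, t^[i] X₀) ≤ ⨆ i : ℕ, t^[i] X₀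
    rw [t.map_iSup]
    apply iSup_le
    intro i
    rw [← Function.iterate_succ_apply' t i]
    exact le_iSup (fun i : ℕ => t^[i] X₀) (i + 1)
  have h2 := HB L₁ (fun a b ha hb => ⟨hsup a b ha.1 hb.1, by
      rw [map_sup]; exact sup_le_sup ha.2 hb.2⟩)
    (fun a b ha hb => ⟨hinf a b ha.1 hb.1, by rw [map_inf]; exact inf_le_inf ha.2 hb.2⟩)
    ⟨hbot, by rw [map_bot]⟩ t.symm
    (fun a ha => ⟨ht' a ha.1, by
      rw [t.apply_symm_apply, ← t.map_rel_iff, t.apply_symm_apply]
      exact ha.2⟩)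
    (fun a ha => ⟨ht a ha.1, t.monotone ha.2⟩) X₁ hX₁ h1
  refine h2.mono ?_ ?_
  · rintro a ⟨ha, hga⟩
    refine ⟨⟨ha, (hga c).le⟩, ?_⟩
    rw [hsymm a ha]
    exact (hga c⁻¹).le
  · apply iSup_le
    intro g
    obtain ⟨n, hn⟩ := hc g
    simp only at hn
    have hpow : ∀ m : ℕ, act (c ^ m) X₀ = t^[m] X₀ := by
      intro m
      induction m with
      | zero => rw [pow_zero]; exact hone _ hX₀
      | succ m ih =>
        rw [pow_succ', hmul _ _ _ hX₀, ih, Function.iterate_succ_apply']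
    have hpow' : ∀ m : ℕ, act ((c ^ m)⁻¹) X₀ = t.symm^[m] X₀ := by
      intro m
      have h3 : act ((c ^ m)⁻¹) X₀ = t.symm^[m] (t^[m] (act ((c ^ m)⁻¹) X₀)) :=
        (symm_iterate_iterate t m _).symm
      rw [h3]
      congr 1
      have h4 : ∀ (k : ℕ) (b : α), L b → t^[k] b = act (c ^ k) b := by
        intro k
        induction k with
        | zero => intro b hb; rw [pow_zero, hone b hb]; rfl
        | succ k ih =>
          intro b hb
          rw [Function.iterate_succ_apply', ih b hb, pow_succ', hmul _ _ _ hb]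
      rw [h4 m _ (hact _ _ hX₀), ← hmul _ _ _ hX₀, mul_inv_cancel, hone _ hX₀]
    have hX₀X₁ : X₀ ≤ X₁ := le_iSup (fun i : ℕ => t^[i] X₀) 0
    rcases Int.eq_nat_or_neg n with ⟨m, rfl | rfl⟩
    · rw [← hn, zpow_natCast, hpow]
      exact le_trans (le_iSup (fun i : ℕ => t^[i] X₀) m)
        (le_iSup (fun i : ℕ => t.symm^[i] X₁) 0)
    · rw [← hn, zpow_neg, zpow_natCast, hpow']
      exact le_trans (iterate_mono t.symm m hX₀X₁) (le_iSup (fun i : ℕ => t.symm^[i] X₁) m)

theorem HallProp.extension (Q : Type) [Group Q] (N : Subgroup Q) [hNn : N.Normal] (_ : PC Q)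
    (hN : HallProp N) (hQN : HallProp (Q ⧸ N)) : HallProp Q := by
  classical
  intro α _ _ _ L hsS hinf act hact hone hmul X₀ hX₀ h
  have h1 := hN α L hsS hinf (fun n => act (n : Q)) (fun n a ha => hact _ a ha) hone
    (fun m n a ha => hmul _ _ a ha) X₀ hX₀ h
  let LN : α → Prop := fun a => L a ∧ ∀ n : N, act (n : Q) a = a
  let X₁ : α := ⨆ n : N, act (n : Q) X₀
  have hX₁ : LN X₁ := by
    refine ⟨hsS _ (by rintro _ ⟨n, rfl⟩; exact hact _ _ hX₀), fun n => ?_⟩
    change act (n : Q) (⨆ m : N, act (m : Q) X₀) = ⨆ m : N, act (m : Q) X₀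
    rw [(act (n : Q)).map_iSup]
    apply le_antisymm
    · apply iSup_le
      intro m
      rw [← hmul _ _ _ hX₀]
      exact le_iSup (fun m : N => act (m : Q) X₀) (n * m)
    · apply iSup_le
      intro m
      refine le_trans (le_of_eq ?_) (le_iSup (fun m : N => act (n : Q) (act (m : Q) X₀))
        (n⁻¹ * m))
      rw [← hmul _ _ _ hX₀]
      congr 2
      simp
  let act' : Q ⧸ N → α ≃o α := fun q => act q.out
  have hLNact : ∀ g a, LN a → LN (act g a) := by
    intro g a ha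
    refine ⟨hact g a ha.1, fun n => ?_⟩
    rw [← hmul _ _ _ ha.1]
    have h3 : (n : Q) * g = g * (g⁻¹ * n * g) := by group
    have h4 : g⁻¹ * n * g ∈ N := by
      have := hNn.conj_mem n n.2 g⁻¹
      rwa [inv_inv] at this
    rw [h3, hmul _ _ _ ha.1, ha.2 ⟨_, h4⟩]
  have h2 := hQN α LN
    (fun s hs => ⟨hsS s (fun a ha => (hs a ha).1), fun n => by
      rw [(act (n : Q)).map_sSup]
      rw [sSup_eq_iSup]
      apply iSup_congr
      intro a
      apply iSup_congr
      intro ha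
      exact (hs a ha).2 n⟩)
    (fun a b ha hb => ⟨hinf a b ha.1 hb.1, fun n => by rw [map_inf, ha.2 n, hb.2 n]⟩)
    act' (fun q a ha => hLNact _ a ha)
    (fun a ha => by
      have h3 : (1 : Q ⧸ N).out ∈ N := by
        rw [← QuotientGroup.eq_one_iff, QuotientGroup.out_eq']
      exact ha.2 ⟨_, h3⟩)
    (fun q q' a ha => by
      have h3 : (q.out * q'.out)⁻¹ * (q * q').out ∈ N := by
        rw [← QuotientGroup.eq, QuotientGroup.out_eq', QuotientGroup.mk_mul,
          QuotientGroup.out_eq', QuotientGroup.out_eq']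
      have h4 : (q * q').out = q.out * (q'.out * ((q.out * q'.out)⁻¹ * (q * q').out)) := by
        group
      change act (q * q').out a = act q.out (act q'.out a)
      rw [h4, hmul _ _ _ ha.1, hmul _ _ _ ha.1, ha.2 ⟨_, h3⟩])
    X₁ hX₁ h1
  refine h2.mono ?_ ?_
  · rintro a ⟨ha, hga⟩
    exact ⟨⟨ha, fun n => hga n⟩, fun q => hga _⟩
  · apply iSup_le
    intro g
    have h3 : (QuotientGroup.mk g : Q ⧸ N).out⁻¹ * g ∈ N := by
      rw [← QuotientGroup.eq, QuotientGroup.out_eq']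
    have h4 : g = (QuotientGroup.mk g : Q ⧸ N).out *
      ((QuotientGroup.mk g : Q ⧸ N).out⁻¹ * g) := by group
    have h5 : act g X₀ = act' (QuotientGroup.mk g) (act
        ((QuotientGroup.mk g : Q ⧸ N).out⁻¹ * g) X₀) := by
      change act g X₀ = act (QuotientGroup.mk g : Q ⧸ N).out _
      rw [← hmul _ _ _ hX₀, ← h4]
    rw [h5]
    refine le_trans ((act' (QuotientGroup.mk g)).monotone
      (le_iSup (fun n : N => act (n : Q) X₀) ⟨_, h3⟩)) ?_
    exact le_iSup (fun q => act' q X₁) (QuotientGroup.mk g)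

/-- **Hall's theorem**, lattice form. -/
theorem PC.hall : ∀ (Q : Type) [Group Q], PC Q → HallProp Q :=
  PC.rec_ext HallProp.cyclic HallProp.extension

end C3da71
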