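import Pool.Agent.Lib.MP_c3da71_al.Defs
import Pool.Agent.Lib.MP_c3da71_al.Hall

/-! # `G_χ` is a subspace (Lemma AR) -/

set_option autoImplicit false

namespace C3da71

/-- the action of a group element as an automorphism of the lattice of subspaces -/
def PAct.latIso {G : Type} [Group G] {E : Type} [Ring E] {X : Type} [AddCommGroup X] [Module E X]
    (P : PAct G E X) (g : G) : Submodule E X ≃o Submodule E X where
  toFun := P.act g
  invFun := P.act g⁻¹
  left_inv Y := by rw [P.act_mul, inv_mul_cancel, P.act_one]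
  right_inv Y := by rw [P.act_mul, mul_inv_cancel, P.act_one]
  map_rel_iff' := by
    intro Y Y'
    constructor
    · intro h
      have := P.act_mono g⁻¹ h
      simpa [P.act_mul] using this
    · exact fun h => P.act_mono g h

/-- **Hilbert basis theorem** for commuting operators. -/
theorem exists_acc {Γ : Type} [Group Γ] {E : Type} [DivisionRing E] {M : Type} [AddCommGroup M] [Module E M]
    (P : PAct Γ E M) (x : M) (l : List Γ) (hl : ∀ g ∈ l, ∀ h ∈ l, g * h = h * g) :
    ∃ M₀ : Submodule E M, x ∈ M₀ ∧ (∀ g ∈ l, P.act g M₀ ≤ M₀) ∧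
      ACC (fun a : Submodule E M => ∀ g ∈ l, P.act g a ≤ a) M₀ := by
  induction l with
  | nil =>
    refine ⟨Submodule.span E {x}, Submodule.mem_span_singleton_self x, by simp, ?_⟩
    intro f _ hf hmono
    have hN : IsNoetherian E (Submodule.span E {x}) := inferInstance
    have h1 := (monotone_stabilizes_iff_noetherian (R := E) (M := Submodule.span E {x})).2 hN
      ⟨fun n => (f n).comap (Submodule.span E {x}).subtype, fun a b hab => Submodule.comap_mono (hmono hab)⟩
    obtain ⟨n, hn⟩ := h1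
    refine ⟨n, fun m hm => ?_⟩
    have h2 := hn m hm
    have h3 : ∀ k, f k = ((f k).comap (Submodule.span E {x}).subtype).map (Submodule.span E {x}).subtype := by
      intro k
      rw [Submodule.map_comap_subtype, inf_eq_right.2 (hf k)]
    rw [h3 m, h3 n]
    exact congrArg _ h2.symm
  | cons g l ih =>
    obtain ⟨M₁, hx, hst, hacc⟩ := ih (fun a ha b hb => hl a (List.mem_cons_of_mem _ ha) b (List.mem_cons_of_mem _ hb))
    have hcomm : ∀ h ∈ l, ∀ a, P.act h (P.act g a) = P.act g (P.act h a) := by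
      intro h hh a
      rw [P.act_mul, P.act_mul, hl h (List.mem_cons_of_mem _ hh) g List.mem_cons_self]
    have hcomm' : ∀ h ∈ l, ∀ a, P.act h (P.act g⁻¹ a) = P.act g⁻¹ (P.act h a) := by
      intro h hh a
      have h1 := hcomm h hh (P.act g⁻¹ a)
      rw [P.act_mul g g⁻¹, mul_inv_cancel, P.act_one] at h1
      rw [h1, P.act_mul g⁻¹ g, inv_mul_cancel, P.act_one]
    have hHB := HB (α := Submodule E M) (fun a => ∀ h ∈ l, P.act h a ≤ a)
      (by
        intro a b ha hb h hh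
        have : P.act h (a ⊔ b) = P.act h a ⊔ P.act h b := (P.latIso h).map_sup a b
        rw [this]
        exact sup_le_sup (ha h hh) (hb h hh))
      (by
        intro a b ha hb h hh
        rw [P.act_inf]
        exact inf_le_inf (ha h hh) (hb h hh))
      (by intro h _; simp)
      (P.latIso g)
      (by
        intro a ha h hh
        show P.act h (P.act g a) ≤ P.act g a
        rw [hcomm h hh]
        exact P.act_mono g (ha h hh))
      (by
        intro a ha h hh
        show P.act h (P.act g⁻¹ a) ≤ P.act g⁻¹ a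
        rw [hcomm' h hh]
        exact P.act_mono g⁻¹ (ha h hh))
      M₁ hst hacc
    have hit : ∀ h ∈ l, ∀ i : ℕ, P.act h ((P.latIso g)^[i] M₁) ≤ (P.latIso g)^[i] M₁ := by
      intro h hh i
      induction i with
      | zero => exact hst h hh
      | succ i ih =>
        rw [Function.iterate_succ_apply']
        show P.act h (P.act g _) ≤ P.act g _
        rw [hcomm h hh]
        exact P.act_mono g ih
    refine ⟨⨆ i : ℕ, (P.latIso g)^[i] M₁, ?_, ?_, ?_⟩
    · exact Submodule.mem_iSup_of_mem 0 hx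
    · intro h hh
      have h1 : P.act h (⨆ i : ℕ, (P.latIso g)^[i] M₁) = ⨆ i : ℕ, P.act h ((P.latIso g)^[i] M₁) :=
        (P.latIso h).map_iSup _
      rw [h1]
      rcases List.mem_cons.1 hh with rfl | hh
      · apply iSup_le
        intro i
        refine le_trans (le_of_eq ?_) (le_iSup _ (i + 1))
        rw [Function.iterate_succ_apply']
        rfl
      · exact iSup_mono fun i => hit h hh i
    · refine hHB.mono ?_ le_rfl
      intro a ha
      exact ⟨fun h hh => ha h (List.mem_cons_of_mem _ hh), ha g List.mem_cons_self⟩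

section GX

variable {G : Type} [Group G] {E : Type} [DivisionRing E] {X : Type} [AddCommGroup X] [Module E X]

/-- functions `ℤ → X` as a system over `B × ℤ` -/
def PAct.shift (P : PAct G E X) (B : Subgroup G) : PAct (B × Multiplicative ℤ) E (ℤ → X) where
  ρ g :=
    { toFun := fun w i => P.ρ (g.1 : G) (w (i - Multiplicative.toAdd g.2))
      invFun := fun w i => (P.ρ (g.1 : G)).symm (w (i + Multiplicative.toAdd g.2))
      left_inv := fun w => by funext i; simp
      right_inv := fun w => by funext i; simp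
      map_add' := fun w w' => by funext i; simp }
  σ g := P.σ (g.1 : G)
  semi g e w := by
    funext i
    exact P.semi _ _ _
  mul g h := by
    obtain ⟨c, hc⟩ := P.mul (g.1 : G) (h.1 : G)
    refine ⟨c, fun w => ?_⟩
    funext i
    have h1 : i - Multiplicative.toAdd g.2 - Multiplicative.toAdd h.2 = i - Multiplicative.toAdd (g * h).2 := by
      rw [Prod.snd_mul, toAdd_mul, sub_sub]
    show P.ρ (g.1 : G) (P.ρ (h.1 : G) (w (i - Multiplicative.toAdd g.2 - Multiplicative.toAdd h.2))) =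
      (c : E) • P.ρ ((g.1 * h.1 : B) : G) (w (i - Multiplicative.toAdd (g * h).2))
    rw [hc, h1]
    rfl

lemma PAct.shift_apply (P : PAct G E X) (B : Subgroup G) (b : B) (k : Multiplicative ℤ) (w : ℤ → X) (i : ℤ) :
    (P.shift B).ρ (b, k) w i = P.ρ (b : G) (w (i - Multiplicative.toAdd k)) := rfl

lemma PAct.shift_single (P : PAct G E X) (B : Subgroup G) (b : B) (k : Multiplicative ℤ) (j : ℤ) (x : X) :
    (P.shift B).ρ (b, k) (Pi.single j x) = Pi.single (j + Multiplicative.toAdd k) (P.ρ (b : G) x) := by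
  classical
  funext i
  rw [P.shift_apply]
  by_cases h : i = j + Multiplicative.toAdd k
  · subst h
    simp
  · rw [Pi.single_eq_of_ne h, Pi.single_eq_of_ne, map_zero]
    intro h'
    apply h
    omega

variable (P : PAct G E X) (B : Subgroup G) (χ : B → ℝ)

/-- the span of the `ρ(b) x`, `χ b ≥ 0` -/
def Znn (x : X) : Submodule E X := Submodule.span E ((fun b : B => P.ρ (b : G) x) '' {b | 0 ≤ χ b})

/-- the span of the `ρ(b) x`, `χ b > 0` -/
def Zpos (x : X) : Submodule E X := Submodule.span E ((fun b : B => P.ρ (b : G) x) '' {b | 0 < χ b})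

lemma Zpos_le (x : X) : Zpos P B χ x ≤ Znn P B χ x :=
  Submodule.span_mono (Set.image_mono (fun b (h : 0 < χ b) => (show 0 ≤ χ b from le_of_lt h)))

variable {χ} (hχ : ∀ a b, χ (a * b) = χ a + χ b)

include hχ in
lemma chi_one : χ 1 = 0 := by
  have := hχ 1 1
  rw [mul_one] at this
  linarith

include hχ in
lemma self_mem_Znn (x : X) : x ∈ Znn P B χ x := by
  obtain ⟨c, hc⟩ := P.one_smul
  have h1 : P.ρ ((1 : B) : G) x ∈ Znn P B χ x :=
    Submodule.subset_span ⟨1, by simp [chi_one B hχ], rfl⟩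
  have h2 := Submodule.smul_mem _ ((c⁻¹ : Eˣ) : E) h1
  rwa [Subgroup.coe_one, hc, smul_smul, Units.inv_mul, one_smul] at h2

/-- semilinear images of spans -/
lemma ρ_mem_of_span (g : G) (S : Set X) (W : Submodule E X) (h : ∀ z ∈ S, P.ρ g z ∈ W) {v : X}
    (hv : v ∈ Submodule.span E S) : P.ρ g v ∈ W := by
  refine Submodule.span_induction (p := fun v _ => P.ρ g v ∈ W) h ?_ ?_ ?_ hv
  · rw [map_zero]; exact W.zero_mem
  · intro a b _ _ ha hb
    rw [map_add]; exact W.add_mem ha hb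
  · intro e a _ ha
    rw [P.semi]; exact W.smul_mem _ ha

include hχ in
lemma ρ_Znn (x : X) (b : B) (hb : 0 ≤ χ b) {v : X} (hv : v ∈ Znn P B χ x) : P.ρ (b : G) v ∈ Znn P B χ x := by
  refine ρ_mem_of_span P (b : G) _ _ ?_ hv
  rintro _ ⟨b', hb', rfl⟩
  obtain ⟨c, hc⟩ := P.mul (b : G) (b' : G)
  simp only [Set.mem_ofPred_eq] at hb'
  rw [hc]
  refine Submodule.smul_mem _ _ (Submodule.subset_span ⟨b * b', ?_, rfl⟩)
  show 0 ≤ χ (b * b')
  rw [hχ]; linarith

include hχ in
lemma ρ_Znn_pos (x : X) (b : B) (hb : 0 < χ b) {v : X} (hv : v ∈ Znn P B χ x) : P.ρ (b : G) v ∈ Zpos P B χ x := by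
  refine ρ_mem_of_span P (b : G) _ _ ?_ hv
  rintro _ ⟨b', hb', rfl⟩
  obtain ⟨c, hc⟩ := P.mul (b : G) (b' : G)
  simp only [Set.mem_ofPred_eq] at hb'
  rw [hc]
  refine Submodule.smul_mem _ _ (Submodule.subset_span ⟨b * b', ?_, rfl⟩)
  show 0 < χ (b * b')
  rw [hχ]; linarith

include hχ in
lemma ρ_Zpos (x : X) (b : B) (hb : 0 ≤ χ b) {v : X} (hv : v ∈ Zpos P B χ x) : P.ρ (b : G) v ∈ Zpos P B χ x := by
  refine ρ_mem_of_span P (b : G) _ _ ?_ hv
  rintro _ ⟨b', hb', rfl⟩
  obtain ⟨c, hc⟩ := P.mul (b : G) (b' : G)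
  simp only [Set.mem_ofPred_eq] at hb'
  rw [hc]
  refine Submodule.smul_mem _ _ (Submodule.subset_span ⟨b * b', ?_, rfl⟩)
  show 0 < χ (b * b')
  rw [hχ]; linarith

lemma exists_finset_span {x v : X} {S : Set B} (hv : v ∈ Submodule.span E ((fun b : B => P.ρ (b : G) x) '' S)) :
    ∃ F : Finset B, (∀ b ∈ F, b ∈ S) ∧ v ∈ Submodule.span E ((fun b : B => P.ρ (b : G) x) '' (F : Set B)) := by
  classical
  obtain ⟨T, hT, hvT⟩ := Submodule.mem_span_finite_of_mem_span hv
  obtain ⟨F, hF, rfl⟩ := Finset.subset_set_image_iff.1 hT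
  refine ⟨F, fun b hb => hF hb, ?_⟩
  rwa [Finset.coe_image] at hvT

include hχ in
/-- the main step -/
theorem pos_of_Znn (hB : ∀ a ∈ B, ∀ b ∈ B, a * b = b * a) {x y : X} (hx : x ∈ Zpos P B χ x) (hy : y ∈ Znn P B χ x) :
    y ∈ Zpos P B χ y := by
  classical
  obtain ⟨S, hS, hxS⟩ := exists_finset_span P B hx
  obtain ⟨F, hF, hyF⟩ := exists_finset_span P B hy
  simp only [Set.mem_ofPred_eq] at hS hF
  let l : List (B × Multiplicative ℤ) :=
    F.toList.map (fun b => (b, 1)) ++ S.toList.map (fun s => (s, Multiplicative.ofAdd 1))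
  have hmemF : ∀ b ∈ F, (b, (1 : Multiplicative ℤ)) ∈ l := by
    intro b hb
    refine List.mem_append_left _ (List.mem_map.2 ⟨b, Finset.mem_toList.2 hb, rfl⟩)
  have hmemS : ∀ s ∈ S, (s, Multiplicative.ofAdd (1 : ℤ)) ∈ l := by
    intro b hb
    refine List.mem_append_right _ (List.mem_map.2 ⟨b, Finset.mem_toList.2 hb, rfl⟩)
  have hlcases : ∀ g ∈ l, (0 ≤ χ g.1 ∧ g.2 = 1) ∨ (0 < χ g.1 ∧ g.2 = Multiplicative.ofAdd 1) := by
    intro g hg
    rcases List.mem_append.1 hg with h | h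
    · obtain ⟨b, hb, rfl⟩ := List.mem_map.1 h
      exact Or.inl ⟨hF b (Finset.mem_toList.1 hb), rfl⟩
    · obtain ⟨b, hb, rfl⟩ := List.mem_map.1 h
      exact Or.inr ⟨hS b (Finset.mem_toList.1 hb), rfl⟩
  obtain ⟨M₀, hM0, hMst, hMacc⟩ := exists_acc (P.shift B) (Pi.single 0 x : ℤ → X) l (by
    intro g _ h _
    apply Prod.ext
    · exact Subtype.ext (hB _ g.1.2 _ h.1.2)
    · exact mul_comm _ _)
  have hMst' : ∀ g ∈ l, ∀ w ∈ M₀, (P.shift B).ρ g w ∈ M₀ := by
    intro g hg w hw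
    exact hMst g hg (((P.shift B).ρ_mem_act g M₀ w).2 hw)
  -- `x t^j ∈ M`
  have hxj : ∀ j : ℕ, (Pi.single (j : ℤ) x : ℤ → X) ∈ M₀ := by
    intro j
    induction j with
    | zero => simpa using hM0
    | succ j ih =>
      have h1 : Submodule.span E ((fun b : B => P.ρ (b : G) x) '' (S : Set B)) ≤
          M₀.comap (LinearMap.single E (fun _ : ℤ => X) ((j : ℤ) + 1)) := by
        rw [Submodule.span_le]
        rintro _ ⟨s, hs, rfl⟩
        show (Pi.single ((j : ℤ) + 1) (P.ρ (s : G) x) : ℤ → X) ∈ M₀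
        have := hMst' _ (hmemS s hs) _ ih
        rwa [P.shift_single] at this
      have h2 := h1 hxS
      push_cast
      exact h2
  -- `y t^j ∈ M`
  have hyj : ∀ j : ℕ, (Pi.single (j : ℤ) y : ℤ → X) ∈ M₀ := by
    intro j
    have h1 : Submodule.span E ((fun b : B => P.ρ (b : G) x) '' (F : Set B)) ≤
        M₀.comap (LinearMap.single E (fun _ : ℤ => X) (j : ℤ)) := by
      rw [Submodule.span_le]
      rintro _ ⟨s, hs, rfl⟩
      show (Pi.single (j : ℤ) (P.ρ (s : G) x) : ℤ → X) ∈ M₀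
      have := hMst' _ (hmemF s hs) _ (hxj j)
      rw [P.shift_single] at this
      simpa using this
    exact h1 hyF
  -- the chain
  let f : ℕ → Submodule E (ℤ → X) := fun n =>
    sInf {Z | (∀ g ∈ l, (P.shift B).act g Z ≤ Z) ∧ ∀ j : ℕ, j ≤ n → (Pi.single (j : ℤ) y : ℤ → X) ∈ Z}
  have hfst : ∀ n, ∀ g ∈ l, (P.shift B).act g (f n) ≤ f n := by
    intro n g hg
    apply le_sInf
    intro Z hZ
    exact ((P.shift B).act_mono g (sInf_le hZ)).trans (hZ.1 g hg)
  have hfmem : ∀ n j, j ≤ n → (Pi.single (j : ℤ) y : ℤ → X) ∈ f n := by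
    intro n j hj
    exact Submodule.mem_sInf.2 fun Z hZ => hZ.2 j hj
  have hfle : ∀ n, f n ≤ M₀ := fun n => sInf_le ⟨hMst, fun j _ => hyj j⟩
  have hfmono : Monotone f := by
    intro a b hab
    exact sInf_le_sInf fun Z hZ => ⟨hZ.1, fun j hj => hZ.2 j (hj.trans hab)⟩
  obtain ⟨n, hn⟩ := hMacc f hfst hfle hfmono
  have h1 : (Pi.single ((n + 1 : ℕ) : ℤ) y : ℤ → X) ∈ f n := by
    rw [← hn (n + 1) (Nat.le_succ n)]
    exact hfmem _ _ le_rfl
  let N : Submodule E (ℤ → X) :=
    { carrier := {w | ∀ i : ℤ, w i ∈ Znn P B χ y ∧ ((n : ℤ) < i → w i ∈ Zpos P B χ y)}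
      add_mem' := fun {a b} ha hb i =>
        ⟨Submodule.add_mem _ (ha i).1 (hb i).1, fun hi => Submodule.add_mem _ ((ha i).2 hi) ((hb i).2 hi)⟩
      zero_mem' := fun i => ⟨Submodule.zero_mem _, fun _ => Submodule.zero_mem _⟩
      smul_mem' := fun e a ha i =>
        ⟨Submodule.smul_mem _ _ (ha i).1, fun hi => Submodule.smul_mem _ _ ((ha i).2 hi)⟩ }
  have hfN : f n ≤ N := by
    apply sInf_le
    refine ⟨?_, ?_⟩
    · intro g hg w hw
      obtain ⟨v, rfl⟩ := ((P.shift B).ρ g).surjective w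
      rw [(P.shift B).ρ_mem_act] at hw
      obtain ⟨b, k⟩ := g
      intro i
      rw [P.shift_apply]
      rcases hlcases _ hg with ⟨hb, hk⟩ | ⟨hb, hk⟩
      · simp only at hb hk
        subst hk
        have h3 := hw i
        rw [toAdd_one, sub_zero]
        exact ⟨ρ_Znn P B hχ y b hb h3.1, fun hi => ρ_Zpos P B hχ y b hb (h3.2 hi)⟩
      · simp only at hb hk
        subst hk
        have h3 := ρ_Znn_pos P B hχ y b hb (hw (i - Multiplicative.toAdd (Multiplicative.ofAdd (1 : ℤ)))).1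
        exact ⟨Zpos_le P B χ y h3, fun _ => h3⟩
    · intro j hj i
      by_cases h : i = j
      · subst h
        rw [Pi.single_eq_same]
        refine ⟨self_mem_Znn P B hχ y, fun hi => ?_⟩
        exfalso
        omega
      · rw [Pi.single_eq_of_ne h]
        exact ⟨Submodule.zero_mem _, fun _ => Submodule.zero_mem _⟩
  have h2 := (hfN h1 ((n + 1 : ℕ) : ℤ)).2 (by push_cast; omega)
  rwa [Pi.single_eq_same] at h2

include hχ in
theorem Zpos_add (hB : ∀ a ∈ B, ∀ b ∈ B, a * b = b * a) {x1 x2 : X} (h1 : x1 ∈ Zpos P B χ x1) (h2 : x2 ∈ Zpos P B χ x2) :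
    x1 + x2 ∈ Zpos P B χ (x1 + x2) := by
  classical
  -- coefficients of `x1 = ρ1 x1`
  have hlin : ∃ s : B →₀ E, (∀ b ∈ s.support, 0 < χ b) ∧ (s.sum fun b e => e • P.ρ (b : G) x1) = x1 := by
    have h := h1
    unfold Zpos at h
    rw [Finsupp.mem_span_image_iff_linearCombination] at h
    obtain ⟨s, hs, hsx⟩ := h
    exact ⟨s, fun b hb => hs hb, hsx⟩
  obtain ⟨s, hs, hsx⟩ := hlin
  let ρ1 : X → X := fun z => s.sum fun b e => e • P.ρ (b : G) z
  have hρadd : ∀ z z', ρ1 (z + z') = ρ1 z + ρ1 z' := by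
    intro z z'
    simp only [ρ1, map_add, smul_add]
    exact Finsupp.sum_add
  have hρpos : ∀ z, ρ1 z ∈ Zpos P B χ z := by
    intro z
    refine Submodule.sum_mem _ fun b hb => Submodule.smul_mem _ _ (Submodule.subset_span ⟨b, hs b hb, rfl⟩)
  let y := x2 - ρ1 x2
  have hy : y = (x1 + x2) - ρ1 (x1 + x2) := by
    rw [hρadd]
    have : ρ1 x1 = x1 := hsx
    rw [this]
    simp only [y]
    abel
  have hyx2 : y ∈ Znn P B χ x2 :=
    Submodule.sub_mem _ (self_mem_Znn P B hχ x2) (Zpos_le P B χ x2 (hρpos x2))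
  have hyy := pos_of_Znn P B hχ hB h2 hyx2
  have hyz : y ∈ Znn P B χ (x1 + x2) := by
    rw [hy]
    exact Submodule.sub_mem _ (self_mem_Znn P B hχ _) (Zpos_le P B χ _ (hρpos _))
  have hyz' : y ∈ Zpos P B χ (x1 + x2) := by
    have hle : Zpos P B χ y ≤ Zpos P B χ (x1 + x2) := by
      show Submodule.span E _ ≤ _
      rw [Submodule.span_le]
      rintro _ ⟨b, hb, rfl⟩
      exact ρ_Znn_pos P B hχ _ b hb hyz
    exact hle hyy
  have : x1 + x2 = y + ρ1 (x1 + x2) := by
    rw [hy]; abel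
  have h3 := Submodule.add_mem _ hyz' (hρpos (x1 + x2))
  rwa [← this] at h3

include hχ in
/-- **Lemma AR** -/
theorem exists_GX' (hB : ∀ a ∈ B, ∀ b ∈ B, a * b = b * a) :
    ∃ S : Submodule E X, P.BStable B S ∧ ∀ x, x ∈ S ↔
      x ∈ Submodule.span E {z : X | ∃ b : B, 0 < χ b ∧ z = P.ρ (b : G) x} := by
  have hset : ∀ x, Submodule.span E {z : X | ∃ b : B, 0 < χ b ∧ z = P.ρ (b : G) x} = Zpos P B χ x := by
    intro x
    unfold Zpos
    congr 1
    ext z
    constructor
    · rintro ⟨b, hb, rfl⟩; exact ⟨b, hb, rfl⟩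
    · rintro ⟨b, hb, rfl⟩; exact ⟨b, hb, rfl⟩
  let S : Submodule E X :=
    { carrier := {x | x ∈ Zpos P B χ x}
      add_mem' := by
        intro a b ha hb
        have ha' : a ∈ Zpos P B χ a := ha
        have hb' : b ∈ Zpos P B χ b := hb
        show a + b ∈ Zpos P B χ (a + b)
        exact Zpos_add P B hχ hB ha' hb'
      zero_mem' := by
        show (0 : X) ∈ Zpos P B χ 0
        exact Submodule.zero_mem _
      smul_mem' := by
        intro e x hx
        have hx' : x ∈ Zpos P B χ x := hx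
        show e • x ∈ Zpos P B χ (e • x)
        exact pos_of_Znn P B hχ hB hx' (Submodule.smul_mem _ e (self_mem_Znn P B hχ x)) }
  have hS : ∀ x, x ∈ S ↔ x ∈ Zpos P B χ x := fun x => Iff.rfl
  refine ⟨S, ?_, fun x => by rw [hset, hS]⟩
  intro b hb x hx
  have hx' : x ∈ Zpos P B χ x := hx
  rw [hS]
  refine ρ_mem_of_span P b _ _ ?_ hx'
  rintro _ ⟨b', hb', rfl⟩
  obtain ⟨c1, hc1⟩ := P.mul b (b' : G)
  obtain ⟨c2, hc2⟩ := P.mul (b' : G) b
  have h3 : P.ρ b (P.ρ (b' : G) x) = ((c1 * c2⁻¹ : Eˣ) : E) • P.ρ (b' : G) (P.ρ b x) := by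
    rw [hc1, hc2, hB b hb b' b'.2, smul_smul, Units.val_mul, mul_assoc, Units.inv_mul, mul_one]
  show P.ρ b (P.ρ (b' : G) x) ∈ _
  rw [h3]
  exact Submodule.smul_mem _ _ (Submodule.subset_span ⟨b', hb', rfl⟩)

end GX

end C3da71
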