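import Pool.Agent.Lib.MP_c3da71_al.Defs
import Pool.Agent.Lib.MP_c3da71_al.Hall
import Pool.Agent.Lib.MP_c3da71_al.ARb
import Pool.Agent.Lib.MP_c3da71_al.GX

/-! # Case I: the submodules `G_χ` -/

set_option autoImplicit false

namespace C3da71

variable {G : Type} [Group G] {E : Type} [DivisionRing E] {X : Type} [AddCommGroup X] [Module E X]

/-- `x ∈ R_{> 0} x`, `R_{> 0}` spanned by the `b ∈ B` with `χ b > 0` -/
def PAct.InG (P : PAct G E X) (B : Subgroup G) (χ : B → ℝ) (x : X) : Prop :=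
  x ∈ Submodule.span E {z : X | ∃ b : B, 0 < χ b ∧ z = P.ρ (b : G) x}

/-- **Lemma AR** (helper87). `G_χ = {x | x ∈ R_{> 0} x}` is a `B`-stable subspace.

Proof. Units: clear. Let `x ∈ G_χ`, `x = ρ x`, `ρ ∈ R_{> 0}`, and `c ∈ R_B`; multiplying by a `b0` one may assume `χ ≥ 0` on `supp c`. In
`X[t] = ℕ →₀ X` (or `ℕ → X`) let `M` be the `E`-subspace generated from `x t^0` by the operators `b` (`b ∈ supp c`) and `s t` (`s ∈ supp ρ`), finitely many operators commuting up to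
`E^×`: it satisfies the maximal condition on `E`-subspaces stable under these operators (`HB` repeatedly, in the lattice of subspaces). `x t^j ∈ M` since `x = ρ x`; so
`c x t^j ∈ M`, and for some `j`: `c x t^{j+1} = ∑_{i ≤ j} r_i (c x t^i)`; the coefficient of `t^{j+1}` gives `c x ∈ R_{> 0} c x`.
Sums: if `x1 = ρ1 x1` then `(1 - ρ1)(x1 + x2) = (1 - ρ1) x2 =: y ∈ G_χ`, `(1 - ρ) y = 0`, so `(1 - ρ)(1 - ρ1) (x1 + x2) = 0`. -/
theorem exists_GX (P : PAct G E X) (B : Subgroup G) (hB : ∀ a ∈ B, ∀ b ∈ B, a * b = b * a) (χ : B → ℝ)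
    (hχ : ∀ a b, χ (a * b) = χ a + χ b) :
    ∃ S : Submodule E X, P.BStable B S ∧ ∀ x, x ∈ S ↔ P.InG B χ x :=
  exists_GX' P B hχ hB

/-- transport of `G_χ` by `g ∈ G` -/
theorem PAct.InG.act {P : PAct G E X} {B : Subgroup G} (hB : B.Normal) {χ : B → ℝ} {x : X} (h : P.InG B χ x) (g : G) (χ' : B → ℝ)
    (hχ' : ∀ b c : B, (c : G) = g * b * g⁻¹ → χ' c = χ b) : P.InG B χ' (P.ρ g x) :=
  inG_act' P hB h g χ' hχ'

/-- **Compactness.** If `x ∈ G_χ` for all `χ ≠ 0` then `x` lies in a finite dimensional `B`-stable subspace.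

Proof. For every `χ ≠ 0` there is a finite `S_χ ⊆ B` with `x ∈ span {ρ(s) x, s ∈ S_χ}`, `χ > 0` on `S_χ`; the same `S_χ` works in a neighbourhood; by
compactness of the unit sphere of `Hom(ℤ^r, ℝ)` there are a finite set `S` and `ε > 0` such that for every unit `χ` one may use a subset of `S` on which `χ ≥ ε`. For `b ∈ ℤ^r` with
`|b|` large take `χ = - ⟨b, ·⟩ / |b|`: `|b + s|² = |b|² + 2 ⟨b, s⟩ + |s|² < |b|²`, so `ρ(b) x` is a combination of `ρ(b') x`, `|b'| < |b|`.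
So `span {ρ(b) x : |b| ≤ N}` is `B`-stable for a suitable `N`. -/
theorem exists_fd_of_forall_InG (P : PAct G E X) (B : Subgroup G) (r : ℕ) (hB : Nonempty (B ≃* Multiplicative (Fin r → ℤ)))
    (x : X) (hx : ∀ χ : B → ℝ, (∀ a b, χ (a * b) = χ a + χ b) → (∃ b, χ b ≠ 0) → P.InG B χ x) :
    ∃ V : Submodule E X, V.FG ∧ P.BStable B V ∧ x ∈ V :=
  exists_fd_of_forall' P B r hB x hx

/-- a torsion element lies in `G_χ` for generic `χ`: from a relation `∑ s(b) ρ(b) x = 0` with finite support; if `χ` separates the support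
then, the lowest term being unique, `x ∈ R_{> 0} x`. (If the support is `{b}` then `x = 0`.) -/
theorem exists_finset_InG (P : PAct G E X) (B : Subgroup G) (x : X) (hx : ¬ LinearIndependent E (fun b : B => P.ρ (b : G) x)) :
    ∃ T : Finset B, (∀ t ∈ T, t ≠ 1) ∧ ∀ χ : B → ℝ, (∀ a b, χ (a * b) = χ a + χ b) → (∀ t ∈ T, χ t ≠ 0) → P.InG B χ x :=
  exists_finset_inG' P B x hx

end C3da71
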