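import Pool.Agent.Lib.MP_c3da71_al.Defs

/-! # Case I: the compactness argument -/

set_option autoImplicit false

namespace C3da71

theorem finset_exists_pos_lt {ι : Type*} (S : Finset ι) (f : ι → ℝ) (h : ∀ s ∈ S, 0 < f s) :
    ∃ δ : ℝ, 0 < δ ∧ ∀ s ∈ S, δ < f s := by
  classical
  induction S using Finset.induction_on with
  | empty => exact ⟨1, one_pos, by simp⟩
  | insert a S ha ih =>
    obtain ⟨δ, hδ, hS⟩ := ih (fun s hs => h s (Finset.mem_insert_of_mem hs))
    have h1 := h a (Finset.mem_insert_self a S)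
    refine ⟨min δ (f a / 2), lt_min hδ (by linarith), fun s hs => ?_⟩
    rcases Finset.mem_insert.1 hs with rfl | hs
    · exact lt_of_le_of_lt (min_le_right _ _) (by linarith)
    · exact lt_of_le_of_lt (min_le_left _ _) (hS s hs)

theorem finset_exists_bound {ι : Type*} (S : Finset ι) (f : ι → ℝ) :
    ∃ C : ℝ, 0 ≤ C ∧ ∀ s ∈ S, f s ≤ C := by
  classical
  induction S using Finset.induction_on with
  | empty => exact ⟨0, le_rfl, by simp⟩
  | insert a S ha ih =>
    obtain ⟨C, hC, hS⟩ := ih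
    refine ⟨max C (f a), le_max_of_le_left hC, fun s hs => ?_⟩
    rcases Finset.mem_insert.1 hs with rfl | hs
    · exact le_max_right _ _
    · exact (hS s hs).trans (le_max_left _ _)

/-- the unit sphere is compact -/
theorem isCompact_usphere (r : ℕ) : IsCompact {u : Fin r → ℝ | ∑ i, u i ^ 2 = 1} := by
  apply Metric.isCompact_of_isClosed_isBounded
  · exact isClosed_eq (by fun_prop) continuous_const
  · rw [isBounded_iff_forall_norm_le]
    refine ⟨1, fun u hu => ?_⟩
    rw [pi_norm_le_iff_of_nonneg zero_le_one]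
    intro i
    rw [Real.norm_eq_abs, ← sq_le_one_iff_abs_le_one]
    have hu' : ∑ i, u i ^ 2 = 1 := hu
    rw [← hu']
    exact Finset.single_le_sum (f := fun i => u i ^ 2) (fun j _ => sq_nonneg _) (Finset.mem_univ i)

/-- The descent argument for a family of finite subsets of `ℤ^r`: if for each nonzero real functional `u` there is a
finite set `S` in a family `𝒮` on which `u` is positive, then there is `M` such that each `b ∈ ℤ^r` of square norm
larger than `M` can be shortened by all elements of some `S ∈ 𝒮`. -/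
theorem exists_descent (r : ℕ) (𝒮 : Set (Finset (Fin r → ℤ)))
    (h : ∀ u : Fin r → ℝ, u ≠ 0 → ∃ S ∈ 𝒮, ∀ s ∈ S, 0 < ∑ i, u i * (s i : ℝ)) :
    ∃ M : ℕ, ∀ b : Fin r → ℤ, (M : ℤ) < ∑ i, b i ^ 2 → ∃ S ∈ 𝒮, ∀ s ∈ S,
      ∑ i, (b i + s i) ^ 2 < ∑ i, b i ^ 2 := by
  classical
  let K : Set (Fin r → ℝ) := {u | ∑ i, u i ^ 2 = 1}
  have hK0 : ∀ u ∈ K, u ≠ 0 := by
    rintro u hu rfl
    have : ∑ i : Fin r, ((0 : Fin r → ℝ) i) ^ 2 = 1 := hu
    simp at this
  have h1 : ∀ u : Fin r → ℝ, ∃ S : Finset (Fin r → ℤ), ∃ δ : ℝ, u ∈ K →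
      S ∈ 𝒮 ∧ 0 < δ ∧ ∀ s ∈ S, δ < ∑ i, u i * (s i : ℝ) := by
    intro u
    by_cases hu : u ∈ K
    · obtain ⟨S, hS, hpos⟩ := h u (hK0 u hu)
      obtain ⟨δ, hδ, hlt⟩ := finset_exists_pos_lt S (fun s => ∑ i, u i * (s i : ℝ)) hpos
      exact ⟨S, δ, fun _ => ⟨hS, hδ, hlt⟩⟩
    · exact ⟨∅, 0, fun h => absurd h hu⟩
  choose S δ hSδ using h1
  let U : (Fin r → ℝ) → Set (Fin r → ℝ) := fun u => {w | ∀ s ∈ S u, δ u < ∑ i, w i * (s i : ℝ)}
  have hU : ∀ u ∈ K, U u ∈ nhds u := by
    intro u hu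
    have hopen : IsOpen (U u) := by
      have : U u = ⋂ s ∈ S u, {w | δ u < ∑ i, w i * (s i : ℝ)} := by
        ext w; simp [U]
      rw [this]
      refine isOpen_biInter_finset (fun s _ => ?_)
      exact isOpen_lt continuous_const (by fun_prop)
    exact hopen.mem_nhds (hSδ u hu).2.2
  obtain ⟨t, htK, hcov⟩ := (isCompact_usphere r).elim_nhds_subcover U hU
  obtain ⟨ε, hε, hεδ⟩ := finset_exists_pos_lt t δ (fun u hu => (hSδ u (htK u hu)).2.1)
  obtain ⟨C, hC0, hC⟩ := finset_exists_bound (t.biUnion S) (fun s => ∑ i, (s i : ℝ) ^ 2)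
  obtain ⟨M, hM⟩ := exists_nat_gt ((C / (2 * ε)) ^ 2)
  refine ⟨M, fun b hb => ?_⟩
  set q : ℝ := ∑ i, (b i : ℝ) ^ 2 with hq
  have hqM : (M : ℝ) < q := by
    have : ((M : ℤ) : ℝ) < ((∑ i, b i ^ 2 : ℤ) : ℝ) := by exact_mod_cast hb
    rw [hq]
    push_cast at this
    exact this
  have hq0 : 0 < q := lt_of_le_of_lt (Nat.cast_nonneg M) hqM
  set n := Real.sqrt q with hn
  have hn0 : 0 < n := Real.sqrt_pos.2 hq0
  have hnq : n ^ 2 = q := Real.sq_sqrt hq0.le
  have hnC : C / (2 * ε) < n := by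
    rw [hn]
    apply Real.lt_sqrt_of_sq_lt
    linarith
  let w : Fin r → ℝ := fun i => -(b i : ℝ) / n
  have hw : w ∈ K := by
    change ∑ i, (-(b i : ℝ) / n) ^ 2 = 1
    have : ∀ i, (-(b i : ℝ) / n) ^ 2 = (b i : ℝ) ^ 2 / q := by
      intro i; rw [div_pow, hnq, neg_sq]
    simp_rw [this]
    rw [← Finset.sum_div, ← hq, div_self hq0.ne']
  have hw2 := hcov hw
  simp only [Set.mem_iUnion] at hw2
  obtain ⟨u, hut, hwu⟩ := hw2
  refine ⟨S u, (hSδ u (htK u hut)).1, fun s hs => ?_⟩
  have h2 : ε < ∑ i, w i * (s i : ℝ) := (hεδ u hut).trans (hwu s hs)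
  have h3 : ∑ i, w i * (s i : ℝ) = -(∑ i, (b i : ℝ) * (s i : ℝ)) / n := by
    rw [neg_div, Finset.sum_div, ← Finset.sum_neg_distrib]
    apply Finset.sum_congr rfl
    intro i _
    change -(b i : ℝ) / n * (s i : ℝ) = _
    ring
  rw [h3, lt_div_iff₀ hn0] at h2
  have h4 : ∑ i, (s i : ℝ) ^ 2 ≤ C := hC s (Finset.mem_biUnion.2 ⟨u, hut, hs⟩)
  have h5 : C < 2 * ε * n := by
    rw [div_lt_iff₀ (by positivity)] at hnC
    linarith
  have h6 : ∑ i, ((b i : ℝ) + (s i : ℝ)) ^ 2 < ∑ i, (b i : ℝ) ^ 2 := by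
    have h7 : ∑ i, ((b i : ℝ) + (s i : ℝ)) ^ 2 = ∑ i, (b i : ℝ) ^ 2 +
        2 * ∑ i, (b i : ℝ) * (s i : ℝ) + ∑ i, (s i : ℝ) ^ 2 := by
      rw [Finset.mul_sum, ← Finset.sum_add_distrib, ← Finset.sum_add_distrib]
      apply Finset.sum_congr rfl
      intro i _
      ring
    rw [h7]
    nlinarith
  exact_mod_cast h6

variable {G : Type} [Group G] {E : Type} [DivisionRing E] {X : Type} [AddCommGroup X] [Module E X]

theorem exists_fd_of_forall' (P : PAct G E X) (B : Subgroup G) (r : ℕ) (hB : Nonempty (B ≃* Multiplicative (Fin r → ℤ)))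
    (x : X) (hx : ∀ χ : B → ℝ, (∀ a b, χ (a * b) = χ a + χ b) → (∃ b, χ b ≠ 0) →
      x ∈ Submodule.span E {z : X | ∃ b : B, 0 < χ b ∧ z = P.ρ (b : G) x}) :
    ∃ V : Submodule E X, V.FG ∧ P.BStable B V ∧ x ∈ V := by
  classical
  obtain ⟨e⟩ := hB
  let v : B → Fin r → ℤ := fun b => Multiplicative.toAdd (e b)
  have hv : ∀ a b, v (a * b) = v a + v b := fun a b => by
    change Multiplicative.toAdd (e (a * b)) = _
    rw [map_mul]; rfl
  let vi : (Fin r → ℤ) → B := fun z => e.symm (Multiplicative.ofAdd z)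
  have hvi : ∀ z, v (vi z) = z := fun z => by
    change Multiplicative.toAdd (e (e.symm _)) = z
    rw [MulEquiv.apply_symm_apply]; rfl
  have hiv : ∀ b, vi (v b) = b := fun b => by
    change e.symm (Multiplicative.ofAdd (Multiplicative.toAdd (e b))) = b
    rw [ofAdd_toAdd, MulEquiv.symm_apply_apply]
  -- the family
  let 𝒮 : Set (Finset (Fin r → ℤ)) :=
    {S | x ∈ Submodule.span E ((S.image (fun z => P.ρ (vi z : G) x) : Finset X) : Set X)}
  obtain ⟨M, hM⟩ := exists_descent r 𝒮 (by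
    intro u hu
    have h1 := hx (fun b => ∑ i, u i * (v b i : ℝ)) (by
      intro a b
      rw [← Finset.sum_add_distrib]
      apply Finset.sum_congr rfl
      intro i _
      rw [hv]
      simp only [Pi.add_apply, Int.cast_add]
      ring) (by
      by_contra hcon
      push Not at hcon
      apply hu
      funext i
      have h2 := hcon (vi (Pi.single i 1))
      rw [hvi] at h2
      simpa [Pi.single_apply] using h2)
    obtain ⟨T, hT, hxT⟩ := Submodule.mem_span_finite_of_mem_span h1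
    have hT' : ∀ z ∈ T, ∃ b : B, 0 < ∑ i, u i * (v b i : ℝ) ∧ z = P.ρ (b : G) x :=
      fun z hz => hT hz
    choose! f hf1 hf2 using hT'
    refine ⟨T.image (fun z => v (f z)), ?_, ?_⟩
    · change x ∈ Submodule.span E _
      refine Submodule.span_mono ?_ hxT
      intro z hz
      rw [Finset.coe_image, Finset.coe_image]
      refine ⟨v (f z), ⟨z, hz, rfl⟩, ?_⟩
      simp only [hiv]
      exact (hf2 z hz).symm
    · intro s hs
      obtain ⟨z, hz, rfl⟩ := Finset.mem_image.1 hs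
      exact hf1 z hz)
  -- the finite dimensional subspace
  let F : Set (Fin r → ℤ) := {z | ∑ i, z i ^ 2 ≤ (M : ℤ)}
  have hF : F.Finite := by
    refine (Set.finite_Icc (fun _ : Fin r => -(M : ℤ)) (fun _ => (M : ℤ))).subset ?_
    intro z hz
    have h1 : ∀ i, z i ^ 2 ≤ (M : ℤ) := fun i =>
      (Finset.single_le_sum (f := fun i => z i ^ 2) (fun j _ => sq_nonneg _)
        (Finset.mem_univ i)).trans hz
    constructor
    · intro i
      have := h1 i
      change -(M : ℤ) ≤ z i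
      nlinarith [sq_nonneg (z i), Int.natCast_nonneg M]
    · intro i
      have := h1 i
      change z i ≤ (M : ℤ)
      nlinarith [sq_nonneg (z i), Int.natCast_nonneg M]
  let V : Submodule E X := Submodule.span E ((fun z => P.ρ (vi z : G) x) '' F)
  have hall : ∀ (n : ℕ) (z : Fin r → ℤ), (∑ i, z i ^ 2).toNat = n → P.ρ (vi z : G) x ∈ V := by
    intro n
    induction n using Nat.strong_induction_on with
    | _ n ih =>
      intro z hz
      by_cases hzF : ∑ i, z i ^ 2 ≤ (M : ℤ)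
      · exact Submodule.subset_span ⟨z, hzF, rfl⟩
      · push Not at hzF
        obtain ⟨S, hS, hlt⟩ := hM z hzF
        have h1 : x ∈ P.act (vi z : G)⁻¹ V := by
          have h2 : Submodule.span E ((S.image (fun z => P.ρ (vi z : G) x) : Finset X) : Set X) ≤
              P.act (vi z : G)⁻¹ V := by
            rw [Submodule.span_le]
            intro y hy
            rw [Finset.coe_image] at hy
            obtain ⟨s, hs, rfl⟩ := hy
            have h3 : P.ρ (vi (z + s) : G) x ∈ V := by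
              have h4 := hlt s hs
              have h5 : 0 ≤ ∑ i, (z + s) i ^ 2 := Finset.sum_nonneg (fun i _ => sq_nonneg _)
              refine ih _ ?_ (z + s) rfl
              rw [← hz]
              have h6 : ∑ i, (z + s) i ^ 2 < ∑ i, z i ^ 2 := h4
              omega
            have h7 : vi (z + s) = vi z * vi s := by
              change e.symm _ = e.symm _ * e.symm _
              rw [← map_mul]; rfl
            rw [SetLike.mem_coe, P.mem_act]
            obtain ⟨c, hc⟩ := P.mul ((vi z : G)⁻¹) ((vi (z + s) : B) : G)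
            have h8 : (vi z : G)⁻¹ * ((vi (z + s) : B) : G) = (vi s : G) := by
              rw [h7, Subgroup.coe_mul, inv_mul_cancel_left]
            have h9 : (P.ρ (vi z : G)⁻¹).symm (P.ρ (vi s : G) x) =
                (P.σ (vi z : G)⁻¹).symm ((c⁻¹ : Eˣ) : E) • P.ρ (vi (z + s) : G) x := by
              rw [AddEquiv.symm_apply_eq, P.semi, RingEquiv.apply_symm_apply, hc, smul_smul,
                Units.inv_mul, one_smul, h8]
            rw [h9]
            exact V.smul_mem _ h3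
          exact h2 hS
        have h2 := (P.ρ_mem_act (vi z : G) _ _).2 h1
        rw [P.act_mul, mul_inv_cancel, P.act_one] at h2
        exact h2
  have hall' : ∀ b : B, P.ρ (b : G) x ∈ V := by
    intro b
    have := hall _ (v b) rfl
    rwa [hiv] at this
  refine ⟨V, ?_, ?_, ?_⟩
  · rw [Submodule.fg_def]
    exact ⟨_, hF.image _, rfl⟩
  · intro b hb y hy
    have h1 : V ≤ P.act b⁻¹ V := by
      rw [Submodule.span_le]
      rintro _ ⟨z, _, rfl⟩
      rw [SetLike.mem_coe, P.mem_act]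
      have h3 : P.ρ (b * vi z) x ∈ V := hall' (⟨b, hb⟩ * vi z)
      obtain ⟨c, hc⟩ := P.mul b⁻¹ (b * vi z)
      have h9 : (P.ρ b⁻¹).symm (P.ρ (vi z : G) x) =
          (P.σ b⁻¹).symm ((c⁻¹ : Eˣ) : E) • P.ρ (b * vi z) x := by
        rw [AddEquiv.symm_apply_eq, P.semi, RingEquiv.apply_symm_apply, hc, smul_smul,
          Units.inv_mul, one_smul, inv_mul_cancel_left]
      simp only at h9 ⊢
      rw [h9]
      exact V.smul_mem _ h3
    have h2 := P.act_mono b h1
    rw [P.act_mul, mul_inv_cancel, P.act_one] at h2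
    exact h2 ((P.ρ_mem_act b V y).2 hy)
  · have h1 := hall' 1
    obtain ⟨c, hc⟩ := P.one_smul
    have h2 : P.ρ ((1 : B) : G) x = (c : E) • x := hc x
    rw [h2] at h1
    have h3 := V.smul_mem ((c⁻¹ : Eˣ) : E) h1
    rwa [smul_smul, Units.inv_mul, one_smul] at h3

end C3da71
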