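import Pool.Agent.Lib.MP_c3da71_al.TStar

/-!
# MP_c3da71_al: case T
-/

set_option autoImplicit false

namespace C3da71

variable {D K B V : Type*} [DivisionRing D] [DivisionRing K] [AddCommGroup B]
  [AddCommGroup V] [Module K V] [Module D V] {F : FracData D K B} {h : V ≃+ V}

namespace TAct

variable (t : TAct F h) (hD : ∀ (d : D) (x : V), d • x = F.i d • x)
variable {χ : B →+ ℝ} {v : K → ℝ} {w : V → ℝ}
include hD

omit hD in
lemma exists_minimal_stable (W : Submodule D V) [FiniteDimensional D W] (hW : Stable h W)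
    (hne : W ≠ ⊥) : ∃ S : Submodule D V, Stable h S ∧ S ≤ W ∧ S ≠ ⊥ ∧
      ∀ S' : Submodule D V, Stable h S' → S' ≤ S → S' ≠ ⊥ → S' = S := by
  classical
  have hex : ∃ n, ∃ S : Submodule D V, Stable h S ∧ S ≤ W ∧ S ≠ ⊥ ∧ Module.finrank D S = n :=
    ⟨_, W, hW, le_rfl, hne, rfl⟩
  obtain ⟨S, h1, h2, h3, h4⟩ := Nat.find_spec hex
  refine ⟨S, h1, h2, h3, ?_⟩
  intro S' h1' h2' h3'
  have : FiniteDimensional D S := Submodule.finiteDimensional_of_le h2
  apply Submodule.eq_of_le_of_finrank_le h2'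
  rw [h4]
  exact Nat.find_min' hex ⟨S', h1', h2'.trans h2, h3', rfl⟩

/-- **(1)** a minimal stable subspace is `R`-free. -/
theorem free_of_minimal (hχ : Function.Injective χ) (hv : F.IsVal χ v) (hw : IsVVal v w)
    (hfix : ∀ b n, 0 < n → t.β^[n] b = b → t.β b = b) (S : Submodule D V)
    [FiniteDimensional D S] (hS : Stable h S)
    (hmin : ∀ S' : Submodule D V, Stable h S' → S' ≤ S → S' ≠ ⊥ → S' = S)
    (f : B →₀ V) (hf : ∀ b, f b ∈ S) (h0 : (f.sum fun b x => F.u b • x) = 0) : f = 0 := by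
  classical
  by_contra hne
  obtain ⟨b0, hb0⟩ := Finsupp.support_nonempty_iff.2 hne
  -- restrict to the coset of `b0`
  have hind := t.star hD hχ hv hw hfix S hS
  rw [iSupIndep_iff_finsetSum_eq_zero_imp_eq_zero] at hind
  set q : B → B ⧸ t.A := fun b => QuotientAddGroup.mk b with hq
  have hcos : ∑ b ∈ f.support.filter (fun b => q b = q b0), F.u b • f b = 0 := by
    refine hind (f.support.image q) (fun c => ∑ b ∈ f.support.filter (fun b => q b = c),
      F.u b • f b) ?_ ?_ (q b0) (Finset.mem_image_of_mem q hb0)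
    · intro c _
      refine Submodule.sum_mem _ fun b hb => F.mem_Rsp_of ?_ (hf b)
      exact (Finset.mem_filter.1 hb).2
    · rw [← h0]
      unfold Finsupp.sum
      exact Finset.sum_fiberwise_of_maps_to (fun b hb => Finset.mem_image_of_mem q hb) _
  set T := f.support.filter (fun b => q b = q b0) with hT
  have hTne : T.Nonempty := ⟨b0, by simp [hT, Finsupp.mem_support_iff.1 hb0]⟩
  obtain ⟨a, ha, hamin⟩ := T.exists_min_image χ hTne
  have haf : f a ≠ 0 := Finsupp.mem_support_iff.1 (Finset.mem_filter.1 ha).1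
  have hqa : q a = q b0 := (Finset.mem_filter.1 ha).2
  -- the gap
  obtain ⟨δ, hδ, hgap⟩ : ∃ δ : ℝ, 0 < δ ∧ ∀ b ∈ T.erase a, δ ≤ χ (b - a) := by
    by_cases hem : (T.erase a).Nonempty
    · obtain ⟨c, hc, hcmin⟩ := (T.erase a).exists_min_image (fun b => χ (b - a)) hem
      refine ⟨χ (c - a), ?_, hcmin⟩
      have h1 := hamin c (Finset.mem_of_mem_erase hc)
      have h2 : χ a ≠ χ c := fun h => (Finset.ne_of_mem_erase hc) (hχ h).symm
      rw [map_sub]
      have := lt_of_le_of_ne h1 h2
      linarith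
    · refine ⟨1, one_pos, ?_⟩
      rw [Finset.not_nonempty_iff_eq_empty.1 hem]
      intro b hb
      simp at hb
  -- `f a ∈ Rsp (A_{≥ δ}) S`
  set P : B → Prop := fun b => t.β b = b ∧ δ ≤ χ b with hP
  have hfa : f a ∈ F.Rsp P S := by
    have h1 : F.u a • f a = - ∑ b ∈ T.erase a, F.u b • f b := by
      rw [eq_neg_iff_add_eq_zero, Finset.add_sum_erase T (fun b => F.u b • f b) ha]
      exact hcos
    obtain ⟨d, hd, hinv⟩ := F.u_inv a
    have h2 : f a = (F.u a)⁻¹ • (F.u a • f a) := (inv_smul_smul₀ (F.u_ne a) _).symm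
    rw [h2, h1, smul_neg, Finset.smul_sum]
    apply Submodule.neg_mem
    refine Submodule.sum_mem _ fun b hb => ?_
    rw [hinv, mul_smul, ← hD]
    apply Submodule.smul_mem
    obtain ⟨e, he, hmul⟩ := F.u_mul (-a) b
    rw [← mul_smul, hmul, mul_smul, ← hD]
    apply Submodule.smul_mem
    refine F.mem_Rsp_of ⟨?_, ?_⟩ (hf b)
    · have h3 : q a = q b := by
        rw [hqa, (Finset.mem_filter.1 (Finset.mem_of_mem_erase hb)).2]
      rw [hq] at h3
      exact (QuotientAddGroup.eq.1 h3 : -a + b ∈ t.A)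
    · have := hgap b hb
      rwa [sub_eq_neg_add] at this
  -- stability and minimality
  have hPs : Stable h (F.Rsp P S) := by
    apply t.stable_Rsp hD _ hS
    intro b
    simp only [hP]
    constructor
    · rintro ⟨h1, h2⟩
      have h3 := t.β.injective h1
      rw [h3] at h2
      exact ⟨h3, h2⟩
    · rintro ⟨h1, h2⟩
      rw [h1]; exact ⟨h1, h2⟩
  have hSP : S ≤ F.Rsp P S := by
    have := hmin (S ⊓ F.Rsp P S) (hS.inf hPs) inf_le_left (by
      intro hbot
      have : f a ∈ S ⊓ F.Rsp P S := ⟨hf a, hfa⟩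
      rw [hbot, Submodule.mem_bot] at this
      exact haf this)
    calc S = S ⊓ F.Rsp P S := this.symm
      _ ≤ F.Rsp P S := inf_le_right
  -- valuation contradiction
  have hfin := IsVVal.finite_values hD hv hw S
  obtain ⟨r, ⟨x, hxS, hx0, hxr⟩, hrmin⟩ := Set.exists_min_image _ id hfin
    ⟨w (f a), f a, hf a, haf, rfl⟩
  have key : ∀ y ∈ F.Rsp P S, y ≠ 0 → r + δ ≤ w y := by
    intro y hy
    refine Submodule.span_induction (p := fun y _ => y ≠ 0 → r + δ ≤ w y) ?_ ?_ ?_ ?_ hy
    · rintro y ⟨b, hb, s, hs, rfl⟩ hy0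
      have hs0 : s ≠ 0 := right_ne_zero_of_smul hy0
      rw [hw.smul _ _ (F.u_ne b) hs0, hv.u]
      have h1 := hrmin (w s) ⟨s, hs, hs0, rfl⟩
      simp only [id] at h1
      have h2 := hb.2
      linarith
    · intro h; exact absurd rfl h
    · intro y z _ _ hy hz hyz
      by_cases hy0 : y = 0
      · rw [hy0, zero_add] at hyz ⊢; exact hz hyz
      by_cases hz0 : z = 0
      · rw [hz0, add_zero] at hyz ⊢; exact hy hyz
      exact le_trans (le_min (hy hy0) (hz hz0)) (hw.add _ _ hy0 hz0 hyz)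
    · intro d y _ hy hdy
      have hd0 : d ≠ 0 := left_ne_zero_of_smul hdy
      have hy0 : y ≠ 0 := right_ne_zero_of_smul hdy
      rw [hD, hw.smul _ _ ((map_ne_zero F.i).2 hd0) hy0, hv.scal hd0, zero_add]
      exact hy hy0
  have := key x (hSP hxS) hx0
  rw [hxr] at this
  linarith

omit hD [Module K V] [Module D V] [AddCommGroup V] in
lemma _root_.C3da71.FracData.common_denom (F : FracData D K B) {ι : Type*} (s : Finset ι)
    (g : ι → K) : ∃ p : K, p ∈ F.R (fun _ => True) ∧ p ≠ 0 ∧
      ∀ i ∈ s, p * g i ∈ F.R (fun _ => True) := by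
  classical
  induction s using Finset.induction_on with
  | empty =>
    obtain ⟨d, hd, h0⟩ := F.u_zero
    refine ⟨F.u 0, ?_, F.u_ne 0, by simp⟩
    simpa using F.single_mem_R (P := fun _ => True) (b := 0) trivial 1
  | insert a s _ ih =>
    obtain ⟨p, hp, hp0, hps⟩ := ih
    obtain ⟨p', q', hp'0, he⟩ := F.frac (p * g a)
    have hp' : F.ev p' ∈ F.R (fun _ => True) := ⟨p', by simp, rfl⟩
    refine ⟨F.ev p' * p, F.mul_mem_R (fun _ _ _ _ => trivial) hp' hp,
      mul_ne_zero (fun h => hp'0 (F.ev_inj h)) hp0, ?_⟩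
    intro i hi
    rw [mul_assoc]
    rcases Finset.mem_insert.1 hi with rfl | hi
    · exact ⟨q', by simp, he.symm⟩
    · exact F.mul_mem_R (fun _ _ _ _ => trivial) hp' (hps i hi)

/-- a `D`-independent family in an `R`-free subspace is `K`-independent. -/
theorem linInd (S : Submodule D V)
    (hfree : ∀ f : B →₀ V, (∀ b, f b ∈ S) → (f.sum fun b x => F.u b • x) = 0 → f = 0)
    {ι : Type*} (x : ι → V) (hx : LinearIndependent D x) (hxS : ∀ i, x i ∈ S) :
    LinearIndependent K x := by
  classical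
  rw [linearIndependent_iff']
  intro s g hg i hi
  obtain ⟨p, -, hp0, hps⟩ := F.common_denom s g
  have hc : ∀ (b : B) (d : D), ∃ d' : D, F.i d * F.u b = F.u b * F.i d' := F.u_comm'
  choose c hc using hc
  have hq : ∀ i ∈ s, ∃ q : B →₀ D, F.ev q = p * g i := by
    intro i hi
    obtain ⟨q, -, h⟩ := hps i hi
    exact ⟨q, h⟩
  choose! q hq using hq
  have hzero : ∀ b, c b 0 = 0 := by
    intro b
    have := hc b 0
    rw [map_zero, zero_mul] at this
    rcases mul_eq_zero.1 this.symm with h | h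
    · exact absurd h (F.u_ne b)
    · exact (map_eq_zero F.i).1 h
  set f : B →₀ V := Finsupp.onFinset (s.biUnion fun i => (q i).support)
    (fun b => ∑ i ∈ s, c b (q i b) • x i) (by
      intro b hb
      by_contra hnot
      apply hb
      apply Finset.sum_eq_zero
      intro i hi
      have : q i b = 0 := by
        by_contra h
        exact hnot (Finset.mem_biUnion.2 ⟨i, hi, by simpa using h⟩)
      rw [this, hzero, zero_smul]) with hf
  have hf0 : f = 0 := by
    apply hfree f
    · intro b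
      simp only [hf, Finsupp.onFinset_apply]
      exact Submodule.sum_mem _ fun i _ => S.smul_mem _ (hxS i)
    · rw [hf, Finsupp.onFinset_sum (hf := _) (hg := by intro b; simp)]
      have h1 : ∀ b ∈ s.biUnion (fun i => (q i).support),
          F.u b • ∑ i ∈ s, c b (q i b) • x i = ∑ i ∈ s, (F.i (q i b) * F.u b) • x i := by
        intro b _
        rw [Finset.smul_sum]
        apply Finset.sum_congr rfl
        intro i _
        rw [hD, ← mul_smul, hc]
      rw [Finset.sum_congr rfl h1, Finset.sum_comm]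
      have h2 : ∀ i ∈ s, ∑ b ∈ s.biUnion (fun i => (q i).support), (F.i (q i b) * F.u b) • x i =
          p • (g i • x i) := by
        intro i hi
        rw [← Finset.sum_smul, ← mul_smul, ← hq i hi]
        congr 1
        unfold FracData.ev Finsupp.sum
        symm
        apply Finset.sum_subset
        · intro b hb
          exact Finset.mem_biUnion.2 ⟨i, hi, hb⟩
        · intro b _ hb
          have : q i b = 0 := by simpa using hb
          simp only [this, map_zero, zero_mul]
      rw [Finset.sum_congr rfl h2, ← Finset.smul_sum, hg, smul_zero]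
  have h3 : q i = 0 := by
    ext b
    have h4 := DFunLike.congr_fun hf0 b
    simp only [hf, Finsupp.onFinset_apply, Finsupp.coe_zero, Pi.zero_apply] at h4
    have h5 := (linearIndependent_iff'.1 hx) s (fun i => c b (q i b)) h4 i hi
    have h6 := hc b (q i b)
    rw [h5, map_zero, mul_zero] at h6
    rcases mul_eq_zero.1 h6 with h | h
    · simpa using h
    · exact absurd h (F.u_ne b)
  have h7 := hq i hi
  rw [h3, FracData.ev_zero] at h7
  rcases mul_eq_zero.1 h7.symm with h | h
  · exact absurd h hp0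
  · exact h

/-- common denominators in the `K`-span. -/
theorem exists_denom (S : Submodule D V) {y : V} (hy : y ∈ Submodule.span K (S : Set V)) :
    ∃ p : K, p ∈ F.R (fun _ => True) ∧ p ≠ 0 ∧ p • y ∈ F.Rsp (fun _ => True) S := by
  classical
  have hone : F.u 0 ∈ F.R (fun _ => True) := by
    simpa using F.single_mem_R (P := fun _ => True) (b := 0) trivial 1
  refine Submodule.span_induction (p := fun y _ => ∃ p : K, p ∈ F.R (fun _ => True) ∧ p ≠ 0 ∧
    p • y ∈ F.Rsp (fun _ => True) S) ?_ ?_ ?_ ?_ hy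
  · intro x hx
    exact ⟨F.u 0, hone, F.u_ne 0, F.mem_Rsp_of trivial hx⟩
  · exact ⟨F.u 0, hone, F.u_ne 0, by rw [smul_zero]; exact zero_mem _⟩
  · rintro x y - - ⟨p, hp, hp0, hpx⟩ ⟨q, hq, hq0, hqy⟩
    obtain ⟨a, c, ha0, haR, hcR, hac⟩ := F.ore (s := p) hq0
    refine ⟨a * p, F.mul_mem_R (fun _ _ _ _ => trivial) haR hp, mul_ne_zero ha0 hp0, ?_⟩
    rw [smul_add]
    apply add_mem
    · rw [mul_smul]
      exact FracData.R_smul_Rsp hD (fun _ _ _ _ => trivial) haR hpx
    · rw [hac, mul_smul]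
      exact FracData.R_smul_Rsp hD (fun _ _ _ _ => trivial) hcR hqy
  · rintro k x - ⟨p, hp, hp0, hpx⟩
    by_cases hk : k = 0
    · exact ⟨F.u 0, hone, F.u_ne 0, by rw [hk, zero_smul, smul_zero]; exact zero_mem _⟩
    obtain ⟨a, c, ha0, haR, hcR, hac⟩ := F.ore (s := k) hp0
    refine ⟨a, haR, ha0, ?_⟩
    rw [← mul_smul, hac, mul_smul]
    exact FracData.R_smul_Rsp hD (fun _ _ _ _ => trivial) hcR hpx

end TAct

end C3da71
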