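import Pool.Agent.Lib.MP_c3da71_al.CaseT

/-!
# MP_c3da71_al: case T, the subdirect decomposition
-/

set_option autoImplicit false

namespace C3da71

variable {D K B V : Type*} [DivisionRing D] [DivisionRing K] [AddCommGroup B]
  [AddCommGroup V] [Module K V] [Module D V] {F : FracData D K B} {h : V ≃+ V}

namespace TAct

variable (t : TAct F h) (hD : ∀ (d : D) (x : V), d • x = F.i d • x)
variable {χ : B →+ ℝ} {v : K → ℝ} {w : V → ℝ}
include hD

/-- **(2a)** for one element. -/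
theorem split_one (hχ : Function.Injective χ) (hv : F.IsVal χ v) (hw : IsVVal v w)
    (hfix : ∀ b n, 0 < n → t.β^[n] b = b → t.β b = b) (S W : Submodule D V)
    [FiniteDimensional D W] (hW : Stable h W) (hSW : S ≤ W) {y : V} (hyW : y ∈ W)
    (hy : y ∈ Submodule.span K (S : Set V)) :
    ∃ δ : ℝ, 0 < δ ∧ y ∈ F.Rsp (fun b => t.β b = b) S ⊔
      F.Rsp (fun b => t.β b = b ∧ δ ≤ χ b) W := by
  classical
  obtain ⟨p, ⟨f, -, rfl⟩, hp0, hpy⟩ := exists_denom hD S hy
  have hf0 : f ≠ 0 := by rintro rfl; simp at hp0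
  obtain ⟨b0, hb0⟩ := Finsupp.support_nonempty_iff.2 hf0
  set q : B → B ⧸ t.A := fun b => QuotientAddGroup.mk b with hq
  have hqA : ∀ {a b : B}, q a = q b → t.β (-a + b) = -a + b := fun {a b} hab =>
    (QuotientAddGroup.eq.1 hab : -a + b ∈ t.A)
  -- decomposition of `f`
  set f1 := f.filter (fun b => q b = q b0) with hf1
  set f2 := f.filter (fun b => ¬ q b = q b0) with hf2
  have hsum : F.ev f1 + F.ev f2 = F.ev f := by
    rw [← F.ev_add, hf1, hf2, Finsupp.filter_add_filter_not]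
  have h1 : F.ev f1 • y ∈ F.Rsp (fun b => q b = q b0) W := by
    refine FracData.R_smul_mem hD ⟨f1, ?_, rfl⟩ hyW
    intro b hb
    rw [hf1, Finsupp.support_filter, Finset.mem_filter] at hb
    exact hb.2
  have h2 : F.ev f2 • y ∈ F.Rsp (fun b => ¬ q b = q b0) W := by
    refine FracData.R_smul_mem hD ⟨f2, ?_, rfl⟩ hyW
    intro b hb
    rw [hf2, Finsupp.support_filter, Finset.mem_filter] at hb
    exact hb.2
  obtain ⟨m1, hm1, m2, hm2, hm⟩ : ∃ m1 ∈ F.Rsp (fun b => q b = q b0) S,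
      ∃ m2 ∈ F.Rsp (fun b => ¬ q b = q b0) S, m1 + m2 = F.ev f • y := by
    have : F.Rsp (fun _ => True) S ≤
        F.Rsp (fun b => q b = q b0) S ⊔ F.Rsp (fun b => ¬ q b = q b0) S := by
      apply FracData.Rsp_le
      intro b _ s hs
      by_cases hb : q b = q b0
      · exact Submodule.mem_sup_left (F.mem_Rsp_of hb hs)
      · exact Submodule.mem_sup_right (F.mem_Rsp_of hb hs)
    obtain ⟨m1, hm1, m2, hm2, hm⟩ := Submodule.mem_sup.1 (this hpy)
    exact ⟨m1, hm1, m2, hm2, hm⟩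
  have hdisj : Disjoint (F.Rsp (fun b => q b = q b0) W) (F.Rsp (fun b => ¬ q b = q b0) W) := by
    have := t.star hD hχ hv hw hfix W hW (q b0)
    refine this.mono_right ?_
    apply FracData.Rsp_le
    intro b hb s hs
    refine Submodule.mem_iSup_of_mem (q b) ?_
    refine Submodule.mem_iSup_of_mem hb ?_
    exact F.mem_Rsp_of (P := fun c => QuotientAddGroup.mk c = q b) rfl hs
  have hkey : F.ev f1 • y = m1 := by
    have e1 : F.ev f1 • y - m1 = m2 - F.ev f2 • y := by
      have : F.ev f1 • y + F.ev f2 • y = m1 + m2 := by rw [← add_smul, hsum, hm]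
      rw [sub_eq_sub_iff_add_eq_add, this]
      abel
    have e2 : F.ev f1 • y - m1 ∈ F.Rsp (fun b => q b = q b0) W :=
      sub_mem h1 (FracData.Rsp_mono F (fun _ h => h) hSW hm1)
    have e3 : F.ev f1 • y - m1 ∈ F.Rsp (fun b => ¬ q b = q b0) W := by
      rw [e1]
      exact sub_mem (FracData.Rsp_mono F (fun _ h => h) hSW hm2) h2
    have := hdisj.le_bot ⟨e2, e3⟩
    rw [Submodule.mem_bot, sub_eq_zero] at this
    exact this
  -- leading term of `f1`
  have hf1ne : f1.support.Nonempty := ⟨b0, by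
    rw [hf1, Finsupp.support_filter, Finset.mem_filter]
    exact ⟨hb0, rfl⟩⟩
  obtain ⟨a, ha, hamin⟩ := f1.support.exists_min_image χ hf1ne
  have hsupp : ∀ b ∈ f1.support, q b = q b0 := by
    intro b hb
    rw [hf1, Finsupp.support_filter, Finset.mem_filter] at hb
    exact hb.2
  obtain ⟨δ, hδ, hgap⟩ : ∃ δ : ℝ, 0 < δ ∧ ∀ b ∈ f1.support.erase a, δ ≤ χ (b - a) := by
    by_cases hem : (f1.support.erase a).Nonempty
    · obtain ⟨c, hc, hcmin⟩ := (f1.support.erase a).exists_min_image (fun b => χ (b - a)) hem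
      refine ⟨χ (c - a), ?_, hcmin⟩
      have h1 := hamin c (Finset.mem_of_mem_erase hc)
      have h2 : χ a ≠ χ c := fun h => (Finset.ne_of_mem_erase hc) (hχ h).symm
      rw [map_sub]
      have := lt_of_le_of_ne h1 h2
      linarith
    · refine ⟨1, one_pos, ?_⟩
      rw [Finset.not_nonempty_iff_eq_empty.1 hem]
      intro b hb
      simp at hb
  refine ⟨δ, hδ, ?_⟩
  set d := f1 a with hd
  have hd0 : d ≠ 0 := Finsupp.mem_support_iff.1 ha
  have hdec : F.ev f1 = F.i d * F.u a + F.ev (f1.erase a) := by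
    rw [← F.ev_single, ← F.ev_add, hd, Finsupp.single_add_erase]
  have hy1 : y = (F.u a)⁻¹ • (F.i d)⁻¹ • m1 - (F.u a)⁻¹ • (F.i d)⁻¹ • (F.ev (f1.erase a) • y) := by
    rw [← hkey, ← smul_sub, ← smul_sub, ← sub_smul, hdec, add_sub_cancel_right, ← mul_smul,
      ← mul_smul, mul_assoc, inv_mul_cancel_left₀ ((map_ne_zero F.i).2 hd0),
      inv_mul_cancel₀ (F.u_ne a), one_smul]
  obtain ⟨e, he, hinv⟩ := F.u_inv a
  rw [hy1, ← map_inv₀, ← hD, ← hD, hinv]
  apply sub_mem
  · apply Submodule.mem_sup_left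
    rw [mul_smul, ← hD]
    apply Submodule.smul_mem
    refine FracData.smul_Rsp hD (-a) ?_ (Submodule.smul_mem _ _ hm1)
    intro b hb
    exact hqA (by rw [hb, hsupp a ha])
  · apply Submodule.mem_sup_right
    rw [mul_smul, ← hD]
    apply Submodule.smul_mem
    have h3 : F.ev (f1.erase a) • y ∈ F.Rsp (fun b => q b = q b0 ∧ δ ≤ χ (b - a)) W := by
      refine FracData.R_smul_mem hD ⟨f1.erase a, ?_, rfl⟩ hyW
      intro b hb
      rw [Finsupp.support_erase] at hb
      exact ⟨hsupp b (Finset.mem_of_mem_erase hb), hgap b hb⟩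
    refine FracData.smul_Rsp hD (-a) ?_ (Submodule.smul_mem _ _ h3)
    rintro b ⟨hb, hb'⟩
    refine ⟨hqA (by rw [hb, hsupp a ha]), ?_⟩
    rwa [neg_add_eq_sub]

/-- **(2a)** uniform version. -/
theorem split_all (hχ : Function.Injective χ) (hv : F.IsVal χ v) (hw : IsVVal v w)
    (hfix : ∀ b n, 0 < n → t.β^[n] b = b → t.β b = b) (S W : Submodule D V)
    [FiniteDimensional D W] (hW : Stable h W) (hSW : S ≤ W)
    (hWS : ∀ y ∈ W, y ∈ Submodule.span K (S : Set V)) :
    ∃ δ : ℝ, 0 < δ ∧ W ≤ F.Rsp (fun b => t.β b = b) S ⊔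
      F.Rsp (fun b => t.β b = b ∧ δ ≤ χ b) W := by
  classical
  obtain ⟨T, hT⟩ := (Submodule.fg_iff_finiteDimensional W).2 inferInstance
  have hex : ∀ y ∈ T, ∃ δ : ℝ, 0 < δ ∧ y ∈ F.Rsp (fun b => t.β b = b) S ⊔
      F.Rsp (fun b => t.β b = b ∧ δ ≤ χ b) W := by
    intro y hy
    have hyW : y ∈ W := hT ▸ Submodule.subset_span hy
    exact t.split_one hD hχ hv hw hfix S W hW hSW hyW (hWS y hyW)
  choose! δ hδ0 hδ using hex
  obtain ⟨ε, hε, hεle⟩ : ∃ ε : ℝ, 0 < ε ∧ ∀ y ∈ T, ε ≤ δ y := by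
    by_cases hem : T.Nonempty
    · obtain ⟨c, hc, hcmin⟩ := T.exists_min_image δ hem
      exact ⟨δ c, hδ0 c hc, hcmin⟩
    · refine ⟨1, one_pos, ?_⟩
      rw [Finset.not_nonempty_iff_eq_empty.1 hem]
      intro b hb
      simp at hb
  refine ⟨ε, hε, ?_⟩
  calc W = Submodule.span D (T : Set V) := hT.symm
    _ ≤ _ := by
      apply Submodule.span_le.2
      intro y hy
      have hle : F.Rsp (fun b => t.β b = b) S ⊔ F.Rsp (fun b => t.β b = b ∧ δ y ≤ χ b) W ≤
          F.Rsp (fun b => t.β b = b) S ⊔ F.Rsp (fun b => t.β b = b ∧ ε ≤ χ b) W := by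
        apply sup_le_sup le_rfl
        apply FracData.Rsp_mono F _ le_rfl
        rintro b ⟨hb, hb'⟩
        exact ⟨hb, (hεle y hy).trans hb'⟩
      exact hle (hδ y hy)

/-- iterating. -/
theorem split_iter (S W : Submodule D V) {δ : ℝ}
    (h1 : W ≤ F.Rsp (fun b => t.β b = b) S ⊔ F.Rsp (fun b => t.β b = b ∧ δ ≤ χ b) W) (N : ℕ) :
    W ≤ F.Rsp (fun b => t.β b = b) S ⊔ F.Rsp (fun b => t.β b = b ∧ N * δ ≤ χ b) W := by
  induction N with
  | zero =>
    intro y hy
    apply Submodule.mem_sup_right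
    obtain ⟨d, hd, h0⟩ := F.u_zero
    have : y = d⁻¹ • F.u 0 • y := by
      rw [hD, h0, ← mul_smul, ← map_mul, inv_mul_cancel₀ hd, map_one, one_smul]
    rw [this]
    apply Submodule.smul_mem
    exact F.mem_Rsp_of (by simp) hy
  | succ N ih =>
    refine ih.trans ?_
    apply sup_le le_sup_left
    have h2 : F.Rsp (fun b => t.β b = b ∧ (N : ℝ) * δ ≤ χ b) W ≤
        F.Rsp (fun b => t.β b = b ∧ (N : ℝ) * δ ≤ χ b)
          (F.Rsp (fun b => t.β b = b) S ⊔ F.Rsp (fun b => t.β b = b ∧ δ ≤ χ b) W) :=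
      FracData.Rsp_mono F (fun _ h => h) h1
    refine h2.trans ?_
    apply FracData.Rsp_le
    rintro b ⟨hb, hb'⟩ x hx
    obtain ⟨x1, hx1, x2, hx2, rfl⟩ := Submodule.mem_sup.1 hx
    rw [smul_add]
    apply add_mem
    · apply Submodule.mem_sup_left
      refine FracData.smul_Rsp hD b ?_ hx1
      intro c hc
      rw [map_add, hb, hc]
    · apply Submodule.mem_sup_right
      refine FracData.smul_Rsp hD b ?_ hx2
      rintro c ⟨hc, hc'⟩
      refine ⟨by rw [map_add, hb, hc], ?_⟩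
      push_cast
      rw [map_add]
      linarith

omit hD in
/-- coordinates of elements of `Rsp P S`. -/
theorem repr_mem (hD : ∀ (d : D) (x : V), d • x = F.i d • x) {ι : Type*}
    (e : Module.Basis ι K V) (S : Submodule D V)
    (hS : ∀ s ∈ S, ∀ j, ∃ d : D, e.repr s j = F.i d) {P : B → Prop} {y : V}
    (hy : y ∈ F.Rsp P S) (j : ι) : e.repr y j ∈ F.R P := by
  refine Submodule.span_induction (p := fun y _ => e.repr y j ∈ F.R P) ?_ ?_ ?_ ?_ hy
  · rintro y ⟨b, hb, s, hs, rfl⟩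
    obtain ⟨d, hd⟩ := hS s hs j
    obtain ⟨d', hd'⟩ := F.u_comm b d
    rw [map_smul, Finsupp.smul_apply, smul_eq_mul, hd, hd']
    exact F.single_mem_R hb d'
  · rw [map_zero]; exact zero_mem _
  · intro x y _ _ hx hy
    rw [map_add]; exact add_mem hx hy
  · intro d x _ hx
    rw [hD, map_smul, Finsupp.smul_apply, smul_eq_mul]
    exact F.D_mul_mem_R d hx

/-- **(2)** the part of `W` inside `K S` is a subdirect product of pieces of dimension
`≤ dim S`. -/
theorem detect (hχ : Function.Injective χ) (hv : F.IsVal χ v)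
    (hfix : ∀ b n, 0 < n → t.β^[n] b = b → t.β b = b) [FiniteDimensional K V]
    (S W : Submodule D V)
    [FiniteDimensional D S] [FiniteDimensional D W] (hS : Stable h S) (hW : Stable h W)
    (hSW : S ≤ W) (hWS : ∀ y ∈ W, y ∈ Submodule.span K (S : Set V))
    (hmin : ∀ S' : Submodule D V, Stable h S' → S' ≤ S → S' ≠ ⊥ → S' = S)
    {x : V} (hx : x ∈ W) (hx0 : x ≠ 0) :
    ∃ C : Submodule D V, Stable h C ∧ C ≤ W ∧ x ∉ C ∧
      ∃ f : V →ₗ[D] (Fin (Module.finrank D S) → D), W ⊓ LinearMap.ker f ≤ C := by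
  classical
  -- first valuation, to get freeness
  obtain ⟨w0, hw0, -⟩ := IsVVal.exists_vval hv (Module.finBasis K V)
  have hfree := t.free_of_minimal hD hχ hv hw0 hfix S hS hmin
  let eS := Module.finBasis D S
  have hli : LinearIndependent D (fun j => ((eS j : S) : V)) := by
    have := eS.linearIndependent.map' S.subtype (by simp)
    exact this
  have hliK : LinearIndependent K (fun j => ((eS j : S) : V)) :=
    linInd hD S hfree _ hli (fun j => (eS j).2)
  -- basis of `V` extending the basis of `S`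
  let e := Module.Basis.extend hliK.linearIndepOn_id
  have hfinι : Finite ((hliK.linearIndepOn_id).extend (Set.subset_univ _)) :=
    Module.Finite.finite_basis e
  obtain ⟨w, hw, hcoord⟩ := IsVVal.exists_vval hv e
  have hScoord : ∀ s ∈ S, ∀ j, ∃ d : D, e.repr s j = F.i d := by
    intro s hs j
    have h1 : (s : V) ∈ Submodule.span D (Set.range (fun j => ((eS j : S) : V))) := by
      have h1 : (⟨s, hs⟩ : S) ∈ Submodule.span D (Set.range eS) := by
        rw [eS.span_eq]; trivial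
      have h2 := Submodule.mem_map_of_mem (f := S.subtype) h1
      rw [Submodule.map_span, ← Set.range_comp] at h2
      exact h2
    refine Submodule.span_induction (p := fun s _ => ∃ d : D, e.repr s j = F.i d)
      ?_ ?_ ?_ ?_ h1
    · rintro _ ⟨k, rfl⟩
      have hmem : ((eS k : S) : V) ∈ (hliK.linearIndepOn_id).extend (Set.subset_univ _) :=
        (hliK.linearIndepOn_id).subset_extend _ ⟨k, rfl⟩
      have h2 : ((eS k : S) : V) = e ⟨_, hmem⟩ := by
        simp [e]
      simp only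
      rw [h2, Module.Basis.repr_self, Finsupp.single_apply]
      split_ifs
      · exact ⟨1, by simp⟩
      · exact ⟨0, by simp⟩
    · exact ⟨0, by simp⟩
    · rintro x y - - ⟨d, hd⟩ ⟨d', hd'⟩
      exact ⟨d + d', by simp [hd, hd']⟩
    · rintro d x - ⟨d', hd'⟩
      refine ⟨d * d', ?_⟩
      rw [hD, map_smul, Finsupp.smul_apply, smul_eq_mul, hd', map_mul]
  -- bounds
  have hfin := IsVVal.finite_values hD hv hw W
  have hne : {r : ℝ | ∃ x ∈ W, x ≠ 0 ∧ w x = r}.Nonempty := ⟨w x, x, hx, hx0, rfl⟩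
  obtain ⟨m0, -, hm0⟩ := Set.exists_min_image _ id hfin hne
  obtain ⟨M, -, hM⟩ := Set.exists_max_image _ id hfin hne
  have hm0' : ∀ y ∈ W, y ≠ 0 → m0 ≤ w y := fun y hy hy0 => hm0 _ ⟨y, hy, hy0, rfl⟩
  have hM' : ∀ y ∈ W, y ≠ 0 → w y ≤ M := fun y hy hy0 => hM _ ⟨y, hy, hy0, rfl⟩
  obtain ⟨δ, hδ, hsplit⟩ := t.split_all hD hχ hv hw hfix S W hW hSW hWS
  obtain ⟨N, hN⟩ := exists_nat_gt ((M - m0) / δ)
  have hN' : M < N * δ + m0 := by
    rw [div_lt_iff₀ hδ] at hN
    linarith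
  have hsplitN := t.split_iter hD S W hsplit N
  set A : B → Prop := fun b => t.β b = b with hA
  set T := F.Rsp (fun b => t.β b = b ∧ N * δ ≤ χ b) W with hT
  -- valuations on `T`
  have hTval : ∀ y ∈ T, y ≠ 0 → M < w y := by
    intro y hy
    refine Submodule.span_induction (p := fun y _ => y ≠ 0 → M < w y) ?_ ?_ ?_ ?_ hy
    · rintro y ⟨b, hb, s, hs, rfl⟩ hy0
      have hs0 : s ≠ 0 := right_ne_zero_of_smul hy0
      rw [hw.smul _ _ (F.u_ne b) hs0, hv.u]
      have h1 := hm0' s hs hs0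
      have h2 := hb.2
      linarith
    · intro h; exact absurd rfl h
    · intro y z _ _ hy hz hyz
      by_cases hy0 : y = 0
      · rw [hy0, zero_add] at hyz ⊢; exact hz hyz
      by_cases hz0 : z = 0
      · rw [hz0, add_zero] at hyz ⊢; exact hy hyz
      exact lt_of_lt_of_le (lt_min (hy hy0) (hz hz0)) (hw.add _ _ hy0 hz0 hyz)
    · intro d y _ hy hdy
      have hd0 : d ≠ 0 := left_ne_zero_of_smul hdy
      have hy0 : y ≠ 0 := right_ne_zero_of_smul hdy
      rw [hD, hw.smul _ _ ((map_ne_zero F.i).2 hd0) hy0, hv.scal hd0, zero_add]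
      exact hy hy0
  -- the coordinate realising the valuation of `x`
  obtain ⟨-, j, hj0, hj⟩ := hcoord x hx0
  have hxM : v (e.repr x j) ≤ M := hj ▸ hM' x hx hx0
  have hvK : IsVVal v v := ⟨fun k x hk hx => hv.mul k x hk hx, hv.add⟩
  have keyj : ∀ (P : B → Prop) (y z : V), y ∈ F.Rsp P S → z ∈ T → x = y + z →
      ∃ b, P b ∧ v (e.repr x j) = χ b := by
    intro P y z hy hz hxyz
    have hyj : e.repr y j ∈ F.R P := repr_mem hD e S hScoord hy j
    have hsum : e.repr x j = e.repr y j + e.repr z j := by rw [hxyz]; simp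
    have hzj : e.repr z j = 0 ∨ (e.repr z j ≠ 0 ∧ M < v (e.repr z j)) := by
      by_cases hz0 : e.repr z j = 0
      · exact Or.inl hz0
      · right
        have hz0' : z ≠ 0 := by rintro rfl; simp at hz0
        exact ⟨hz0, lt_of_lt_of_le (hTval z hz hz0') ((hcoord z hz0').1 j hz0)⟩
    have hyj' : e.repr y j ≠ 0 ∧ v (e.repr y j) = v (e.repr x j) := by
      rcases hzj with h | ⟨hz0, h⟩
      · rw [h, add_zero] at hsum
        rw [← hsum]; exact ⟨hj0, rfl⟩
      · have h1 : v (e.repr x j) < v (-(e.repr z j)) := by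
          rw [IsVVal.neg hv hvK hz0]
          linarith
        have h2 := IsVVal.add_of_lt hv hvK hj0 (neg_ne_zero.2 hz0) h1
        have h3 : e.repr x j + -(e.repr z j) = e.repr y j := by rw [hsum]; abel
        rw [h3] at h2
        exact h2
    obtain ⟨b, hb, hlead⟩ := F.exists_lead' hχ hyj hyj'.1
    exact ⟨b, hb, by rw [← hyj'.2, hv.lead _ _ hlead]⟩
  obtain ⟨a, haA, ha⟩ : ∃ a, A a ∧ v (e.repr x j) = χ a := by
    obtain ⟨y, hy, z, hz, hxyz⟩ := Submodule.mem_sup.1 (hsplitN hx)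
    exact keyj A y z hy hz hxyz.symm
  -- the subspace `C`
  set G := F.Rsp (fun b => t.β b = b ∧ b ≠ a) S ⊔ T with hG
  have hPT : ∀ b, (t.β (t.β b) = t.β b ∧ (N : ℝ) * δ ≤ χ (t.β b)) ↔
      (t.β b = b ∧ (N : ℝ) * δ ≤ χ b) := by
    intro b
    constructor
    · rintro ⟨h1, h2⟩
      have h3 := t.β.injective h1
      rw [h3] at h2
      exact ⟨h3, h2⟩
    · rintro ⟨h1, h2⟩
      rw [h1]; exact ⟨h1, h2⟩
  have hPa : ∀ b, (t.β (t.β b) = t.β b ∧ t.β b ≠ a) ↔ (t.β b = b ∧ b ≠ a) := by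
    intro b
    constructor
    · rintro ⟨h1, h2⟩
      have h3 := t.β.injective h1
      rw [h3] at h2
      exact ⟨h3, h2⟩
    · rintro ⟨h1, h2⟩
      rw [h1]; exact ⟨h1, h2⟩
  have hGs : Stable h G := (t.stable_Rsp hD hPa hS).sup (t.stable_Rsp hD hPT hW)
  refine ⟨W ⊓ G, hW.inf hGs, inf_le_left, ?_, ?_⟩
  · rintro ⟨-, hxG⟩
    obtain ⟨y, hy, z, hz, hxyz⟩ := Submodule.mem_sup.1 hxG
    obtain ⟨b, ⟨-, hba⟩, hb⟩ := keyj _ y z hy hz hxyz.symm
    exact hba (hχ (by rw [← hb, ha]))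
  · have hfdN : FiniteDimensional D (F.Rsp (fun c => c = a) S) :=
      FracData.Rsp_fg hD (by simp) S
    have h1 : F.Rsp (fun b => t.β b = b) S ⊔ T ≤ F.Rsp (fun c => c = a) S ⊔ G := by
      apply sup_le
      · apply FracData.Rsp_le
        intro b hb s hs
        by_cases hba : b = a
        · exact Submodule.mem_sup_left (F.mem_Rsp_of (P := fun c => c = a) hba hs)
        · have h2 : F.u b • s ∈ F.Rsp (fun b => t.β b = b ∧ b ≠ a) S :=
            F.mem_Rsp_of (P := fun b => t.β b = b ∧ b ≠ a) ⟨hb, hba⟩ hs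
          exact Submodule.mem_sup_right (Submodule.mem_sup_left h2)
      · exact le_sup_right.trans le_sup_right
    obtain ⟨f, hf⟩ := exists_detect_mod (F.Rsp (fun c => c = a) S) G
      (FracData.Rsp_single_finrank hD a S)
    refine ⟨f, ?_⟩
    rintro y ⟨hy, hyk⟩
    exact ⟨hy, hf ⟨h1 (hsplitN hy), hyk⟩⟩

end TAct

end C3da71
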