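import Pool.Agent.Lib.MP_c3da71_al.CaseT2

/-!
# MP_c3da71_al: case T, the theorem
-/

set_option autoImplicit false

namespace C3da71

theorem Cl.refl {D V : Type*} [DivisionRing D] [AddCommGroup V] [Module D V] {h : V ≃+ V} {n : ℕ}
    {W : Submodule D V} (hW : Stable h W) : ∀ l, Cl h n l W W
  | 0 => le_rfl
  | l + 1 => ⟨W, hW, le_rfl, le_rfl, Cl.refl hW l, fun _ hx hx' => absurd hx hx'⟩

theorem Cl.congr_h {D V : Type*} [DivisionRing D] [AddCommGroup V] [Module D V] {h : V ≃+ V}
    {n n' l : ℕ} (hn : n ≤ n') : ∀ {B₀ B : Submodule D V}, Cl h n l B₀ B → Cl h n' l B₀ B := by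
  induction l with
  | zero => exact fun h => h
  | succ l ih =>
    rintro B₀ B ⟨B', hs, h0, h1, hc, hx⟩
    refine ⟨B', hs, h0, h1, ih hc, ?_⟩
    intro x hxB hxB'
    obtain ⟨C, hCs, hBC, hCB, hxC, f, hf⟩ := hx x hxB hxB'
    refine ⟨C, hCs, hBC, hCB, hxC, ?_⟩
    refine ⟨LinearMap.pi (fun j : Fin n' => if hj : (j : ℕ) < n then
      (LinearMap.proj ⟨j, hj⟩) ∘ₗ f else 0), ?_⟩
    refine le_trans (inf_le_inf le_rfl ?_) hf
    intro y hy
    rw [LinearMap.mem_ker] at hy ⊢
    ext j
    have := congrFun hy ⟨j, lt_of_lt_of_le j.2 hn⟩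
    simpa using this

variable {D K B : Type*} [DivisionRing D] [DivisionRing K] [AddCommGroup B]
  {F : FracData D K B}

namespace TAct

/-- the automorphism induced on a quotient by a stable `K`-subspace. -/
theorem exists_quot {V : Type*} [AddCommGroup V] [Module K V] {h : V ≃+ V} (t : TAct F h)
    (U : Submodule K V) (hU : ∀ x, h x ∈ U ↔ x ∈ U) :
    ∃ (h' : (V ⧸ U) ≃+ (V ⧸ U)) (t' : TAct F h'), (∀ x, U.mkQ (h x) = h' (U.mkQ x)) ∧
      t'.β = t.β := by
  let f : V →ₛₗ[(t.σ : K →+* K)] V := { toFun := h, map_add' := map_add h, map_smul' := t.hσ }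
  let g : V →ₛₗ[(t.σ.symm : K →+* K)] V :=
    { toFun := h.symm
      map_add' := map_add h.symm
      map_smul' := by
        intro k x
        apply h.injective
        rw [AddEquiv.apply_symm_apply, t.hσ, AddEquiv.apply_symm_apply]
        simp }
  have hf : U ≤ U.comap f := fun x hx => (hU x).2 hx
  have hg : U ≤ U.comap g := fun x hx => by
    have : h (h.symm x) ∈ U := by simpa using hx
    exact (hU _).1 this
  let h' : (V ⧸ U) ≃+ (V ⧸ U) :=
    { toFun := U.mapQ U f hf
      invFun := U.mapQ U g hg
      left_inv := by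
        intro x
        obtain ⟨x, rfl⟩ := U.mkQ_surjective x
        show U.mkQ (h.symm (h x)) = U.mkQ x
        rw [AddEquiv.symm_apply_apply]
      right_inv := by
        intro x
        obtain ⟨x, rfl⟩ := U.mkQ_surjective x
        show U.mkQ (h (h.symm x)) = U.mkQ x
        rw [AddEquiv.apply_symm_apply]
      map_add' := by
        intro x y
        rw [map_add] }
  refine ⟨h', ⟨t.σ, t.τ, t.β, ?_, t.hτ, t.hβ⟩, ?_, rfl⟩
  · intro k x
    exact (U.mapQ U f hf).map_smulₛₗ k x
  · intro x
    rfl

universe u

theorem caseT {χ : B →+ ℝ} (hχ : Function.Injective χ) {n : ℕ} (m : ℕ) :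
    ∀ (V : Type u) [AddCommGroup V] [Module K V] [Module D V]
      (_ : ∀ (d : D) (x : V), d • x = F.i d • x) (h : V ≃+ V) (t : TAct F h)
      (_ : ∀ b k, 0 < k → t.β^[k] b = b → t.β b = b) [FiniteDimensional K V],
      Module.finrank K V ≤ m → m ≤ n → ∀ W : Submodule D V, FiniteDimensional D W →
      Stable h W → Cl h n m ⊥ W := by
  classical
  obtain ⟨v, hv⟩ := F.exists_isVal hχ
  induction m with
  | zero =>
    intro V _ _ _ hD h t hfix _ hV _ W _ hW
    have : Subsingleton V := Module.finrank_zero_iff.1 (Nat.le_zero.1 hV)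
    intro x _
    rw [Subsingleton.elim x 0]; exact zero_mem _
  | succ m ih =>
    intro V _ _ _ hD h t hfix _ hV hmn W hWfd hW
    by_cases hW0 : W = ⊥
    · rw [hW0]; exact Cl.refl Stable.bot _
    obtain ⟨S, hS, hSW, hS0, hmin⟩ := exists_minimal_stable W hW hW0
    have hSfd : FiniteDimensional D S := Submodule.finiteDimensional_of_le hSW
    set U : Submodule K V := Submodule.span K (S : Set V) with hUdef
    have hU : ∀ x, h x ∈ U ↔ x ∈ U := by
      have h1 : ∀ x ∈ U, h x ∈ U := by
        intro x hx
        refine Submodule.span_induction (p := fun x _ => h x ∈ U) ?_ ?_ ?_ ?_ hx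
        · intro x hx
          exact Submodule.subset_span ((hS x).2 hx)
        · rw [map_zero]; exact zero_mem _
        · intro x y _ _ hx hy
          rw [map_add]; exact add_mem hx hy
        · intro k x _ hx
          rw [t.hσ]; exact Submodule.smul_mem _ _ hx
      have h2 : ∀ x ∈ U, h.symm x ∈ U := by
        intro x hx
        refine Submodule.span_induction (p := fun x _ => h.symm x ∈ U) ?_ ?_ ?_ ?_ hx
        · intro x hx
          exact Submodule.subset_span ((hS _).1 (by simpa using hx))
        · rw [map_zero]; exact zero_mem _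
        · intro x y _ _ hx hy
          rw [map_add]; exact add_mem hx hy
        · intro k x _ hx
          have : h.symm (k • x) = t.σ.symm k • h.symm x := by
            apply h.injective
            rw [AddEquiv.apply_symm_apply, t.hσ, AddEquiv.apply_symm_apply]
            simp
          rw [this]; exact Submodule.smul_mem _ _ hx
      intro x
      exact ⟨fun hx => by simpa using h2 _ hx, h1 x⟩
    obtain ⟨h', t', hπ, hβ⟩ := t.exists_quot U hU
    let _ : Module D (V ⧸ U) := Module.compHom (V ⧸ U) F.i
    have hD' : ∀ (d : D) (x : V ⧸ U), d • x = F.i d • x := fun _ _ => rfl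
    let π : V →ₗ[D] (V ⧸ U) :=
      { toFun := U.mkQ
        map_add' := map_add _
        map_smul' := by
          intro d x
          rw [hD, map_smul]; rfl }
    -- rank of the quotient
    have hUne : U ≠ ⊥ := by
      intro hbot
      apply hS0
      rw [eq_bot_iff]
      intro x hx
      have : x ∈ U := Submodule.subset_span hx
      rw [hbot] at this
      exact this
    have hrk : Module.finrank K (V ⧸ U) ≤ m := by
      have h1 := Submodule.finrank_quotient_add_finrank U
      have h2 : 0 < Module.finrank K U := by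
        rw [Module.finrank_pos_iff]
        exact Submodule.nontrivial_iff_ne_bot.2 hUne
      omega
    have hWfd' : FiniteDimensional D (W.map π) := inferInstance
    have hWs' : Stable h' (W.map π) := by
      intro x
      constructor
      · intro hx
        obtain ⟨y, hy, hxy⟩ := Submodule.mem_map.1 hx
        refine Submodule.mem_map.2 ⟨h.symm y, (hW _).1 (by simpa using hy), ?_⟩
        apply h'.injective
        rw [← hxy]
        have := hπ (h.symm y)
        rw [AddEquiv.apply_symm_apply] at this
        exact this.symm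
      · intro hx
        obtain ⟨y, hy, rfl⟩ := Submodule.mem_map.1 hx
        exact Submodule.mem_map.2 ⟨h y, (hW _).2 hy, hπ y⟩
    have hq := ih (V ⧸ U) hD' h' t' (by rw [hβ]; exact hfix) hrk (by omega) (W.map π) hWfd' hWs'
    have h2 := Cl.comap (π := π) hπ hq hW (Submodule.le_comap_map π W)
    -- the lower part
    set W' := W ⊓ (⊥ : Submodule D (V ⧸ U)).comap π with hW'
    have hW's : Stable h W' := hW.inf (Stable.comap hπ Stable.bot)
    have hmemW' : ∀ y ∈ W', y ∈ U := by
      rintro y ⟨-, hy⟩
      have : U.mkQ y = 0 := hy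
      simpa using this
    have hSW' : S ≤ W' := by
      refine le_inf hSW ?_
      intro x hx
      have : x ∈ U := Submodule.subset_span hx
      show U.mkQ x = 0
      simpa using this
    have hW'fd : FiniteDimensional D W' := Submodule.finiteDimensional_of_le inf_le_left
    have hSn : Module.finrank D S ≤ n := by
      obtain ⟨w0, hw0, -⟩ := IsVVal.exists_vval hv (Module.finBasis K V)
      have hfree := t.free_of_minimal hD hχ hv hw0 hfix S hS hmin
      let eS := Module.finBasis D S
      have hli : LinearIndependent D (fun j => ((eS j : S) : V)) :=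
        eS.linearIndependent.map' S.subtype (by simp)
      have hliK : LinearIndependent K (fun j => ((eS j : S) : V)) :=
        linInd hD S hfree _ hli (fun j => (eS j).2)
      have := hliK.fintype_card_le_finrank
      rw [Fintype.card_fin] at this
      omega
    have h1 : Cl h n 1 ⊥ W' := by
      refine ⟨⊥, Stable.bot, le_rfl, bot_le, le_rfl, ?_⟩
      intro x hx hx0
      obtain ⟨C, hC, hCW, hxC, f, hf⟩ := t.detect hD hχ hv hfix S W' hS hW's hSW' hmemW' hmin hx
        (by simpa using hx0)
      refine ⟨C, hC, bot_le, hCW, hxC, ?_⟩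
      refine ⟨LinearMap.pi (fun j : Fin n => if hj : (j : ℕ) < Module.finrank D S then
        (LinearMap.proj ⟨j, hj⟩) ∘ₗ f else 0), ?_⟩
      refine le_trans (inf_le_inf le_rfl ?_) hf
      intro y hy
      rw [LinearMap.mem_ker] at hy ⊢
      ext j
      have := congrFun hy ⟨j, lt_of_lt_of_le j.2 hSn⟩
      simpa using this
    have h3 := Cl.trans (bot_le) h1 (inf_le_left) h2
    rwa [add_comm] at h3

end TAct

end C3da71
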