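import Pool.Agent.Lib.MP_c3da71_al.PCInd

set_option autoImplicit false

namespace C3da71

open Classical in
/-- number of changes of `f` on `[s,t)` -/
noncomputable def nsteps {α : Type*} (f : ℕ → α) (s t : ℕ) : ℕ :=
  ((Finset.Ico s t).filter (fun i => f i ≠ f (i + 1))).card

theorem nsteps_add {α : Type*} (f : ℕ → α) {s m t : ℕ} (h1 : s ≤ m) (h2 : m ≤ t) :
    nsteps f s t = nsteps f s m + nsteps f m t := by
  classical
  unfold nsteps
  rw [← Finset.card_union_of_disjoint, ← Finset.filter_union, Finset.Ico_union_Ico_eq_Ico h1 h2]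
  apply Finset.disjoint_filter_filter
  rw [Finset.disjoint_left]
  intro x hx hx'
  rw [Finset.mem_Ico] at hx hx'
  omega

theorem nsteps_succ_le {α : Type*} (f : ℕ → α) (i : ℕ) : nsteps f i (i + 1) ≤ 1 := by
  classical
  unfold nsteps
  refine (Finset.card_filter_le _ _).trans ?_
  simp

theorem nsteps_eq_zero {α : Type*} {f : ℕ → α} {s t : ℕ} (h : nsteps f s t = 0) :
    ∀ i, s ≤ i → i ≤ t → f i = f s := by
  classical
  intro i hi
  induction i, hi using Nat.le_induction with
  | base => intro _; rfl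
  | succ i hi ih =>
    intro hit
    rw [← ih (by omega)]
    by_contra hne
    unfold nsteps at h
    rw [Finset.card_eq_zero, Finset.filter_eq_empty_iff] at h
    have := h (Finset.mem_Ico.2 ⟨hi, hit⟩)
    exact this (fun h2 => hne h2.symm)

/-- Block counting: `f` is controlled by `g` and `h`; `g` changes at most `a` times, and on
intervals where `g` is constant `h` changes at most `b` times. -/
theorem nsteps_block {α β γ : Type*} (f : ℕ → α) (g : ℕ → β) (h : ℕ → γ) (b : ℕ) :
    ∀ (a s t : ℕ), s ≤ t → nsteps g s t ≤ a →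
      (∀ i, s ≤ i → i < t → g i = g (i + 1) → h i = h (i + 1) → f i = f (i + 1)) →
      (∀ s' t', s ≤ s' → s' ≤ t' → t' ≤ t → (∀ i, s' ≤ i → i ≤ t' → g i = g s') →
        nsteps h s' t' ≤ b) →
      nsteps f s t ≤ a + (a + 1) * b := by
  classical
  have hbase : ∀ (s t : ℕ), s ≤ t → nsteps g s t = 0 →
      (∀ i, s ≤ i → i < t → g i = g (i + 1) → h i = h (i + 1) → f i = f (i + 1)) →
      (∀ s' t', s ≤ s' → s' ≤ t' → t' ≤ t → (∀ i, s' ≤ i → i ≤ t' → g i = g s') →
        nsteps h s' t' ≤ b) →
      nsteps f s t ≤ b := by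
    intro s t hst h0 hf hh
    have hc := nsteps_eq_zero h0
    refine le_trans ?_ (hh s t le_rfl hst le_rfl hc)
    unfold nsteps
    apply Finset.card_le_card
    intro i hi
    rw [Finset.mem_filter] at hi ⊢
    refine ⟨hi.1, fun heq => hi.2 ?_⟩
    have hi' := Finset.mem_Ico.1 hi.1
    refine hf i hi'.1 hi'.2 ?_ heq
    rw [hc i hi'.1 (by omega), hc (i + 1) (by omega) (by omega)]
  intro a
  induction a with
  | zero =>
    intro s t hst ha hf hh
    have := hbase s t hst (Nat.le_zero.1 ha) hf hh
    omega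
  | succ a ih =>
    intro s t hst ha hf hh
    by_cases h0 : nsteps g s t = 0
    · have := hbase s t hst h0 hf hh
      nlinarith
    · -- first step
      have hex : ∃ i, s ≤ i ∧ i < t ∧ g i ≠ g (i + 1) := by
        unfold nsteps at h0
        rw [Finset.card_eq_zero, Finset.filter_eq_empty_iff] at h0
        push Not at h0
        obtain ⟨i, hi, hi2⟩ := h0
        rw [Finset.mem_Ico] at hi
        exact ⟨i, hi.1, hi.2, hi2⟩
      let i := Nat.find hex
      have hi := Nat.find_spec hex
      have hmin : ∀ j, s ≤ j → j < i → g j = g (j + 1) := by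
        intro j hj hji
        by_contra hne
        exact Nat.find_min hex hji ⟨hj, by omega, hne⟩
      have h1 : nsteps g s i = 0 := by
        unfold nsteps
        rw [Finset.card_eq_zero, Finset.filter_eq_empty_iff]
        intro j hj
        rw [Finset.mem_Ico] at hj
        intro hne
        exact hne (hmin j hj.1 hj.2)
      have h2 : nsteps f s i ≤ b := by
        refine hbase s i hi.1 h1 (fun j hj hji => hf j hj (by omega)) ?_
        intro s' t' hs' hst' ht'
        exact hh s' t' hs' hst' (by omega)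
      have h3 : nsteps g (i + 1) t ≤ a := by
        have h4 := nsteps_add g (s := s) (m := i) (t := t) hi.1 (by omega)
        have h5 := nsteps_add g (s := i) (m := i + 1) (t := t) (by omega) (by omega)
        have h6 : nsteps g i (i + 1) = 1 := by
          unfold nsteps
          rw [Nat.Ico_succ_singleton, Finset.filter_singleton, if_pos hi.2.2]
          rfl
        omega
      have h4 := ih (i + 1) t (by omega) h3 (fun j hj => hf j (by omega))
        (fun s' t' hs' => hh s' t' (by omega))
      have h5 := nsteps_add f (s := s) (m := i) (t := t) hi.1 (by omega)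
      have h6 := nsteps_add f (s := i) (m := i + 1) (t := t) (by omega) (by omega)
      have h7 := nsteps_succ_le f i
      nlinarith

/-- `e`-closed ascending chains of subgroups on `[s,t]`. -/
structure EC {Q : Type*} [Group Q] (e : ℕ) (K : ℕ → Subgroup Q) (s t : ℕ) : Prop where
  mono : ∀ i j, s ≤ i → i ≤ j → j ≤ t → K i ≤ K j
  closed : ∀ i j, s ≤ i → i ≤ j → j ≤ t → ∀ (x : Q) (m : ℕ), 1 ≤ m → x ∈ K j → x ^ m ∈ K i →
    x ^ e ∈ K i

theorem EC.sub {Q : Type*} [Group Q] {e : ℕ} {K : ℕ → Subgroup Q} {s t s' t' : ℕ}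
    (h : EC e K s t) (hs : s ≤ s') (ht : t' ≤ t) : EC e K s' t' :=
  ⟨fun i j hi hij hj => h.mono i j (hs.trans hi) hij (hj.trans ht),
    fun i j hi hij hj => h.closed i j (hs.trans hi) hij (hj.trans ht)⟩

/-- bounded number of steps in `e`-closed chains -/
def BEC (Q : Type) [Group Q] : Prop :=
  ∀ e : ℕ, 1 ≤ e → ∃ b : ℕ, ∀ (K : ℕ → Subgroup Q) (s t : ℕ), s ≤ t → EC e K s t →
    nsteps K s t ≤ b

theorem BEC.extension (Q : Type) [Group Q] (N : Subgroup Q) [N.Normal] (_ : PC Q)
    (hN : BEC N) (hQN : BEC (Q ⧸ N)) : BEC Q := by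
  classical
  intro e he
  obtain ⟨a, ha⟩ := hN e he
  obtain ⟨b, hb⟩ := hQN e he
  refine ⟨a + (a + 1) * b, fun K s t hst hK => ?_⟩
  refine nsteps_block K (fun i => (K i).subgroupOf N) (fun i => (K i).map (QuotientGroup.mk' N))
    b a s t hst ?_ ?_ ?_
  · refine ha _ s t hst ⟨fun i j hi hij hj x hx => hK.mono i j hi hij hj hx,
      fun i j hi hij hj x m hm hx hxm => ?_⟩
    exact hK.closed i j hi hij hj x m hm hx hxm
  · intro i hi hit hg hh
    have hle := hK.mono i (i + 1) hi (by omega) (by omega)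
    apply le_antisymm hle
    intro x hx
    have h1 : (QuotientGroup.mk' N) x ∈ (K i).map (QuotientGroup.mk' N) := by
      change (K i).map (QuotientGroup.mk' N) = (K (i + 1)).map (QuotientGroup.mk' N) at hh
      rw [hh]
      exact Subgroup.mem_map_of_mem _ hx
    obtain ⟨y, hy, hyx⟩ := h1
    have h2 : y⁻¹ * x ∈ N := QuotientGroup.eq.1 hyx
    have h3 : y⁻¹ * x ∈ K (i + 1) := (K (i + 1)).mul_mem ((K (i + 1)).inv_mem (hle hy)) hx
    have h4 : (⟨y⁻¹ * x, h2⟩ : N) ∈ (K (i + 1)).subgroupOf N := h3
    change (K i).subgroupOf N = (K (i + 1)).subgroupOf N at hg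
    rw [← hg] at h4
    have h5 : y⁻¹ * x ∈ K i := h4
    have h6 : x = y * (y⁻¹ * x) := by group
    rw [h6]
    exact (K i).mul_mem hy h5
  · intro s' t' hs' hst' ht' hconst
    refine hb _ s' t' hst' ⟨fun i j hi hij hj => Subgroup.map_mono
      (hK.mono i j (hs'.trans hi) hij (hj.trans ht')), fun i j hi hij hj x m hm hx hxm => ?_⟩
    obtain ⟨y, hy, rfl⟩ := hx
    rw [← map_pow] at hxm
    obtain ⟨z, hz, hzy⟩ := hxm
    have h2 : z⁻¹ * y ^ m ∈ N := QuotientGroup.eq.1 hzy
    have h3 : z⁻¹ * y ^ m ∈ K j := by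
      refine (K j).mul_mem ((K j).inv_mem ?_) ((K j).pow_mem hy m)
      exact hK.mono i j (hs'.trans hi) hij (hj.trans ht') hz
    have h4 : (⟨z⁻¹ * y ^ m, h2⟩ : N) ∈ (K j).subgroupOf N := h3
    have h5 : (K i).subgroupOf N = (K j).subgroupOf N :=
      (hconst i hi (hij.trans hj)).trans (hconst j (hi.trans hij) hj).symm
    rw [← h5] at h4
    have h6 : z⁻¹ * y ^ m ∈ K i := h4
    have h7 : y ^ m ∈ K i := by
      have h8 : y ^ m = z * (z⁻¹ * y ^ m) := by group
      rw [h8]
      exact (K i).mul_mem hz h6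
    have h9 := hK.closed i j (hs'.trans hi) hij (hj.trans ht') y m hm hy h7
    rw [← map_pow]
    exact Subgroup.mem_map_of_mem _ h9

theorem relIndex_le_of_cyclic {Q : Type} [Group Q] (hQ : IsCyclic Q) {e : ℕ} (he : 1 ≤ e)
    {A B : Subgroup Q} (hle : A ≤ B) (hA : A ≠ ⊥)
    (hcl : ∀ (x : Q) (m : ℕ), 1 ≤ m → x ∈ B → x ^ m ∈ A → x ^ e ∈ A) :
    A.relIndex B ≠ 0 ∧ A.relIndex B ≤ e := by
  have hBc : IsCyclic B := inferInstance
  obtain ⟨y, hy⟩ := hBc.exists_zpow_surjective
  obtain ⟨⟨z, hzA⟩, hz1'⟩ := Subgroup.ne_bot_iff_exists_ne_one.1 hA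
  have hz1 : z ≠ 1 := fun h => hz1' (Subtype.ext h)
  obtain ⟨k, hk⟩ := hy ⟨z, hle hzA⟩
  have hk' : (y : Q) ^ k = z := congrArg Subtype.val hk
  have hk0 : k ≠ 0 := by
    rintro rfl
    rw [zpow_zero] at hk'
    exact hz1 hk'.symm
  have h1 : (y : Q) ^ k.natAbs ∈ A := by
    rcases Int.natAbs_eq k with h | h
    · rw [h, zpow_natCast] at hk'
      rw [hk']; exact hzA
    · rw [h, zpow_neg, zpow_natCast] at hk'
      have h2 : (y : Q) ^ k.natAbs = z⁻¹ := by rw [← hk', inv_inv]
      rw [h2]; exact A.inv_mem hzA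
  have h2 : (y : Q) ^ e ∈ A := hcl y k.natAbs (by omega) y.2 h1
  let f : Fin e → B ⧸ A.subgroupOf B := fun r => QuotientGroup.mk (y ^ (r : ℕ))
  have hf : Function.Surjective f := by
    intro q
    obtain ⟨b, rfl⟩ := QuotientGroup.mk_surjective q
    obtain ⟨n, hn⟩ := hy b
    simp only at hn
    have he0 : (e : ℤ) ≠ 0 := by omega
    refine ⟨⟨(n % e).toNat, by
      have h3 := Int.emod_nonneg n he0
      have h4 := Int.emod_lt_of_pos n (by omega : (0:ℤ) < e)
      omega⟩, ?_⟩
    change (QuotientGroup.mk (y ^ (n % e).toNat) : B ⧸ A.subgroupOf B) = QuotientGroup.mk b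
    rw [QuotientGroup.eq, Subgroup.mem_subgroupOf, ← hn]
    have h5 : (y ^ (n % e).toNat)⁻¹ * y ^ n = (y ^ e) ^ (n / e) := by
      rw [← zpow_natCast y (n % e).toNat, Int.toNat_of_nonneg (Int.emod_nonneg n he0),
        ← zpow_natCast y e, ← zpow_mul, ← zpow_neg, ← zpow_add]
      congr 1
      have := Int.emod_add_mul_ediv n e
      omega
    rw [h5]
    exact A.zpow_mem h2 _
  have hfin : Finite (B ⧸ A.subgroupOf B) := Finite.of_surjective f hf
  constructor
  · exact Nat.card_pos.ne'
  · have h6 := Nat.card_le_card_of_surjective f hf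
    have h7 : Nat.card (Fin e) = e := Nat.card_fin e
    rw [h7] at h6
    exact h6

theorem BEC.cyclic (Q : Type) [Group Q] (hQ : IsCyclic Q) : BEC Q := by
  classical
  intro e he
  refine ⟨e + 1, fun K s t hst hK => ?_⟩
  -- first nontrivial index
  by_cases hall : ∀ i, s ≤ i → i ≤ t → K i = ⊥
  · have : nsteps K s t = 0 := by
      unfold nsteps
      rw [Finset.card_eq_zero, Finset.filter_eq_empty_iff]
      intro i hi
      rw [Finset.mem_Ico] at hi
      rw [hall i hi.1 (by omega), hall (i + 1) (by omega) (by omega)]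
      simp
    omega
  · push Not at hall
    have hex : ∃ i, s ≤ i ∧ i ≤ t ∧ K i ≠ ⊥ := hall
    let i₀ := Nat.find hex
    have hi₀ := Nat.find_spec hex
    have hmin : ∀ j, s ≤ j → j < i₀ → K j = ⊥ := by
      intro j hj hji
      by_contra hne
      exact Nat.find_min hex hji ⟨hj, by omega, hne⟩
    -- steps before i₀
    have h1 : nsteps K s i₀ ≤ 1 := by
      rcases Nat.eq_or_lt_of_le hi₀.1 with h | h
      · have : i₀ = s := h.symm
        rw [this]
        unfold nsteps
        simp
      · have hpos : 1 ≤ i₀ := by omega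
        have h2 := nsteps_add K (s := s) (m := i₀ - 1) (t := i₀) (by omega) (by omega)
        have h3 : nsteps K s (i₀ - 1) = 0 := by
          unfold nsteps
          rw [Finset.card_eq_zero, Finset.filter_eq_empty_iff]
          intro i hi
          rw [Finset.mem_Ico] at hi
          rw [hmin i hi.1 (by omega), hmin (i + 1) (by omega) (by omega)]
          simp
        have h4 := nsteps_succ_le K (i₀ - 1)
        rw [Nat.sub_add_cancel hpos] at h4
        omega
    -- index bound
    have hidx : ∀ j, i₀ ≤ j → j ≤ t → (K i₀).relIndex (K j) ≠ 0 ∧ (K i₀).relIndex (K j) ≤ e := by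
      intro j hj hjt
      have hle0 := hK.mono i₀ j hi₀.1 hj hjt
      exact relIndex_le_of_cyclic hQ he hle0 hi₀.2.2
        (fun x m hm hx hxm => hK.closed i₀ j hi₀.1 hj hjt x m hm hx hxm)
    have h2 : ∀ j, i₀ ≤ j → j ≤ t → nsteps K i₀ j + 1 ≤ (K i₀).relIndex (K j) := by
      intro j hj
      induction j, hj using Nat.le_induction with
      | base =>
        intro _
        unfold nsteps
        simp [Subgroup.relIndex_self]
      | succ j hj ih =>
        intro hjt
        have ih' := ih (by omega)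
        have h3 := nsteps_add K (s := i₀) (m := j) (t := j + 1) (by omega) (by omega)
        have hle := hK.mono j (j + 1) (by omega) (by omega) hjt
        have hle0 := hK.mono i₀ j (by omega) hj (by omega)
        have h4 := Subgroup.relIndex_mul_relIndex (K i₀) (K j) (K (j + 1)) hle0 hle
        by_cases heq : K j = K (j + 1)
        · have h5 : nsteps K j (j + 1) = 0 := by
            unfold nsteps
            rw [Finset.card_eq_zero, Finset.filter_eq_empty_iff]
            intro i hi
            rw [Finset.mem_Ico] at hi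
            have : i = j := by omega
            subst this
            simpa using heq
          rw [← heq]
          omega
        · have h5 := nsteps_succ_le K j
          have h6 : (K j).relIndex (K (j + 1)) ≠ 0 := by
            intro h0
            rw [h0, mul_zero] at h4
            exact (hidx (j + 1) (by omega) hjt).1 h4.symm
          have h7 : (K j).relIndex (K (j + 1)) ≠ 1 := by
            intro h0
            rw [Subgroup.relIndex_eq_one] at h0
            exact heq (le_antisymm hle h0)
          have h8 : 2 ≤ (K j).relIndex (K (j + 1)) := by omega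
          nlinarith
    have h3 := h2 t hi₀.2.1 le_rfl
    have h4 := (hidx t hi₀.2.1 le_rfl).2
    have h5 := nsteps_add K (s := s) (m := i₀) (t := t) hi₀.1 hi₀.2.1
    omega

theorem PC.bec : ∀ (Q : Type) [Group Q], PC Q → BEC Q :=
  PC.rec_ext BEC.cyclic BEC.extension

end C3da71
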