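import Pool.Agent.Lib.MP_c3da71_al.LemmaC
import Pool.Agent.Lib.MP_c3da71_al.EChain

set_option autoImplicit false

namespace C3da71

theorem nsteps_rev {α : Type*} (f : ℕ → α) (n : ℕ) :
    nsteps (fun j => f (n - j)) 0 n = nsteps f 0 n := by
  classical
  unfold nsteps
  refine Finset.card_bij' (fun i _ => n - 1 - i) (fun i _ => n - 1 - i) ?_ ?_ ?_ ?_
  · intro i hi
    rw [Finset.mem_filter, Finset.mem_Ico] at hi ⊢
    refine ⟨by omega, ?_⟩
    have h1 : n - i = (n - 1 - i) + 1 := by omega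
    have h2 : n - (i + 1) = n - 1 - i := by omega
    rw [← h1, ← h2]
    exact fun h => hi.2 h.symm
  · intro i hi
    rw [Finset.mem_filter, Finset.mem_Ico] at hi ⊢
    refine ⟨by omega, ?_⟩
    have h1 : n - (n - 1 - i) = i + 1 := by omega
    have h2 : n - (n - 1 - i + 1) = i := by omega
    change f (n - (n - 1 - i)) ≠ f (n - (n - 1 - i + 1))
    rw [h1, h2]
    exact fun h => hi.2 h.symm
  · intro i hi
    rw [Finset.mem_filter, Finset.mem_Ico] at hi
    change n - 1 - (n - 1 - i) = i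
    omega
  · intro i hi
    rw [Finset.mem_filter, Finset.mem_Ico] at hi
    change n - 1 - (n - 1 - i) = i
    omega

theorem chains_of_E (G : Type) [Group G] (A : Subgroup G) [A.Normal]
    (hA : ∀ a ∈ A, ∀ b ∈ A, a * b = b * a) (hQ : PC (G ⧸ A)) {e T : ℕ} (he : 1 ≤ e) (hT0 : 1 ≤ T)
    (hE : ∀ (g v : G), v ∈ A → ∀ n : ℕ, 1 ≤ n → Commute (g ^ n) v → Commute (g ^ e) v)
    (hT : ∀ v ∈ A, ∀ k : ℕ, 1 ≤ k → v ^ k = 1 → v ^ T = 1) :
    ∃ m : ℕ, ∀ (n : ℕ) (H : ℕ → Set G),
      (∀ i < n, Subgroup.centralizer (H i) ≤ Subgroup.centralizer (H (i + 1))) →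
      {i : ℕ | i < n ∧ Subgroup.centralizer (H i) < Subgroup.centralizer (H (i + 1))}.ncard
        ≤ m := by
  classical
  obtain ⟨e₁, he₁, hlc⟩ := LC.step A hA he hT0 hE hT (PC.lc _ hQ)
  obtain ⟨a, ha⟩ := PC.bec _ hQ e he
  obtain ⟨b, hb⟩ := PC.bec _ hQ e₁ he₁
  refine ⟨a + (a + 1) * b, fun n H hH => ?_⟩
  let C : ℕ → Subgroup G := fun i => Subgroup.centralizer (H i)
  have hCmono : ∀ i j, i ≤ j → j ≤ n → C i ≤ C j := by
    intro i j hij
    induction j, hij using Nat.le_induction with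
    | base => intro _; exact le_rfl
    | succ j hij ih =>
      intro hj
      exact (ih (by omega)).trans (hH j (by omega))
  have hmemC : ∀ i x, x ∈ C i ↔ ∀ y ∈ H i, y * x = x * y := by
    intro i x
    exact Subgroup.mem_centralizer_iff
  have hcard : {i : ℕ | i < n ∧ Subgroup.centralizer (H i) < Subgroup.centralizer (H (i + 1))}.ncard
      = nsteps C 0 n := by
    unfold nsteps
    rw [← Set.ncard_coe_finset]
    congr 1
    ext i
    simp only [Set.mem_ofPred_eq, Finset.coe_filter, Finset.mem_Ico, Nat.zero_le, true_and]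
    constructor
    · rintro ⟨h1, h2⟩
      exact ⟨h1, h2.ne⟩
    · rintro ⟨h1, h2⟩
      exact ⟨h1, lt_of_le_of_ne (hH i h1) h2⟩
  rw [hcard]
  -- the stabilisers in Q
  let Z : ℕ → Subgroup G := fun i => Subgroup.centralizer ((C i ⊓ A : Subgroup G) : Set G)
  have hmemZ : ∀ i x, x ∈ Z i ↔ ∀ v, v ∈ C i → v ∈ A → Commute x v := by
    intro i x
    rw [Subgroup.mem_centralizer_iff]
    constructor
    · intro h v hv hvA
      exact (h v ⟨hv, hvA⟩).symm
    · rintro h v ⟨hv, hvA⟩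
      exact (h v hv hvA).symm
  have hAZ : ∀ i, A ≤ Z i := by
    intro i x hx
    rw [hmemZ]
    intro v _ hvA
    exact hA x hx v hvA
  let Y : ℕ → Subgroup (G ⧸ A) := fun i => (Z i).map (QuotientGroup.mk' A)
  have hmemY : ∀ i x, (QuotientGroup.mk' A x) ∈ Y i ↔ x ∈ Z i := by
    intro i x
    constructor
    · rintro ⟨z, hz, hzx⟩
      have h1 : z⁻¹ * x ∈ A := QuotientGroup.eq.1 hzx
      have h2 : x = z * (z⁻¹ * x) := by group
      rw [h2]
      exact (Z i).mul_mem hz (hAZ i h1)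
    · intro hx
      exact Subgroup.mem_map_of_mem _ hx
  have hYY : ∀ i, i < n → Y i = Y (i + 1) → (C i).subgroupOf A = (C (i + 1)).subgroupOf A := by
    intro i hi hY
    apply le_antisymm
    · intro x hx
      exact hH i hi hx
    · intro v hv
      change (v : G) ∈ C i
      rw [hmemC]
      intro y hy
      have h1 : y ∈ Z i := by
        rw [hmemZ]
        intro w hw _
        exact (hmemC i w).1 hw y hy
      rw [← hmemY, hY, hmemY, hmemZ] at h1
      exact h1 v hv v.2
  refine nsteps_block C (fun i => (C i).subgroupOf A) (fun i => (C i).map (QuotientGroup.mk' A))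
    b a 0 n (Nat.zero_le n) ?_ ?_ ?_
  · have h1 : nsteps (fun i => (C i).subgroupOf A) 0 n ≤ nsteps Y 0 n := by
      unfold nsteps
      apply Finset.card_le_card
      intro i hi
      rw [Finset.mem_filter, Finset.mem_Ico] at hi ⊢
      exact ⟨hi.1, fun h => hi.2 (hYY i hi.1.2 h)⟩
    refine h1.trans ?_
    rw [← nsteps_rev]
    refine ha _ 0 n (Nat.zero_le n) ⟨?_, ?_⟩
    · intro i j _ hij hj
      refine Subgroup.map_mono ?_
      intro x hx
      rw [hmemZ] at hx ⊢
      intro v hv hvA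
      exact hx v (hCmono (n - j) (n - i) (by omega) (by omega) hv) hvA
    · intro i j _ hij hj x m hm hx hxm
      obtain ⟨g, rfl⟩ := QuotientGroup.mk'_surjective A x
      rw [← map_pow] at hxm ⊢
      rw [hmemY] at hxm ⊢
      rw [hmemZ] at hxm ⊢
      intro v hv hvA
      exact hE g v hvA m hm (hxm v hv hvA)
  · intro i _ hi hg hh
    change (C i).subgroupOf A = (C (i + 1)).subgroupOf A at hg
    change (C i).map (QuotientGroup.mk' A) = (C (i + 1)).map (QuotientGroup.mk' A) at hh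
    have hle : C i ≤ C (i + 1) := hH i hi
    apply le_antisymm hle
    intro x hx
    have h1 : (QuotientGroup.mk' A) x ∈ (C i).map (QuotientGroup.mk' A) := by
      rw [hh]
      exact Subgroup.mem_map_of_mem _ hx
    obtain ⟨y, hy, hyx⟩ := h1
    have h2 : y⁻¹ * x ∈ A := QuotientGroup.eq.1 hyx
    have h3 : y⁻¹ * x ∈ C (i + 1) := (C (i + 1)).mul_mem ((C (i + 1)).inv_mem (hle hy)) hx
    have h4 : (⟨y⁻¹ * x, h2⟩ : A) ∈ (C (i + 1)).subgroupOf A := h3
    rw [← hg] at h4
    have h5 : y⁻¹ * x ∈ C i := h4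
    have h6 : x = y * (y⁻¹ * x) := by group
    rw [h6]
    exact (C i).mul_mem hy h5
  · intro s' t' _ hst' ht' hconst
    refine hb _ s' t' hst' ⟨fun i j hi hij hj => Subgroup.map_mono
      (hCmono i j hij (hj.trans ht')), fun i j hi hij hj x m hm hx hxm => ?_⟩
    obtain ⟨y, hy, rfl⟩ := hx
    rw [← map_pow] at hxm
    obtain ⟨z, hz, hzy⟩ := hxm
    have h2 : z⁻¹ * y ^ m ∈ A := QuotientGroup.eq.1 hzy
    have h3 : z⁻¹ * y ^ m ∈ C j := by
      refine (C j).mul_mem ((C j).inv_mem ?_) ((C j).pow_mem hy m)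
      exact hCmono i j hij (hj.trans ht') hz
    have h4 : (⟨z⁻¹ * y ^ m, h2⟩ : A) ∈ (C j).subgroupOf A := h3
    have h5 : (C i).subgroupOf A = (C j).subgroupOf A :=
      (hconst i hi (hij.trans hj)).trans (hconst j (hi.trans hij) hj).symm
    rw [← h5] at h4
    have h6 : z⁻¹ * y ^ m ∈ C i := h4
    have h7 : y ^ m ∈ C i := by
      have h8 : y ^ m = z * (z⁻¹ * y ^ m) := by group
      rw [h8]
      exact (C i).mul_mem hz h6
    have h9 : y ^ e₁ ∈ C i := by
      rw [hmemC] at h7 ⊢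
      intro w hw
      exact (hlc y w m hm (h7 w hw).symm).symm
    rw [← map_pow]
    exact Subgroup.mem_map_of_mem _ h9

end C3da71
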