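import Mathlib

/-!
# MP_c3da71_al: the predicate `Cl`

`Cl h n l B₀ B` : for an additive automorphism `h` of a `D`-space `V`, the section `B / B₀` has a
chain of `h`-stable subspaces of length `l` whose factors are subdirect products of `h`-modules of
dimension at most `n`.
-/

set_option autoImplicit false

namespace C3da71

variable {D V V' : Type*} [DivisionRing D] [AddCommGroup V] [Module D V]
  [AddCommGroup V'] [Module D V']

/-- `W` is stable under `h` and `h⁻¹`. -/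
def Stable (h : V ≃+ V) (W : Submodule D V) : Prop := ∀ x, h x ∈ W ↔ x ∈ W

/-- chains of length `l` of `h`-stable subspaces from `B₀` up to `B` whose factors are subdirect
products of `h`-modules of dimension at most `n`. -/
def Cl (h : V ≃+ V) (n : ℕ) : ℕ → Submodule D V → Submodule D V → Prop
  | 0, B₀, B => B ≤ B₀
  | l + 1, B₀, B => ∃ B' : Submodule D V, Stable h B' ∧ B₀ ≤ B' ∧ B' ≤ B ∧ Cl h n l B₀ B' ∧
      ∀ x ∈ B, x ∉ B' → ∃ C : Submodule D V, Stable h C ∧ B' ≤ C ∧ C ≤ B ∧ x ∉ C ∧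
        ∃ f : V →ₗ[D] (Fin n → D), B ⊓ LinearMap.ker f ≤ C

theorem Stable.inf {h : V ≃+ V} {W W' : Submodule D V} (hW : Stable h W) (hW' : Stable h W') :
    Stable h (W ⊓ W') := fun x => by
  simp only [Submodule.mem_inf, hW x, hW' x]

theorem Stable.sup {h : V ≃+ V} {W W' : Submodule D V} (hW : Stable h W) (hW' : Stable h W') :
    Stable h (W ⊔ W') := fun x => by
  simp only [Submodule.mem_sup]
  constructor
  · rintro ⟨y, hy, z, hz, e⟩
    refine ⟨h.symm y, (hW _).1 (by simpa using hy), h.symm z, (hW' _).1 (by simpa using hz), ?_⟩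
    rw [← map_add, e]; simp
  · rintro ⟨y, hy, z, hz, e⟩
    exact ⟨h y, (hW _).2 hy, h z, (hW' _).2 hz, by rw [← map_add, e]⟩

theorem Stable.bot {h : V ≃+ V} : Stable h (⊥ : Submodule D V) := fun x => by simp

theorem Stable.top {h : V ≃+ V} : Stable h (⊤ : Submodule D V) := fun x => by simp

theorem Stable.comap {h : V ≃+ V} {h' : V' ≃+ V'} {π : V →ₗ[D] V'} (hπ : ∀ x, π (h x) = h' (π x))
    {W : Submodule D V'} (hW : Stable h' W) : Stable h (W.comap π) := fun x => by
  simp only [Submodule.mem_comap, hπ, hW (π x)]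

/-- Restriction and pull back. -/
theorem Cl.comap {h : V ≃+ V} {h' : V' ≃+ V'} {π : V →ₗ[D] V'} (hπ : ∀ x, π (h x) = h' (π x))
    {n l : ℕ} : ∀ {B₀ B : Submodule D V'} {A : Submodule D V}, Cl h' n l B₀ B → Stable h A →
      A ≤ B.comap π → Cl h n l (A ⊓ B₀.comap π) A := by
  induction l with
  | zero =>
    intro B₀ B A hB _ hA
    simp only [Cl] at hB ⊢
    exact le_inf le_rfl (hA.trans (Submodule.comap_mono hB))
  | succ l ih =>
    rintro B₀ B A ⟨B', hs, h0, h1, hc, hx⟩ hAs hA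
    refine ⟨A ⊓ B'.comap π, hAs.inf (hs.comap hπ), ?_, inf_le_left, ?_, ?_⟩
    · exact inf_le_inf le_rfl (Submodule.comap_mono h0)
    · have := ih (A := A ⊓ B'.comap π) hc (hAs.inf (hs.comap hπ)) inf_le_right
      rwa [inf_assoc, inf_eq_right.2 (Submodule.comap_mono h0)] at this
    · intro x hxA hxB
      obtain ⟨C, hCs, hBC, hCB, hxC, f, hf⟩ := hx (π x) (hA hxA) (fun h => hxB ⟨hxA, h⟩)
      refine ⟨A ⊓ C.comap π, hAs.inf (hCs.comap hπ), inf_le_inf le_rfl (Submodule.comap_mono hBC),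
        inf_le_left, fun h => hxC h.2, f ∘ₗ π, ?_⟩
      rintro y ⟨hyA, hy⟩
      exact ⟨hyA, hf ⟨hA hyA, by simpa using hy⟩⟩

theorem Cl.restrict {h : V ≃+ V} {n l : ℕ} {B₀ B A : Submodule D V} (hB : Cl h n l B₀ B)
    (hA : Stable h A) (hAB : A ≤ B) : Cl h n l (A ⊓ B₀) A := by
  have := Cl.comap (π := LinearMap.id) (h := h) (fun x => rfl) hB hA (by simpa using hAB)
  simpa using this

/-- Concatenation of chains. -/
theorem Cl.trans {h : V ≃+ V} {n l l' : ℕ} {B₀ B₁ : Submodule D V} (h01 : B₀ ≤ B₁)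
    (h1 : Cl h n l B₀ B₁) : ∀ {B₂ : Submodule D V}, B₁ ≤ B₂ → Cl h n l' B₁ B₂ →
      Cl h n (l + l') B₀ B₂ := by
  induction l' with
  | zero =>
    intro B₂ h12 h2
    have : B₂ = B₁ := le_antisymm h2 h12
    rw [this, add_zero]; exact h1
  | succ l' ih =>
    rintro B₂ h12 ⟨B', hs, h0, h1', hc, hx⟩
    exact ⟨B', hs, h01.trans h0, h1', ih h0 hc, hx⟩

/-- A finite dimensional subspace is detected by a map to `Dⁿ`. -/
theorem exists_detect (N : Submodule D V) [FiniteDimensional D N] {n : ℕ}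
    (hn : Module.finrank D N ≤ n) : ∃ f : V →ₗ[D] (Fin n → D), N ⊓ LinearMap.ker f = ⊥ := by
  obtain ⟨p, hp⟩ := N.subtype.exists_leftInverse_of_injective (by simp)
  obtain ⟨g, hg⟩ : ∃ g : N →ₗ[D] (Fin n → D), Function.Injective g := by
    rw [← finrank_le_iff_exists_linearMap]
    simpa using hn
  refine ⟨g ∘ₗ p, ?_⟩
  rw [eq_bot_iff]
  rintro x ⟨hx, hk⟩
  have h1 : p x = ⟨x, hx⟩ := LinearMap.congr_fun hp ⟨x, hx⟩
  rw [SetLike.mem_coe, LinearMap.mem_ker, LinearMap.comp_apply, h1] at hk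
  have h2 : (⟨x, hx⟩ : N) = 0 := hg (by rw [hk, map_zero])
  simpa using congrArg Subtype.val h2

/-- The form in which factors of small dimension are produced. -/
theorem exists_detect_mod (N C : Submodule D V) [FiniteDimensional D N] {n : ℕ}
    (hn : Module.finrank D N ≤ n) : ∃ f : V →ₗ[D] (Fin n → D), (N ⊔ C) ⊓ LinearMap.ker f ≤ C := by
  have hfd : FiniteDimensional D (N.map C.mkQ) := inferInstance
  have h1 : Module.finrank D (N.map C.mkQ) ≤ n := (Submodule.finrank_map_le _ _).trans hn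
  obtain ⟨f, hf⟩ := exists_detect (N.map C.mkQ) h1
  refine ⟨f ∘ₗ C.mkQ, ?_⟩
  rintro x ⟨hx, hk⟩
  obtain ⟨y, hy, z, hz, rfl⟩ := Submodule.mem_sup.1 hx
  have h2 : C.mkQ (y + z) = C.mkQ y := by
    rw [map_add]; simpa using hz
  have h3 : C.mkQ y ∈ N.map C.mkQ ⊓ LinearMap.ker f := by
    refine ⟨Submodule.mem_map_of_mem hy, ?_⟩
    rw [SetLike.mem_coe, LinearMap.mem_ker, LinearMap.comp_apply, h2] at hk
    exact hk
  rw [hf, Submodule.mem_bot] at h3
  have h4 : y ∈ C := by simpa using h3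
  exact add_mem h4 hz

end C3da71
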