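import Pool.Agent.Lib.MP_c3da71_al.Defs
import Pool.Agent.Lib.MP_c3da71_al.CaseT3

/-! # More closure properties of the class `Cl` -/

set_option autoImplicit false

namespace C3da71

section dim

variable {E V : Type} [DivisionRing E] [AddCommGroup V] [Module E V]

/-- `DimLE` in terms of detecting maps, without inclusions -/
theorem ClBasic_detect {C B : Submodule E V} {n : ℕ} :
    DimLE C B n ↔ ∃ f : V →ₗ[E] (Fin n → E), B ⊓ LinearMap.ker f ≤ C := by
  classical
  constructor
  · rintro ⟨s, hs, h⟩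
    have h1 : FiniteDimensional E (Submodule.span E (s : Set V)) :=
      FiniteDimensional.span_finset E s
    have h2 : Module.finrank E (Submodule.span E (s : Set V)) ≤ n :=
      (finrank_span_finset_le_card s).trans hs
    obtain ⟨f, hf⟩ := exists_detect_mod (Submodule.span E (s : Set V)) C h2
    refine ⟨f, le_trans (inf_le_inf ?_ le_rfl) hf⟩
    rw [sup_comm]
    exact h
  · rintro ⟨f, hf⟩
    have h1 : FiniteDimensional E (B.map f) := inferInstance
    have h2 : Module.finrank E (B.map f) ≤ n := by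
      refine (Submodule.finrank_le _).trans ?_
      simp
    let b := Module.finBasis E (B.map f)
    have h3 : ∀ i, ∃ x ∈ B, f x = (b i : Fin n → E) := fun i => Submodule.mem_map.1 (b i).2
    choose x hx hfx using h3
    refine ⟨Finset.univ.image x, ?_, ?_⟩
    · refine Finset.card_image_le.trans ?_
      simpa using h2
    · intro y hy
      have h4 : f y ∈ B.map f := Submodule.mem_map_of_mem hy
      have h5 := b.sum_repr ⟨f y, h4⟩
      set z : V := ∑ i, b.repr ⟨f y, h4⟩ i • x i with hz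
      have hzB : z ∈ B := Submodule.sum_mem _ (fun i _ => B.smul_mem _ (hx i))
      have hzs : z ∈ Submodule.span E ((Finset.univ.image x : Finset V) : Set V) := by
        refine Submodule.sum_mem _ (fun i _ => Submodule.smul_mem _ _ (Submodule.subset_span ?_))
        simp
      have hfz : f z = f y := by
        have h6 := congrArg Subtype.val h5
        simp only [Submodule.coe_sum, Submodule.coe_smul] at h6
        rw [hz, map_sum]
        refine Eq.trans ?_ h6
        refine Finset.sum_congr rfl (fun i _ => ?_)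
        rw [map_smul, hfx]
      have h7 : y - z ∈ C := by
        apply hf
        refine ⟨B.sub_mem hy hzB, ?_⟩
        rw [SetLike.mem_coe, LinearMap.mem_ker, map_sub, hfz, sub_self]
      have h8 : y = (y - z) + z := by abel
      rw [h8]
      exact Submodule.add_mem_sup h7 hzs

theorem DimLE.mono {Y' Y : Submodule E V} {m n : ℕ} (h : DimLE Y' Y m) (hmn : m ≤ n) : DimLE Y' Y n := by
  obtain ⟨s, hs, h⟩ := h
  exact ⟨s, hs.trans hmn, h⟩

/-- intersecting with a third subspace does not increase the relative dimension -/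
theorem DimLE.inf {Y' Y : Submodule E V} {n : ℕ} (h : DimLE Y' Y n) (A : Submodule E V) : DimLE (Y' ⊓ A) (Y ⊓ A) n := by
  rw [ClBasic_detect] at h ⊢
  obtain ⟨f, hf⟩ := h
  refine ⟨f, ?_⟩
  rintro x ⟨⟨hx1, hx2⟩, hx3⟩
  exact ⟨hf ⟨hx1, hx3⟩, hx2⟩

theorem DimLE.trans {Y0 Y1 Y2 : Submodule E V} {m n : ℕ} (h1 : DimLE Y0 Y1 m) (h2 : DimLE Y1 Y2 n) :
    DimLE Y0 Y2 (m + n) := by
  classical
  obtain ⟨s, hs, h1⟩ := h1
  obtain ⟨t, ht, h2⟩ := h2
  refine ⟨s ∪ t, (Finset.card_union_le s t).trans (add_le_add hs ht), ?_⟩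
  rw [Finset.coe_union, Submodule.span_union, ← sup_assoc]
  exact h2.trans (sup_le_sup_right h1 _)

/-- relative dimension of an intersection -/
theorem DimLE.iInf {k : ℕ} {Y : Submodule E V} (C : Fin k → Submodule E V) (n : ℕ) (h : ∀ j, DimLE (C j) Y n)
    (hC : ∀ j, C j ≤ Y) : DimLE (Y ⊓ ⨅ j, C j) Y (k * n) := by
  have h' := fun j => ClBasic_detect.1 (h j)
  choose f hf using h'
  rw [ClBasic_detect]
  refine ⟨LinearMap.pi (fun i : Fin (k * n) =>
    (LinearMap.proj (finProdFinEquiv.symm i).2) ∘ₗ f (finProdFinEquiv.symm i).1), ?_⟩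
  rintro x ⟨hx, hk⟩
  refine ⟨hx, ?_⟩
  rw [SetLike.mem_coe, Submodule.mem_iInf]
  intro j
  apply hf j
  refine ⟨hx, ?_⟩
  rw [SetLike.mem_coe, LinearMap.mem_ker] at hk ⊢
  ext i
  have h1 := congrFun hk (finProdFinEquiv (j, i))
  simp only [LinearMap.pi_apply, LinearMap.comp_apply, LinearMap.proj_apply,
    Equiv.symm_apply_apply] at h1
  exact h1

/-- `DimLE` in terms of `finrank` -/
theorem dimLE_bot_iff {Y : Submodule E V} {n : ℕ} : DimLE ⊥ Y n ↔ (Y.FG ∧ Module.finrank E Y ≤ n) := by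
  classical
  constructor
  · rintro ⟨s, hs, h⟩
    rw [bot_sup_eq] at h
    have h1 : FiniteDimensional E (Submodule.span E (s : Set V)) :=
      FiniteDimensional.span_finset E s
    have h2 : FiniteDimensional E Y := Submodule.finiteDimensional_of_le h
    refine ⟨Module.Finite.iff_fg.1 h2, ?_⟩
    exact (Submodule.finrank_mono h).trans ((finrank_span_finset_le_card s).trans hs)
  · rintro ⟨h1, h2⟩
    have h3 : FiniteDimensional E Y := Module.Finite.iff_fg.2 h1
    let b := Module.finBasis E Y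
    refine ⟨Finset.univ.image (fun i => (b i : V)), ?_, ?_⟩
    · refine Finset.card_image_le.trans ?_
      simpa using h2
    · rw [bot_sup_eq]
      intro y hy
      have h4 := b.sum_repr ⟨y, hy⟩
      have h5 := congrArg Subtype.val h4
      simp only [Submodule.coe_sum, Submodule.coe_smul] at h5
      rw [← h5]
      refine Submodule.sum_mem _ (fun i _ => Submodule.smul_mem _ _ (Submodule.subset_span ?_))
      simp

theorem DimLE.comap {V' : Type} [AddCommGroup V'] [Module E V'] (f : V' →ₗ[E] V) {Y' Y : Submodule E V} {n : ℕ}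
    (h : DimLE Y' Y n) : DimLE (Y'.comap f) (Y.comap f) n := by
  rw [ClBasic_detect] at h ⊢
  obtain ⟨g, hg⟩ := h
  refine ⟨g ∘ₗ f, ?_⟩
  rintro x ⟨hx1, hx2⟩
  exact hg ⟨hx1, hx2⟩

/-- `DimLE` in terms of detecting maps -/
theorem dimLE_iff_detect {C B : Submodule E V} (hCB : C ≤ B) {n : ℕ} :
    DimLE C B n ↔ ∃ f : V →ₗ[E] (Fin n → E), B ⊓ LinearMap.ker f ≤ C :=
  ClBasic_detect

end dim

section cl

variable {E V : Type} [DivisionRing E] [AddCommGroup V] [Module E V] {h : V ≃+ V}

/-- arbitrary intersections of stable subspaces are stable -/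
theorem Stable.sInf (S : Set (Submodule E V)) (hS : ∀ Y ∈ S, Stable h Y) : Stable h (sInf S) := by
  intro x
  rw [Submodule.mem_sInf, Submodule.mem_sInf]
  exact ⟨fun hx Y hY => (hS Y hY x).1 (hx Y hY), fun hx Y hY => (hS Y hY x).2 (hx Y hY)⟩

theorem Cl.mono_l {d l l' : ℕ} (hl : l ≤ l') {B0 B : Submodule E V} (hB : Stable h B) (hle : B0 ≤ B)
    (h1 : Cl h d l B0 B) : Cl h d l' B0 B := by
  obtain ⟨k, rfl⟩ := Nat.exists_eq_add_of_le hl
  exact Cl.trans hle h1 le_rfl (Cl.refl hB k)

theorem Cl.of_dimLE {d : ℕ} {B0 B : Submodule E V} (hB0 : Stable h B0) (hle : B0 ≤ B) (h1 : DimLE B0 B d) :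
    Cl h d 1 B0 B := by
  obtain ⟨f, hf⟩ := ClBasic_detect.1 h1
  exact ⟨B0, hB0, le_rfl, hle, le_rfl, fun x _ hx => ⟨B0, hB0, le_rfl, hle, hx, f, hf⟩⟩

/-- Subdirect products (arbitrary families).

Proof by induction on `l`. `l = 0`: for `x ∈ B`, `x ∉ B0` the subspace `K` satisfies `B ≤ K`, `x ∉ K`, contradiction. `l + 1`: let `B'`
be the intersection of `B` with all the `B'_K` (for all admissible `K` and all admissible choices of `B'_K`, use `sInf`); the top layer is clear
(`x ∉ B'` gives `x ∉ B'_K`, hence `C ≥ B'_K ≥ B'`); lower layer: induction for `B0 ≤ B'` and the `K ⊓ B'`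
(`Cl h d l K B'_K` restricted to `B' ≤ B'_K`, `Cl.restrict`). -/
theorem Cl.subdirect {d : ℕ} : ∀ {l : ℕ} {B0 B : Submodule E V}, Stable h B → B0 ≤ B →
    (∀ x ∈ B, x ∉ B0 → ∃ K : Submodule E V, Stable h K ∧ B0 ≤ K ∧ K ≤ B ∧ x ∉ K ∧ Cl h d l K B) →
    Cl h d l B0 B := by
  intro l
  induction l with
  | zero =>
    intro B0 B hB hle hx x hxB
    by_contra hx0
    obtain ⟨K, -, -, -, hxK, hK⟩ := hx x hxB hx0
    exact hxK (hK hxB)
  | succ l ih =>
    intro B0 B hB hle hx
    set S : Set (Submodule E V) := {W | Stable h W ∧ W ≤ B ∧ B0 ≤ W ∧ ∀ y ∈ B, y ∉ W →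
      ∃ C : Submodule E V, Stable h C ∧ W ≤ C ∧ C ≤ B ∧ y ∉ C ∧
        ∃ f : V →ₗ[E] (Fin d → E), B ⊓ LinearMap.ker f ≤ C} with hS
    have hBS : B ∈ S := ⟨hB, le_rfl, hle, fun y hy hy' => absurd hy hy'⟩
    have hst : Stable h (sInf S) := Stable.sInf S (fun Y hY => hY.1)
    refine ⟨sInf S, hst, le_sInf (fun W hW => hW.2.2.1), sInf_le hBS, ?_, ?_⟩
    · apply ih hst (le_sInf (fun W hW => hW.2.2.1))
      intro x hxS hx0
      obtain ⟨K, hK1, hK2, hK3, hK4, B', hB'1, hB'2, hB'3, hB'4, hB'5⟩ :=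
        hx x (sInf_le hBS hxS) hx0
      have hB'S : B' ∈ S := ⟨hB'1, hB'3, hK2.trans hB'2, hB'5⟩
      refine ⟨sInf S ⊓ K, hst.inf hK1, le_inf (le_sInf (fun W hW => hW.2.2.1)) hK2, inf_le_left,
        fun h => hK4 h.2, ?_⟩
      exact hB'4.restrict hst (sInf_le hB'S)
    · intro x hxB hxS
      rw [Submodule.mem_sInf] at hxS
      push Not at hxS
      obtain ⟨W, hW, hxW⟩ := hxS
      obtain ⟨C, hC1, hC2, hC3, hC4, f, hf⟩ := hW.2.2.2 x hxB hxW
      exact ⟨C, hC1, (sInf_le hW).trans hC2, hC3, hC4, f, hf⟩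

/-- Transport along a map of subspace lattices which preserves infima and multiplies dimensions by at most `m`.

Induction on `l`; for the top layer: `B' = sInf {C | Stable h C ∧ B' ≤ C ∧ C ≤ B ∧ DimLE C B d} ∪ {B}`, apply `hinf` and `dimLE_iff_detect`. -/
theorem Cl.map {E' V' : Type} [DivisionRing E'] [AddCommGroup V'] [Module E' V'] {h' : V' ≃+ V'}
    (J : Submodule E V → Submodule E' V')
    (hinf : ∀ S : Set (Submodule E V), S.Nonempty → J (sInf S) = sInf (J '' S)) (m : ℕ)
    (hdim : ∀ Y' Y n, Y' ≤ Y → DimLE Y' Y n → DimLE (J Y') (J Y) (m * n))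
    (hSt : ∀ Y, Stable h Y → Stable h' (J Y)) {d l : ℕ} {B0 B : Submodule E V} (hB : Stable h B) (h1 : Cl h d l B0 B) :
    Cl h' (m * d) l (J B0) (J B) := by
  have hmono : ∀ Y' Y : Submodule E V, Y' ≤ Y → J Y' ≤ J Y := by
    intro Y' Y hY
    have h2 := hinf {Y', Y} ⟨Y', Or.inl rfl⟩
    rw [sInf_pair, inf_eq_left.2 hY] at h2
    rw [h2]
    exact sInf_le ⟨Y, Or.inr rfl, rfl⟩
  induction l generalizing B with
  | zero => exact hmono _ _ h1
  | succ l ih =>
    obtain ⟨B', hB'1, hB'2, hB'3, hB'4, hB'5⟩ := h1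
    refine ⟨J B', hSt _ hB'1, hmono _ _ hB'2, hmono _ _ hB'3, ih hB'1 hB'4, ?_⟩
    intro x hxB hxB'
    set S : Set (Submodule E V) :=
      insert B {C | Stable h C ∧ B' ≤ C ∧ C ≤ B ∧ DimLE C B d} with hS
    have hSB : sInf S = B' := by
      apply le_antisymm
      · intro y hy
        rw [Submodule.mem_sInf] at hy
        by_contra hyB'
        obtain ⟨C, hC1, hC2, hC3, hC4, f, hf⟩ := hB'5 y (hy B (Set.mem_insert _ _)) hyB'
        exact hC4 (hy C (Set.mem_insert_of_mem _ ⟨hC1, hC2, hC3, ClBasic_detect.2 ⟨f, hf⟩⟩))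
      · apply le_sInf
        rintro C (rfl | hC)
        · exact hB'3
        · exact hC.2.1
    rw [← hSB, hinf S ⟨B, Set.mem_insert _ _⟩, Submodule.mem_sInf] at hxB'
    push Not at hxB'
    obtain ⟨_, ⟨C, hC, rfl⟩, hxC⟩ := hxB'
    rcases hC with rfl | ⟨hC1, hC2, hC3, hC4⟩
    · exact absurd hxB hxC
    · refine ⟨J C, hSt _ hC1, hmono _ _ hC2, hmono _ _ hC3, hxC, ?_⟩
      exact ClBasic_detect.1 (hdim C B d hC3 hC4)

end cl

section pact

variable {G : Type} [Group G] {E : Type} [DivisionRing E] {X : Type} [AddCommGroup X] [Module E X]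

theorem PAct.stable_pow (P : PAct G E X) (g : G) (e : ℕ) (Y : Submodule E X) (h : C3da71.Stable (P.ρ g) Y) :
    C3da71.Stable (P.ρ (g ^ e)) Y := by
  rw [PAct.hst_iff] at h ⊢
  induction e with
  | zero => rw [pow_zero, P.act_one]
  | succ e ih => rw [pow_succ, ← P.act_mul, h, ih]

/-- transport of relative dimensions -/
theorem ClBasic_dimLE_act (P : PAct G E X) (g : G) {C B : Submodule E X} {n : ℕ} (h : DimLE C B n) :
    DimLE (P.act g C) (P.act g B) n := by
  classical
  obtain ⟨s, hs, h⟩ := h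
  have hspan : ∀ t ∈ Submodule.span E (s : Set X),
      P.ρ g t ∈ Submodule.span E ((s.image (P.ρ g) : Finset X) : Set X) := by
    intro t ht
    induction ht using Submodule.span_induction with
    | mem y hy =>
      apply Submodule.subset_span
      rw [Finset.coe_image]
      exact ⟨y, hy, rfl⟩
    | zero =>
      rw [map_zero]
      exact Submodule.zero_mem _
    | add y z _ _ hy hz =>
      rw [map_add]
      exact Submodule.add_mem _ hy hz
    | smul a y _ hy =>
      rw [P.semi]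
      exact Submodule.smul_mem _ _ hy
  refine ⟨s.image (P.ρ g), Finset.card_image_le.trans hs, ?_⟩
  intro x hx
  rw [P.mem_act] at hx
  obtain ⟨c, hc, t, ht, hct⟩ := Submodule.mem_sup.1 (h hx)
  have hx' : x = P.ρ g c + P.ρ g t := by
    rw [← map_add, hct]
    simp
  rw [hx']
  exact Submodule.add_mem_sup ((P.ρ_mem_act g C c).2 hc) (hspan t ht)

/-- the intersection of the `e` translates of a `g ^ e`-stable subspace is `g`-stable -/
theorem ClBasic_stable_iInf (P : PAct G E X) (g : G) (e : ℕ) (he : 0 < e) (Y : Submodule E X)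
    (hY : C3da71.Stable (P.ρ (g ^ e)) Y) :
    C3da71.Stable (P.ρ g) (⨅ i : Fin e, P.act (g ^ (i : ℕ)) Y) := by
  rw [PAct.hst_iff] at hY
  intro x
  rw [Submodule.mem_iInf, Submodule.mem_iInf]
  have key : ∀ i : ℕ, P.ρ g x ∈ P.act (g ^ (i + 1)) Y ↔ x ∈ P.act (g ^ i) Y := by
    intro i
    rw [pow_succ', ← P.act_mul, P.ρ_mem_act]
  constructor
  · intro hx i
    by_cases hi : (i : ℕ) + 1 < e
    · exact (key i).1 (hx ⟨i + 1, hi⟩)
    · have hi' : (i : ℕ) + 1 = e := by
        have := i.2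
        omega
      rw [← key, hi', hY]
      have := hx ⟨0, he⟩
      simpa using this
  · intro hx i
    rcases Nat.eq_zero_or_pos (i : ℕ) with hi | hi
    · have h1 := hx ⟨e - 1, by omega⟩
      rw [← key] at h1
      have h2 : (e - 1) + 1 = e := by omega
      rw [h2, hY] at h1
      rw [hi, pow_zero, P.act_one]
      exact h1
    · have h1 := hx ⟨i - 1, by omega⟩
      rw [← key] at h1
      have h2 : ((i : ℕ) - 1) + 1 = i := by omega
      rw [h2] at h1
      exact h1

/-- Powers.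

Induction on `l`. `l + 1`: given `B'`, replace it by `⨅_{i < e} g^i B'` (`P.act (g ^ i) B'`), which is `g`-stable because `B'` is `g^e`-stable,
contains `B0`, and for `x ∈ B` outside it, `x ∉ g^i B'` for some `i`: take `C` for `g^{-i} x ∉ B'` and use `⨅_{i' < e} g^{i'} C`, of relative dimension
`≤ e d` (`DimLE.iInf`, `dimLE_iff_detect`; `DimLE (P.act g C) B d` from `DimLE C B d` and `act g B = B`). The lower layer: restrict
`Cl (ρ (g^e)) d l B0 B'` to the smaller subspace. -/
theorem Cl.of_pow (P : PAct G E X) (g : G) (e : ℕ) (he : 0 < e) {d l : ℕ} {B0 B : Submodule E X}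
    (hB0 : C3da71.Stable (P.ρ g) B0) (hB : C3da71.Stable (P.ρ g) B) (h : Cl (P.ρ (g ^ e)) d l B0 B) :
    Cl (P.ρ g) (e * d) l B0 B := by
  induction l generalizing B with
  | zero => exact h
  | succ l ih =>
    obtain ⟨B', hB'1, hB'2, hB'3, hB'4, hB'5⟩ := h
    have hact : ∀ (i : ℕ) (Y : Submodule E X), C3da71.Stable (P.ρ g) Y → P.act (g ^ i) Y = Y :=
      fun i Y hY => (P.hst_iff _ _).1 (P.stable_pow g i Y hY)
    set B2 : Submodule E X := ⨅ i : Fin e, P.act (g ^ (i : ℕ)) B' with hB2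
    have hB2st : C3da71.Stable (P.ρ g) B2 := ClBasic_stable_iInf P g e he B' hB'1
    have hB2le : B2 ≤ B' := by
      refine (iInf_le _ (⟨0, he⟩ : Fin e)).trans ?_
      simp
    have hB02 : B0 ≤ B2 := by
      apply le_iInf
      intro i
      rw [← hact i B0 hB0]
      exact P.act_mono _ hB'2
    refine ⟨B2, hB2st, hB02, hB2le.trans hB'3, ?_, ?_⟩
    · apply ih hB2st
      have h1 := hB'4.restrict (P.stable_pow g e B2 hB2st) hB2le
      rwa [inf_eq_right.2 hB02] at h1
    · intro x hxB hx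
      rw [Submodule.mem_iInf] at hx
      push Not at hx
      obtain ⟨i, hi⟩ := hx
      rw [P.mem_act] at hi
      have hxB' : (P.ρ (g ^ (i : ℕ))).symm x ∈ B := by
        rw [← P.mem_act, hact i B hB]
        exact hxB
      obtain ⟨C, hC1, hC2, hC3, hC4, hC5⟩ := hB'5 _ hxB' hi
      have hCle : ∀ j : Fin e, P.act (g ^ (j : ℕ)) C ≤ B := by
        intro j
        have := P.act_mono (g ^ (j : ℕ)) hC3
        rwa [hact j B hB] at this
      have hCB : (⨅ j : Fin e, P.act (g ^ (j : ℕ)) C) ≤ B := (iInf_le _ (⟨0, he⟩ : Fin e)).trans (hCle _)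
      refine ⟨⨅ j : Fin e, P.act (g ^ (j : ℕ)) C, ClBasic_stable_iInf P g e he C hC1, ?_, hCB, ?_, ?_⟩
      · exact iInf_mono (fun j => P.act_mono _ hC2)
      · intro hcon
        rw [Submodule.mem_iInf] at hcon
        exact hC4 (hcon i)
      · have h1 : ∀ j : Fin e, DimLE (P.act (g ^ (j : ℕ)) C) B d := by
          intro j
          have h2 := ClBasic_dimLE_act P (g ^ (j : ℕ)) (ClBasic_detect.2 hC5)
          rwa [hact j B hB] at h2
        have h3 := DimLE.iInf (fun j : Fin e => P.act (g ^ (j : ℕ)) C) d h1 hCle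
        rw [inf_eq_right.2 hCB] at h3
        exact ClBasic_detect.1 h3

end pact

end C3da71
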