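import Pool.Agent.Lib.MP_c3da71_al.PC
import Pool.Agent.Lib.MP_c3da71_al.Cl

/-!
# MP_c3da71_al : basic definitions

Semilinear projective actions (systems), goodness, plinths.
-/

set_option autoImplicit false

namespace C3da71

/-! ### Groups -/

/-- A *plinth* of `G`: a normal subgroup `B ≅ ℤ^(r+1)` such that no finite index subgroup of `G` stabilizes an isolated subgroup
of `B` other than `1`, `B` (i.e. `B ⊗ ℚ` is an irreducible module for all finite index subgroups). -/
structure Plinth (G : Type) [Group G] (B : Subgroup G) : Prop where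
  normal : B.Normal
  free : ∃ r : ℕ, Nonempty (B ≃* Multiplicative (Fin (r + 1) → ℤ))
  irr : ∀ H : Subgroup G, H.FiniteIndex → ∀ A : Subgroup G, A ≤ B →
    (∀ b ∈ B, ∀ n : ℕ, 0 < n → b ^ n ∈ A → b ∈ A) →
    (∀ h ∈ H, ∀ a ∈ A, h * a * h⁻¹ ∈ A) → A = ⊥ ∨ A = B

/-! ### Relative dimension -/

/-- `dim (Y / Y') ≤ n` -/
def DimLE {E X : Type} [Ring E] [AddCommGroup X] [Module E X] (Y' Y : Submodule E X) (n : ℕ) : Prop :=
  ∃ s : Finset X, s.card ≤ n ∧ Y ≤ Y' ⊔ Submodule.span E (s : Set X)

/-! ### Systems -/

/-- A *system*: `X` is an `E`-module and `G` acts on `X` by semilinear maps, multiplicatively up to units of `E`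
(i.e. `X` is a module over a crossed product `E * G`). -/
structure PAct (G : Type) [Group G] (E : Type) [Ring E] (X : Type) [AddCommGroup X] [Module E X] where
  ρ : G → (X ≃+ X)
  σ : G → E ≃+* E
  semi : ∀ (g : G) (e : E) (x : X), ρ g (e • x) = σ g e • ρ g x
  mul : ∀ g h : G, ∃ c : Eˣ, ∀ x : X, ρ g (ρ h x) = (c : E) • ρ (g * h) x

namespace PAct

variable {G : Type} [Group G] {E : Type} [Ring E] {X : Type} [AddCommGroup X] [Module E X]

theorem symm_smul (P : PAct G E X) (g : G) (e : E) (x : X) :
    (P.ρ g).symm (e • x) = (P.σ g).symm e • (P.ρ g).symm x := by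
  apply (P.ρ g).injective
  rw [P.semi]
  simp

/-- `ρ 1` is a scalar. -/
theorem one_smul (P : PAct G E X) : ∃ c : Eˣ, ∀ x : X, P.ρ 1 x = (c : E) • x := by
  obtain ⟨c, hc⟩ := P.mul 1 1
  refine ⟨c, fun x => ?_⟩
  have h := hc ((P.ρ 1).symm x)
  simpa using h

/-- the action of `G` on the lattice of subspaces -/
def act (P : PAct G E X) (g : G) (Y : Submodule E X) : Submodule E X where
  carrier := {x | (P.ρ g).symm x ∈ Y}
  add_mem' := by
    intro a b ha hb
    simp only [Set.mem_ofPred_eq, map_add] at *
    exact Y.add_mem ha hb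
  zero_mem' := by simp
  smul_mem' := by
    intro c x hx
    simp only [Set.mem_ofPred_eq] at *
    rw [P.symm_smul]
    exact Y.smul_mem _ hx

theorem mem_act (P : PAct G E X) (g : G) (Y : Submodule E X) (x : X) :
    x ∈ P.act g Y ↔ (P.ρ g).symm x ∈ Y := Iff.rfl

theorem ρ_mem_act (P : PAct G E X) (g : G) (Y : Submodule E X) (x : X) :
    P.ρ g x ∈ P.act g Y ↔ x ∈ Y := by
  rw [mem_act]; simp

theorem act_mono (P : PAct G E X) (g : G) {Y Y' : Submodule E X} (h : Y ≤ Y') :
    P.act g Y ≤ P.act g Y' := fun _ hx => h hx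

theorem act_inf (P : PAct G E X) (g : G) (Y Y' : Submodule E X) :
    P.act g (Y ⊓ Y') = P.act g Y ⊓ P.act g Y' := rfl

@[simp] theorem act_top (P : PAct G E X) (g : G) : P.act g ⊤ = ⊤ := rfl

@[simp] theorem act_bot (P : PAct G E X) (g : G) : P.act g ⊥ = ⊥ := by
  ext x
  rw [mem_act]
  simp

theorem act_mul (P : PAct G E X) (g h : G) (Y : Submodule E X) :
    P.act g (P.act h Y) = P.act (g * h) Y := by
  obtain ⟨c, hc⟩ := P.mul g h
  ext x
  obtain ⟨y, rfl⟩ : ∃ y, x = P.ρ g (P.ρ h y) :=
    ⟨(P.ρ h).symm ((P.ρ g).symm x), by simp⟩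
  rw [ρ_mem_act, ρ_mem_act, hc]
  constructor
  · intro hy
    exact Submodule.smul_mem _ _ ((P.ρ_mem_act _ _ _).2 hy)
  · intro hy
    have := Submodule.smul_mem _ ((c⁻¹ : Eˣ) : E) hy
    rw [smul_smul, Units.inv_mul, _root_.one_smul, ρ_mem_act] at this
    exact this

@[simp] theorem act_one (P : PAct G E X) (Y : Submodule E X) : P.act 1 Y = Y := by
  obtain ⟨c, hc⟩ := P.one_smul
  ext x
  have hx : (P.ρ 1).symm x = ((c⁻¹ : Eˣ) : E) • x := by
    rw [AddEquiv.symm_apply_eq, hc, smul_smul, Units.mul_inv, _root_.one_smul]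
  rw [mem_act, hx]
  constructor
  · intro hy
    have := Submodule.smul_mem _ (c : E) hy
    rwa [smul_smul, Units.mul_inv, _root_.one_smul] at this
  · intro hy
    exact Submodule.smul_mem _ _ hy

/-- `G`-stable subspaces -/
def Stable (P : PAct G E X) (Y : Submodule E X) : Prop := ∀ g : G, ∀ y ∈ Y, P.ρ g y ∈ Y

theorem Stable.act_eq {P : PAct G E X} {Y : Submodule E X} (h : P.Stable Y) (g : G) : P.act g Y = Y := by
  have key : ∀ g : G, Y ≤ P.act g⁻¹ Y → P.act g Y ≤ Y := by
    intro g hg
    have := P.act_mono g hg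
    rwa [act_mul, mul_inv_cancel, act_one] at this
  have h1 : ∀ g : G, P.act g Y ≤ Y := by
    intro g x hx
    have := h g _ hx
    simpa using this
  refine le_antisymm (h1 g) ?_
  have := P.act_mono g (h1 g⁻¹)
  rwa [act_mul, mul_inv_cancel, act_one] at this

theorem stable_iff_act (P : PAct G E X) (Y : Submodule E X) : P.Stable Y ↔ ∀ g, P.act g Y = Y := by
  refine ⟨fun h g => h.act_eq g, fun h g y hy => ?_⟩
  rw [← h g, ρ_mem_act]
  exact hy

theorem Stable.symm_mem {P : PAct G E X} {Y : Submodule E X} (h : P.Stable Y) (g : G) {y : X} (hy : y ∈ Y) :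
    (P.ρ g).symm y ∈ Y := by
  have : y ∈ P.act g Y := by rw [h.act_eq g]; exact hy
  exact this

/-- pull back along a group homomorphism -/
def comp (P : PAct G E X) {G' : Type} [Group G'] (f : G' →* G) : PAct G' E X where
  ρ g := P.ρ (f g)
  σ g := P.σ (f g)
  semi g := P.semi (f g)
  mul g h := by rw [map_mul]; exact P.mul (f g) (f h)

@[simp] theorem comp_act (P : PAct G E X) {G' : Type} [Group G'] (f : G' →* G) (g : G') (Y : Submodule E X) :
    (P.comp f).act g Y = P.act (f g) Y := rfl

/-- restriction to a subgroup -/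
abbrev res (P : PAct G E X) (H : Subgroup G) : PAct H E X := P.comp H.subtype

/-- restriction to a stable subspace -/
def sub (P : PAct G E X) (Y : Submodule E X) (hY : P.Stable Y) : PAct G E Y where
  ρ g :=
    { toFun := fun y => ⟨P.ρ g y, hY g y y.2⟩
      invFun := fun y => ⟨(P.ρ g).symm y, hY.symm_mem g y.2⟩
      left_inv := fun y => by simp
      right_inv := fun y => by simp
      map_add' := fun a b => by ext; simp }
  σ := P.σ
  semi g e x := by ext; simp [P.semi]
  mul g h := by
    obtain ⟨c, hc⟩ := P.mul g h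
    exact ⟨c, fun x => by ext; simp [hc]⟩

@[simp] theorem sub_ρ_coe (P : PAct G E X) (Y : Submodule E X) (hY : P.Stable Y) (g : G) (y : Y) :
    (((P.sub Y hY).ρ g y : Y) : X) = P.ρ g y := rfl

/-- the quotient by a stable subspace -/
def quot (P : PAct G E X) (Y : Submodule E X) (hY : P.Stable Y) : PAct G E (X ⧸ Y) where
  ρ g :=
    { toFun := fun x => Quotient.liftOn' x (fun x => (Submodule.Quotient.mk (P.ρ g x) : X ⧸ Y)) (by
        intro a b hab
        rw [Submodule.quotientRel_def] at hab
        rw [Submodule.Quotient.eq, ← map_sub]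
        exact hY g _ hab)
      invFun := fun x => Quotient.liftOn' x (fun x => (Submodule.Quotient.mk ((P.ρ g).symm x) : X ⧸ Y)) (by
        intro a b hab
        rw [Submodule.quotientRel_def] at hab
        rw [Submodule.Quotient.eq, ← map_sub]
        exact hY.symm_mem g hab)
      left_inv := by
        intro x
        induction x using Submodule.Quotient.induction_on with
        | _ x => exact congrArg _ ((P.ρ g).symm_apply_apply x)
      right_inv := by
        intro x
        induction x using Submodule.Quotient.induction_on with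
        | _ x => exact congrArg _ ((P.ρ g).apply_symm_apply x)
      map_add' := by
        intro a b
        induction a using Submodule.Quotient.induction_on with
        | _ a =>
        induction b using Submodule.Quotient.induction_on with
        | _ b => exact congrArg _ ((P.ρ g).map_add a b) }
  σ := P.σ
  semi g e x := by
    induction x using Submodule.Quotient.induction_on with
    | _ x => exact congrArg _ (P.semi g e x)
  mul g h := by
    obtain ⟨c, hc⟩ := P.mul g h
    refine ⟨c, fun x => ?_⟩
    induction x using Submodule.Quotient.induction_on with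
    | _ x => exact congrArg _ (hc x)

@[simp] theorem quot_ρ_mk (P : PAct G E X) (Y : Submodule E X) (hY : P.Stable Y) (g : G) (x : X) :
    (P.quot Y hY).ρ g (Submodule.Quotient.mk x) = Submodule.Quotient.mk (P.ρ g x) := rfl

/-- ascending chain condition on stable subspaces -/
def Noeth (P : PAct G E X) : Prop :=
  ∀ f : ℕ → Submodule E X, (∀ n, P.Stable (f n)) → Monotone f → ∃ n, ∀ m, n ≤ m → f m = f n

/-- `X` is generated, as a `G`-stable subspace, by finitely many elements -/
def FGen (P : PAct G E X) (Y : Submodule E X) : Prop :=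
  ∃ s : Finset X, Y = Submodule.span E {x : X | ∃ g : G, ∃ y ∈ s, x = P.ρ g y}

end PAct

/-! ### Goodness -/

/-- a system is *good* if there are `d`, `l` such that for all `g ∈ G` all finite dimensional `g`-stable subspaces `B` satisfy
`Cl g d l ⊥ B` -/
def PAct.Good {G : Type} [Group G] {E : Type} [DivisionRing E] {X : Type} [AddCommGroup X] [Module E X] (P : PAct G E X) : Prop :=
  ∃ d l : ℕ, ∀ (g : G) (B : Submodule E X), B.FG → C3da71.Stable (P.ρ g) B → Cl (P.ρ g) d l ⊥ B

theorem PAct.hst_iff {G : Type} [Group G] {E : Type} [DivisionRing E] {X : Type} [AddCommGroup X] [Module E X]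
    (P : PAct G E X) (g : G) (Y : Submodule E X) : C3da71.Stable (P.ρ g) Y ↔ P.act g Y = Y := by
  constructor
  · intro h
    ext x
    rw [P.mem_act, ← h]
    simp
  · intro h x
    rw [← P.ρ_mem_act g Y x, h]

/-- the induction hypothesis: all Noetherian systems over division rings with a polycyclic group of Hirsch length
`≤ n` are good -/
def AllGood (n : ℕ) : Prop :=
  ∀ (G : Type) [Group G], PC G → HC n G → ∀ (E : Type) [DivisionRing E] (X : Type) [AddCommGroup X] [Module E X]
    (P : PAct G E X), P.Noeth → P.Good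

/-! ### The operator ring of a normal subgroup -/

namespace PAct

variable {G : Type} [Group G] {E : Type} [Ring E] {X : Type} [AddCommGroup X] [Module E X]

/-- stability under a subgroup -/
def BStable (P : PAct G E X) (B : Subgroup G) (Y : Submodule E X) : Prop := ∀ b ∈ B, ∀ y ∈ Y, P.ρ b y ∈ Y

/-- the subring of `End X` generated by the scalars and `ρ b`, `b ∈ B` (the image of `E * B`) -/
def opRing (P : PAct G E X) (B : Subgroup G) : Subring (AddMonoid.End X) :=
  Subring.closure ({f | ∃ e : E, ∀ x, f x = e • x} ∪ {f | ∃ b ∈ B, ∀ x, f x = P.ρ b x})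

/-- `X` is torsion-free over `E * B` -/
def TF (P : PAct G E X) (B : Subgroup G) : Prop :=
  ∀ x : X, x ≠ 0 → LinearIndependent E (fun b : B => P.ρ (b : G) x)

end PAct

end C3da71
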