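import Mathlib

set_option autoImplicit false

namespace C3da71

/-- action of a group on an abelian group by automorphisms -/
structure AAct (Q A : Type) [Group Q] [AddCommGroup A] where
  ρ : Q → A ≃+ A
  one : ∀ x, ρ 1 x = x
  mul : ∀ g h x, ρ (g * h) x = ρ g (ρ h x)

section Basic

variable {Q A : Type} [Group Q] [AddCommGroup A]

/-- stable additive subgroups -/
def AAct.Stable (P : AAct Q A) (B : AddSubgroup A) : Prop := ∀ g x, x ∈ B → P.ρ g x ∈ B

/-- ascending chain condition on stable additive subgroups -/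
def AAct.Noeth (P : AAct Q A) : Prop :=
  ∀ f : ℕ → AddSubgroup A, (∀ n, P.Stable (f n)) → Monotone f → ∃ n, ∀ m, n ≤ m → f m = f n

/-- property (E) on a subgroup -/
def AAct.EOn (P : AAct Q A) (B : AddSubgroup A) : Prop :=
  ∃ e : ℕ, 1 ≤ e ∧ ∀ (g : Q) (a : A) (n : ℕ), a ∈ B → 1 ≤ n →
    (P.ρ g)^[n] a = a → (P.ρ g)^[e] a = a

/-- property (E) -/
def AAct.E (P : AAct Q A) : Prop :=
  ∃ e : ℕ, 1 ≤ e ∧ ∀ (g : Q) (a : A) (n : ℕ), 1 ≤ n →
    (P.ρ g)^[n] a = a → (P.ρ g)^[e] a = a

theorem AAct.inv_apply (P : AAct Q A) (g : Q) (x : A) : P.ρ g⁻¹ (P.ρ g x) = x := by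
  rw [← P.mul, inv_mul_cancel, P.one]

theorem AAct.apply_inv (P : AAct Q A) (g : Q) (x : A) : P.ρ g (P.ρ g⁻¹ x) = x := by
  rw [← P.mul, mul_inv_cancel, P.one]

theorem AAct.iterate (P : AAct Q A) (g : Q) (n : ℕ) (x : A) :
    (P.ρ g)^[n] x = P.ρ (g ^ n) x := by
  induction n generalizing x with
  | zero => simp [P.one]
  | succ n ih => rw [Function.iterate_succ_apply, ih, pow_succ, P.mul]

/-- torsion is bounded -/
theorem AAct.Noeth.torsion_bound {P : AAct Q A} (h : P.Noeth) :
    ∃ T : ℕ, 1 ≤ T ∧ ∀ (a : A) (k : ℕ), 1 ≤ k → k • a = 0 → T • a = 0 := by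
  obtain ⟨N, hN⟩ := h (fun n => (nsmulAddMonoidHom (n.factorial) : A →+ A).ker)
    (fun n g x hx => by
      rw [AddMonoidHom.mem_ker] at hx ⊢
      change n.factorial • x = 0 at hx
      change n.factorial • (P.ρ g x) = 0
      rw [← map_nsmul, hx, map_zero])
    (fun m n hmn x hx => by
      rw [AddMonoidHom.mem_ker] at hx ⊢
      change m.factorial • x = 0 at hx
      change n.factorial • x = 0
      obtain ⟨c, hc⟩ := Nat.factorial_dvd_factorial hmn
      rw [hc, mul_comm, mul_smul, hx, smul_zero])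
  refine ⟨N.factorial, Nat.factorial_pos N, fun a k hk ha => ?_⟩
  have h1 : a ∈ (nsmulAddMonoidHom ((max N k).factorial) : A →+ A).ker := by
    rw [AddMonoidHom.mem_ker]
    change (max N k).factorial • a = 0
    obtain ⟨c, hc⟩ := Nat.dvd_factorial (by omega : 0 < k) (le_max_right N k)
    rw [hc, mul_comm, mul_smul, ha, smul_zero]
  have h2 : (nsmulAddMonoidHom ((max N k).factorial) : A →+ A).ker =
    (nsmulAddMonoidHom (N.factorial) : A →+ A).ker := hN (max N k) (le_max_left N k)
  rw [h2] at h1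
  exact h1

/-- extension lemma -/
theorem AAct.EOn.extension {P : AAct Q A} (B C : AddSubgroup A) {T : ℕ} (hT0 : 1 ≤ T)
    (hT : ∀ (a : A) (k : ℕ), 1 ≤ k → k • a = 0 → T • a = 0) (hB : P.EOn B)
    (hCB : ∃ e : ℕ, 1 ≤ e ∧ ∀ (g : Q) (a : A) (n : ℕ), a ∈ C → 1 ≤ n →
      (P.ρ g)^[n] a = a → (P.ρ g)^[e] a - a ∈ B) : P.EOn C := by
  obtain ⟨e₁, he₁, h1⟩ := hB
  obtain ⟨e₂, he₂, h2⟩ := hCB
  refine ⟨e₂ * e₁ * T, Nat.mul_pos (Nat.mul_pos he₂ he₁) hT0, fun g a n haC hn ha => ?_⟩
  set h : A → A := (P.ρ g)^[e₂ * e₁] with hh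
  set b : A := (P.ρ g)^[e₂] a - a with hb
  have hbB : b ∈ B := h2 g a n haC hn ha
  have hsub : ∀ (m : ℕ) (x y : A), (P.ρ g)^[m] (x - y) = (P.ρ g)^[m] x - (P.ρ g)^[m] y :=
    fun m x y => iterate_map_sub (P.ρ g) m x y
  have hadd : ∀ (m : ℕ) (x y : A), (P.ρ g)^[m] (x + y) = (P.ρ g)^[m] x + (P.ρ g)^[m] y :=
    fun m x y => iterate_map_add (P.ρ g) m x y
  have hbper : (P.ρ g)^[n] b = b := by
    rw [hb, hsub, ← Function.iterate_add_apply, add_comm, Function.iterate_add_apply, ha]
  have hb1 : (P.ρ g)^[e₁] b = b := h1 g b n hbB hn hbper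
  -- h a = a + b' with b' fixed by h
  have hha : ∀ k : ℕ, ∃ c : A, (P.ρ g)^[e₂ * k] a = a + c ∧ (P.ρ g)^[e₁] c = c := by
    intro k
    induction k with
    | zero => exact ⟨0, by simp, by simp⟩
    | succ k ih =>
      obtain ⟨c, hc, hc2⟩ := ih
      refine ⟨b + (P.ρ g)^[e₂] c, ?_, ?_⟩
      · rw [Nat.mul_succ, add_comm, Function.iterate_add_apply, hc, hadd]
        have : (P.ρ g)^[e₂] a = a + b := by rw [hb]; abel
        rw [this]; abel
      · have h7 : (P.ρ g)^[e₁] ((P.ρ g)^[e₂] c) = (P.ρ g)^[e₂] ((P.ρ g)^[e₁] c) := by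
          rw [← Function.iterate_add_apply, Nat.add_comm, Function.iterate_add_apply]
        rw [hadd, hb1, h7, hc2]
  obtain ⟨c, hc, hc2⟩ := hha e₁
  have hhc : h c = c := by
    rw [hh, mul_comm, Function.iterate_mul]
    exact Function.iterate_fixed hc2 e₂
  have hsm : ∀ k : ℕ, h (k • c) = k • c := by
    intro k
    induction k with
    | zero => rw [zero_smul, hh]; simp
    | succ k ih => rw [succ_nsmul, hh, hadd, ← hh, ih, hhc]
  have hiter : ∀ k : ℕ, h^[k] a = a + k • c := by
    intro k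
    induction k with
    | zero => simp
    | succ k ih =>
      rw [Function.iterate_succ_apply', ih]
      have h4 : h a = a + c := hc
      have h3 : h (a + k • c) = h a + h (k • c) := by
        rw [hh, hadd]
      rw [h3, hsm, h4, succ_nsmul]; abel
  have hn0 : n • c = 0 := by
    have h5 : h^[n] a = a := by
      rw [hh, ← Function.iterate_mul, mul_comm, Function.iterate_mul]
      exact Function.iterate_fixed ha _
    rw [hiter] at h5
    simpa using h5
  rw [Function.iterate_mul, ← hh, hiter, hT c n hn hn0, add_zero]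

/-- quotient action -/
def AAct.quot (P : AAct Q A) (B : AddSubgroup A) (hB : P.Stable B) : AAct Q (A ⧸ B) where
  ρ g := QuotientAddGroup.congr B B (P.ρ g) (by
    ext x
    constructor
    · rintro ⟨y, hy, rfl⟩
      exact hB g y hy
    · intro hx
      exact ⟨P.ρ g⁻¹ x, hB g⁻¹ x hx, P.apply_inv g x⟩)
  one x := by
    obtain ⟨y, rfl⟩ := QuotientAddGroup.mk_surjective x
    change (QuotientAddGroup.mk ((P.ρ 1) y) : A ⧸ B) = QuotientAddGroup.mk y
    rw [P.one]
  mul g h x := by
    obtain ⟨y, rfl⟩ := QuotientAddGroup.mk_surjective x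
    change (QuotientAddGroup.mk ((P.ρ (g * h)) y) : A ⧸ B) =
      QuotientAddGroup.mk ((P.ρ g) (P.ρ h y))
    rw [P.mul]

theorem AAct.quot_mk (P : AAct Q A) (B : AddSubgroup A) (hB : P.Stable B) (g : Q) (x : A) :
    (P.quot B hB).ρ g (QuotientAddGroup.mk x) = QuotientAddGroup.mk (P.ρ g x) := rfl

/-- restricted action -/
def AAct.sub (P : AAct Q A) (B : AddSubgroup A) (hB : P.Stable B) : AAct Q B where
  ρ g :=
    { toFun := fun x => ⟨P.ρ g x, hB g x x.2⟩
      invFun := fun x => ⟨P.ρ g⁻¹ x, hB g⁻¹ x x.2⟩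
      left_inv := fun x => Subtype.ext (P.inv_apply g x)
      right_inv := fun x => Subtype.ext (P.apply_inv g x)
      map_add' := fun x y => Subtype.ext (map_add (P.ρ g) (x : A) (y : A)) }
  one x := Subtype.ext (P.one x)
  mul g h x := Subtype.ext (P.mul g h x)

theorem AAct.sub_coe (P : AAct Q A) (B : AddSubgroup A) (hB : P.Stable B) (g : Q) (x : B) :
    (((P.sub B hB).ρ g x : B) : A) = P.ρ g x := rfl

theorem AAct.Noeth.quot {P : AAct Q A} (h : P.Noeth) (B : AddSubgroup A)
    (hB : P.Stable B) : (P.quot B hB).Noeth := by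
  intro f hf hmono
  obtain ⟨n, hn⟩ := h (fun n => (f n).comap (QuotientAddGroup.mk' B))
    (fun n g x hx => hf n g _ hx) (fun m n hmn => AddSubgroup.comap_mono (hmono hmn))
  refine ⟨n, fun m hm => ?_⟩
  exact AddSubgroup.comap_injective (QuotientAddGroup.mk'_surjective B) (hn m hm)

theorem AAct.Noeth.sub {P : AAct Q A} (h : P.Noeth) (B : AddSubgroup A)
    (hB : P.Stable B) : (P.sub B hB).Noeth := by
  intro f hf hmono
  obtain ⟨n, hn⟩ := h (fun n => (f n).map B.subtype)
    (fun n g x hx => by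
      obtain ⟨y, hy, rfl⟩ := hx
      exact ⟨_, hf n g y hy, rfl⟩) (fun m n hmn => AddSubgroup.map_mono (hmono hmn))
  refine ⟨n, fun m hm => ?_⟩
  exact AddSubgroup.map_injective B.subtype_injective (hn m hm)

theorem AAct.sub_iterate (P : AAct Q A) (B : AddSubgroup A) (hB : P.Stable B) (g : Q)
    (n : ℕ) : ∀ x : B, ((((P.sub B hB).ρ g)^[n] x : B) : A) = (P.ρ g)^[n] (x : A) := by
  induction n with
  | zero => intro x; rfl
  | succ n ih =>
    intro x
    rw [Function.iterate_succ_apply, Function.iterate_succ_apply, ih]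
    rfl

theorem AAct.quot_iterate (P : AAct Q A) (B : AddSubgroup A) (hB : P.Stable B) (g : Q)
    (n : ℕ) : ∀ x : A, ((P.quot B hB).ρ g)^[n] (QuotientAddGroup.mk x) =
      QuotientAddGroup.mk ((P.ρ g)^[n] x) := by
  induction n with
  | zero => intro x; rfl
  | succ n ih =>
    intro x
    rw [Function.iterate_succ_apply, Function.iterate_succ_apply, P.quot_mk, ih]

/-- Noetherian induction: if every nonzero Noetherian action of `Q` has a nonzero stable subgroup
with (E), then every Noetherian action has (E). -/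
theorem AAct.E_of_exists
    (hex : ∀ (A : Type) [AddCommGroup A] (P : AAct Q A), P.Noeth → Nontrivial A →
      ∃ B : AddSubgroup A, P.Stable B ∧ B ≠ ⊥ ∧ P.EOn B)
    (P : AAct Q A) (h : P.Noeth) : P.E := by
  classical
  obtain ⟨T, hT0, hT⟩ := h.torsion_bound
  -- a maximal stable subgroup with (E)
  have hmax : ∃ B : AddSubgroup A, P.Stable B ∧ P.EOn B ∧
      ∀ C : AddSubgroup A, P.Stable C → P.EOn C → B ≤ C → C = B := by
    by_contra hcon
    push Not at hcon
    have hbot : P.Stable (⊥ : AddSubgroup A) ∧ P.EOn (⊥ : AddSubgroup A) := by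
      refine ⟨fun g x hx => ?_, 1, le_rfl, fun g a n ha _ _ => ?_⟩
      · rw [AddSubgroup.mem_bot] at hx ⊢
        rw [hx, map_zero]
      · rw [AddSubgroup.mem_bot] at ha
        rw [ha]; simp
    choose! F hF1 hF2 hF3 hF4 using hcon
    let f : ℕ → {B : AddSubgroup A // P.Stable B ∧ P.EOn B} := fun n =>
      Nat.rec ⟨⊥, hbot⟩ (fun _ B => ⟨F B.1, hF1 B.1 B.2.1 B.2.2, hF2 B.1 B.2.1 B.2.2⟩) n
    have hfs : ∀ n, (f (n + 1)).1 = F (f n).1 := fun n => rfl
    have hmono : Monotone (fun n => (f n).1) := by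
      apply monotone_nat_of_le_succ
      intro n
      rw [hfs]
      exact hF3 _ (f n).2.1 (f n).2.2
    obtain ⟨n, hn⟩ := h (fun n => (f n).1) (fun n => (f n).2.1) hmono
    have h1 := hn (n + 1) (Nat.le_succ n)
    simp only [hfs] at h1
    exact hF4 _ (f n).2.1 (f n).2.2 h1
  obtain ⟨B, hBs, hBE, hBmax⟩ := hmax
  have hBtop : B = ⊤ := by
    by_contra hne
    have hnt : Nontrivial (A ⧸ B) := by
      rw [QuotientAddGroup.nontrivial_iff]
      exact hne
    obtain ⟨C, hCs, hCne, e, he, hCE⟩ := hex (A ⧸ B) (P.quot B hBs) (h.quot B hBs) hnt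
    let D : AddSubgroup A := C.comap (QuotientAddGroup.mk' B)
    have hBD : B ≤ D := by
      intro x hx
      change (QuotientAddGroup.mk x : A ⧸ B) ∈ C
      rw [(QuotientAddGroup.eq_zero_iff x).2 hx]
      exact C.zero_mem
    have hDs : P.Stable D := fun g x hx => hCs g _ hx
    have hDE : P.EOn D := by
      refine AAct.EOn.extension B D hT0 hT hBE ⟨e, he, fun g a n haD hn ha => ?_⟩
      have h2 := hCE g (QuotientAddGroup.mk a) n haD hn (by rw [P.quot_iterate, ha])
      rw [P.quot_iterate] at h2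
      have h3 := QuotientAddGroup.eq.1 h2.symm
      rw [neg_add_eq_sub] at h3
      exact h3
    have hDB := hBmax D hDs hDE hBD
    apply hCne
    rw [eq_bot_iff]
    intro q hq
    obtain ⟨x, rfl⟩ := QuotientAddGroup.mk_surjective q
    have hx : x ∈ D := hq
    rw [hDB] at hx
    rw [AddSubgroup.mem_bot]
    exact (QuotientAddGroup.eq_zero_iff x).2 hx
  obtain ⟨e, he, hE⟩ := hBE
  exact ⟨e, he, fun g a n hn ha => hE g a n (by rw [hBtop]; trivial) hn ha⟩

/-- Reduction of (E) over `ℤ` to (E) over the prime fields. -/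
theorem AAct.E_of_fields
    (hp : ∀ (p : ℕ) [Fact p.Prime] (A : Type) [AddCommGroup A] [Module (ZMod p) A]
      (P : AAct Q A), P.Noeth → P.E)
    (h0 : ∀ (V : Type) [AddCommGroup V] [Module ℚ V] (P : AAct Q V),
      (∀ f : ℕ → Submodule ℚ V, (∀ n, P.Stable (f n).toAddSubgroup) → Monotone f →
        ∃ n, ∀ m, n ≤ m → f m = f n) → P.E)
    (P : AAct Q A) (h : P.Noeth) : P.E := by
  refine AAct.E_of_exists ?_ P h
  intro A _ P hP hnt
  by_cases htors : ∃ p : ℕ, p.Prime ∧ ∃ a : A, a ≠ 0 ∧ p • a = 0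
  · obtain ⟨p, hpp, a, ha0, hpa⟩ := htors
    have : Fact p.Prime := ⟨hpp⟩
    let B : AddSubgroup A := (nsmulAddMonoidHom p : A →+ A).ker
    have hmemB : ∀ x, x ∈ B ↔ p • x = 0 := fun x => Iff.rfl
    have hBs : P.Stable B := by
      intro g x hx
      rw [hmemB] at hx ⊢
      rw [← map_nsmul, hx, map_zero]
    let inst : Module (ZMod p) B := AddCommGroup.zmodModule (fun x => Subtype.ext x.2)
    obtain ⟨e, he, hE⟩ := hp p B (P.sub B hBs) (hP.sub B hBs)
    refine ⟨B, hBs, ?_, e, he, fun g x n hx hn hgx => ?_⟩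
    · intro hbot
      have : a ∈ B := hpa
      rw [hbot, AddSubgroup.mem_bot] at this
      exact ha0 this
    · have h2 := hE g ⟨x, hx⟩ n hn (by
        apply Subtype.ext
        rw [P.sub_iterate]
        exact hgx)
      have h3 := congrArg Subtype.val h2
      rw [P.sub_iterate] at h3
      exact h3
  · push Not at htors
    have htf : ∀ (n : ℕ) (a : A), 1 ≤ n → n • a = 0 → a = 0 := by
      intro n
      induction n using Nat.strong_induction_on with
      | _ n ih =>
        intro a hn hna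
        by_cases hn1 : n = 1
        · subst hn1; simpa using hna
        · obtain ⟨p, hp, m, rfl⟩ := Nat.exists_prime_and_dvd hn1
          have hm : 1 ≤ m := by
            rcases Nat.eq_zero_or_pos m with h | h
            · subst h; simp at hn
            · exact h
          have hlt : m < p * m := by
            have := hp.two_le
            nlinarith
          refine ih m hlt a hm ?_
          by_contra hma
          exact htors p hp (m • a) hma (by rw [← mul_smul]; exact hna)
    -- the divisible hull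
    let V := TensorProduct ℤ ℚ A
    let ι : A →ₗ[ℤ] V := TensorProduct.mk ℤ ℚ A 1
    have hloc : IsLocalizedModule (nonZeroDivisors ℤ) ι :=
      (isLocalizedModule_iff_isBaseChange (nonZeroDivisors ℤ) ℚ ι).2
        (TensorProduct.isBaseChange ℤ A ℚ)
    let PV : AAct Q V :=
      { ρ := fun g => (TensorProduct.congr (LinearEquiv.refl ℤ ℚ)
          ((P.ρ g).toIntLinearEquiv)).toAddEquiv
        one := by
          intro x
          induction x using TensorProduct.induction_on with
          | zero => exact map_zero _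
          | tmul q a =>
            change q ⊗ₜ[ℤ] (P.ρ 1 a) = q ⊗ₜ[ℤ] a
            rw [P.one]
          | add x y hx hy => rw [map_add, hx, hy]
        mul := by
          intro g h x
          induction x using TensorProduct.induction_on with
          | zero => rw [map_zero, map_zero, map_zero]
          | tmul q a =>
            change q ⊗ₜ[ℤ] (P.ρ (g * h) a) = q ⊗ₜ[ℤ] (P.ρ g (P.ρ h a))
            rw [P.mul]
          | add x y hx hy => rw [map_add, map_add, map_add, hx, hy] }
    have hι : ∀ g a, PV.ρ g (ι a) = ι (P.ρ g a) := fun g a => rfl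
    have hιit : ∀ g n a, (PV.ρ g)^[n] (ι a) = ι ((P.ρ g)^[n] a) := by
      intro g n
      induction n with
      | zero => intro a; rfl
      | succ n ih => intro a; rw [Function.iterate_succ_apply, Function.iterate_succ_apply, hι, ih]
    have hinj : Function.Injective ι := by
      rw [injective_iff_map_eq_zero]
      intro a ha
      obtain ⟨c, hc⟩ := (IsLocalizedModule.eq_zero_iff (nonZeroDivisors ℤ) ι).1 ha
      have hc0 : (c : ℤ) ≠ 0 := nonZeroDivisors.coe_ne_zero c
      refine htf (c : ℤ).natAbs a (by omega) ?_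
      have hc' : (c : ℤ) • a = 0 := hc
      rcases Int.natAbs_eq (c : ℤ) with h3 | h3
      · rw [h3, natCast_zsmul] at hc'
        exact hc'
      · rw [h3, neg_smul, natCast_zsmul, neg_eq_zero] at hc'
        exact hc'
    obtain ⟨e, he, hE⟩ := h0 V PV (by
      intro f hf hmono
      obtain ⟨n, hn⟩ := hP (fun n => (f n).toAddSubgroup.comap ι.toAddMonoidHom)
        (fun n g x hx => by
          change ι (P.ρ g x) ∈ f n
          rw [← hι]
          exact hf n g _ hx)
        (fun m n hmn x hx => hmono hmn hx)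
      refine ⟨n, fun m hm => le_antisymm ?_ (hmono hm)⟩
      intro v hv
      obtain ⟨⟨a, s⟩, hs⟩ := IsLocalizedModule.surj (nonZeroDivisors ℤ) ι v
      have hs' : (s : ℤ) • v = ι a := hs
      have hs0 : (s : ℤ) ≠ 0 := nonZeroDivisors.coe_ne_zero s
      have h1 : a ∈ (f m).toAddSubgroup.comap ι.toAddMonoidHom := by
        change ι a ∈ f m
        rw [← hs']
        exact zsmul_mem hv _
      rw [hn m hm] at h1
      have h2 : ι a ∈ f n := h1
      have h3 : v = ((s : ℤ) : ℚ)⁻¹ • ι a := by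
        rw [← hs', ← Int.cast_smul_eq_zsmul ℚ, smul_smul, inv_mul_cancel₀, one_smul]
        exact_mod_cast hs0
      rw [h3]
      exact (f n).smul_mem _ h2)
    refine ⟨⊤, fun g x _ => trivial, ?_, e, he, fun g x n _ hn hgx => ?_⟩
    · intro hbot
      obtain ⟨x, hx⟩ := exists_ne (0 : A)
      have : x ∈ (⊤ : AddSubgroup A) := trivial
      rw [hbot, AddSubgroup.mem_bot] at this
      exact hx this
    · apply hinj
      rw [← hιit]
      apply hE g (ι x) n hn
      rw [hιit, hgx]

end Basic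

end C3da71
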