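import Mathlib

set_option autoImplicit false

namespace C3da71

/-- Polycyclic groups, in the form used by the frozen statement: soluble with all subgroups
finitely generated. -/
structure PC (G : Type*) [Group G] : Prop where
  sol : Group.IsSolvable G
  fg : ∀ K : Subgroup G, K.FG

theorem PC.of_injective {G H : Type*} [Group G] [Group H] (hG : PC G) (f : H →* G)
    (hf : Function.Injective f) : PC H := by
  refine ⟨?_, ?_⟩
  · have := hG.sol
    exact Group.isSolvable_of_isSolvable_injective hf
  · intro K
    have h1 := hG.fg (K.map f)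
    exact (Subgroup.fg_iff_submonoid_fg _).2 (by
      have h2 := (Subgroup.fg_iff_submonoid_fg _).1 h1
      have h3 : (K.map f).toSubmonoid = K.toSubmonoid.map f := rfl
      rw [h3] at h2
      exact Submonoid.FG.map_injective f hf h2)

theorem PC.subgroup {G : Type*} [Group G] (hG : PC G) (H : Subgroup G) : PC H :=
  hG.of_injective H.subtype H.subtype_injective

theorem PC.of_surjective {G H : Type*} [Group G] [Group H] (hG : PC G) (f : G →* H)
    (hf : Function.Surjective f) : PC H := by
  refine ⟨?_, ?_⟩
  · have := hG.sol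
    exact Group.isSolvable_of_surjective hf
  · intro K
    have h1 := hG.fg (K.comap f)
    have h2 := (Subgroup.fg_iff_submonoid_fg _).1 h1
    have h4 := Submonoid.FG.map h2 f
    have h5 : (K.comap f).toSubmonoid.map f = ((K.comap f).map f).toSubmonoid := rfl
    rw [h5, Subgroup.map_comap_eq_self_of_surjective hf] at h4
    exact (Subgroup.fg_iff_submonoid_fg _).2 h4

theorem PC.quotient {G : Type*} [Group G] (hG : PC G) (N : Subgroup G) [N.Normal] : PC (G ⧸ N) :=
  hG.of_surjective (QuotientGroup.mk' N) (QuotientGroup.mk'_surjective N)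

theorem PC.of_equiv {G H : Type*} [Group G] [Group H] (hG : PC G) (e : G ≃* H) : PC H :=
  hG.of_surjective e.toMonoidHom e.surjective

/-- Induction principle for polycyclic groups along abelian normal subgroups. -/
theorem PC.induction {P : ∀ (G : Type) [Group G], Prop}
    (h0 : ∀ (G : Type) [Group G] [Subsingleton G], P G)
    (h1 : ∀ (G : Type) [Group G] (N : Subgroup G) [N.Normal], PC G →
      (∀ a ∈ N, ∀ b ∈ N, a * b = b * a) → P (G ⧸ N) → P G) :
    ∀ (G : Type) [Group G], PC G → P G := by
  have key : ∀ (n : ℕ) (G : Type) [Group G], PC G → derivedSeries G n = ⊥ → P G := by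
    intro n
    induction n with
    | zero =>
      intro G _ _ h
      rw [derivedSeries_zero] at h
      have : Subsingleton G := by
        refine ⟨fun a b => ?_⟩
        have ha : a ∈ (⊤ : Subgroup G) := trivial
        have hb : b ∈ (⊤ : Subgroup G) := trivial
        rw [h, Subgroup.mem_bot] at ha hb
        rw [ha, hb]
      exact h0 G
    | succ n ih =>
      intro G _ hG h
      have : (derivedSeries G n).Normal := derivedSeries_normal G n
      refine h1 G (derivedSeries G n) hG ?_ (ih _ (hG.quotient _) ?_)
      · intro a ha b hb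
        have h2 : a * b * a⁻¹ * b⁻¹ ∈ derivedSeries G (n + 1) := by
          rw [derivedSeries_succ]
          exact Subgroup.commutator_mem_commutator ha hb
        rw [h, Subgroup.mem_bot] at h2
        rw [mul_inv_eq_one, mul_inv_eq_iff_eq_mul] at h2
        exact h2
      · rw [← map_derivedSeries_eq (QuotientGroup.mk'_surjective (derivedSeries G n)) n]
        rw [Subgroup.map_eq_bot_iff, QuotientGroup.ker_mk']
  intro G _ hG
  obtain ⟨n, hn⟩ := hG.sol
  exact key n G hG hn

/-- `HC n G`: descending chains of subgroups have at most `n` steps of infinite index. -/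
def HC (n : ℕ) (G : Type*) [Group G] : Prop :=
  ∀ H : ℕ → Subgroup G, Antitone H → ∀ N : ℕ,
    ((Finset.range N).filter (fun i => (H (i + 1)).relIndex (H i) = 0)).card ≤ n

theorem HC.mono {G : Type*} [Group G] {m n : ℕ} (h : HC m G) (hmn : m ≤ n) : HC n G :=
  fun H hH N => (h H hH N).trans hmn

theorem HC.of_injective {G K : Type*} [Group G] [Group K] {n : ℕ} (h : HC n G) (f : K →* G)
    (hf : Function.Injective f) : HC n K := by
  intro H hH N
  have h1 := h (fun i => (H i).map f) (fun i j hij => Subgroup.map_mono (hH hij)) N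
  refine le_trans (Finset.card_le_card ?_) h1
  intro i hi
  simp only [Finset.mem_filter] at hi ⊢
  refine ⟨hi.1, ?_⟩
  rw [Subgroup.relIndex_map_map_of_injective _ _ hf]
  exact hi.2

theorem HC.of_surjective {G K : Type*} [Group G] [Group K] {n : ℕ} (h : HC n G) (f : G →* K)
    (hf : Function.Surjective f) : HC n K := by
  intro H hH N
  have h1 := h (fun i => (H i).comap f) (fun i j hij => Subgroup.comap_mono (hH hij)) N
  refine le_trans (Finset.card_le_card ?_) h1
  intro i hi
  simp only [Finset.mem_filter] at hi ⊢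
  refine ⟨hi.1, ?_⟩
  rw [Subgroup.relIndex_comap, Subgroup.map_comap_eq_self_of_surjective hf]
  exact hi.2

theorem HC.of_equiv {G K : Type*} [Group G] [Group K] {n : ℕ} (h : HC n G) (e : G ≃* K) :
    HC n K := h.of_surjective e.toMonoidHom e.surjective

theorem HC.subgroup {G : Type*} [Group G] {n : ℕ} (h : HC n G) (K : Subgroup G) : HC n K :=
  h.of_injective K.subtype K.subtype_injective

theorem HC.of_finite {G : Type*} [Group G] [Finite G] : HC 0 G := by
  intro H hH N
  rw [Nat.le_zero, Finset.card_eq_zero, Finset.filter_eq_empty_iff]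
  intro i _
  have := Subgroup.isFiniteRelIndex_iff_relIndex_ne_zero (H := H (i + 1)) (K := H i)
  intro h
  have h1 := Subgroup.relIndex_dvd_card (H (i + 1)) (H i)
  rw [h, Nat.zero_dvd] at h1
  exact Nat.card_pos.ne' h1

theorem card_filter_range_succ (p : ℕ → Prop) [DecidablePred p] (N : ℕ) (h0 : p 0) :
    ((Finset.range (N + 1)).filter p).card =
      ((Finset.range N).filter (fun i => p (i + 1))).card + 1 := by
  rw [Finset.range_add_one', Finset.filter_insert, if_pos h0, Finset.card_insert_of_notMem]
  · congr 1
    rw [Finset.filter_map, Finset.card_map]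
    rfl
  · simp

/-- A subgroup of infinite index has smaller `hc`. -/
theorem HC.of_index_zero {G : Type*} [Group G] {n : ℕ} (h : HC (n + 1) G) (K : Subgroup G)
    (hK : K.index = 0) : HC n K := by
  classical
  intro H hH N
  let H' : ℕ → Subgroup G := fun i => if i = 0 then ⊤ else (H (i - 1)).map K.subtype
  have hH' : Antitone H' := by
    intro i j hij
    by_cases hi : i = 0
    · subst hi; simp [H']
    · have hj : j ≠ 0 := by omega
      simp only [H', hi, hj, if_false]
      exact Subgroup.map_mono (hH (by omega))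
  have h1 := h H' hH' (N + 1)
  rw [card_filter_range_succ _ N] at h1
  · have h2 : ((Finset.range N).filter (fun i => (H (i + 1)).relIndex (H i) = 0)) =
        ((Finset.range N).filter (fun i => (H' (i + 1 + 1)).relIndex (H' (i + 1)) = 0)) := by
      apply Finset.filter_congr
      intro i _
      simp only [H', Nat.succ_ne_zero, if_false, Nat.add_sub_cancel]
      rw [Subgroup.relIndex_map_map_of_injective _ _ K.subtype_injective]
    rw [h2]
    omega
  · simp only [H', zero_add, one_ne_zero, if_false, if_true, Subgroup.relIndex_top_right]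
    have h3 : (H (1 - 1)).map K.subtype ≤ K := Subgroup.map_subtype_le _
    rw [← Subgroup.relIndex_mul_index h3, hK, mul_zero]

theorem HC.false_of_index_zero {G : Type*} [Group G] (h : HC 0 G) (K : Subgroup G)
    (hK : K.index = 0) : False := by
  classical
  have h1 := h (fun i => if i = 0 then ⊤ else K) (by
    intro i j hij
    by_cases hi : i = 0
    · subst hi; simp
    · have hj : j ≠ 0 := by omega
      simp [hi, hj]) 1
  rw [card_filter_range_succ _ 0] at h1
  · omega
  · simpa using hK

theorem HC.finite {G : Type*} [Group G] (h : HC 0 G) : Finite G := by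
  by_contra hinf
  have : Infinite G := not_finite_iff_infinite.1 hinf
  exact h.false_of_index_zero ⊥ (by rw [Subgroup.index_bot]; exact Nat.card_eq_zero_of_infinite)

/-- The quotient by an infinite normal subgroup has smaller `hc`. -/
theorem HC.quotient_of_infinite {G : Type*} [Group G] {n : ℕ} (h : HC (n + 1) G)
    (N : Subgroup G) [N.Normal] (hN : Infinite N) : HC n (G ⧸ N) := by
  classical
  intro H hH M
  let H' : ℕ → Subgroup G := fun i => if i ≤ M then (H i).comap (QuotientGroup.mk' N) else ⊥
  have hH' : Antitone H' := by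
    intro i j hij
    by_cases hj : j ≤ M
    · have hi : i ≤ M := by omega
      simp only [H', hi, hj, if_true]
      exact Subgroup.comap_mono (hH hij)
    · simp [H', hj]
  have h1 := h H' hH' (M + 1)
  rw [Finset.range_add_one, Finset.filter_insert, if_pos, Finset.card_insert_of_notMem] at h1
  · have h2 : ((Finset.range M).filter (fun i => (H (i + 1)).relIndex (H i) = 0)) =
        ((Finset.range M).filter (fun i => (H' (i + 1)).relIndex (H' i) = 0)) := by
      apply Finset.filter_congr
      intro i hi
      have hi' : i < M := Finset.mem_range.1 hi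
      have h3 : i ≤ M := by omega
      have h4 : i + 1 ≤ M := by omega
      simp only [H', h3, h4, if_true]
      rw [Subgroup.relIndex_comap,
        Subgroup.map_comap_eq_self_of_surjective (QuotientGroup.mk'_surjective N)]
    rw [h2]
    omega
  · simp
  · have h5 : ¬ (M + 1 ≤ M) := by omega
    simp only [H', le_refl, if_true, h5, if_false]
    rw [Subgroup.relIndex_bot_left]
    have h6 : N ≤ (H M).comap (QuotientGroup.mk' N) := by
      intro x hx
      rw [Subgroup.mem_comap]
      have : QuotientGroup.mk' N x = 1 := (QuotientGroup.eq_one_iff x).2 hx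
      rw [this]
      exact one_mem _
    have : Infinite ((H M).comap (QuotientGroup.mk' N)) :=
      Infinite.of_injective (Subgroup.inclusion h6) (Subgroup.inclusion_injective h6)
    exact Nat.card_eq_zero_of_infinite

theorem relIndex_ne_zero_of_ext {G : Type*} [Group G] (N : Subgroup G) [N.Normal]
    (H' H : Subgroup G) (hle : H' ≤ H) (h1 : H'.relIndex (N ⊓ H) ≠ 0)
    (h2 : (H'.map (QuotientGroup.mk' N)).relIndex (H.map (QuotientGroup.mk' N)) ≠ 0) :
    H'.relIndex H ≠ 0 := by
  have h3 : (H' ⊔ N).relIndex H ≠ 0 := by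
    have h4 : H' ⊔ N = (H'.map (QuotientGroup.mk' N)).comap (QuotientGroup.mk' N) := by
      rw [Subgroup.comap_map_eq, QuotientGroup.ker_mk']
    rw [h4, Subgroup.relIndex_comap]
    exact h2
  have h5 : H'.relIndex ((H' ⊔ N) ⊓ H) ≠ 0 := by
    have hle' : N ⊓ H ≤ (H' ⊔ N) ⊓ H := inf_le_inf_right _ le_sup_right
    let φ := Subgroup.quotientSubgroupOfEmbeddingOfLE H' hle'
    have hφ : Function.Surjective φ := by
      intro q
      obtain ⟨x, rfl⟩ := QuotientGroup.mk_surjective q
      have hx1 : (x : G) ∈ N ⊔ H' := by rw [sup_comm]; exact x.2.1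
      rw [← SetLike.mem_coe, Subgroup.normal_mul] at hx1
      obtain ⟨n, hn, h', hh', hx⟩ := hx1
      have hnH : n ∈ H := by
        have : n = (x : G) * h'⁻¹ := by rw [← hx]; simp
        rw [this]
        exact H.mul_mem x.2.2 (H.inv_mem (hle hh'))
      refine ⟨QuotientGroup.mk ⟨n, hn, hnH⟩, ?_⟩
      rw [Subgroup.quotientSubgroupOfEmbeddingOfLE_apply_mk]
      rw [QuotientGroup.eq]
      rw [Subgroup.mem_subgroupOf]
      have : ((Subgroup.inclusion hle' ⟨n, hn, hnH⟩)⁻¹ * x : _) = (n⁻¹ * (x : G) : G) := rfl
      rw [this, ← hx]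
      simpa using hh'
    have hfin : Finite ((N ⊓ H : Subgroup G) ⧸ H'.subgroupOf (N ⊓ H)) :=
      Nat.finite_of_card_ne_zero h1
    have hfin2 : Finite (((H' ⊔ N) ⊓ H : Subgroup G) ⧸ H'.subgroupOf ((H' ⊔ N) ⊓ H)) :=
      Finite.of_surjective φ hφ
    exact Nat.card_pos.ne'
  have h6 : H' ≤ (H' ⊔ N) ⊓ H := le_inf le_sup_left hle
  rw [← Subgroup.relIndex_mul_relIndex _ _ _ h6 inf_le_right]
  refine mul_ne_zero h5 ?_
  rw [Subgroup.inf_relIndex_right]
  exact h3

/-- Additivity of `HC`. -/
theorem HC.extension {G : Type*} [Group G] {a b : ℕ} (N : Subgroup G) [N.Normal]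
    (hN : HC a N) (hQ : HC b (G ⧸ N)) : HC (a + b) G := by
  classical
  intro H hH M
  have h1 := hN (fun i => (H i).subgroupOf N) (fun i j hij => by
    intro x hx
    exact hH hij hx) M
  have h2 := hQ (fun i => (H i).map (QuotientGroup.mk' N))
    (fun i j hij => Subgroup.map_mono (hH hij)) M
  refine le_trans (Finset.card_le_card ?_)
    ((Finset.card_union_le _ _).trans (add_le_add h1 h2))
  intro i hi
  rw [Finset.mem_filter] at hi
  rw [Finset.mem_union, Finset.mem_filter, Finset.mem_filter]
  by_contra hcon
  push Not at hcon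
  have h3 := hcon.1 hi.1
  have h4 := hcon.2 hi.1
  refine relIndex_ne_zero_of_ext N (H (i + 1)) (H i) (hH (Nat.le_succ i)) ?_ h4 hi.2
  have h5 : (N ⊓ H i) = ((H i).subgroupOf N).map N.subtype := by
    rw [Subgroup.subgroupOf_map_subtype, inf_comm]
  have h6 : (N ⊓ H (i + 1)) = ((H (i + 1)).subgroupOf N).map N.subtype := by
    rw [Subgroup.subgroupOf_map_subtype, inf_comm]
  have h7 : (N ⊓ H (i + 1)).relIndex (N ⊓ H i) ≠ 0 := by
    rw [h5, h6, Subgroup.relIndex_map_map_of_injective _ _ N.subtype_injective]
    exact h3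
  intro h8
  apply h7
  rw [← Nat.zero_dvd, ← h8]
  have h9 : (N ⊓ H (i + 1)) = H (i + 1) ⊓ N := inf_comm _ _
  rw [← Subgroup.inf_relIndex_right (H (i + 1)) (N ⊓ H i)]
  have h10 : H (i + 1) ⊓ (N ⊓ H i) = N ⊓ H (i + 1) := by
    apply le_antisymm
    · exact le_inf (inf_le_right.trans inf_le_left) inf_le_left
    · exact le_inf inf_le_right (le_inf inf_le_left (inf_le_right.trans (hH (Nat.le_succ i))))
  rw [h10]

theorem index_ne_zero_of_finrank {M : Type*} [AddCommGroup M] [Module.Finite ℤ M]
    (S : Submodule ℤ M) (h : Module.finrank ℤ M ≤ Module.finrank ℤ S) :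
    S.toAddSubgroup.index ≠ 0 := by
  have h1 := S.finrank_quotient_add_finrank
  have h2 : Module.finrank ℤ (M ⧸ S) = 0 := by omega
  have h3 : Module.IsTorsion ℤ (M ⧸ S) := Module.finrank_eq_zero_iff_isTorsion.1 h2
  have h4 : Finite (M ⧸ S) := Module.finite_of_fg_torsion _ h3
  have h5 : Finite (M ⧸ S.toAddSubgroup) := h4
  rw [AddSubgroup.index]
  exact Nat.card_pos.ne'

/-- rank of a subgroup of an abelian group -/
noncomputable def rk {A : Type*} [CommGroup A] (K : Subgroup A) : ℕ :=
  Module.finrank ℤ (AddSubgroup.toIntSubmodule (Subgroup.toAddSubgroup K))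

theorem rk_lt {A : Type*} [CommGroup A] [Group.FG A] {K' K : Subgroup A} (hle : K' ≤ K)
    (h : K'.relIndex K = 0) : rk K' < rk K := by
  by_contra hcon
  push Not at hcon
  have : AddGroup.FG (Additive A) := inferInstance
  have : Module.Finite ℤ (Additive A) := Module.Finite.iff_addGroup_fg.mpr this
  set M := AddSubgroup.toIntSubmodule (Subgroup.toAddSubgroup K) with hM
  set M' := AddSubgroup.toIntSubmodule (Subgroup.toAddSubgroup K') with hM'
  have hle' : M' ≤ M := hle
  let S : Submodule ℤ M := M'.comap M.subtype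
  have e : S ≃ₗ[ℤ] M' := Submodule.comapSubtypeEquivOfLe hle'
  have h1 := index_ne_zero_of_finrank S (by
    rw [e.finrank_eq]
    exact hcon)
  apply h1
  exact h

theorem HC.of_abelian_fg' {A : Type*} [CommGroup A] [Group.FG A]
    (H : ℕ → Subgroup A) (hH : Antitone H) (N : ℕ) : 
    ((Finset.range N).filter (fun i => (H (i + 1)).relIndex (H i) = 0)).card + rk (H N) ≤ rk (H 0) := by
  classical
  have hmono : ∀ i, rk (H (i+1)) ≤ rk (H i) := by
    intro i
    unfold rk
    have : AddGroup.FG (Additive A) := inferInstance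
    have : Module.Finite ℤ (Additive A) := Module.Finite.iff_addGroup_fg.mpr this
    exact Submodule.finrank_mono (hH (Nat.le_succ i))
  induction N with
  | zero => simp
  | succ N ih =>
    change _ + rk (H (N + 1)) ≤ _
    rw [Finset.range_add_one, Finset.filter_insert]
    split_ifs with h
    · rw [Finset.card_insert_of_notMem (by simp)]
      have h1 : rk (H (N + 1)) < rk (H N) := rk_lt (hH (Nat.le_succ N)) h
      omega
    · have h1 := hmono N
      omega
/-- Finitely generated abelian groups have `HC`. -/
theorem HC.of_abelian_fg {A : Type*} [Group A] (hcomm : ∀ a b : A, a * b = b * a)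
    (hfg : Group.FG A) : ∃ n, HC n A := by
  classical
  let inst : CommGroup A := { (inferInstance : Group A) with mul_comm := hcomm }
  have : Group.FG A := hfg
  refine ⟨rk (⊤ : Subgroup A), fun H hH N => ?_⟩
  have h1 := HC.of_abelian_fg' H hH N
  have h2 : rk (H 0) ≤ rk (⊤ : Subgroup A) := by
    unfold rk
    have : AddGroup.FG (Additive A) := inferInstance
    have : Module.Finite ℤ (Additive A) := Module.Finite.iff_addGroup_fg.mpr this
    exact Submodule.finrank_mono (fun x _ => trivial)
  omega

theorem PC.exists_HC : ∀ (G : Type) [Group G], PC G → ∃ n, HC n G := by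
  apply PC.induction
  · intro G _ _
    exact ⟨0, HC.of_finite⟩
  · intro G _ N _ hG hN ⟨b, hb⟩
    obtain ⟨a, ha⟩ := HC.of_abelian_fg (A := N)
      (fun x y => Subtype.ext (hN x x.2 y y.2))
      ((Group.fg_iff_subgroup_fg N).2 (hG.fg N))
    exact ⟨a + b, HC.extension N ha hb⟩

theorem HC.infinite_index {G : Type*} [Group G] {n : ℕ} (h : HC (n + 1) G) {K : Subgroup G}
    (hK : K.index = 0) : HC n K := h.of_index_zero K hK

theorem HC.quotient_infinite {G : Type*} [Group G] {n : ℕ} (h : HC (n + 1) G)
    {N : Subgroup G} [N.Normal] (hN : Infinite N) : HC n (G ⧸ N) := h.quotient_of_infinite N hN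

theorem HC.zero {G : Type*} [Group G] (h : HC 0 G) : Finite G := h.finite

theorem HC.quotient {G : Type*} [Group G] {n : ℕ} (h : HC n G) (N : Subgroup G) [N.Normal] :
    HC n (G ⧸ N) := h.of_surjective (QuotientGroup.mk' N) (QuotientGroup.mk'_surjective N)

end C3da71
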