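import Pool.Agent.Lib.MP_c3da71_al.FgAb
import Pool.Agent.Lib.MP_c3da71_al.PC

set_option autoImplicit false

namespace C3da71

section SumPeriod

variable {M : Type*} [AddCommGroup M] (γ : M ≃+ M)

theorem sum_iterate_mul (v : M) {e : ℕ} (he : γ^[e] v = v) (m : ℕ) :
    ∑ i ∈ Finset.range (e * m), γ^[i] v = m • ∑ i ∈ Finset.range e, γ^[i] v := by
  induction m with
  | zero => simp
  | succ m ih =>
    rw [Nat.mul_succ, Finset.sum_range_add, ih, add_smul, one_smul]
    congr 1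
    apply Finset.sum_congr rfl
    intro i _
    have h1 : γ^[e * m] v = v := by
      rw [Function.iterate_mul]
      exact Function.iterate_fixed he m
    rw [add_comm, Function.iterate_add_apply, h1]

theorem iterate_of_sum_eq_zero (v : M) (n : ℕ) (h : ∑ i ∈ Finset.range n, γ^[i] v = 0) :
    γ^[n] v = v := by
  have h1 : ∀ n : ℕ, γ (∑ i ∈ Finset.range n, γ^[i] v) + v =
      ∑ i ∈ Finset.range n, γ^[i] v + γ^[n] v := by
    intro n
    rw [map_sum]
    have h2 : ∀ i, γ (γ^[i] v) = γ^[i + 1] v := fun i =>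
      (Function.iterate_succ_apply' γ i v).symm
    simp_rw [h2]
    have h3 := Finset.sum_range_succ (fun i => γ^[i] v) n
    have h4 := Finset.sum_range_succ' (fun i => γ^[i] v) n
    rw [h3] at h4
    simpa using h4.symm
  have h2 := h1 n
  rw [h, map_zero, zero_add, zero_add] at h2
  exact h2.symm

theorem sum_period {e T : ℕ}
    (he : ∀ (v : M) (n : ℕ), 1 ≤ n → γ^[n] v = v → γ^[e] v = v)
    (hT : ∀ (v : M) (k : ℕ), 1 ≤ k → k • v = 0 → T • v = 0) (v : M) (n : ℕ) (hn : 1 ≤ n)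
    (h : ∑ i ∈ Finset.range n, γ^[i] v = 0) :
    ∑ i ∈ Finset.range (e * T), γ^[i] v = 0 := by
  have h1 : γ^[n] v = v := iterate_of_sum_eq_zero γ v n h
  have h2 : γ^[e] v = v := he v n hn h1
  rw [sum_iterate_mul γ v h2]
  apply hT _ n hn
  rw [← sum_iterate_mul γ v h2, mul_comm, sum_iterate_mul γ v h1, h, smul_zero]

end SumPeriod

theorem root_step (G : Type) [Group G] (N : Subgroup G) [N.Normal] (hG : PC G)
    (hN : ∀ a ∈ N, ∀ b ∈ N, a * b = b * a) (H : Subgroup G) {e' : ℕ} (he' : 1 ≤ e')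
    (h' : ∀ (x : G) (n : ℕ), 1 ≤ n → x ^ n ∈ H → x ^ e' ∈ N ⊔ H) :
    ∃ e : ℕ, 1 ≤ e ∧ ∀ (x : G) (n : ℕ), 1 ≤ n → x ^ n ∈ H → x ^ e ∈ H := by
  let inst : CommGroup N :=
    { (inferInstance : Group N) with mul_comm := fun a b => Subtype.ext (hN a a.2 b b.2) }
  let K : Subgroup N := H.subgroupOf N
  have hfg : Group.FG N := (Group.fg_iff_subgroup_fg N).2 (hG.fg N)
  have hfgq : Group.FG (N ⧸ K) := inferInstance
  let M := Additive (N ⧸ K)
  have hfgM : AddGroup.FG M := inferInstance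
  have hM : Module.Finite ℤ M := Module.Finite.iff_addGroup_fg.mpr hfgM
  obtain ⟨T, hT, hTt⟩ := fgab_torsion_bound M
  obtain ⟨e₂, he₂, hper⟩ := fgab_period M
  refine ⟨e' * (e₂ * T), Nat.mul_pos he' (Nat.mul_pos he₂ hT), fun x n hn hx => ?_⟩
  have h1 := h' x n hn hx
  rw [← SetLike.mem_coe, Subgroup.normal_mul] at h1
  obtain ⟨v, hv, y, hy, hvy⟩ := h1
  -- conjugation by y on N / K
  have hmap : K.map (MulAut.conjNormal y : N ≃* N).toMonoidHom = K := by
    ext z
    constructor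
    · rintro ⟨w, hw, rfl⟩
      change ((MulAut.conjNormal y : N ≃* N) w : G) ∈ H
      rw [MulAut.conjNormal_apply]
      exact H.mul_mem (H.mul_mem hy hw) (H.inv_mem hy)
    · intro hz
      refine ⟨(MulAut.conjNormal y : N ≃* N).symm z, ?_, by simp⟩
      change (((MulAut.conjNormal y : N ≃* N).symm z : N) : G) ∈ H
      rw [MulAut.conjNormal_symm_apply]
      exact H.mul_mem (H.mul_mem (H.inv_mem hy) hz) hy
  let γ₀ : (N ⧸ K) ≃* (N ⧸ K) := QuotientGroup.congr K K (MulAut.conjNormal y) hmap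
  let γ : M ≃+ M := MulEquiv.toAdditive γ₀
  let vb : M := Additive.ofMul (QuotientGroup.mk (⟨v, hv⟩ : N))
  -- the key formula
  have hconj : ∀ (i : ℕ) (w : N), γ^[i] (Additive.ofMul (QuotientGroup.mk w : N ⧸ K)) =
      Additive.ofMul (QuotientGroup.mk (MulAut.conjNormal (y ^ i) w) : N ⧸ K) := by
    intro i
    induction i with
    | zero => intro w; simp
    | succ i ih =>
      intro w
      rw [Function.iterate_succ_apply]
      have h2 : γ (Additive.ofMul (QuotientGroup.mk w : N ⧸ K)) =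
        Additive.ofMul (QuotientGroup.mk (MulAut.conjNormal y w) : N ⧸ K) := rfl
      rw [h2, ih, pow_succ, map_mul]
      rfl
  have hprod : ∀ k : ℕ, ∃ w : N, (x ^ e') ^ k = w * y ^ k ∧
      Additive.ofMul (QuotientGroup.mk w : N ⧸ K) = ∑ i ∈ Finset.range k, γ^[i] vb := by
    intro k
    induction k with
    | zero => exact ⟨1, by simp, by simp⟩
    | succ k ih =>
      obtain ⟨w, hw, hw2⟩ := ih
      refine ⟨w * MulAut.conjNormal (y ^ k) ⟨v, hv⟩, ?_, ?_⟩
      · rw [pow_succ, hw, ← hvy]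
        simp only [Subgroup.coe_mul, MulAut.conjNormal_apply]
        rw [pow_succ]
        group
      · rw [Finset.sum_range_succ, ← hw2, hconj]
        rfl
  have hiff : ∀ k : ℕ, (x ^ e') ^ k ∈ H ↔ ∑ i ∈ Finset.range k, γ^[i] vb = 0 := by
    intro k
    obtain ⟨w, hw, hw2⟩ := hprod k
    rw [← hw2, hw]
    rw [Subgroup.mul_mem_cancel_right _ (H.pow_mem hy k)]
    constructor
    · intro h
      have : (QuotientGroup.mk w : N ⧸ K) = 1 := (QuotientGroup.eq_one_iff w).2 h
      rw [this]; rfl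
    · intro h
      have : (QuotientGroup.mk w : N ⧸ K) = 1 := h
      exact (QuotientGroup.eq_one_iff w).1 this
  rw [pow_mul, hiff]
  refine sum_period γ (hper γ) hTt vb n hn ?_
  rw [← hiff, ← pow_mul, mul_comm, pow_mul]
  exact H.pow_mem hx e'

/-- **Root property**: bounded root-closure of subgroups in polycyclic groups. -/
theorem root_property : ∀ (G : Type) [Group G], PC G → ∀ H : Subgroup G,
    ∃ e : ℕ, 1 ≤ e ∧ ∀ (x : G) (n : ℕ), 1 ≤ n → x ^ n ∈ H → x ^ e ∈ H := by
  apply PC.induction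
  · intro G _ _ H
    refine ⟨1, le_refl _, fun x n _ _ => ?_⟩
    rw [Subsingleton.elim (x ^ 1) 1]
    exact H.one_mem
  · intro G _ N _ hG hN ih H
    obtain ⟨e', he', h'⟩ := ih (H.map (QuotientGroup.mk' N))
    refine root_step G N hG hN H he' (fun x n hn hx => ?_)
    have h1 := h' (QuotientGroup.mk' N x) n hn (by
      rw [← map_pow]
      exact Subgroup.mem_map_of_mem _ hx)
    rw [← map_pow] at h1
    have h2 : x ^ e' ∈ (H.map (QuotientGroup.mk' N)).comap (QuotientGroup.mk' N) := h1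
    rw [Subgroup.comap_map_eq, QuotientGroup.ker_mk', sup_comm] at h2
    exact h2

/-- Root property, uniformly over all conjugates. -/
theorem root_property_conj (G : Type) [Group G] (hG : PC G) (H : Subgroup G) :
    ∃ e : ℕ, 1 ≤ e ∧ ∀ (g x : G) (n : ℕ), 1 ≤ n → g * x ^ n * g⁻¹ ∈ H → g * x ^ e * g⁻¹ ∈ H := by
  obtain ⟨e, he, h⟩ := root_property G hG H
  refine ⟨e, he, fun g x n hn hx => ?_⟩
  have h1 := h (g * x * g⁻¹) n hn (by rw [conj_pow]; exact hx)
  rwa [conj_pow] at h1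

end C3da71
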