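import Pool.Agent.Lib.MP_c3da71_al.GoodBasic
import Pool.Agent.Lib.MP_c3da71_al.Root

/-! # Permuted families of subspaces (induced systems, subdirect version) -/

set_option autoImplicit false

namespace C3da71

variable {G : Type} [Group G] {E : Type} [DivisionRing E] {X : Type} [AddCommGroup X] [Module E X]

/-- the stabilizer of a subspace -/
def PAct.stab (P : PAct G E X) (Y : Submodule E X) : Subgroup G where
  carrier := {g | P.act g Y = Y}
  mul_mem' := by
    intro a b ha hb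
    simp only [Set.mem_ofPred_eq] at *
    rw [← P.act_mul, hb, ha]
  one_mem' := P.act_one Y
  inv_mem' := by
    intro a ha
    simp only [Set.mem_ofPred_eq] at *
    have h := P.act_mul a⁻¹ a Y
    rwa [ha, inv_mul_cancel, P.act_one] at h

theorem PAct.mem_stab (P : PAct G E X) (Y : Submodule E X) (g : G) : g ∈ P.stab Y ↔ P.act g Y = Y := Iff.rfl

theorem PAct.stab_stable (P : PAct G E X) (Y : Submodule E X) : (P.res (P.stab Y)).Stable Y := by
  rw [PAct.stable_iff_act]
  intro g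
  exact g.2

theorem PAct.act_inv_act (P : PAct G E X) (g : G) (Y : Submodule E X) : P.act g⁻¹ (P.act g Y) = Y := by
  rw [P.act_mul, inv_mul_cancel, P.act_one]

theorem PAct.act_act_inv (P : PAct G E X) (g : G) (Y : Submodule E X) : P.act g (P.act g⁻¹ Y) = Y := by
  rw [P.act_mul, mul_inv_cancel, P.act_one]

theorem PAct.act_injective (P : PAct G E X) (g : G) : Function.Injective (P.act g) :=
  Function.LeftInverse.injective (P.act_inv_act g)

theorem PAct.act_le_act (P : PAct G E X) (g : G) (Y Y' : Submodule E X) : P.act g Y ≤ P.act g Y' ↔ Y ≤ Y' := by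
  refine ⟨fun h => ?_, P.act_mono g⟩
  have := P.act_mono g⁻¹ h
  rwa [P.act_inv_act, P.act_inv_act] at this

theorem PAct.act_le_iff (P : PAct G E X) (g : G) (Y Y' : Submodule E X) : P.act g Y ≤ Y' ↔ Y ≤ P.act g⁻¹ Y' := by
  rw [← P.act_le_act g Y, P.act_act_inv]

theorem PAct.mem_act_inv (P : PAct G E X) (g : G) (Y : Submodule E X) (x : X) : x ∈ P.act g⁻¹ Y ↔ P.ρ g x ∈ Y := by
  rw [← P.ρ_mem_act g (P.act g⁻¹ Y) x, P.act_act_inv]

theorem PAct.act_iSup (P : PAct G E X) (g : G) {ι : Sort*} (Y : ι → Submodule E X) :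
    P.act g (⨆ i, Y i) = ⨆ i, P.act g (Y i) := by
  apply le_antisymm
  · rw [P.act_le_iff]
    apply iSup_le
    intro i
    rw [← P.act_le_iff]
    exact le_iSup (fun i => P.act g (Y i)) i
  · exact iSup_le fun i => P.act_mono g (le_iSup Y i)

/-- If every `x ∈ X` lies in almost all translates of `Y`, then `X ⧸ Y` is a Noetherian system over the stabilizer of `Y`. -/
theorem noeth_quot_stab (hG : PC G) (P : PAct G E X) (hP : P.Noeth) (Y : Submodule E X)
    (hfin : ∀ x : X, {Z : Submodule E X | (∃ g : G, Z = P.act g Y) ∧ x ∉ Z}.Finite) :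
    ((P.res (P.stab Y)).quot Y (P.stab_stable Y)).Noeth := by
  classical
  apply noeth_of_fgen (hG.subgroup _)
  obtain ⟨s, hs⟩ := hP.fgen ⊤ (fun g y _ => trivial)
  set Q := (P.res (P.stab Y)).quot Y (P.stab_stable Y) with hQ
  -- choose the transporters
  have hch : ∀ Z : Submodule E X, ∃ u : G, (∃ g : G, Z = P.act g Y) → Z = P.act u Y := by
    intro Z
    by_cases h : ∃ g : G, Z = P.act g Y
    · obtain ⟨g, hg⟩ := h
      exact ⟨g, fun _ => hg⟩
    · exact ⟨1, fun h' => absurd h' h⟩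
  choose u hu using hch
  let t : Finset (X ⧸ Y) := s.biUnion fun y =>
    (hfin y).toFinset.image fun Z => (Submodule.Quotient.mk (P.ρ (u Z)⁻¹ y) : X ⧸ Y)
  refine ⟨t, ?_⟩
  symm
  rw [eq_top_iff]
  intro q _
  induction q using Submodule.Quotient.induction_on with
  | _ x =>
  have hx : x ∈ Submodule.span E {x : X | ∃ g : G, ∃ y ∈ s, x = P.ρ g y} := by
    rw [← hs]; trivial
  refine Submodule.span_induction (p := fun x _ => (Submodule.Quotient.mk x : X ⧸ Y) ∈
    Submodule.span E {x : X ⧸ Y | ∃ g : P.stab Y, ∃ y ∈ t, x = Q.ρ g y}) ?_ ?_ ?_ ?_ hx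
  · rintro _ ⟨g, y, hy, rfl⟩
    by_cases hgy : P.ρ g y ∈ Y
    · rw [(Submodule.Quotient.mk_eq_zero Y).2 hgy]
      exact Submodule.zero_mem _
    · set Z := P.act g⁻¹ Y with hZ
      have hyZ : y ∉ Z := by
        rw [hZ, P.mem_act_inv]
        exact hgy
      have hZmem : Z ∈ (hfin y).toFinset := by
        rw [Set.Finite.mem_toFinset]
        exact ⟨⟨g⁻¹, rfl⟩, hyZ⟩
      have huZ : Z = P.act (u Z) Y := hu Z ⟨g⁻¹, rfl⟩
      have hs0 : g * u Z ∈ P.stab Y := by
        rw [P.mem_stab, ← P.act_mul, ← huZ, hZ, P.act_act_inv]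
      obtain ⟨c, hc⟩ := P.mul (g * u Z) (u Z)⁻¹
      have h1 : P.ρ g y = ((c⁻¹ : Eˣ) : E) • P.ρ (g * u Z) (P.ρ (u Z)⁻¹ y) := by
        rw [hc, smul_smul, Units.inv_mul, _root_.one_smul, mul_inv_cancel_right]
      have h2 : (Submodule.Quotient.mk (P.ρ g y) : X ⧸ Y) =
          ((c⁻¹ : Eˣ) : E) • Q.ρ ⟨g * u Z, hs0⟩ (Submodule.Quotient.mk (P.ρ (u Z)⁻¹ y)) := by
        rw [h1]; rfl
      rw [h2]
      apply Submodule.smul_mem
      apply Submodule.subset_span
      refine ⟨⟨g * u Z, hs0⟩, _, ?_, rfl⟩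
      simp only [t, Finset.mem_biUnion, Finset.mem_image]
      exact ⟨y, hy, Z, hZmem, rfl⟩
  · exact Submodule.zero_mem _
  · intro a b _ _ ha hb
    exact Submodule.add_mem _ ha hb
  · intro c a _ ha
    exact Submodule.smul_mem _ c ha

/-- transport of `Cl` by the action of an element -/
theorem Cl.act (P : PAct G E X) (u h : G) {d : ℕ} : ∀ {l : ℕ} {B0 B : Submodule E X},
    Cl (P.ρ h) d l B0 B → Cl (P.ρ (u * h * u⁻¹)) d l (P.act u B0) (P.act u B)
  | 0, B0, B, h0 => P.act_mono u h0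
  | l + 1, B0, B, ⟨B', hs, h0, h1, hc, hx⟩ => by
    have key : ∀ C : Submodule E X, C3da71.Stable (P.ρ h) C → C3da71.Stable (P.ρ (u * h * u⁻¹)) (P.act u C) := by
      intro C hC
      rw [P.hst_iff] at hC ⊢
      rw [P.act_mul, inv_mul_cancel_right, ← P.act_mul, hC]
    refine ⟨P.act u B', key _ hs, P.act_mono u h0, P.act_mono u h1, Cl.act P u h hc, ?_⟩
    intro x hxB hxB'
    rw [P.mem_act] at hxB hxB'
    obtain ⟨C, hCs, hBC, hCB, hxC, f, hf⟩ := hx _ hxB hxB'
    refine ⟨P.act u C, key _ hCs, P.act_mono u hBC, P.act_mono u hCB, hxC, ?_⟩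
    refine ⟨{ toFun := fun x j => P.σ u (f ((P.ρ u).symm x) j)
              map_add' := ?_
              map_smul' := ?_ }, ?_⟩
    · intro a b
      ext j
      simp
    · intro e a
      ext j
      simp [P.symm_smul]
    · rintro y ⟨hyB, hy⟩
      apply hf
      refine ⟨hyB, ?_⟩
      rw [SetLike.mem_coe, LinearMap.mem_ker] at hy ⊢
      ext j
      have h2 := congrFun hy j
      simpa using h2

/-- the consequence of goodness of `X ⧸ Z` over the stabilizer of `Z` used below -/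
theorem cl_of_quot (P : PAct G E X) (Z : Submodule E X) {d l : ℕ}
    (hgood : ∀ (g : P.stab Z) (B : Submodule E (X ⧸ Z)), B.FG →
      C3da71.Stable (((P.res (P.stab Z)).quot Z (P.stab_stable Z)).ρ g) B →
      Cl (((P.res (P.stab Z)).quot Z (P.stab_stable Z)).ρ g) d l ⊥ B)
    (u h : G) (hh : P.act h (P.act u Z) = P.act u Z) (W : Submodule E X) (hW : W.FG)
    (hWs : C3da71.Stable (P.ρ h) W) : Cl (P.ρ h) d l (W ⊓ P.act u Z) W := by
  have hmem : u⁻¹ * h * u ∈ P.stab Z := by
    rw [P.mem_stab, ← P.act_mul, ← P.act_mul, hh, P.act_inv_act]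
  set Q := (P.res (P.stab Z)).quot Z (P.stab_stable Z) with hQ
  set W' := P.act u⁻¹ W with hW'
  have hW's : C3da71.Stable (P.ρ (u⁻¹ * h * u)) W' := by
    rw [P.hst_iff] at hWs ⊢
    rw [hW', P.act_mul, mul_inv_cancel_right, ← P.act_mul, hWs]
  have hW'fg : W'.FG := by
    obtain ⟨s, hs⟩ := hW
    classical
    refine ⟨s.image (P.ρ u⁻¹), ?_⟩
    apply le_antisymm
    · rw [Submodule.span_le]
      intro x hx
      obtain ⟨y, hy, rfl⟩ := Finset.mem_image.1 (Finset.mem_coe.1 hx)
      rw [SetLike.mem_coe, hW', P.ρ_mem_act, ← hs]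
      exact Submodule.subset_span hy
    · rw [hW', P.act_le_iff, inv_inv, ← hs, Submodule.span_le]
      intro x hx
      rw [SetLike.mem_coe]
      obtain ⟨y, hy⟩ := (P.ρ u⁻¹).symm.surjective x
      have h3 : P.ρ u⁻¹ x ∈ Submodule.span E ((s.image (P.ρ u⁻¹) : Finset X) : Set X) :=
        Submodule.subset_span (Finset.mem_coe.2 (Finset.mem_image_of_mem _ hx))
      have h4 := (P.mem_act_inv u⁻¹ (Submodule.span E ((s.image (P.ρ u⁻¹) : Finset X) : Set X)) x).2 h3
      rwa [inv_inv] at h4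
  have h1 := hgood ⟨u⁻¹ * h * u, hmem⟩ (W'.map Z.mkQ) (hW'fg.map _) (by
    intro q
    constructor
    · rintro ⟨y, hy, hyq⟩
      refine ⟨(P.ρ (u⁻¹ * h * u)).symm y, (hW's _).1 (by simpa using hy), ?_⟩
      apply (Q.ρ ⟨u⁻¹ * h * u, hmem⟩).injective
      rw [← hyq]
      show (Submodule.Quotient.mk (P.ρ (u⁻¹ * h * u) ((P.ρ (u⁻¹ * h * u)).symm y)) : X ⧸ Z) = _
      rw [AddEquiv.apply_symm_apply]
      rfl
    · rintro ⟨y, hy, rfl⟩
      exact ⟨P.ρ (u⁻¹ * h * u) y, (hW's _).2 hy, rfl⟩)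
  have h2 := Cl.comap (π := Z.mkQ) (h := P.ρ (u⁻¹ * h * u)) (fun x => rfl) h1 hW's (Submodule.le_comap_map _ _)
  have h3 := Cl.act P u _ h2
  have h4 : u * (u⁻¹ * h * u) * u⁻¹ = h := by group
  have h5 : P.act u W' = W := P.act_act_inv u W
  rw [h4, P.act_inf, h5, Submodule.comap_bot, Submodule.ker_mkQ] at h3
  exact h3

/-- **Perm lemma** (it is enough to have goodness for one member of each orbit) -/
theorem good_of_family' (hG : PC G) (P : PAct G E X) (hP : P.Noeth) (K : Set (Submodule E X))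
    (hK : ∀ Y ∈ K, ∀ g : G, P.act g Y ∈ K) (hfin : ∀ x : X, {Y : Submodule E X | Y ∈ K ∧ x ∉ Y}.Finite)
    (hbot : sInf K = ⊥)
    (hgood : ∀ Y ∈ K, Y ≠ ⊤ → ∃ u : G,
      ((P.res (P.stab (P.act u Y))).quot (P.act u Y) (P.stab_stable (P.act u Y))).Good) : P.Good := by
  classical
  obtain ⟨s, hs⟩ := hP.fgen ⊤ (fun g y _ => trivial)
  -- the finite set of representatives
  let T : Finset (Submodule E X) := s.biUnion fun y => (hfin y).toFinset
  have hT : ∀ Z ∈ T, Z ∈ K ∧ Z ≠ ⊤ := by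
    intro Z hZ
    obtain ⟨y, -, hy⟩ := Finset.mem_biUnion.1 hZ
    rw [Set.Finite.mem_toFinset] at hy
    refine ⟨hy.1, fun h => hy.2 ?_⟩
    rw [h]; trivial
  have hTrep : ∀ Y ∈ K, Y ≠ ⊤ → ∃ Z ∈ T, ∃ u : G, Y = P.act u Z := by
    intro Y hY hYt
    obtain ⟨g, y, hy, hgy⟩ : ∃ g : G, ∃ y ∈ s, P.ρ g y ∉ Y := by
      by_contra hcon
      push Not at hcon
      apply hYt
      rw [eq_top_iff, hs, Submodule.span_le]
      rintro _ ⟨g, y, hy, rfl⟩
      exact hcon g y hy
    refine ⟨P.act g⁻¹ Y, ?_, g, (P.act_act_inv g Y).symm⟩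
    apply Finset.mem_biUnion.2
    refine ⟨y, hy, ?_⟩
    rw [Set.Finite.mem_toFinset]
    exact ⟨hK Y hY _, fun h => hgy ((P.mem_act_inv g Y y).1 h)⟩
  -- constants
  have hconst : ∀ Z : Submodule E X, ∃ (u : G) (e d l : ℕ), Z ∈ T → 1 ≤ e ∧
      (∀ (g x : G) (n : ℕ), 1 ≤ n → g * x ^ n * g⁻¹ ∈ P.stab (P.act u Z) → g * x ^ e * g⁻¹ ∈ P.stab (P.act u Z)) ∧
      (∀ (g : P.stab (P.act u Z)) (B : Submodule E (X ⧸ P.act u Z)), B.FG →
        C3da71.Stable (((P.res (P.stab (P.act u Z))).quot (P.act u Z) (P.stab_stable (P.act u Z))).ρ g) B →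
        Cl (((P.res (P.stab (P.act u Z))).quot (P.act u Z) (P.stab_stable (P.act u Z))).ρ g) d l ⊥ B) := by
    intro Z
    by_cases hZ : Z ∈ T
    · obtain ⟨u, d, l, h⟩ := hgood Z (hT Z hZ).1 (hT Z hZ).2
      obtain ⟨e, he, h'⟩ := root_property_conj G hG (P.stab (P.act u Z))
      exact ⟨u, e, d, l, fun _ => ⟨he, h', h⟩⟩
    · exact ⟨1, 1, 0, 0, fun h => absurd h hZ⟩
  choose u e d l hc using hconst
  set e0 : ℕ := ∏ Z ∈ T, e Z with he0
  have he0pos : 0 < e0 := Finset.prod_pos fun Z hZ => (hc Z hZ).1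
  set d0 : ℕ := T.sup d with hd0
  set l0 : ℕ := T.sup l with hl0
  refine ⟨e0 * d0, l0, fun g W hW hWs => ?_⟩
  apply Cl.of_pow P g e0 he0pos (fun x => by simp) hWs
  have hWe : C3da71.Stable (P.ρ (g ^ e0)) W := P.stable_pow g e0 W hWs
  -- every member of `K` not containing `W` is periodic
  have hSfin : {Y : Submodule E X | Y ∈ K ∧ ¬ W ≤ Y}.Finite := by
    obtain ⟨t, ht⟩ := hW
    apply Set.Finite.subset (Set.Finite.biUnion t.finite_toSet fun y _ => hfin y)
    rintro Y ⟨hY, hWY⟩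
    rw [← ht, Submodule.span_le, Set.not_subset] at hWY
    obtain ⟨y, hy, hyY⟩ := hWY
    exact Set.mem_biUnion hy ⟨hY, hyY⟩
  have hper : ∀ Y ∈ K, ¬ W ≤ Y → ∃ n : ℕ, 1 ≤ n ∧ P.act (g ^ n) Y = Y := by
    intro Y hY hWY
    have hgW : ∀ n : ℕ, P.act (g ^ n) W = W := fun n => (P.hst_iff _ _).1 (P.stable_pow g n W hWs)
    have hmem : ∀ n : ℕ, P.act (g ^ n) Y ∈ {Y : Submodule E X | Y ∈ K ∧ ¬ W ≤ Y} := by
      intro n
      refine ⟨hK Y hY _, fun h => hWY ?_⟩
      rw [← P.act_le_act (g ^ n), hgW n]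
      exact h
    obtain ⟨i, j, hij, heq⟩ : ∃ i j : ℕ, i < j ∧ P.act (g ^ i) Y = P.act (g ^ j) Y := by
      by_contra hcon
      push Not at hcon
      have hinj : Function.Injective fun n : ℕ => P.act (g ^ n) Y := by
        intro i j hij
        rcases lt_trichotomy i j with h | h | h
        · exact absurd hij (hcon i j h)
        · exact h
        · exact absurd hij.symm (hcon j i h)
      exact Set.infinite_of_injective_forall_mem hinj hmem hSfin
    refine ⟨j - i, by omega, ?_⟩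
    apply P.act_injective (g ^ i)
    rw [P.act_mul, ← pow_add, heq]
    congr 2
    omega
  apply Cl.subdirect hWe bot_le
  intro x hxW hx0
  have hx0' : x ∉ sInf K := by rwa [hbot]
  rw [Submodule.mem_sInf] at hx0'
  push Not at hx0'
  obtain ⟨Y, hYK, hxY⟩ := hx0'
  have hWY : ¬ W ≤ Y := fun h => hxY (h hxW)
  have hYt : Y ≠ ⊤ := fun h => hxY (by rw [h]; trivial)
  obtain ⟨n, hn, hnY⟩ := hper Y hYK hWY
  obtain ⟨Z, hZT, v, hYZ⟩ := hTrep Y hYK hYt
  obtain ⟨heZ, hroot, hgoodZ⟩ := hc Z hZT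
  -- `Y = act w Z'`
  set Z' := P.act (u Z) Z with hZ'
  have hYZ' : Y = P.act (v * (u Z)⁻¹) Z' := by
    rw [hZ', ← P.act_mul, P.act_inv_act, hYZ]
  set w := v * (u Z)⁻¹ with hw
  have h1 : w⁻¹ * g ^ n * w⁻¹⁻¹ ∈ P.stab Z' := by
    rw [P.mem_stab, inv_inv, ← P.act_mul, ← P.act_mul, ← hYZ', hnY, hYZ', P.act_inv_act]
  have h2 := hroot w⁻¹ g n hn h1
  obtain ⟨k, hk⟩ : e Z ∣ e0 := Finset.dvd_prod_of_mem e hZT
  have h3 : P.act (g ^ e0) Y = Y := by
    have h4 : P.act (g ^ e Z) Y = Y := by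
      rw [P.mem_stab, inv_inv, ← P.act_mul, ← P.act_mul, ← hYZ'] at h2
      have h5 := congrArg (P.act w) h2
      rwa [P.act_act_inv, ← hYZ'] at h5
    rw [hk, pow_mul]
    exact (P.hst_iff _ _).1 (P.stable_pow (g ^ e Z) k Y ((P.hst_iff _ _).2 h4))
  have h6 := cl_of_quot P Z' hgoodZ w (g ^ e0) (by rw [← hYZ']; exact h3) W hW hWe
  rw [← hYZ'] at h6
  have hYs : C3da71.Stable (P.ρ (g ^ e0)) Y := (P.hst_iff _ _).2 h3
  refine ⟨W ⊓ Y, hWe.inf hYs, bot_le, inf_le_left, fun h => hxY h.2, ?_⟩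
  exact Cl.mono_l (Finset.le_sup hZT) hWe inf_le_left (Cl.congr_h (Finset.le_sup hZT) h6)

/-- **Perm lemma.** Let `K` be a `G`-stable set of subspaces of `X` with intersection `0`, such that every `x ∈ X` lies in almost all members
of `K`. If all `X ⧸ Y`, `Y ∈ K`, `Y ≠ X`, are good systems over the stabilizers of the `Y` then `X` is good. -/
theorem good_of_family (hG : PC G) (P : PAct G E X) (hP : P.Noeth) (K : Set (Submodule E X))
    (hK : ∀ Y ∈ K, ∀ g : G, P.act g Y ∈ K) (hfin : ∀ x : X, {Y : Submodule E X | Y ∈ K ∧ x ∉ Y}.Finite)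
    (hbot : sInf K = ⊥)
    (hgood : ∀ Y ∈ K, Y ≠ ⊤ → ((P.res (P.stab Y)).quot Y (P.stab_stable Y)).Good) : P.Good := by
  refine good_of_family' hG P hP K hK hfin hbot fun Y hY hYt => ⟨1, ?_⟩
  have key : ∀ Y' : Submodule E X, Y' = Y → ((P.res (P.stab Y')).quot Y' (P.stab_stable Y')).Good := by
    rintro Y' rfl
    exact hgood Y' hY hYt
  exact key _ (P.act_one Y)

/-! ### Direct sums -/

theorem PAct.act_eq_of_mk (P : PAct G E X) (H : Subgroup G) (Y : Submodule E X) (hY : (P.res H).Stable Y) {a b : G}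
    (h : (a : G ⧸ H) = b) : P.act a Y = P.act b Y := by
  have h1 : a⁻¹ * b ∈ H := QuotientGroup.eq.1 h
  have h2 : P.act (a⁻¹ * b) Y = Y := by
    rw [PAct.stable_iff_act] at hY
    exact hY ⟨_, h1⟩
  rw [← P.act_mul] at h2
  have h3 := congrArg (P.act a) h2
  rw [P.act_act_inv] at h3
  exact h3.symm

theorem PAct.act_out (P : PAct G E X) (H : Subgroup G) (Y : Submodule E X) (hY : (P.res H).Stable Y) (g : G) :
    P.act ((g : G ⧸ H).out) Y = P.act g Y :=
  P.act_eq_of_mk H Y hY (QuotientGroup.out_eq' _)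

theorem PAct.iSup_out (P : PAct G E X) (H : Subgroup G) (Y : Submodule E X) (hY : (P.res H).Stable Y) :
    ⨆ q : G ⧸ H, P.act q.out Y = ⨆ g : G, P.act g Y := by
  apply le_antisymm
  · exact iSup_le fun q => le_iSup (fun g => P.act g Y) q.out
  · apply iSup_le
    intro g
    rw [← P.act_out H Y hY g]
    exact le_iSup (fun q : G ⧸ H => P.act q.out Y) (g : G ⧸ H)

theorem PAct.stable_iSup_act (P : PAct G E X) (Y : Submodule E X) : P.Stable (⨆ g : G, P.act g Y) := by
  rw [PAct.stable_iff_act]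
  intro h
  rw [P.act_iSup]
  simp only [P.act_mul]
  exact (Equiv.mulLeft h).iSup_comp (g := fun g => P.act g Y)

/-- Direct sum version: the translates of `Y` are independent (`H` is the stabilizer of `Y`). -/
theorem good_induced (hG : PC G) (P : PAct G E X) (hP : P.Noeth) (H : Subgroup G) (Y : Submodule E X)
    (hY : (P.res H).Stable Y) (hind : iSupIndep (fun q : G ⧸ H => P.act q.out Y))
    (hgood : ((P.res H).sub Y hY).Good) (hW : P.Stable (⨆ g : G, P.act g Y)) :
    (P.sub (⨆ g : G, P.act g Y) hW).Good := by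
  classical
  set W : Submodule E X := ⨆ g : G, P.act g Y with hWdef
  by_cases hY0 : Y = ⊥
  · apply good_of_subsingleton
    rw [Submodule.subsingleton_iff_eq_bot, hY0]
    simp
  -- the complements
  let C : G ⧸ H → Submodule E X := fun q => ⨆ q' : G ⧸ H, ⨆ _ : q' ≠ q, P.act q'.out Y
  have hdisj : ∀ q, Disjoint (P.act q.out Y) (C q) := fun q => hind q
  have hVW : ∀ q : G ⧸ H, P.act q.out Y ≤ W := fun q => le_iSup (fun g => P.act g Y) q.out
  have hCW : ∀ q, C q ≤ W := fun q => iSup₂_le fun q' _ => hVW q'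
  have hle : ∀ q q' : G ⧸ H, q' ≠ q → P.act q'.out Y ≤ C q := fun q q' h =>
    le_iSup₂ (f := fun (q' : G ⧸ H) (_ : q' ≠ q) => P.act q'.out Y) q' h
  have hsup : ∀ q, P.act q.out Y ⊔ C q = W := by
    intro q
    apply le_antisymm (sup_le (hVW q) (hCW q))
    rw [hWdef, ← P.iSup_out H Y hY]
    apply iSup_le
    intro q'
    by_cases h : q' = q
    · rw [h]; exact le_sup_left
    · exact (hle q q' h).trans le_sup_right
  have hactV : ∀ (g : G) (q : G ⧸ H), P.act g (P.act q.out Y) = P.act (g • q).out Y := by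
    intro g q
    rw [P.act_mul]
    apply P.act_eq_of_mk H Y hY
    rw [QuotientGroup.out_eq']
    show g • ((q.out : G) : G ⧸ H) = g • q
    rw [QuotientGroup.out_eq']
  have hactC : ∀ (g : G) (q : G ⧸ H), P.act g (C q) ≤ C (g • q) := by
    intro g q
    rw [P.act_iSup]
    apply iSup_le
    intro q'
    rw [P.act_iSup]
    apply iSup_le
    intro h
    rw [hactV]
    exact hle _ _ fun h' => h (smul_left_cancel g h')
  have hactC' : ∀ (g : G) (q : G ⧸ H), P.act g (C q) = C (g • q) := by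
    intro g q
    apply le_antisymm (hactC g q)
    have := hactC g⁻¹ (g • q)
    rw [inv_smul_smul, P.act_le_iff, inv_inv] at this
    exact this
  have hVne : ∀ q : G ⧸ H, P.act q.out Y ≠ ⊥ := by
    intro q h
    apply hY0
    rw [← P.act_inv_act q.out Y, h, P.act_bot]
  have hCinj : ∀ q q', C q = C q' → q = q' := by
    intro q q' h
    by_contra hne
    have h1 := hle q' q hne
    rw [← h] at h1
    exact hVne q ((hdisj q).eq_bot_of_le h1)
  set P' := P.sub W hW with hP'
  have hactcomap : ∀ (g : G) (Z : Submodule E X), P'.act g (Z.comap W.subtype) = (P.act g Z).comap W.subtype :=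
    fun g Z => rfl
  let K : Set (Submodule E W) := {Z | ∃ q : G ⧸ H, Z = (C q).comap W.subtype}
  -- every element lies in almost all `C q`
  have hfin : ∀ x ∈ W, {q : G ⧸ H | x ∉ C q}.Finite := by
    intro x hx
    rw [hWdef, ← P.iSup_out H Y hY] at hx
    refine Submodule.iSup_induction (fun q : G ⧸ H => P.act q.out Y) (motive := fun x => {q : G ⧸ H | x ∉ C q}.Finite)
      hx ?_ ?_ ?_
    · intro q x hx
      apply Set.Finite.subset (Set.finite_singleton q)
      intro q' hq'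
      by_contra hne
      exact hq' (hle q' q (fun h => hne (by rw [h]; rfl)) hx)
    · simp
    · intro a b ha hb
      apply Set.Finite.subset (ha.union hb)
      intro q hq
      by_contra hcon
      rw [Set.mem_union, not_or] at hcon
      simp only [Set.mem_ofPred_eq, not_not] at hcon hq
      exact hq (Submodule.add_mem _ hcon.1 hcon.2)
  apply good_of_family' hG P' (hP.sub W hW) K
  · rintro _ ⟨q, rfl⟩ g
    exact ⟨g • q, by rw [hactcomap, hactC']⟩
  · intro x
    apply Set.Finite.subset ((hfin x x.2).image fun q => (C q).comap W.subtype)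
    rintro _ ⟨⟨q, rfl⟩, hx⟩
    exact ⟨q, hx, rfl⟩
  · rw [eq_bot_iff]
    intro x hx
    rw [Submodule.mem_sInf] at hx
    have hxC : ∀ q, (x : X) ∈ C q := fun q => hx _ ⟨q, rfl⟩
    -- write `x` as a finite sum
    have hxW : (x : X) ∈ ⨆ q : G ⧸ H, P.act q.out Y := by
      rw [P.iSup_out H Y hY]; exact x.2
    rw [Submodule.mem_iSup_iff_exists_finsupp] at hxW
    obtain ⟨f, hf, hfx⟩ := hxW
    have hf0 : ∀ q, f q = 0 := by
      intro q
      have h1 : f q ∈ C q := by
        have h2 : f q = (x : X) - ∑ q' ∈ f.support.erase q, f q' := by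
          rw [← hfx, Finsupp.sum]
          by_cases hq : q ∈ f.support
          · rw [← Finset.add_sum_erase _ _ hq]; abel
          · rw [Finset.erase_eq_of_notMem hq, sub_self]
            simpa using hq
        rw [h2]
        apply Submodule.sub_mem _ (hxC q)
        apply Submodule.sum_mem
        intro q' hq'
        exact hle q q' (Finset.ne_of_mem_erase hq') (hf q')
      have h2 := (hdisj q).le_bot ⟨hf q, h1⟩
      simpa using h2
    have hf1 : f = 0 := Finsupp.ext hf0
    rw [hf1, Finsupp.sum_zero_index] at hfx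
    rw [Submodule.mem_bot]
    exact Subtype.ext hfx.symm
  · rintro _ ⟨q, rfl⟩ _
    -- transport to the base point
    set q0 : G ⧸ H := ((1 : G) : G ⧸ H) with hq0
    have hV0 : P.act q0.out Y = Y := by rw [hq0, P.act_out H Y hY, P.act_one]
    refine ⟨q.out⁻¹, ?_⟩
    have hq1 : q.out⁻¹ • q = q0 := by
      have h1 : q.out⁻¹ • ((q.out : G) : G ⧸ H) = q0 := by
        show ((q.out⁻¹ * q.out : G) : G ⧸ H) = q0
        rw [inv_mul_cancel]
      rwa [QuotientGroup.out_eq'] at h1
    have hZ : P'.act q.out⁻¹ ((C q).comap W.subtype) = (C q0).comap W.subtype := by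
      rw [hactcomap, hactC', hq1]
    rw [hZ]
    set Z := (C q0).comap W.subtype with hZdef
    -- the stabilizer is contained in `H`
    have hstab : P'.stab Z ≤ H := by
      intro g hg
      have h1 : P'.act g Z = Z := hg
      rw [hZdef, hactcomap, hactC'] at h1
      have h2 : C (g • q0) = C q0 := by
        have h3 := congrArg (Submodule.map W.subtype) h1
        rwa [Submodule.map_comap_eq, Submodule.map_comap_eq, Submodule.range_subtype,
          inf_eq_right.2 (hCW _), inf_eq_right.2 (hCW _)] at h3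
      have h3 := hCinj _ _ h2
      have h4 : ((1 : G) : G ⧸ H) = ((g * 1 : G) : G ⧸ H) := h3.symm
      rw [mul_one, QuotientGroup.eq, inv_one, one_mul] at h4
      exact h4
    have hYW : Y ≤ W := by
      have := hVW q0
      rwa [hV0] at this
    let φ : Y →ₗ[E] (W ⧸ Z) := Z.mkQ ∘ₗ (Submodule.inclusion hYW)
    have hφinj : Function.Injective φ := by
      rw [← LinearMap.ker_eq_bot, LinearMap.ker_eq_bot']
      intro y hy
      have h1 : (y : X) ∈ C q0 := (Submodule.Quotient.mk_eq_zero Z).1 hy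
      have h2 : (y : X) ∈ P.act q0.out Y := by rw [hV0]; exact y.2
      have h3 := (hdisj q0).le_bot ⟨h2, h1⟩
      simpa using h3
    have hφsurj : Function.Surjective φ := by
      intro x
      induction x using Submodule.Quotient.induction_on with
      | _ x =>
      have h1 : (x : X) ∈ P.act q0.out Y ⊔ C q0 := by rw [hsup]; exact x.2
      obtain ⟨y, hy, c, hc, hyc⟩ := Submodule.mem_sup.1 h1
      rw [hV0] at hy
      refine ⟨⟨y, hy⟩, ?_⟩
      apply (Submodule.Quotient.eq Z).2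
      show y - (x : X) ∈ C q0
      rw [← hyc, sub_add_cancel_left]
      exact Submodule.neg_mem _ hc
    let e : Y ≃ₗ[E] (W ⧸ Z) := LinearEquiv.ofBijective φ ⟨hφinj, hφsurj⟩
    refine good_of_injective _ (((P.res H).sub Y hY).comp (Subgroup.inclusion hstab)) e.symm.toLinearMap
      e.symm.injective ?_ (good_comp _ hgood _)
    intro g x
    obtain ⟨y, rfl⟩ := e.surjective x
    apply e.injective
    have h1 : ∀ z, e (e.symm.toLinearMap z) = z := fun z => e.apply_symm_apply z
    have h2 : e.symm.toLinearMap (e y) = y := e.symm_apply_apply y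
    rw [h1, h2]
    rfl

/-- in the situation of `good_induced`, `(H, Y)` is Noetherian if `P` is: `W ↦ ⨆ g W` is strictly monotone -/
theorem noeth_of_induced (P : PAct G E X) (hP : P.Noeth) (H : Subgroup G) (Y : Submodule E X)
    (hY : (P.res H).Stable Y) (hind : iSupIndep (fun q : G ⧸ H => P.act q.out Y)) :
    ((P.res H).sub Y hY).Noeth := by
  intro f hf hmono
  -- the submodules of `X`
  let Z : ℕ → Submodule E X := fun n => (f n).map Y.subtype
  have hZY : ∀ n, Z n ≤ Y := fun n => Submodule.map_subtype_le _ _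
  have hZs : ∀ n, (P.res H).Stable (Z n) := by
    rintro n g _ ⟨y, hy, rfl⟩
    exact ⟨((P.res H).sub Y hY).ρ g y, hf n g y hy, rfl⟩
  have hZmono : Monotone Z := fun m n h => Submodule.map_mono (hmono h)
  obtain ⟨N, hN⟩ := hP (fun n => ⨆ g : G, P.act g (Z n)) (fun n => P.stable_iSup_act _)
    (fun m n h => iSup_mono fun g => P.act_mono g (hZmono h))
  refine ⟨N, fun m hm => ?_⟩
  have h1 := hN m hm
  set q0 : G ⧸ H := ((1 : G) : G ⧸ H) with hq0
  have hV0 : P.act q0.out Y = Y := by rw [hq0, P.act_out H Y hY, P.act_one]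
  have key : ∀ n, Y ⊓ (⨆ g : G, P.act g (Z n)) = Z n := by
    intro n
    apply le_antisymm
    · have hV0Z : P.act q0.out (Z n) = Z n := by rw [hq0, P.act_out H (Z n) (hZs n), P.act_one]
      have h2 : (⨆ g : G, P.act g (Z n)) ≤ Z n ⊔ ⨆ q' : G ⧸ H, ⨆ _ : q' ≠ q0, P.act q'.out Y := by
        rw [← P.iSup_out H (Z n) (hZs n)]
        apply iSup_le
        intro q'
        by_cases h : q' = q0
        · rw [h, hV0Z]; exact le_sup_left
        · refine le_trans (P.act_mono _ (hZY n)) (le_trans ?_ le_sup_right)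
          exact le_iSup₂ (f := fun (q' : G ⧸ H) (_ : q' ≠ q0) => P.act q'.out Y) q' h
      refine (inf_le_inf le_rfl h2).trans ?_
      rw [inf_comm, sup_inf_assoc_of_le _ (hZY n)]
      have h3 := (hind q0).eq_bot
      simp only [hV0] at h3
      rw [inf_comm] at h3
      rw [h3, sup_bot_eq]
    · refine le_inf (hZY n) ?_
      have := le_iSup (fun g : G => P.act g (Z n)) 1
      rwa [P.act_one] at this
  have h2 : Z m = Z N := by rw [← key m, ← key N, h1]
  exact Submodule.map_injective_of_injective Y.subtype_injective h2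

end C3da71
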