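import Pool.Agent.Lib.MP_c3da71_al.FSys
import Pool.Agent.Lib.MP_c3da71_al.Perm

/-! # Case F -/

set_option autoImplicit false

namespace C3da71

section

variable {G : Type} [Group G] {E : Type} [DivisionRing E] {X : Type} [AddCommGroup X] [Module E X]

/-- the `R`-submodule generated by a `g`-stable subspace is `g`-stable -/
theorem PAct.actR_span (P : PAct G E X) (B : Subgroup G) [B.Normal] (g : G) (F : Submodule E X)
    (hF : C3da71.Stable (P.ρ g) F) :
    P.actR B g (Submodule.span (P.opRing B) (F : Set X)) = Submodule.span (P.opRing B) (F : Set X) := by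
  obtain ⟨c, hc⟩ := P.exists_conj B g
  apply le_antisymm
  · intro x hx
    rw [P.mem_actR] at hx
    obtain ⟨y, rfl⟩ : ∃ y, x = P.ρ g y := ⟨(P.ρ g).symm x, by simp⟩
    rw [AddEquiv.symm_apply_apply] at hx
    refine Submodule.span_induction (p := fun y _ => P.ρ g y ∈ Submodule.span (P.opRing B) (F : Set X)) ?_ ?_ ?_ ?_ hx
    · intro y hy
      exact Submodule.subset_span ((hF y).2 hy)
    · rw [map_zero]; exact Submodule.zero_mem _
    · intro a b _ _ ha hb
      rw [map_add]; exact Submodule.add_mem _ ha hb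
    · intro f a _ ha
      rw [hc]; exact Submodule.smul_mem _ _ ha
  · rw [Submodule.span_le]
    intro x hx
    rw [SetLike.mem_coe, P.mem_actR]
    apply Submodule.subset_span
    apply (hF _).1
    simpa using hx

/-- a minimal nonzero finite dimensional `B`-stable subspace is a simple `R`-submodule -/
theorem exists_simple (P : PAct G E X) (B : Subgroup G) (V : Submodule E X) (hV0 : V ≠ ⊥) (hV : V.FG)
    (hVB : P.BStable B V) :
    ∃ S : Submodule (P.opRing B) X, IsSimpleModule (P.opRing B) S ∧ (P.ofR B S).FG := by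
  classical
  let p : ℕ → Prop := fun n => ∃ V : Submodule E X, V ≠ ⊥ ∧ V.FG ∧ P.BStable B V ∧ Module.finrank E V = n
  have hp : ∃ n, p n := ⟨_, V, hV0, hV, hVB, rfl⟩
  obtain ⟨V, hV0, hV, hVB, hVn⟩ := Nat.find_spec hp
  have hmin : ∀ U : Submodule E X, U ≠ ⊥ → U ≤ V → P.BStable B U → U = V := by
    intro U hU0 hUV hUB
    have hfd : FiniteDimensional E V := (Module.Finite.iff_fg).2 hV
    have hUfd : FiniteDimensional E U := Submodule.finiteDimensional_of_le hUV
    apply Submodule.eq_of_le_of_finrank_le hUV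
    rw [hVn]
    exact Nat.find_min' hp ⟨U, hU0, (Module.Finite.iff_fg).1 hUfd, hUB, rfl⟩
  refine ⟨P.toR B V hVB, ?_, hV⟩
  rw [isSimpleModule_iff_isAtom]
  constructor
  · intro h
    apply hV0
    rw [eq_bot_iff]
    intro x hx
    have : x ∈ P.toR B V hVB := hx
    rw [h] at this
    exact this
  · intro U hU
    by_contra hU0
    have h1 := hmin (P.ofR B U) (by
      intro h
      apply hU0
      rw [eq_bot_iff]
      intro x hx
      have : x ∈ P.ofR B U := hx
      rw [h] at this
      exact this) (fun x hx => hU.le hx) (P.bstable_ofR B U)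
    apply hU.ne
    ext x
    have : x ∈ P.ofR B U ↔ x ∈ V := by rw [h1]
    exact this

theorem PAct.ofR_bot (P : PAct G E X) (B : Subgroup G) : P.ofR B ⊥ = ⊥ := by
  ext x
  rw [P.mem_ofR, Submodule.mem_bot, Submodule.mem_bot]

end

/-- transfer of goodness along a map of subspace lattices -/
theorem good_transfer {Γ Γ' : Type} [Group Γ] [Group Γ'] (f : Γ →* Γ') {E D I H : Type} [DivisionRing E] [DivisionRing D]
    [AddCommGroup I] [Module E I] [AddCommGroup H] [Module D H] (PI : PAct Γ E I) (P1 : PAct Γ' D H)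
    (J : Submodule D H → Submodule E I)
    (hinf : ∀ S : Set (Submodule D H), S.Nonempty → J (sInf S) = sInf (J '' S)) (m : ℕ)
    (hdim : ∀ Y' Y n, Y' ≤ Y → DimLE Y' Y n → DimLE (J Y') (J Y) (m * n)) (hbot : J ⊥ = ⊥)
    (hact : ∀ g K, J (P1.act (f g) K) = PI.act g (J K))
    (hcov : ∀ g (F : Submodule E I), F.FG → C3da71.Stable (PI.ρ g) F → ∃ K : Submodule D H, K.FG ∧ P1.act (f g) K = K ∧ F ≤ J K)
    (h1 : P1.Good) : PI.Good := by
  obtain ⟨d, l, hdl⟩ := h1
  refine ⟨m * d, l, fun g F hF hFs => ?_⟩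
  obtain ⟨K, hK, hKact, hFK⟩ := hcov g F hF hFs
  have h1 := hdl (f g) K hK ((P1.hst_iff _ _).2 hKact)
  have h2 := Cl.map (h' := PI.ρ g) J hinf m hdim (by
    intro Y hY
    rw [P1.hst_iff] at hY
    rw [PI.hst_iff, ← hact, hY]) ((P1.hst_iff _ _).2 hKact) h1
  rw [hbot] at h2
  have h3 := Cl.restrict h2 hFs hFK
  rwa [inf_bot_eq] at h3

/-- Case F: the infinite normal subgroup `B` stabilizes a nonzero finite dimensional subspace. -/
theorem fcase {n : ℕ} (IH : AllGood n) {G : Type} [Group G] (hG : PC G) (hn : HC (n + 1) G) {B : Subgroup G} [B.Normal]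
    (hB : Infinite B) {E : Type} [DivisionRing E] {X : Type} [AddCommGroup X] [Module E X] (P : PAct G E X)
    (hP : P.Noeth) (V : Submodule E X) (hV0 : V ≠ ⊥) (hV : V.FG) (hVB : P.BStable B V) :
    ∃ (Y : Submodule E X) (hY : P.Stable Y), Y ≠ ⊥ ∧ (P.sub Y hY).Good := by
  classical
  obtain ⟨S, hS, hSfg⟩ := exists_simple P B V hV0 hV hVB
  set Γ := P.isoStab B S with hΓ
  set I := P.ofR B (isotypicComponent (P.opRing B) X S) with hI
  have hIs : (P.res Γ).Stable I := P.stable_isotypic B S
  have hind := P.indep_isotypic B S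
  have hIN : ((P.res Γ).sub I hIs).Noeth := noeth_of_induced P hP Γ I hIs hind
  obtain ⟨P1, hP1⟩ := P.exists_hom_system B S
  have hJle : ∀ K : Submodule (Module.End (P.opRing B) S)ᵐᵒᵖ (Hm (P.opRing B) S X), P.ofR B (Jm K) ≤ I := by
    intro K
    apply P.ofR_mono
    rw [← Jm_top]
    exact Jm_mono le_top
  have hJinj : ∀ K K' : Submodule (Module.End (P.opRing B) S)ᵐᵒᵖ (Hm (P.opRing B) S X),
      P.ofR B (Jm K) = P.ofR B (Jm K') → K = K' := by
    intro K K' h
    rw [← Im_Jm K, ← Im_Jm K', P.ofR_injective B h]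
  -- `H` is Noetherian
  have hP1N : P1.Noeth := by
    intro f hf hmono
    obtain ⟨N, hN⟩ := hIN (fun n => (P.ofR B (Jm (f n))).comap I.subtype) (by
      intro n g y hy
      have h1 : P.act (g : G) (P.ofR B (Jm (f n))) = P.ofR B (Jm (f n)) := by
        rw [← hP1 g, (hf n).act_eq]
      show P.ρ g y ∈ P.ofR B (Jm (f n))
      rw [← h1, P.ρ_mem_act]
      exact hy) (by
      intro i j hij x hx
      exact P.ofR_mono B (Jm_mono (hmono hij)) hx)
    refine ⟨N, fun m hm => ?_⟩
    apply hJinj
    have h1 := congrArg (Submodule.map I.subtype) (hN m hm)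
    rwa [Submodule.map_comap_eq, Submodule.map_comap_eq, Submodule.range_subtype,
      inf_eq_right.2 (hJle _), inf_eq_right.2 (hJle _)] at h1
  -- `H` is good
  have hP1G : PAct.Good (E := (Module.End (P.opRing B) S)ᵐᵒᵖ) P1 := by
    have hBinf : Infinite (B.subgroupOf Γ) :=
      (Equiv.infinite_iff (Subgroup.subgroupOfEquivOfLe (P.le_isoStab B S)).toEquiv).2 hB
    exact IH _ ((hG.subgroup Γ).quotient _) ((hn.subgroup Γ).quotient_of_infinite _ hBinf)
      (Module.End (P.opRing B) S)ᵐᵒᵖ (Hm (P.opRing B) S X) P1 hP1N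
  set m := Module.finrank E (P.ofR B S) with hm
  have hIG : ((P.res Γ).sub I hIs).Good := by
    refine good_transfer (D := (Module.End (P.opRing B) S)ᵐᵒᵖ) (H := Hm (P.opRing B) S X)
      (QuotientGroup.mk' (B.subgroupOf Γ)) ((P.res Γ).sub I hIs) P1
      (fun K : Submodule (Module.End (P.opRing B) S)ᵐᵒᵖ (Hm (P.opRing B) S X) =>
        (P.ofR B (Jm K)).comap I.subtype) ?_ m ?_ ?_ ?_ ?_ hP1G
    · intro 𝒮 h𝒮
      rw [Jm_sInf 𝒮 h𝒮]
      ext x
      rw [Submodule.mem_comap, P.mem_ofR, Submodule.mem_sInf, Submodule.mem_sInf]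
      constructor
      · rintro h _ ⟨K, hK, rfl⟩
        exact h _ ⟨K, hK, rfl⟩
      · rintro h _ ⟨K, hK, rfl⟩
        exact h _ ⟨K, hK, rfl⟩
    · intro Y' Y n hY h
      exact (P.dim_Jm B S hSfg m le_rfl Y' Y hY n h).comap I.subtype
    · show (P.ofR B (Jm ⊥)).comap I.subtype = ⊥
      rw [Jm_bot, P.ofR_bot, Submodule.comap_bot, Submodule.ker_subtype]
    · intro g K
      have h1 : (P.ofR B (Jm (P1.act ((QuotientGroup.mk' (B.subgroupOf Γ)) g) K))).comap I.subtype =
        (P.act (g : G) (P.ofR B (Jm K))).comap I.subtype := by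
        rw [← hP1 g K]; rfl
      exact h1
    · intro g F hF hFs
      set F' : Submodule E X := F.map I.subtype with hF'
      have hF's : C3da71.Stable (P.ρ (g : G)) F' := by
        intro x
        constructor
        · rintro ⟨y, hy, hyx⟩
          refine ⟨(((P.res Γ).sub I hIs).ρ g).symm y, (hFs _).1 (by simpa using hy), ?_⟩
          apply (P.ρ (g : G)).injective
          rw [← hyx]
          have h1 : I.subtype (((P.res Γ).sub I hIs).ρ g ((((P.res Γ).sub I hIs).ρ g).symm y)) =
            P.ρ (g : G) (I.subtype ((((P.res Γ).sub I hIs).ρ g).symm y)) := rfl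
          rw [← h1, AddEquiv.apply_symm_apply]
        · rintro ⟨y, hy, rfl⟩
          exact ⟨((P.res Γ).sub I hIs).ρ g y, (hFs _).2 hy, rfl⟩
      have hF'I : F' ≤ I := Submodule.map_subtype_le _ _
      set U : Submodule (P.opRing B) X := Submodule.span (P.opRing B) (F' : Set X) with hU
      have hUI : U ≤ isotypicComponent (P.opRing B) X S := by
        rw [hU, Submodule.span_le]
        exact hF'I
      have hUfg : U.FG := by
        obtain ⟨t, ht⟩ := hF.map I.subtype
        refine ⟨t, ?_⟩
        apply le_antisymm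
        · apply Submodule.span_mono
          rw [← hF'] at ht
          rw [← ht]
          exact Submodule.subset_span
        · rw [hU, Submodule.span_le]
          rw [← hF'] at ht
          have h1 : F' ≤ P.ofR B (Submodule.span (P.opRing B) (t : Set X)) := by
            rw [← ht, Submodule.span_le]
            intro x hx
            exact Submodule.subset_span hx
          exact h1
      have hUact : P.actR B (g : G) U = U := P.actR_span B g F' hF's
      have hJK : Jm (Im U : Submodule (Module.End (P.opRing B) S)ᵐᵒᵖ (Hm (P.opRing B) S X)) = U := Jm_Im U hUI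
      refine ⟨Im U, Im_fg U hUI hUfg, ?_, ?_⟩
      · apply hJinj
        have h1 := hP1 g (Im U)
        rw [hJK, ← P.ofR_actR, hUact] at h1
        rw [hJK]
        exact h1
      · intro x hx
        show (x : X) ∈ Jm (Im U : Submodule (Module.End (P.opRing B) S)ᵐᵒᵖ (Hm (P.opRing B) S X))
        rw [hJK]
        exact Submodule.subset_span ⟨x, hx, rfl⟩
  refine ⟨⨆ g : G, P.act g I, P.stable_iSup_act I, ?_, good_induced hG P hP Γ I hIs hind hIG _⟩
  intro h
  have h1 : I ≤ ⊥ := by
    rw [← h]
    have := le_iSup (fun g : G => P.act g I) 1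
    rwa [P.act_one] at this
  have h2 : S ≤ isotypicComponent (P.opRing B) X S := le_sSup ⟨LinearEquiv.refl _ _⟩
  have h3 : S ≠ ⊥ := (isSimpleModule_iff_isAtom.1 hS).1
  apply h3
  rw [eq_bot_iff]
  intro x hx
  exact h1 (h2 hx)

end C3da71
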