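import Pool.Agent.Lib.MP_c3da71_al.PCInd

set_option autoImplicit false

namespace C3da71

/-- Every surjection from a finitely generated group has a kernel that is the normal closure of a
finite set. -/
def FPN (Q : Type) [Group Q] : Prop :=
  ∀ (G : Type) [Group G], Group.FG G → ∀ π : G →* Q, Function.Surjective π →
    ∃ S : Finset G, Subgroup.normalClosure (S : Set G) = π.ker

theorem FPN.cyclic (Q : Type) [Group Q] (hQ : IsCyclic Q) : FPN Q := by
  classical
  intro G _ hG π hπ
  obtain ⟨c, hc⟩ := hQ.exists_zpow_surjective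
  obtain ⟨x, hx⟩ := hπ c
  obtain ⟨gens, hgens⟩ := Group.fg_def.1 hG
  -- each generator is x^n k
  have h1 : ∀ g : G, ∃ n : ℤ, g * (x ^ n)⁻¹ ∈ π.ker := by
    intro g
    obtain ⟨n, hn⟩ := hc (π g)
    refine ⟨n, ?_⟩
    rw [MonoidHom.mem_ker, map_mul, map_inv, map_zpow, hx]
    simp only at hn
    rw [hn, mul_inv_cancel]
  choose nn hnn using h1
  -- kernel on powers of x
  have hcyc : IsCyclic (π.ker.subgroupOf (Subgroup.zpowers x)) := by
    have : IsCyclic (Subgroup.zpowers x) := Subgroup.isCyclic_zpowers x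
    infer_instance
  obtain ⟨y, hy⟩ := hcyc.exists_zpow_surjective
  let y₀ : G := ((y : Subgroup.zpowers x) : G)
  have hy₀ : y₀ ∈ π.ker := y.2
  refine ⟨insert y₀ (gens.image (fun g => g * (x ^ nn g)⁻¹)), ?_⟩
  set K := Subgroup.normalClosure
    ((insert y₀ (gens.image (fun g => g * (x ^ nn g)⁻¹)) : Finset G) : Set G) with hK
  apply le_antisymm
  · apply Subgroup.normalClosure_le_normal
    intro g hg
    simp only [Finset.coe_insert, Finset.coe_image, Set.mem_insert_iff, Set.mem_image] at hg
    rcases hg with rfl | ⟨g, _, rfl⟩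
    · exact hy₀
    · exact hnn g
  · have htop : ∀ g : G, g ∈ K ⊔ Subgroup.zpowers x := by
      have hle : Subgroup.closure (gens : Set G) ≤ K ⊔ Subgroup.zpowers x := by
        rw [Subgroup.closure_le]
        intro g hg
        have h2 : g = (g * (x ^ nn g)⁻¹) * x ^ nn g := by group
        rw [h2]
        refine (K ⊔ Subgroup.zpowers x).mul_mem (Subgroup.mem_sup_left ?_)
          (Subgroup.mem_sup_right ?_)
        · exact Subgroup.subset_normalClosure (by
            simp only [Finset.coe_insert, Finset.coe_image]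
            exact Or.inr ⟨g, hg, rfl⟩)
        · exact Subgroup.zpow_mem _ (Subgroup.mem_zpowers x) _
      intro g
      exact hle (by rw [hgens]; trivial)
    intro k hk
    have h2 := htop k
    rw [← SetLike.mem_coe, Subgroup.normal_mul] at h2
    obtain ⟨k', hk', z, hz, hkz⟩ := h2
    have hk'2 : k' ∈ π.ker := by
      have hle : K ≤ π.ker := by
        apply Subgroup.normalClosure_le_normal
        intro g hg
        simp only [Finset.coe_insert, Finset.coe_image, Set.mem_insert_iff, Set.mem_image] at hg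
        rcases hg with rfl | ⟨g, _, rfl⟩
        · exact hy₀
        · exact hnn g
      exact hle hk'
    have hz2 : z ∈ π.ker := by
      have : z = k'⁻¹ * k := by rw [← hkz]; simp
      rw [this]
      exact π.ker.mul_mem (π.ker.inv_mem hk'2) hk
    obtain ⟨n, hn⟩ := hy ⟨⟨z, hz⟩, hz2⟩
    have hzn : z = y₀ ^ n := by
      have h3 := congrArg (fun t => ((t : π.ker.subgroupOf (Subgroup.zpowers x)) :
        Subgroup.zpowers x)) hn
      have h4 := congrArg Subtype.val h3
      simpa using h4.symm
    rw [← hkz]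
    refine K.mul_mem hk' ?_
    rw [hzn]
    refine K.zpow_mem (Subgroup.subset_normalClosure ?_) n
    simp

theorem FPN.extension (Q : Type) [Group Q] (N : Subgroup Q) [N.Normal] (hQ : PC Q)
    (hN : FPN N) (hQN : FPN (Q ⧸ N)) : FPN Q := by
  classical
  intro G _ hG π hπ
  obtain ⟨gens, hgens⟩ := Group.fg_def.1 hG
  obtain ⟨ngens, hngens⟩ := hQ.fg N
  -- lifts of the generators of N
  choose lift hlift using hπ
  obtain ⟨S, hS⟩ := hQN G hG ((QuotientGroup.mk' N).comp π)
    ((QuotientGroup.mk'_surjective N).comp (fun q => ⟨lift q, hlift q⟩))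
  let M : Subgroup G := N.comap π
  have hM : ((QuotientGroup.mk' N).comp π).ker = M := by
    ext g
    rw [MonoidHom.mem_ker]
    exact QuotientGroup.eq_one_iff (π g)
  rw [hM] at hS
  let X : Subgroup G := Subgroup.closure (ngens.image lift : Finset G)
  have hXmap : X.map π = N := by
    rw [MonoidHom.map_closure, Finset.coe_image, Set.image_image]
    simp only [hlift, Set.image_id']
    exact hngens
  have hXM : X ≤ M := by
    rw [← Subgroup.map_le_iff_le_comap, hXmap]
  -- every m ∈ M is (element of X) * (element of ker)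
  have hdec : ∀ m ∈ M, ∃ w ∈ X, w⁻¹ * m ∈ π.ker := by
    intro m hm
    have h1 : π m ∈ X.map π := by rw [hXmap]; exact hm
    obtain ⟨w, hw, hw2⟩ := h1
    refine ⟨w, hw, ?_⟩
    rw [MonoidHom.mem_ker, map_mul, map_inv, hw2, inv_mul_cancel]
  have hdec' : ∀ m : G, ∃ w ∈ X, m ∈ M → w⁻¹ * m ∈ π.ker := by
    intro m
    by_cases hm : m ∈ M
    · obtain ⟨w, hw, hw2⟩ := hdec m hm
      exact ⟨w, hw, fun _ => hw2⟩
    · exact ⟨1, X.one_mem, fun h => absurd h hm⟩
  choose wd hwd hwd2 using hdec'
  -- the finite set of relations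
  let R1 : Finset G := (gens ×ˢ (ngens.image lift)).image
    (fun p => (wd (p.1 * p.2 * p.1⁻¹))⁻¹ * (p.1 * p.2 * p.1⁻¹))
  let R2 : Finset G := (gens ×ˢ (ngens.image lift)).image
    (fun p => (wd (p.1⁻¹ * p.2 * p.1))⁻¹ * (p.1⁻¹ * p.2 * p.1))
  let R3 : Finset G := S.image (fun s => (wd s)⁻¹ * s)
  let K : Subgroup G := Subgroup.normalClosure ((R1 ∪ R2 ∪ R3 : Finset G) : Set G)
  have hMn : M.Normal := by
    have : N.Normal := inferInstance
    exact this.comap π
  have hKker : K ≤ π.ker := by
    apply Subgroup.normalClosure_le_normal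
    intro g hg
    simp only [Finset.coe_union, Set.mem_union] at hg
    have himg : ∀ p2 ∈ ngens.image lift, p2 ∈ M := fun p2 hp2 =>
      hXM (Subgroup.subset_closure (by exact_mod_cast hp2))
    rcases hg with (hg | hg) | hg
    · simp only [R1, Finset.coe_image, Set.mem_image] at hg
      obtain ⟨p, hp, rfl⟩ := hg
      rw [Finset.mem_coe, Finset.mem_product] at hp
      exact hwd2 _ (hMn.conj_mem _ (himg _ hp.2) _)
    · simp only [R2, Finset.coe_image, Set.mem_image] at hg
      obtain ⟨p, hp, rfl⟩ := hg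
      rw [Finset.mem_coe, Finset.mem_product] at hp
      refine hwd2 _ ?_
      have := hMn.conj_mem _ (himg _ hp.2) (p.1⁻¹)
      rwa [inv_inv] at this
    · simp only [R3, Finset.coe_image, Set.mem_image] at hg
      obtain ⟨s, hs, rfl⟩ := hg
      refine hwd2 _ ?_
      rw [← hS]
      exact Subgroup.subset_normalClosure hs
  -- K ⊔ X is normal
  have hgen_norm : ∀ g ∈ gens, ∀ z ∈ K ⊔ X, g * z * g⁻¹ ∈ K ⊔ X ∧ g⁻¹ * z * g ∈ K ⊔ X := by
    intro g hg z hz
    have hKn : K.Normal := Subgroup.normalClosure_normal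
    constructor
    · have hle : K ⊔ X ≤ (K ⊔ X).comap (MulAut.conj g).toMonoidHom := by
        refine sup_le ?_ ?_
        · intro k hk
          exact Subgroup.mem_sup_left (hKn.conj_mem k hk g)
        · rw [Subgroup.closure_le]
          intro p hp
          change g * p * g⁻¹ ∈ K ⊔ X
          have h2 : g * p * g⁻¹ = wd (g * p * g⁻¹) * ((wd (g * p * g⁻¹))⁻¹ * (g * p * g⁻¹)) := by
            group
          rw [h2]
          refine (K ⊔ X).mul_mem (Subgroup.mem_sup_right (hwd _)) (Subgroup.mem_sup_left ?_)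
          refine Subgroup.subset_normalClosure ?_
          simp only [Finset.coe_union, Set.mem_union]
          left; left
          simp only [R1, Finset.coe_image, Set.mem_image]
          exact ⟨(g, p), by rw [Finset.mem_coe, Finset.mem_product]; exact ⟨hg, hp⟩, rfl⟩
      exact hle hz
    · have hle : K ⊔ X ≤ (K ⊔ X).comap (MulAut.conj g⁻¹).toMonoidHom := by
        refine sup_le ?_ ?_
        · intro k hk
          exact Subgroup.mem_sup_left (hKn.conj_mem k hk g⁻¹)
        · rw [Subgroup.closure_le]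
          intro p hp
          change g⁻¹ * p * g⁻¹⁻¹ ∈ K ⊔ X
          rw [inv_inv]
          have h2 : g⁻¹ * p * g = wd (g⁻¹ * p * g) * ((wd (g⁻¹ * p * g))⁻¹ * (g⁻¹ * p * g)) := by
            group
          rw [h2]
          refine (K ⊔ X).mul_mem (Subgroup.mem_sup_right (hwd _)) (Subgroup.mem_sup_left ?_)
          refine Subgroup.subset_normalClosure ?_
          simp only [Finset.coe_union, Set.mem_union]
          left; right
          simp only [R2, Finset.coe_image, Set.mem_image]
          exact ⟨(g, p), by rw [Finset.mem_coe, Finset.mem_product]; exact ⟨hg, hp⟩, rfl⟩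
      have := hle hz
      change g⁻¹ * z * g⁻¹⁻¹ ∈ K ⊔ X at this
      rwa [inv_inv] at this
  have hKXn : (K ⊔ X).Normal := by
    let Nm : Subgroup G := Subgroup.normalizer ((K ⊔ X : Subgroup G) : Set G)
    have hle : Subgroup.closure (gens : Set G) ≤ Nm := by
      rw [Subgroup.closure_le]
      intro g hg
      change g ∈ Subgroup.normalizer ((K ⊔ X : Subgroup G) : Set G)
      rw [Subgroup.mem_normalizer_iff]
      intro z
      constructor
      · exact fun hz => (hgen_norm g hg z hz).1
      · intro hz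
        have := (hgen_norm g hg _ hz).2
        have h3 : g⁻¹ * (g * z * g⁻¹) * g = z := by group
        rwa [h3] at this
    refine ⟨fun z hz g => ?_⟩
    have hg : g ∈ Nm := hle (by rw [hgens]; trivial)
    exact (Subgroup.mem_normalizer_iff.1 hg z).1 hz
  have hMle : M ≤ K ⊔ X := by
    rw [← hS]
    apply Subgroup.normalClosure_le_normal
    intro s hs
    have h2 : s = wd s * ((wd s)⁻¹ * s) := by group
    rw [h2]
    refine (K ⊔ X).mul_mem (Subgroup.mem_sup_right (hwd _)) (Subgroup.mem_sup_left ?_)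
    refine Subgroup.subset_normalClosure ?_
    simp only [Finset.coe_union, Set.mem_union]
    right
    simp only [R3, Finset.coe_image, Set.mem_image]
    exact ⟨s, hs, rfl⟩
  -- now the group M / K
  have hKM : K ≤ M := hKker.trans (by
    intro k hk
    change π k ∈ N
    rw [MonoidHom.mem_ker.1 hk]
    exact N.one_mem)
  have hKn : K.Normal := Subgroup.normalClosure_normal
  let K' : Subgroup M := K.subgroupOf M
  have hK'n : K'.Normal := hKn.subgroupOf M
  -- the map M / K' → N
  let πM : M →* N := (π.comp M.subtype).codRestrict N (fun m => m.2)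
  have hπMK : K' ≤ πM.ker := by
    intro k hk
    rw [MonoidHom.mem_ker]
    apply Subtype.ext
    exact MonoidHom.mem_ker.1 (hKker hk)
  let π' : (M ⧸ K') →* N := QuotientGroup.lift K' πM hπMK
  have hπ'surj : Function.Surjective π' := by
    intro n
    refine ⟨QuotientGroup.mk ⟨lift n, by change π (lift n) ∈ N; rw [hlift]; exact n.2⟩, ?_⟩
    apply Subtype.ext
    exact hlift n
  have hfgM : Group.FG (M ⧸ K') := by
    rw [Group.fg_def]
    let gs : Finset (M ⧸ K') := (ngens.image lift).attach.image
      (fun p => QuotientGroup.mk ⟨p.1, hXM (Subgroup.subset_closure (by exact_mod_cast p.2))⟩)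
    refine ⟨gs, ?_⟩
    rw [eq_top_iff]
    intro q _
    obtain ⟨m, rfl⟩ := QuotientGroup.mk_surjective q
    have hm : (m : G) ∈ K ⊔ X := hMle m.2
    rw [← SetLike.mem_coe, Subgroup.normal_mul] at hm
    obtain ⟨k, hk, x, hx, hkx⟩ := hm
    have hxM : x ∈ M := hXM hx
    have hkM : k ∈ M := hKM hk
    have h3 : (QuotientGroup.mk m : M ⧸ K') = QuotientGroup.mk ⟨x, hxM⟩ := by
      have h4 : m = ⟨k, hkM⟩ * ⟨x, hxM⟩ := Subtype.ext hkx.symm
      rw [h4, QuotientGroup.mk_mul]
      have h5 : (QuotientGroup.mk (⟨k, hkM⟩ : M) : M ⧸ K') = 1 :=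
        (QuotientGroup.eq_one_iff _).2 hk
      rw [h5, one_mul]
    rw [h3]
    have hle : X ≤ ((Subgroup.closure (gs : Set (M ⧸ K'))).comap
        (QuotientGroup.mk' K')).map M.subtype := by
      rw [Subgroup.closure_le]
      intro p hp
      have hp' : p ∈ ngens.image lift := by exact_mod_cast hp
      refine ⟨⟨p, hXM (Subgroup.subset_closure hp)⟩, ?_, rfl⟩
      apply Subgroup.subset_closure
      simp only [gs, Finset.coe_image, Set.mem_image]
      exact ⟨⟨p, hp'⟩, by simp, rfl⟩
    obtain ⟨m', hm', hm'2⟩ := hle hx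
    have h6 : m' = ⟨x, hxM⟩ := Subtype.ext hm'2
    rw [← h6]
    exact hm'
  obtain ⟨T, hT⟩ := hN (M ⧸ K') hfgM π' hπ'surj
  -- lift T
  let lift2 : (M ⧸ K') → M := fun q => (QuotientGroup.mk_surjective q).choose
  have hlift2 : ∀ q, (QuotientGroup.mk (lift2 q) : M ⧸ K') = q :=
    fun q => (QuotientGroup.mk_surjective q).choose_spec
  let T' : Finset G := T.image (fun q => (lift2 q : G))
  refine ⟨R1 ∪ R2 ∪ R3 ∪ T', ?_⟩
  set L : Subgroup G := Subgroup.normalClosure ((R1 ∪ R2 ∪ R3 ∪ T' : Finset G) : Set G) with hL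
  have hLn : L.Normal := Subgroup.normalClosure_normal
  have hKL : K ≤ L := by
    apply Subgroup.normalClosure_mono
    rw [Finset.coe_union (R1 ∪ R2 ∪ R3) T']
    exact Set.subset_union_left
  apply le_antisymm
  · apply Subgroup.normalClosure_le_normal
    intro g hg
    rw [Finset.coe_union (R1 ∪ R2 ∪ R3) T'] at hg
    rcases hg with hg | hg
    · exact hKker (Subgroup.subset_normalClosure hg)
    · simp only [T', Finset.coe_image, Set.mem_image] at hg
      obtain ⟨q, hq, rfl⟩ := hg
      have h4 : q ∈ π'.ker := by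
        rw [← hT]
        exact Subgroup.subset_normalClosure hq
      rw [← hlift2 q] at h4
      have h5 : πM (lift2 q) = 1 := h4
      rw [SetLike.mem_coe, MonoidHom.mem_ker]
      exact congrArg Subtype.val h5
  · intro k hk
    have hkM : k ∈ M := by
      change π k ∈ N
      rw [MonoidHom.mem_ker.1 hk]
      exact N.one_mem
    let L' : Subgroup M := L.subgroupOf M
    have hL'n : L'.Normal := hLn.subgroupOf M
    have hmapn : (L'.map (QuotientGroup.mk' K')).Normal :=
      hL'n.map _ (QuotientGroup.mk'_surjective K')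
    have hle : π'.ker ≤ L'.map (QuotientGroup.mk' K') := by
      rw [← hT]
      apply Subgroup.normalClosure_le_normal
      intro q hq
      refine ⟨lift2 q, ?_, hlift2 q⟩
      change (lift2 q : G) ∈ L
      apply Subgroup.subset_normalClosure
      rw [Finset.coe_union (R1 ∪ R2 ∪ R3) T']
      right
      simp only [T', Finset.coe_image, Set.mem_image]
      exact ⟨q, hq, rfl⟩
    have h6 : (QuotientGroup.mk (⟨k, hkM⟩ : M) : M ⧸ K') ∈ π'.ker := by
      rw [MonoidHom.mem_ker]
      apply Subtype.ext
      exact MonoidHom.mem_ker.1 hk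
    obtain ⟨l, hl, hl2⟩ := hle h6
    have h7 : l⁻¹ * ⟨k, hkM⟩ ∈ K' := by
      rw [← QuotientGroup.eq]
      exact hl2
    have h8 : ((l⁻¹ * ⟨k, hkM⟩ : M) : G) ∈ L := hKL h7
    have h9 : k = (l : G) * ((l⁻¹ * ⟨k, hkM⟩ : M) : G) := by simp
    rw [h9]
    exact L.mul_mem hl h8

theorem PC.fpn : ∀ (Q : Type) [Group Q], PC Q → FPN Q :=
  PC.rec_ext FPN.cyclic FPN.extension

end C3da71
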