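import Mathlib

/-! # Homomorphisms from a simple module and isotypic components -/

set_option autoImplicit false

namespace C3da71

variable (R : Type) [Ring R] (V : Type) [AddCommGroup V] [Module R V] (X : Type) [AddCommGroup X] [Module R X]

/-- `Hom_R(V, X)` as a left module over the opposite of `End_R(V)` -/
def Hm : Type := V →ₗ[R] X

instance : AddCommGroup (Hm R V X) := inferInstanceAs (AddCommGroup (V →ₗ[R] X))

instance : Module (Module.End R V)ᵐᵒᵖ (Hm R V X) where
  smul d h := (LinearMap.comp (show V →ₗ[R] X from h) d.unop : V →ₗ[R] X)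
  one_smul h := LinearMap.comp_id _
  mul_smul a b h := by
    show LinearMap.comp (show V →ₗ[R] X from h) (a * b).unop = _
    rfl
  smul_zero d := LinearMap.zero_comp _
  smul_add d a b := LinearMap.add_comp _ _ _
  add_smul a b h := LinearMap.comp_add _ _ _
  zero_smul h := LinearMap.comp_zero _

variable {R V X}

/-- the homomorphism underlying an element of `Hm` -/
def Hm.hom (h : Hm R V X) : V →ₗ[R] X := h

/-- the `R`-submodule of `X` generated by the images of the homomorphisms in `K` -/
def Jm (K : Submodule (Module.End R V)ᵐᵒᵖ (Hm R V X)) : Submodule R X := ⨆ h ∈ K, LinearMap.range (Hm.hom h)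

/-- the homomorphisms with values in `U` -/
def Im (U : Submodule R X) : Submodule (Module.End R V)ᵐᵒᵖ (Hm R V X) where
  carrier := {h | ∀ v, Hm.hom h v ∈ U}
  add_mem' := fun ha hb v => U.add_mem (ha v) (hb v)
  zero_mem' := fun _ => U.zero_mem
  smul_mem' := fun d _ hh v => hh (d.unop v)

theorem gc_Jm_Im : GaloisConnection (Jm : Submodule (Module.End R V)ᵐᵒᵖ (Hm R V X) → Submodule R X) Im := by
  intro K U
  constructor
  · intro h k hk v
    apply h
    exact le_iSup₂ (f := fun (h : Hm R V X) (_ : h ∈ K) => LinearMap.range (Hm.hom h)) k hk ⟨v, rfl⟩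
  · intro h
    refine iSup₂_le ?_
    rintro k hk _ ⟨v, rfl⟩
    exact h hk v

theorem Jm_mono {K K' : Submodule (Module.End R V)ᵐᵒᵖ (Hm R V X)} (h : K ≤ K') : Jm K ≤ Jm K' :=
  gc_Jm_Im.monotone_l h

theorem Jm_sup (K K' : Submodule (Module.End R V)ᵐᵒᵖ (Hm R V X)) : Jm (K ⊔ K') = Jm K ⊔ Jm K' :=
  gc_Jm_Im.l_sup

theorem Jm_bot : Jm (⊥ : Submodule (Module.End R V)ᵐᵒᵖ (Hm R V X)) = ⊥ :=
  gc_Jm_Im.l_bot

theorem Jm_span (s : Set (Hm R V X)) :
    Jm (Submodule.span (Module.End R V)ᵐᵒᵖ s) = ⨆ h ∈ s, LinearMap.range (Hm.hom h) := by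
  apply le_antisymm
  · rw [gc_Jm_Im]
    rw [Submodule.span_le]
    intro h hh v
    exact le_iSup₂ (f := fun (h : Hm R V X) (_ : h ∈ s) => LinearMap.range (Hm.hom h)) h hh ⟨v, rfl⟩
  · refine iSup₂_le ?_
    rintro k hk _ ⟨v, rfl⟩
    exact (gc_Jm_Im.le_u_l (Submodule.span _ s)) (Submodule.subset_span hk) v

theorem mem_Jm_of_mem {K : Submodule (Module.End R V)ᵐᵒᵖ (Hm R V X)} {h : Hm R V X} (hh : h ∈ K) (v : V) :
    Hm.hom h v ∈ Jm K := gc_Jm_Im.le_u_l K hh v

theorem isIso_le_Jm_Im (U S : Submodule R X) (e : S ≃ₗ[R] V) (hS : S ≤ U) :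
    S ≤ Jm (Im U : Submodule (Module.End R V)ᵐᵒᵖ (Hm R V X)) := by
  intro x hx
  have h1 : (S.subtype.comp e.symm.toLinearMap : Hm R V X) ∈
      (Im U : Submodule (Module.End R V)ᵐᵒᵖ (Hm R V X)) := by
    intro v
    exact hS (e.symm v).2
  have h2 := mem_Jm_of_mem h1 (e ⟨x, hx⟩)
  have h3 : Hm.hom (S.subtype.comp e.symm.toLinearMap : Hm R V X) (e ⟨x, hx⟩) = x := by
    show S.subtype (e.symm (e ⟨x, hx⟩)) = x
    rw [LinearEquiv.symm_apply_apply]
    rfl
  rwa [h3] at h2

theorem Jm_le_isotypic [IsSimpleModule R V] (K : Submodule (Module.End R V)ᵐᵒᵖ (Hm R V X)) :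
    Jm K ≤ isotypicComponent R X V := by
  refine iSup₂_le ?_
  intro k _
  rcases (Hm.hom k).injective_or_eq_zero with hk | hk
  · exact le_sSup ⟨(LinearEquiv.ofInjective _ hk).symm⟩
  · rw [hk, LinearMap.range_zero]
    exact bot_le

theorem Jm_top [IsSimpleModule R V] :
    Jm (⊤ : Submodule (Module.End R V)ᵐᵒᵖ (Hm R V X)) = isotypicComponent R X V := by
  apply le_antisymm (Jm_le_isotypic _)
  refine sSup_le ?_
  rintro S ⟨e⟩
  have h := isIso_le_Jm_Im (V := V) ⊤ S e le_top
  exact h.trans (Jm_mono le_top)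

theorem Im_Jm_finite [IsSimpleModule R V] (s : Finset (Hm R V X)) :
    Im (Jm (Submodule.span (Module.End R V)ᵐᵒᵖ (s : Set (Hm R V X)))) ≤
      Submodule.span (Module.End R V)ᵐᵒᵖ (s : Set (Hm R V X)) := by
  classical
  induction s using Finset.induction_on with
  | empty =>
    intro h hh
    have h0 : h = 0 := by
      apply LinearMap.ext
      intro v
      have := hh v
      rw [Finset.coe_empty, Submodule.span_empty, Jm_bot, Submodule.mem_bot] at this
      exact this
    rw [h0]
    exact Submodule.zero_mem _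
  | insert k s _ ih =>
    set K' := Submodule.span (Module.End R V)ᵐᵒᵖ (s : Set (Hm R V X)) with hK'
    have hspan : Submodule.span (Module.End R V)ᵐᵒᵖ ((insert k s : Finset (Hm R V X)) : Set (Hm R V X)) =
        Submodule.span (Module.End R V)ᵐᵒᵖ {k} ⊔ K' := by
      rw [Finset.coe_insert, Submodule.span_insert]
    rw [hspan, Jm_sup]
    intro h hh
    have hJk : Jm (Submodule.span (Module.End R V)ᵐᵒᵖ {k}) = LinearMap.range (Hm.hom k) := by
      rw [Jm_span]; simp
    rw [hJk] at hh
    set W := Jm K' with hW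
    -- the map `V → X / W` induced by `k`
    set f : V →ₗ[R] X ⧸ W := W.mkQ.comp (Hm.hom k) with hf
    rcases f.injective_or_eq_zero with hinj | h0
    · have hr : ∀ v, (W.mkQ.comp (Hm.hom h)) v ∈ LinearMap.range f := by
        intro v
        obtain ⟨_, ⟨w, rfl⟩, y, hy, e⟩ := Submodule.mem_sup.1 (hh v)
        refine ⟨w, ?_⟩
        show W.mkQ (Hm.hom k w) = W.mkQ (Hm.hom h v)
        rw [← e, map_add, show W.mkQ y = 0 from (Submodule.Quotient.mk_eq_zero W).2 hy, add_zero]
      set d : Module.End R V := ((LinearEquiv.ofInjective f hinj).symm.toLinearMap).comp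
        ((W.mkQ.comp (Hm.hom h)).codRestrict (LinearMap.range f) hr) with hd
      have hfd : ∀ v, W.mkQ (Hm.hom k (d v)) = W.mkQ (Hm.hom h v) := by
        intro v
        have h1 : (LinearEquiv.ofInjective f hinj) (d v) =
            (W.mkQ.comp (Hm.hom h)).codRestrict (LinearMap.range f) hr v := by
          show (LinearEquiv.ofInjective f hinj) ((LinearEquiv.ofInjective f hinj).symm _) = _
          rw [LinearEquiv.apply_symm_apply]
        have h2 := congrArg Subtype.val h1
        exact h2
      have h3 : h - (MulOpposite.op d) • k ∈ Im W := by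
        intro v
        show Hm.hom h v - Hm.hom k (d v) ∈ W
        rw [← Submodule.Quotient.mk_eq_zero, Submodule.Quotient.mk_sub]
        exact sub_eq_zero.2 (hfd v).symm
      have h4 := ih h3
      have h5 : h = (MulOpposite.op d) • k + (h - (MulOpposite.op d) • k) := by abel
      rw [h5]
      exact Submodule.add_mem_sup (Submodule.smul_mem _ _ (Submodule.mem_span_singleton_self k)) h4
    · have hk : LinearMap.range (Hm.hom k) ≤ W := by
        rintro _ ⟨v, rfl⟩
        have := LinearMap.congr_fun h0 v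
        exact (Submodule.Quotient.mk_eq_zero W).1 this
      rw [sup_eq_right.2 hk] at hh
      exact Submodule.mem_sup_right (ih hh)

theorem Jm_eq_iSup (K : Submodule (Module.End R V)ᵐᵒᵖ (Hm R V X)) :
    Jm K = ⨆ k : K, LinearMap.range (Hm.hom (k : Hm R V X)) := by
  rw [Jm, iSup_subtype']

/-- Key lemma: a homomorphism with values in `Jm K` belongs to `K`. Its image lies in a finite sum `∑ k_j(V)`, `k_j ∈ K`; choose the
`k_j` linearly independent over the division ring `(End V)ᵐᵒᵖ`; then `V^m → X`, `(v_j) ↦ ∑ k_j v_j` is injective (otherwise the kernel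
contains a simple submodule, the image of some nonzero `(e_1, ..., e_m) : V → V^m`, and `∑ k_j ∘ e_j = 0`), so `h` factors as
`∑ k_j ∘ e_j ∈ K`. -/
theorem Im_Jm [IsSimpleModule R V] (K : Submodule (Module.End R V)ᵐᵒᵖ (Hm R V X)) : Im (Jm K) = K := by
  classical
  apply le_antisymm _ (gc_Jm_Im.le_u_l K)
  intro h hh
  have : Nontrivial V := IsSimpleModule.nontrivial R V
  obtain ⟨v, hv⟩ := exists_ne (0 : V)
  have h1 := hh v
  rw [Jm_eq_iSup, Submodule.mem_iSup_iff_exists_finset] at h1
  obtain ⟨s, hs⟩ := h1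
  set t : Finset (Hm R V X) := s.image Subtype.val with ht
  have h2 : (⨆ i ∈ s, LinearMap.range (Hm.hom (i : Hm R V X))) ≤
      Jm (Submodule.span (Module.End R V)ᵐᵒᵖ (t : Set (Hm R V X))) := by
    refine iSup₂_le ?_
    rintro i hi _ ⟨w, rfl⟩
    refine mem_Jm_of_mem (Submodule.subset_span ?_) w
    rw [ht, Finset.coe_image]
    exact ⟨i, hi, rfl⟩
  have h3 : h ∈ Im (Jm (Submodule.span (Module.End R V)ᵐᵒᵖ (t : Set (Hm R V X)))) := by
    set W := Jm (Submodule.span (Module.End R V)ᵐᵒᵖ (t : Set (Hm R V X))) with hW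
    have h4 : W.comap (Hm.hom h) = ⊤ := by
      refine (eq_bot_or_eq_top (W.comap (Hm.hom h))).resolve_left ?_
      intro h5
      have h6 : v ∈ W.comap (Hm.hom h) := h2 hs
      rw [h5, Submodule.mem_bot] at h6
      exact hv h6
    intro w
    have : w ∈ W.comap (Hm.hom h) := by rw [h4]; trivial
    exact this
  have h4 := Im_Jm_finite t h3
  have h5 : Submodule.span (Module.End R V)ᵐᵒᵖ (t : Set (Hm R V X)) ≤ K := by
    rw [Submodule.span_le]
    intro x hx
    rw [ht, Finset.coe_image] at hx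
    obtain ⟨y, _, rfl⟩ := hx
    exact y.2
  exact h5 h4

/-- a submodule of the isotypic component is generated by the images of the homomorphisms into it -/
theorem Jm_Im [IsSimpleModule R V] (U : Submodule R X) (hU : U ≤ isotypicComponent R X V) :
    Jm (Im U : Submodule (Module.End R V)ᵐᵒᵖ (Hm R V X)) = U := by
  apply le_antisymm (gc_Jm_Im.l_u_le U)
  have hss : IsSemisimpleModule R U :=
    IsSemisimpleModule.of_injective _ (Submodule.inclusion_injective hU)
  set W := Jm (Im U : Submodule (Module.End R V)ᵐᵒᵖ (Hm R V X)) with hW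
  have h1 : (⊤ : Submodule R U) ≤ W.comap U.subtype := by
    rw [← IsSemisimpleModule.sSup_simples_eq_top R U]
    refine sSup_le ?_
    intro m hm
    have hm' : IsSimpleModule R m := hm
    have e1 := Submodule.equivMapOfInjective U.subtype U.subtype_injective m
    have hS : IsSimpleModule R (m.map U.subtype) := IsSimpleModule.congr e1.symm
    have hle : m.map U.subtype ≤ U := Submodule.map_subtype_le U m
    obtain ⟨e⟩ := isIsotypicOfType_submodule_iff.mp (IsIsotypicOfType.isotypicComponent R X V)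
      (m.map U.subtype) (hle.trans hU)
    rw [← Submodule.map_le_iff_le_comap]
    exact isIso_le_Jm_Im U _ e hle
  intro x hx
  have h2 : (⟨x, hx⟩ : ↥U) ∈ W.comap U.subtype := h1 Submodule.mem_top
  exact h2

theorem Jm_inf [IsSimpleModule R V] (K K' : Submodule (Module.End R V)ᵐᵒᵖ (Hm R V X)) :
    Jm (K ⊓ K') = Jm K ⊓ Jm K' := by
  have h1 : Jm K ⊓ Jm K' ≤ isotypicComponent R X V := inf_le_left.trans (Jm_le_isotypic K)
  rw [← Jm_Im _ h1, gc_Jm_Im.u_inf, Im_Jm, Im_Jm]

theorem Jm_sInf [IsSimpleModule R V] (S : Set (Submodule (Module.End R V)ᵐᵒᵖ (Hm R V X))) (hS : S.Nonempty) :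
    Jm (sInf S) = sInf (Jm '' S) := by
  obtain ⟨K, hK⟩ := hS
  have h0 : sInf (Jm '' S) ≤ Jm K := sInf_le (Set.mem_image_of_mem _ hK)
  have h1 : sInf (Jm '' S) ≤ isotypicComponent R X V := h0.trans (Jm_le_isotypic K)
  rw [← Jm_Im _ h1]
  congr 1
  rw [gc_Jm_Im.u_sInf, iInf_image, sInf_eq_iInf]
  simp_rw [Im_Jm]

/-- finitely generated submodules of the isotypic component correspond to finitely generated spaces of homomorphisms -/
theorem Im_fg [IsSimpleModule R V] (U : Submodule R X) (hU : U ≤ isotypicComponent R X V) (hfg : U.FG) :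
    (Im U : Submodule (Module.End R V)ᵐᵒᵖ (Hm R V X)).FG := by
  classical
  have h1 := Jm_Im U hU
  rw [Jm_eq_iSup] at h1
  have h2 := (Submodule.fg_iff_compact U).1 hfg
  obtain ⟨s, hs⟩ := CompleteLattice.IsCompactElement.exists_finset_of_le_iSup _ h2 _ h1.ge
  set t : Finset (Hm R V X) := s.image Subtype.val with ht
  refine ⟨t, le_antisymm ?_ ?_⟩
  · rw [Submodule.span_le]
    intro x hx
    rw [ht, Finset.coe_image] at hx
    obtain ⟨y, _, rfl⟩ := hx
    exact y.2
  · refine le_trans ?_ (Im_Jm_finite t)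
    apply gc_Jm_Im.monotone_u
    refine hs.trans (iSup₂_le ?_)
    rintro i hi _ ⟨w, rfl⟩
    refine mem_Jm_of_mem (Submodule.subset_span ?_) w
    rw [ht, Finset.coe_image]
    exact ⟨i, hi, rfl⟩

/-- isotypic components of pairwise nonisomorphic simple submodules are independent -/
theorem iSupIndep_isotypic {J : Type} (S : J → Submodule R X) (hS : ∀ j, IsSimpleModule R (S j))
    (hne : ∀ j j', j ≠ j' → IsEmpty (S j ≃ₗ[R] S j')) : iSupIndep fun j => isotypicComponent R X (S j) := by
  have h1 := (sSupIndep_iff _).1 (sSupIndep_isotypicComponents R X)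
  set f : J → isotypicComponents R X := fun j => ⟨isotypicComponent R X (S j), S j, hS j, rfl⟩ with hf
  have hinj : Function.Injective f := by
    intro j j' e
    by_contra hjj
    have e1 : isotypicComponent R X (S j) = isotypicComponent R X (S j') := congrArg Subtype.val e
    have := hS j
    have := hS j'
    have h2 : S j ≤ isotypicComponent R X (S j') := by
      rw [← e1]; exact (S j).le_isotypicComponent
    obtain ⟨e2⟩ := isIsotypicOfType_submodule_iff.mp (IsIsotypicOfType.isotypicComponent R X (S j'))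
      (S j) h2
    exact (hne j j' hjj).false e2
  exact h1.comp hinj

end C3da71
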