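import Pool.Agent.Lib.MP_c3da71_al.OpRing
import Pool.Agent.Lib.MP_c3da71_al.Isotypic
import Pool.Agent.Lib.MP_c3da71_al.ClBasic

/-! # Case F: the stabilizer of the isomorphism class of a simple submodule and its action on `Hom_R(V, X)` -/

set_option autoImplicit false

namespace C3da71

namespace PAct

variable {G : Type} [Group G] {E : Type} [DivisionRing E] {X : Type} [AddCommGroup X] [Module E X]

/-- the subgroup of all `g` with `g V ≃ V` -/
def isoStab (P : PAct G E X) (B : Subgroup G) [B.Normal] (V : Submodule (P.opRing B) X) : Subgroup G where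
  carrier := {g | Nonempty (P.actR B g V ≃ₗ[P.opRing B] V)}
  mul_mem' := by
    rintro a b ha ⟨hb⟩
    obtain ⟨f⟩ := P.actR_equiv B a _ _ ⟨hb⟩
    obtain ⟨ha⟩ := ha
    rw [P.actR_mul] at f
    exact ⟨f.trans ha⟩
  one_mem' := by
    show Nonempty _
    rw [P.actR_one]
    exact ⟨LinearEquiv.refl _ _⟩
  inv_mem' := by
    rintro a ⟨ha⟩
    obtain ⟨f⟩ := P.actR_equiv B a⁻¹ _ _ ⟨ha⟩
    rw [P.actR_mul, inv_mul_cancel, P.actR_one] at f
    exact ⟨f.symm⟩

theorem le_isoStab (P : PAct G E X) (B : Subgroup G) [B.Normal] (V : Submodule (P.opRing B) X) :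
    B ≤ P.isoStab B V := by
  intro b hb
  show Nonempty _
  rw [P.actR_of_mem B b hb]
  exact ⟨LinearEquiv.refl _ _⟩

/-- units do not move subspaces -/
theorem act_of_unit {D H : Type} [Ring D] [AddCommGroup H] [Module D H] {Γ : Type} [Group Γ] (P0 : PAct Γ D H) (n : Γ)
    (u : Dˣ) (hu : ∀ x, P0.ρ n x = (u : D) • x) (K : Submodule D H) : P0.act n K = K := by
  ext x
  obtain ⟨y, rfl⟩ : ∃ y, x = P0.ρ n y := ⟨(P0.ρ n).symm x, by simp⟩
  rw [P0.ρ_mem_act, hu]
  constructor
  · exact fun hy => K.smul_mem _ hy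
  · intro hy
    have := K.smul_mem ((u⁻¹ : Dˣ) : D) hy
    rwa [smul_smul, Units.inv_mul, _root_.one_smul] at this

/-- a system in which the elements of a normal subgroup act by units descends to the quotient -/
theorem exists_quot_system {D H : Type} [Ring D] [AddCommGroup H] [Module D H] {Γ : Type} [Group Γ] (P0 : PAct Γ D H)
    (N : Subgroup Γ) [N.Normal] (hN : ∀ n ∈ N, ∃ u : Dˣ, ∀ x, P0.ρ n x = (u : D) • x) :
    ∃ P1 : PAct (Γ ⧸ N) D H, ∀ (g : Γ) (K : Submodule D H), P1.act (g : Γ ⧸ N) K = P0.act g K := by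
  refine ⟨⟨fun q => P0.ρ q.out, fun q => P0.σ q.out, fun q => P0.semi q.out, fun a b => ?_⟩, fun g K => ?_⟩
  · have hn : (a * b).out⁻¹ * (a.out * b.out) ∈ N := by
      rw [← QuotientGroup.eq]
      simp
    obtain ⟨u, hu⟩ := hN _ hn
    obtain ⟨c1, hc1⟩ := P0.mul a.out b.out
    obtain ⟨c2, hc2⟩ := P0.mul (a * b).out ((a * b).out⁻¹ * (a.out * b.out))
    refine ⟨c1 * c2⁻¹ * Units.map ((P0.σ (a * b).out : D ≃+* D) : D →* D) u, fun x => ?_⟩
    rw [hc1]
    have h2 := hc2 x
    rw [hu, P0.semi, mul_inv_cancel_left] at h2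
    have h3 : P0.ρ (a.out * b.out) x = ((c2⁻¹ : Dˣ) : D) • (P0.σ (a * b).out) (u : D) • P0.ρ (a * b).out x := by
      rw [h2, smul_smul, Units.inv_mul, _root_.one_smul]
    rw [h3]
    simp only [smul_smul, Units.val_mul, Units.coe_map, mul_assoc]
    rfl
  · have hn : g⁻¹ * ((g : Γ ⧸ N)).out ∈ N := by
      rw [← QuotientGroup.eq]
      simp
    obtain ⟨u, hu⟩ := hN _ hn
    show P0.act ((g : Γ ⧸ N)).out K = P0.act g K
    have h1 : ((g : Γ ⧸ N)).out = g * (g⁻¹ * ((g : Γ ⧸ N)).out) := by group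
    rw [h1, ← P0.act_mul, P0.act_of_unit _ u hu]

section hom

variable (P : PAct G E X) (B : Subgroup G) [B.Normal] (V : Submodule (P.opRing B) X)

/-- conjugation by `ρ g` -/
noncomputable def conj (g : G) : P.opRing B ≃+* P.opRing B := (P.exists_conj B g).choose

theorem conj_spec (g : G) (f : P.opRing B) (x : X) : P.ρ g (f • x) = P.conj B g f • P.ρ g x :=
  (P.exists_conj B g).choose_spec f x

theorem ρ_mem_actR (g : G) (v : X) : P.ρ g v ∈ P.actR B g V ↔ v ∈ V := by
  rw [mem_actR]; simp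

omit [B.Normal] in
theorem opRing_ext {f f' : P.opRing B} (h : ∀ x : X, f • x = f' • x) : f = f' :=
  Subtype.ext (AddMonoidHom.ext h)

/-- a chosen isomorphism `g V ≃ V` -/
noncomputable def iso (g : P.isoStab B V) : P.actR B (g : G) V ≃ₗ[P.opRing B] V := Classical.choice g.2

/-- the semilinear automorphism of `V` corresponding to `iso` -/
noncomputable def phi (g : P.isoStab B V) : V ≃+ V where
  toFun v := P.iso B V g ⟨P.ρ (g : G) v, (P.ρ_mem_actR B V g v).2 v.2⟩
  invFun w := ⟨(P.ρ (g : G)).symm ((P.iso B V g).symm w : P.actR B (g : G) V), ((P.iso B V g).symm w).2⟩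
  left_inv v := by simp
  right_inv v := by simp
  map_add' v w := by
    rw [← map_add]
    congr 1
    ext
    simp

theorem phi_smul (g : P.isoStab B V) (f : P.opRing B) (v : V) :
    P.phi B V g (f • v) = P.conj B g f • P.phi B V g v := by
  show P.iso B V g _ = P.conj B g f • P.iso B V g _
  rw [← map_smul]
  congr 1
  ext
  exact P.conj_spec B g f v

theorem phi_symm_smul (g : P.isoStab B V) (f : P.opRing B) (v : V) :
    (P.phi B V g).symm (f • v) = (P.conj B g).symm f • (P.phi B V g).symm v := by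
  rw [AddEquiv.symm_apply_eq, phi_smul]
  simp

/-- the transport of homomorphisms -/
noncomputable def rho1 (g : P.isoStab B V) : Hm (P.opRing B) V X ≃+ Hm (P.opRing B) V X where
  toFun h := (
    { toFun := fun v => P.ρ (g : G) (Hm.hom h ((P.phi B V g).symm v))
      map_add' := fun v w => by simp
      map_smul' := fun f v => by
        rw [phi_symm_smul, map_smul, conj_spec]
        simp } : V →ₗ[P.opRing B] X)
  invFun h := (
    { toFun := fun v => (P.ρ (g : G)).symm (Hm.hom h (P.phi B V g v))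
      map_add' := fun v w => by simp
      map_smul' := fun f v => by
        rw [phi_smul, map_smul, AddEquiv.symm_apply_eq]
        simp [conj_spec] } : V →ₗ[P.opRing B] X)
  left_inv h := LinearMap.ext fun v => by
    show (P.ρ (g : G)).symm (P.ρ (g : G) (Hm.hom h ((P.phi B V g).symm (P.phi B V g v)))) = Hm.hom h v
    simp
  right_inv h := LinearMap.ext fun v => by
    show P.ρ (g : G) ((P.ρ (g : G)).symm (Hm.hom h (P.phi B V g ((P.phi B V g).symm v)))) = Hm.hom h v
    simp
  map_add' a b := LinearMap.ext fun v => (P.ρ (g : G)).map_add _ _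

theorem rho1_apply (g : P.isoStab B V) (h : Hm (P.opRing B) V X) (v : V) :
    Hm.hom (P.rho1 B V g h) v = P.ρ (g : G) (Hm.hom h ((P.phi B V g).symm v)) := rfl

/-- conjugation by `phi` on the endomorphisms of `V` -/
noncomputable def tau1 (g : P.isoStab B V) : Module.End (P.opRing B) V ≃+* Module.End (P.opRing B) V where
  toFun d :=
    { toFun := fun v => P.phi B V g (d ((P.phi B V g).symm v))
      map_add' := fun v w => by simp
      map_smul' := fun f v => by
        rw [phi_symm_smul, map_smul, phi_smul]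
        simp }
  invFun d :=
    { toFun := fun v => (P.phi B V g).symm (d (P.phi B V g v))
      map_add' := fun v w => by simp
      map_smul' := fun f v => by
        rw [phi_smul, map_smul, phi_symm_smul]
        simp }
  left_inv d := LinearMap.ext fun v => by
    show (P.phi B V g).symm (P.phi B V g (d ((P.phi B V g).symm (P.phi B V g v)))) = d v
    simp
  right_inv d := LinearMap.ext fun v => by
    show P.phi B V g ((P.phi B V g).symm (d (P.phi B V g ((P.phi B V g).symm v)))) = d v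
    simp
  map_mul' a b := LinearMap.ext fun v => by
    show P.phi B V g (a (b ((P.phi B V g).symm v))) =
      P.phi B V g (a ((P.phi B V g).symm (P.phi B V g (b ((P.phi B V g).symm v)))))
    simp
  map_add' a b := LinearMap.ext fun v => (P.phi B V g).map_add _ _

/-- two semilinear automorphisms with the same automorphism of the ring differ by a linear automorphism -/
theorem exists_unit_of_semilinear {R W : Type} [Ring R] [AddCommGroup W] [Module R W] (φ ψ : W ≃+ W) (c : R ≃+* R)
    (hφ : ∀ (f : R) (v : W), φ (f • v) = c f • φ v) (hψ : ∀ (f : R) (v : W), ψ (f • v) = c f • ψ v) :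
    ∃ u : ((Module.End R W)ᵐᵒᵖ)ˣ, ∀ v, (u : (Module.End R W)ᵐᵒᵖ).unop (φ v) = ψ v := by
  have hφs : ∀ (f : R) (v : W), φ.symm (f • v) = c.symm f • φ.symm v := by
    intro f v
    rw [AddEquiv.symm_apply_eq, hφ]
    simp
  have hψs : ∀ (f : R) (v : W), ψ.symm (f • v) = c.symm f • ψ.symm v := by
    intro f v
    rw [AddEquiv.symm_apply_eq, hψ]
    simp
  let a : Module.End R W :=
    { toFun := fun v => ψ (φ.symm v)
      map_add' := fun v w => by simp
      map_smul' := fun f v => by
        rw [hφs, hψ]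
        simp }
  let b : Module.End R W :=
    { toFun := fun v => φ (ψ.symm v)
      map_add' := fun v w => by simp
      map_smul' := fun f v => by
        rw [hψs, hφ]
        simp }
  have hab : a * b = 1 := LinearMap.ext fun v => by
    show ψ (φ.symm (φ (ψ.symm v))) = v
    simp
  have hba : b * a = 1 := LinearMap.ext fun v => by
    show φ (ψ.symm (ψ (φ.symm v))) = v
    simp
  refine ⟨⟨MulOpposite.op a, MulOpposite.op b, ?_, ?_⟩, fun v => ?_⟩
  · rw [← MulOpposite.op_mul, hba]
    rfl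
  · rw [← MulOpposite.op_mul, hab]
    rfl
  · show ψ (φ.symm (φ v)) = ψ v
    simp

theorem hom_smul {R W Y : Type} [Ring R] [AddCommGroup W] [Module R W] [AddCommGroup Y] [Module R Y]
    (d : (Module.End R W)ᵐᵒᵖ) (h : Hm R W Y) (v : W) : Hm.hom (d • h) v = Hm.hom h (d.unop v) := rfl

theorem conj_conj (g g' : G) (e : Eˣ) (he : ∀ x : X, P.ρ g (P.ρ g' x) = (e : E) • P.ρ (g * g') x) (f : P.opRing B) :
    P.opScalar B e * P.conj B (g * g') f = P.conj B g (P.conj B g' f) * P.opScalar B e := by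
  apply P.opRing_ext B
  intro x
  obtain ⟨y, rfl⟩ : ∃ y, x = P.ρ (g * g') y := ⟨(P.ρ (g * g')).symm x, by simp⟩
  rw [mul_smul, mul_smul, ← conj_spec, opScalar_smul, opScalar_smul, ← he, ← he, conj_spec, conj_spec]

/-- multiplication by a unit of `E` on an `R`-module -/
noncomputable def unitEquiv (W : Submodule (P.opRing B) X) (e : Eˣ) : W ≃+ W where
  toFun v := P.opScalar B e • v
  invFun v := P.opScalar B ((e⁻¹ : Eˣ) : E) • v
  left_inv v := by
    ext
    show ((e⁻¹ : Eˣ) : E) • (e : E) • (v : X) = v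
    rw [smul_smul, Units.inv_mul, _root_.one_smul]
  right_inv v := by
    ext
    show (e : E) • ((e⁻¹ : Eˣ) : E) • (v : X) = v
    rw [smul_smul, Units.mul_inv, _root_.one_smul]
  map_add' v w := smul_add _ _ _

theorem rho1_mul (g g' : P.isoStab B V) : ∃ u : ((Module.End (P.opRing B) V)ᵐᵒᵖ)ˣ, ∀ h : Hm (P.opRing B) V X,
    P.rho1 B V g (P.rho1 B V g' h) = (u : (Module.End (P.opRing B) V)ᵐᵒᵖ) • P.rho1 B V (g * g') h := by
  obtain ⟨e, he⟩ := P.mul (g : G) (g' : G)
  obtain ⟨u, hu⟩ := exists_unit_of_semilinear ((P.phi B V g').trans (P.phi B V g))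
    ((P.phi B V (g * g')).trans (P.unitEquiv B V e)) ((P.conj B g').trans (P.conj B g))
    (fun f v => by
      show P.phi B V g (P.phi B V g' (f • v)) = P.conj B g (P.conj B g' f) • P.phi B V g (P.phi B V g' v)
      rw [phi_smul, phi_smul])
    (fun f v => by
      show P.opScalar B e • P.phi B V (g * g') (f • v) =
        P.conj B g (P.conj B g' f) • P.opScalar B e • P.phi B V (g * g') v
      rw [phi_smul, smul_smul, smul_smul]
      congr 1
      exact P.conj_conj B g g' e he f)
  refine ⟨u, fun h => LinearMap.ext fun v => ?_⟩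
  obtain ⟨w, rfl⟩ : ∃ w, v = P.phi B V g (P.phi B V g' w) :=
    ⟨(P.phi B V g').symm ((P.phi B V g).symm v), by simp⟩
  show P.ρ (g : G) (P.ρ (g' : G) (Hm.hom h ((P.phi B V g').symm ((P.phi B V g).symm (P.phi B V g (P.phi B V g' w)))))) =
    Hm.hom (P.rho1 B V (g * g') h) ((u : (Module.End (P.opRing B) V)ᵐᵒᵖ).unop (P.phi B V g (P.phi B V g' w)))
  have h1 := hu w
  change (u : (Module.End (P.opRing B) V)ᵐᵒᵖ).unop (P.phi B V g (P.phi B V g' w)) =
    P.opScalar B e • P.phi B V (g * g') w at h1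
  rw [h1, map_smul, rho1_apply, AddEquiv.symm_apply_apply, AddEquiv.symm_apply_apply, AddEquiv.symm_apply_apply, he,
    opScalar_smul]
  rfl

theorem rho1_of_mem (b : P.isoStab B V) (hb : (b : G) ∈ B) : ∃ u : ((Module.End (P.opRing B) V)ᵐᵒᵖ)ˣ,
    ∀ h : Hm (P.opRing B) V X, P.rho1 B V b h = (u : (Module.End (P.opRing B) V)ᵐᵒᵖ) • h := by
  have hV : ∀ x : X, (P.ρ (b : G)).symm x ∈ V ↔ x ∈ V := by
    intro x
    rw [← P.mem_actR B (b : G) V x, P.actR_of_mem B b hb]
  let ψ : V ≃+ V :=
    { toFun := fun v => P.opElt B ⟨b, hb⟩ • v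
      invFun := fun v => ⟨(P.ρ (b : G)).symm v, (hV v).2 v.2⟩
      left_inv := fun v => by
        ext
        show (P.ρ (b : G)).symm (P.ρ (b : G) v) = v
        simp
      right_inv := fun v => by
        ext
        show (P.ρ (b : G)) ((P.ρ (b : G)).symm v) = v
        simp
      map_add' := fun v w => smul_add _ _ _ }
  obtain ⟨u, hu⟩ := exists_unit_of_semilinear (P.phi B V b) ψ (P.conj B b) (P.phi_smul B V b) (fun f v => by
    ext
    exact P.conj_spec B b f v)
  refine ⟨u, fun h => LinearMap.ext fun v => ?_⟩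
  obtain ⟨w, rfl⟩ : ∃ w, v = P.phi B V b w := ⟨(P.phi B V b).symm v, by simp⟩
  show P.ρ (b : G) (Hm.hom h ((P.phi B V b).symm (P.phi B V b w))) =
    Hm.hom h ((u : (Module.End (P.opRing B) V)ᵐᵒᵖ).unop (P.phi B V b w))
  rw [hu, AddEquiv.symm_apply_apply]
  show _ = Hm.hom h (P.opElt B ⟨b, hb⟩ • w)
  rw [map_smul, opElt_smul]

/-- the system of `isoStab V` on `Hom_R(V, X)` -/
noncomputable def homSys : PAct (P.isoStab B V) (Module.End (P.opRing B) V)ᵐᵒᵖ (Hm (P.opRing B) V X) where
  ρ g := P.rho1 B V g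
  σ g := RingEquiv.op (P.tau1 B V g)
  semi g d h := LinearMap.ext fun v => by
    show P.ρ (g : G) (Hm.hom h (d.unop ((P.phi B V g).symm v))) =
      P.ρ (g : G) (Hm.hom h ((P.phi B V g).symm (P.phi B V g (d.unop ((P.phi B V g).symm v)))))
    simp
  mul g g' := P.rho1_mul B V g g'

theorem actR_mono (g : G) {V W : Submodule (P.opRing B) X} (h : V ≤ W) : P.actR B g V ≤ P.actR B g W :=
  fun _ hx => h hx

theorem actR_inv_actR (g : G) (V : Submodule (P.opRing B) X) : P.actR B g⁻¹ (P.actR B g V) = V := by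
  rw [P.actR_mul, inv_mul_cancel, P.actR_one]

theorem actR_actR_inv (g : G) (V : Submodule (P.opRing B) X) : P.actR B g (P.actR B g⁻¹ V) = V := by
  rw [P.actR_mul, mul_inv_cancel, P.actR_one]

/-- the action on the lattice of submodules -/
noncomputable def actIsoR (g : G) : Submodule (P.opRing B) X ≃o Submodule (P.opRing B) X where
  toFun := P.actR B g
  invFun := P.actR B g⁻¹
  left_inv := P.actR_inv_actR B g
  right_inv := P.actR_actR_inv B g
  map_rel_iff' := by
    intro V W
    constructor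
    · intro h
      have := P.actR_mono B g⁻¹ h
      rwa [Equiv.coe_fn_mk, actR_inv_actR, actR_inv_actR] at this
    · exact P.actR_mono B g

theorem range_rho1 (g : P.isoStab B V) (h : Hm (P.opRing B) V X) :
    LinearMap.range (Hm.hom (P.rho1 B V g h)) = P.actR B (g : G) (LinearMap.range (Hm.hom h)) := by
  ext x
  rw [mem_actR, LinearMap.mem_range, LinearMap.mem_range]
  constructor
  · rintro ⟨v, rfl⟩
    exact ⟨(P.phi B V g).symm v, by rw [rho1_apply]; simp⟩
  · rintro ⟨v, hv⟩
    refine ⟨P.phi B V g v, ?_⟩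
    rw [rho1_apply, AddEquiv.symm_apply_apply, hv]
    simp

theorem Jm_homSys (g : P.isoStab B V) (K : Submodule (Module.End (P.opRing B) V)ᵐᵒᵖ (Hm (P.opRing B) V X)) :
    Jm ((P.homSys B V).act g K) = P.actR B (g : G) (Jm K) := by
  apply le_antisymm
  · refine iSup₂_le fun h hh => ?_
    obtain ⟨h', rfl⟩ : ∃ h', h = P.rho1 B V g h' := ⟨(P.rho1 B V g).symm h, by simp⟩
    have hh' : h' ∈ K := ((P.homSys B V).ρ_mem_act g K h').1 hh
    rw [range_rho1]
    exact P.actR_mono B _ (le_iSup₂_of_le h' hh' le_rfl)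
  · have key : Jm K ≤ P.actR B (g : G)⁻¹ (Jm ((P.homSys B V).act g K)) := by
      refine iSup₂_le fun h hh => ?_
      have h1 : P.rho1 B V g h ∈ (P.homSys B V).act g K := ((P.homSys B V).ρ_mem_act g K h).2 hh
      have h2 : LinearMap.range (Hm.hom (P.rho1 B V g h)) ≤ Jm ((P.homSys B V).act g K) :=
        le_iSup₂_of_le _ h1 le_rfl
      have h3 := P.actR_mono B (g : G)⁻¹ h2
      rwa [range_rho1, actR_inv_actR] at h3
    have := P.actR_mono B (g : G) key
    rwa [actR_actR_inv] at this

omit [B.Normal] in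
theorem ofR_injective : Function.Injective (P.ofR B) := by
  intro V W h
  ext x
  rw [← P.mem_ofR B V, h, P.mem_ofR]

omit [B.Normal] in
theorem ofR_mono {V W : Submodule (P.opRing B) X} (h : V ≤ W) : P.ofR B V ≤ P.ofR B W := fun _ hx => h hx

omit [B.Normal] in
theorem ofR_iSup {J : Sort*} (U : J → Submodule (P.opRing B) X) : P.ofR B (⨆ j, U j) = ⨆ j, P.ofR B (U j) := by
  apply le_antisymm
  · have hst : P.BStable B (⨆ j, P.ofR B (U j)) := by
      intro b hb y hy
      induction hy using Submodule.iSup_induction' with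
      | mem j x hx => exact Submodule.mem_iSup_of_mem j (P.bstable_ofR B (U j) b hb x hx)
      | zero => simp
      | add x y _ _ hx hy => rw [map_add]; exact Submodule.add_mem _ hx hy
    have h1 : ⨆ j, U j ≤ P.toR B _ hst := iSup_le fun j x hx => Submodule.mem_iSup_of_mem j hx
    exact fun x hx => h1 hx
  · exact iSup_le fun j => P.ofR_mono B (le_iSup U j)

omit [B.Normal] in
theorem ofR_sup (U W : Submodule (P.opRing B) X) : P.ofR B (U ⊔ W) = P.ofR B U ⊔ P.ofR B W := by
  apply le_antisymm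
  · intro x hx
    rw [mem_ofR, Submodule.mem_sup] at hx
    obtain ⟨y, hy, z, hz, rfl⟩ := hx
    exact Submodule.add_mem_sup hy hz
  · exact sup_le (P.ofR_mono B le_sup_left) (P.ofR_mono B le_sup_right)

/-- the action permutes the isotypic components -/
theorem actR_isotypic (g : G) :
    P.actR B g (isotypicComponent (P.opRing B) X V) = isotypicComponent (P.opRing B) X (P.actR B g V) := by
  have key : ∀ (g : G) (V : Submodule (P.opRing B) X),
      isotypicComponent (P.opRing B) X (P.actR B g V) ≤ P.actR B g (isotypicComponent (P.opRing B) X V) := by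
    intro g V
    refine sSup_le fun m hm => ?_
    have h1 : P.actR B g⁻¹ m ≤ isotypicComponent (P.opRing B) X V := by
      refine le_sSup ?_
      have := P.actR_equiv B g⁻¹ m _ hm
      rwa [actR_inv_actR] at this
    have := P.actR_mono B g h1
    rwa [actR_actR_inv] at this
  refine le_antisymm ?_ (key g V)
  have := P.actR_mono B g (key g⁻¹ (P.actR B g V))
  rwa [actR_inv_actR, actR_actR_inv] at this

theorem isSimple_actR (g : G) (h : IsSimpleModule (P.opRing B) V) : IsSimpleModule (P.opRing B) (P.actR B g V) := by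
  rw [isSimpleModule_iff_isAtom] at h ⊢
  exact ((P.actIsoR B g).isAtom_iff V).2 h

end hom

/-- `Γ ⧸ B` acts on `Hom_R(V, X)`, `Γ = isoStab V`.

Choose isomorphisms of `R`-modules `g V ≃ V`, i.e. `φ_g : V ≃+ V` with `φ_g (r v) = c_g(r) φ_g(v)` (`φ_g v = iso (ρ g v)`), `c_g` = conjugation on `R`;
`ρ1 g h = ρ g ∘ h ∘ φ_g⁻¹`. It is semilinear over `D = End_R(V)ᵐᵒᵖ` with `σ_g d = φ_g d φ_g⁻¹`; `ρ1 g ρ1 g'` and `ρ1 (g g')` differ by a unit of `D` (`φ_g φ_g' = u φ_{gg'}`
up to an element of `R^×`: for `ρ g ρ g' = c • ρ (g g')` use that `h` is `R`-linear). For `b ∈ B`: `ρ1 b` is a unit of `D`. Then pass to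
representatives of `Γ ⧸ B`. -/
theorem exists_hom_system (P : PAct G E X) (B : Subgroup G) [B.Normal] (V : Submodule (P.opRing B) X)
    [IsSimpleModule (P.opRing B) V] :
    ∃ P1 : PAct (P.isoStab B V ⧸ B.subgroupOf (P.isoStab B V)) (Module.End (P.opRing B) V)ᵐᵒᵖ (Hm (P.opRing B) V X),
      ∀ (g : P.isoStab B V) (K : Submodule (Module.End (P.opRing B) V)ᵐᵒᵖ (Hm (P.opRing B) V X)),
        P.ofR B (Jm (P1.act (g : P.isoStab B V ⧸ B.subgroupOf (P.isoStab B V)) K)) = P.act (g : G) (P.ofR B (Jm K)) := by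
  obtain ⟨P1, hP1⟩ := (P.homSys B V).exists_quot_system (B.subgroupOf (P.isoStab B V))
    (fun b hb => P.rho1_of_mem B V b (Subgroup.mem_subgroupOf.1 hb))
  refine ⟨P1, fun g K => ?_⟩
  rw [hP1, Jm_homSys, ofR_actR]

/-- the isotypic component of `V` is stable under `isoStab V` -/
theorem stable_isotypic (P : PAct G E X) (B : Subgroup G) [B.Normal] (V : Submodule (P.opRing B) X)
    [IsSimpleModule (P.opRing B) V] :
    (P.res (P.isoStab B V)).Stable (P.ofR B (isotypicComponent (P.opRing B) X V)) := by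
  rw [stable_iff_act]
  intro g
  rw [comp_act]
  show P.act (g : G) _ = _
  rw [← ofR_actR, actR_isotypic]
  congr 1
  exact LinearEquiv.isotypicComponent_eq (P.iso B V g)

/-- the translates of the isotypic component of `V` are independent: `g I_V = I_{gV}` and `iSupIndep_isotypic` -/
theorem indep_isotypic (P : PAct G E X) (B : Subgroup G) [B.Normal] (V : Submodule (P.opRing B) X)
    [IsSimpleModule (P.opRing B) V] :
    iSupIndep (fun q : G ⧸ P.isoStab B V => P.act q.out (P.ofR B (isotypicComponent (P.opRing B) X V))) := by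
  have h1 : iSupIndep fun q : G ⧸ P.isoStab B V => isotypicComponent (P.opRing B) X (P.actR B q.out V) := by
    apply iSupIndep_isotypic
    · exact fun q => P.isSimple_actR B V q.out inferInstance
    · intro q q' hqq'
      by_contra hc
      rw [not_isEmpty_iff] at hc
      apply hqq'
      have h2 : q'.out⁻¹ * q.out ∈ P.isoStab B V := by
        have := P.actR_equiv B q'.out⁻¹ _ _ hc
        rwa [P.actR_mul, P.actR_inv_actR] at this
      rw [← QuotientGroup.out_eq' q, ← QuotientGroup.out_eq' q']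
      exact (QuotientGroup.eq.2 h2).symm
  have h2 : ∀ q : G ⧸ P.isoStab B V, P.act q.out (P.ofR B (isotypicComponent (P.opRing B) X V)) =
      P.ofR B (isotypicComponent (P.opRing B) X (P.actR B q.out V)) := by
    intro q
    rw [← actR_isotypic, ofR_actR]
  simp only [h2]
  intro q
  have h3 := h1 q
  rw [disjoint_iff] at h3 ⊢
  have h4 : (⨆ (j : G ⧸ P.isoStab B V) (_ : j ≠ q), P.ofR B (isotypicComponent (P.opRing B) X (P.actR B j.out V))) ≤
      P.ofR B (⨆ (j : G ⧸ P.isoStab B V) (_ : j ≠ q), isotypicComponent (P.opRing B) X (P.actR B j.out V)) :=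
    iSup₂_le fun j hj => P.ofR_mono B (le_iSup₂_of_le j hj le_rfl)
  rw [eq_bot_iff]
  intro x hx
  have h5 : x ∈ isotypicComponent (P.opRing B) X (P.actR B q.out V) ⊓
      ⨆ (j : G ⧸ P.isoStab B V) (_ : j ≠ q), isotypicComponent (P.opRing B) X (P.actR B j.out V) :=
    ⟨hx.1, h4 hx.2⟩
  rw [h3] at h5
  exact h5

/-- `K ↦ ofR (Jm K)` multiplies dimensions by at most `dim_E V` -/
theorem dim_Jm (P : PAct G E X) (B : Subgroup G) [B.Normal] (V : Submodule (P.opRing B) X)
    [IsSimpleModule (P.opRing B) V] (hV : (P.ofR B V).FG) (m : ℕ) (hm : Module.finrank E (P.ofR B V) ≤ m)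
    (K K' : Submodule (Module.End (P.opRing B) V)ᵐᵒᵖ (Hm (P.opRing B) V X)) (hK : K ≤ K') (n : ℕ)
    (h : ∃ s : Finset (Hm (P.opRing B) V X), s.card ≤ n ∧
      K' ≤ K ⊔ Submodule.span (Module.End (P.opRing B) V)ᵐᵒᵖ (s : Set (Hm (P.opRing B) V X))) :
    DimLE (P.ofR B (Jm K)) (P.ofR B (Jm K')) (m * n) := by
  classical
  obtain ⟨s, hs, hK'⟩ := h
  have hfin : Module.Finite E (P.ofR B V) := Module.Finite.iff_fg.2 hV
  let b := Module.finBasis E (P.ofR B V)
  let T : Finset X := s.biUnion fun h => Finset.univ.image fun i => Hm.hom h (⟨(b i : X), (b i).2⟩ : V)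
  refine ⟨T, ?_, ?_⟩
  · calc T.card ≤ s.card * m := by
          refine Finset.card_biUnion_le_card_mul _ _ _ fun h _ => ?_
          refine le_trans Finset.card_image_le ?_
          simpa using hm
      _ ≤ n * m := Nat.mul_le_mul_right _ hs
      _ = m * n := Nat.mul_comm _ _
  · have h1 : Jm K' ≤ Jm K ⊔ ⨆ h ∈ (s : Set (Hm (P.opRing B) V X)), LinearMap.range (Hm.hom h) := by
      rw [← Jm_span, ← Jm_sup]
      exact Jm_mono hK'
    refine le_trans (P.ofR_mono B h1) ?_
    rw [ofR_sup]
    refine sup_le_sup_left ?_ _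
    rw [ofR_iSup]
    refine iSup_le fun h => ?_
    rw [ofR_iSup]
    refine iSup_le fun hh => ?_
    let g : P.ofR B V →ₗ[E] X :=
      { toFun := fun w => Hm.hom h (⟨(w : X), w.2⟩ : V)
        map_add' := fun a c => (Hm.hom h).map_add _ _
        map_smul' := fun e a => (Hm.hom h).map_smul (P.opScalar B e) (⟨(a : X), a.2⟩ : V) }
    have h2 : P.ofR B (LinearMap.range (Hm.hom h)) = LinearMap.range g := by
      ext x
      rw [mem_ofR]
      constructor
      · rintro ⟨v, rfl⟩
        exact ⟨⟨(v : X), v.2⟩, rfl⟩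
      · rintro ⟨v, rfl⟩
        exact ⟨⟨(v : X), v.2⟩, rfl⟩
    rw [h2, LinearMap.range_eq_map, ← b.span_eq, Submodule.map_span, Submodule.span_le]
    rintro _ ⟨_, ⟨i, rfl⟩, rfl⟩
    apply Submodule.subset_span
    exact Finset.mem_biUnion.2 ⟨h, hh, Finset.mem_image.2 ⟨i, Finset.mem_univ _, rfl⟩⟩

end PAct

end C3da71
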