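import Pool.Agent.Lib.MP_c3da71_al.Mink

set_option autoImplicit false

namespace C3da71

theorem fgab_torsion_bound (M : Type*) [AddCommGroup M] [Module.Finite ℤ M] :
    ∃ T : ℕ, 1 ≤ T ∧ ∀ (v : M) (k : ℕ), 1 ≤ k → k • v = 0 → T • v = 0 := by
  have h1 : Finite (Submodule.torsion ℤ M) :=
    Module.finite_of_fg_torsion _ (Submodule.torsion_isTorsion)
  refine ⟨Nat.card (Submodule.torsion ℤ M), Nat.card_pos, fun v k hk hv => ?_⟩
  have hmem : v ∈ Submodule.torsion ℤ M := by
    rw [Submodule.mem_torsion_iff]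
    refine ⟨⟨(k : ℤ), ?_⟩, ?_⟩
    · rw [mem_nonZeroDivisors_iff_ne_zero]
      exact_mod_cast (by omega : k ≠ 0)
    · change (k : ℤ) • v = 0
      rw [natCast_zsmul]; exact hv
  have h2 := card_nsmul_eq_zero' (x := (⟨v, hmem⟩ : Submodule.torsion ℤ M))
  exact congrArg Subtype.val h2

theorem int_sep {x : ℤ} (h : ∀ k : ℕ, ∃ y : ℤ, x = 3 ^ k * y) : x = 0 := by
  by_contra hx
  obtain ⟨y, hy⟩ := h (x.natAbs)
  have h1 : (3 : ℤ) ^ x.natAbs ∣ x := ⟨y, hy⟩
  have h2 := Int.le_of_dvd (by positivity : (0:ℤ) < |x|) ((dvd_abs _ _).2 h1)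
  have h3 : x.natAbs < 3 ^ x.natAbs := Nat.lt_pow_self (by norm_num)
  have h4 : (x.natAbs : ℤ) < 3 ^ x.natAbs := by exact_mod_cast h3
  rw [Int.natCast_natAbs] at h4
  exact absurd h2 (not_le.2 h4)

theorem fgab_period (M : Type*) [AddCommGroup M] [Module.Finite ℤ M] :
    ∃ e : ℕ, 1 ≤ e ∧ ∀ (γ : M ≃+ M) (v : M) (n : ℕ), 1 ≤ n → γ^[n] v = v → γ^[e] v = v := by
  classical
  obtain ⟨T, hT, hTt⟩ := fgab_torsion_bound M
  set N : ℕ := 3 * T with hN
  have hNpos : 1 ≤ N := by omega
  let S : Submodule ℤ M := LinearMap.range (LinearMap.lsmul ℤ M (N : ℤ))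
  have hS : ∀ x, x ∈ S ↔ ∃ w, x = N • w := by
    intro x
    constructor
    · rintro ⟨w, hw⟩
      exact ⟨w, by rw [← hw]; simp⟩
    · rintro ⟨w, rfl⟩
      exact ⟨w, by simp⟩
  have hfin : Finite (M ⧸ S) := by
    apply Module.finite_of_fg_torsion
    intro x
    obtain ⟨y, rfl⟩ := Submodule.Quotient.mk_surjective S x
    refine ⟨⟨(N : ℤ), ?_⟩, ?_⟩
    · rw [mem_nonZeroDivisors_iff_ne_zero]
      exact_mod_cast (by omega : N ≠ 0)
    · change (N : ℤ) • (Submodule.Quotient.mk y : M ⧸ S) = 0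
      rw [← Submodule.Quotient.mk_smul, Submodule.Quotient.mk_eq_zero, hS]
      exact ⟨y, by rw [natCast_zsmul]⟩
  have : Fintype (M ⧸ S) := Fintype.ofFinite _
  refine ⟨Fintype.card (Equiv.Perm (M ⧸ S)), Fintype.card_pos, fun γ v n hn hv => ?_⟩
  set e := Fintype.card (Equiv.Perm (M ⧸ S)) with he
  -- γ^e ≡ 1 mod N
  have hcong : ∀ x : M, ∃ w, γ^[e] x = x + N • w := by
    have hmap : S.toAddSubgroup.map (γ : M →+ M) = S.toAddSubgroup := by
      ext x
      constructor
      · rintro ⟨y, hy, rfl⟩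
        obtain ⟨w, rfl⟩ := (hS y).1 hy
        exact (hS _).2 ⟨γ w, by simp⟩
      · intro hx
        obtain ⟨w, rfl⟩ := (hS x).1 hx
        exact ⟨N • γ.symm w, (hS _).2 ⟨_, rfl⟩, by simp⟩
    let γ' : (M ⧸ S) ≃+ (M ⧸ S) := QuotientAddGroup.congr S.toAddSubgroup S.toAddSubgroup γ hmap
    have h1 : (γ'.toEquiv : Equiv.Perm (M ⧸ S)) ^ e = 1 := pow_card_eq_one
    have h2 : ∀ (k : ℕ) (x : M), ((γ'.toEquiv : Equiv.Perm (M ⧸ S)) ^ k)
        (Submodule.Quotient.mk x) = Submodule.Quotient.mk (γ^[k] x) := by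
      intro k
      induction k with
      | zero => intro x; rfl
      | succ k ih =>
        intro x
        rw [pow_succ, Function.iterate_succ_apply, Equiv.Perm.mul_apply, ← ih]
        rfl
    intro x
    have h3 := h2 e x
    rw [h1, Equiv.Perm.one_apply] at h3
    have h4 := ((Submodule.Quotient.eq S).1 h3.symm)
    obtain ⟨w, hw⟩ := (hS _).1 h4
    exact ⟨w, by rw [← hw]; abel⟩
  have hsmul : ∀ (k m : ℕ) (x : M), γ^[k] (m • x) = m • γ^[k] x := by
    intro k
    induction k with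
    | zero => intro m x; rfl
    | succ k ih =>
      intro m x
      rw [Function.iterate_succ_apply, Function.iterate_succ_apply, map_nsmul, ih]
  -- the torsion-free submodule V = T M
  let V : Submodule ℤ M := LinearMap.range (LinearMap.lsmul ℤ M (T : ℤ))
  have hV : ∀ x, x ∈ V ↔ ∃ w, x = T • w := by
    intro x
    constructor
    · rintro ⟨w, hw⟩
      exact ⟨w, by rw [← hw]; simp⟩
    · rintro ⟨w, rfl⟩
      exact ⟨w, by simp⟩
  have htf : ∀ (x : M) (k : ℕ), x ∈ V → 1 ≤ k → k • x = 0 → x = 0 := by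
    intro x k hx hk hkx
    obtain ⟨w, rfl⟩ := (hV x).1 hx
    refine hTt w (k * T) (Nat.mul_pos hk hT) ?_
    rw [mul_smul]; exact hkx
  have htf' : Module.IsTorsionFree ℤ V := by
    rw [Module.isTorsionFree_iff_smul_eq_zero]
    intro r x h
    by_cases hr : r = 0
    · exact Or.inl hr
    · right
      ext
      refine htf x r.natAbs x.2 (by omega) ?_
      have h2 : r • (x : M) = 0 := congrArg Subtype.val h
      rcases Int.natAbs_eq r with h3 | h3
      · rw [h3, natCast_zsmul] at h2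
        exact h2
      · rw [h3, neg_smul, natCast_zsmul, neg_eq_zero] at h2
        exact h2
  have : Module.Free ℤ V := inferInstance
  let γV : AddMonoid.End V :=
    { toFun := fun x => ⟨γ^[e] x, by
        obtain ⟨w, hw⟩ := (hV _).1 x.2
        rw [hV]
        refine ⟨γ^[e] w, ?_⟩
        rw [hw]
        exact hsmul e T w⟩
      map_zero' := by
        ext
        simp
      map_add' := by
        intro x y
        ext
        simp }
  have hγV : ∀ (k : ℕ) (x : V), ((γV^[k] x : V) : M) = (γ^[e])^[k] (x : M) := by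
    intro k
    induction k with
    | zero => intro x; rfl
    | succ k ih =>
      intro x
      rw [Function.iterate_succ_apply, Function.iterate_succ_apply, ih]
      rfl
  have hm := mink (V := V) (fun x hx => by
      ext
      exact htf x 3 x.2 (by norm_num) (congrArg Subtype.val hx))
    (fun x hx => by
      let b := Module.Free.chooseBasis ℤ V
      rw [← b.repr.map_eq_zero_iff]
      ext i
      apply int_sep
      intro k
      obtain ⟨w, hw⟩ := hx k
      refine ⟨b.repr w i, ?_⟩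
      rw [hw]
      simp) n γV (fun x => by
      obtain ⟨y, hy⟩ := (hV x).1 x.2
      obtain ⟨w, hw⟩ := hcong y
      refine ⟨⟨T • (T • w), (hV _).2 ⟨_, rfl⟩⟩, ?_⟩
      ext
      change γ^[e] (x : M) = (x : M) + (3 : ℕ) • (T • (T • w))
      rw [hy, hsmul, hw, smul_add, hN, mul_comm 3 T, mul_smul, smul_comm T 3 w,
        smul_comm T 3 (T • w)]) ⟨T • v, (hV _).2 ⟨v, rfl⟩⟩ hn (by
      ext
      rw [hγV]
      change (γ^[e])^[n] (T • v) = T • v
      rw [← Function.iterate_mul, mul_comm, Function.iterate_mul]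
      have h9 : γ^[n] (T • v) = T • v := by rw [hsmul, hv]
      exact Function.iterate_fixed h9 e)
  have h5 : T • (γ^[e] v - v) = 0 := by
    have h6 : γ^[e] (T • v) = T • v := congrArg Subtype.val hm
    rw [hsmul] at h6
    rw [smul_sub, h6, sub_self]
  obtain ⟨w, hw⟩ := hcong v
  have h7 : γ^[e] v - v = N • w := by rw [hw]; abel
  have h8 : γ^[e] v - v ∈ V := by
    rw [h7, hV]
    exact ⟨3 • w, by rw [hN, mul_comm 3 T, mul_smul]⟩
  exact sub_eq_zero.1 (htf _ T h8 hT h5)

end C3da71
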