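import Pool.Agent.Lib.MP_c3da71_al.Defs
import Pool.Agent.Lib.MP_c3da71_al.Hall

/-! # Hall's theorem for systems -/

set_option autoImplicit false

namespace C3da71

variable {G : Type} [Group G] {E : Type} [Ring E] {X : Type} [AddCommGroup X] [Module E X]

/-- the order isomorphism `Y ↦ g Y` of the lattice of submodules -/
def PAct.actIso (P : PAct G E X) (g : G) : Submodule E X ≃o Submodule E X where
  toFun := P.act g
  invFun := P.act g⁻¹
  left_inv Y := by rw [P.act_mul, inv_mul_cancel, P.act_one]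
  right_inv Y := by rw [P.act_mul, mul_inv_cancel, P.act_one]
  map_rel_iff' := by
    intro a b
    constructor
    · intro h
      have h1 := P.act_mono g⁻¹ h
      simp only [Equiv.coe_fn_mk] at h1
      rwa [P.act_mul, P.act_mul, inv_mul_cancel, P.act_one, P.act_one] at h1
    · intro h
      exact P.act_mono g h

@[simp] theorem PAct.actIso_apply (P : PAct G E X) (g : G) (Y : Submodule E X) :
    P.actIso g Y = P.act g Y := rfl

/-- a finitely generated submodule over a Noetherian ring satisfies the ascending chain condition -/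
theorem acc_of_fg [IsNoetherianRing E] (X₀ : Submodule E X) (h : X₀.FG) : ACC (fun _ => True) X₀ := by
  intro f _ hle hmono
  have hN : IsNoetherian E X₀ := isNoetherian_of_fg_of_noetherian X₀ h
  obtain ⟨n, hn⟩ := monotone_stabilizes_iff_noetherian.2 hN
    ⟨fun n => (f n).comap X₀.subtype, fun a b hab => Submodule.comap_mono (hmono hab)⟩
  refine ⟨n, fun m hm => ?_⟩
  have h1 := hn m hm
  simp only [OrderHom.coe_mk] at h1
  have h2 : ∀ k, (f k) = ((f k).comap X₀.subtype).map X₀.subtype := by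
    intro k
    rw [Submodule.map_comap_subtype, inf_eq_right.2 (hle k)]
  rw [h2 m, h2 n, h1]

/-- Hall's theorem for systems: a finitely generated system of a polycyclic group over a Noetherian ring satisfies the maximal condition on
stable submodules; relative form for a finitely generated stable submodule `Y`.

Proof: `PC.hall` (helper19, lattice form) for the lattice `Submodule E X`, `L := fun _ => True`, `act g :=` the order isomorphism `P.act g` (inverse `P.act g⁻¹`),
`X₀ := span E s`, `Y = ⨆ g, P.act g X₀`. -/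
theorem hall (hG : PC G) [IsNoetherianRing E] (P : PAct G E X) (Y : Submodule E X) (hY : P.FGen Y)
    (f : ℕ → Submodule E X) (hf : ∀ n, P.Stable (f n)) (hmono : Monotone f) (hle : ∀ n, f n ≤ Y) :
    ∃ n, ∀ m, n ≤ m → f m = f n := by
  obtain ⟨s, hs⟩ := hY
  have key := PC.hall G hG (Submodule E X) (fun _ => True) (fun _ _ => trivial) (fun _ _ _ _ => trivial)
    P.actIso (fun _ _ _ => trivial) (fun a _ => P.act_one a) (fun g h a _ => (P.act_mul g h a).symm)
    (Submodule.span E (s : Set X)) trivial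
    (acc_of_fg _ (Submodule.fg_span s.finite_toSet))
  refine key f (fun n => ⟨trivial, fun g => (hf n).act_eq g⟩) (fun n => (hle n).trans ?_) hmono
  rw [hs, Submodule.span_le]
  rintro _ ⟨g, y, hy, rfl⟩
  have h1 : P.act g (Submodule.span E (s : Set X)) ≤
      ⨆ g, P.actIso g (Submodule.span E (s : Set X)) :=
    le_iSup (fun g => P.actIso g (Submodule.span E (s : Set X))) g
  apply h1
  rw [P.ρ_mem_act]
  exact Submodule.subset_span hy

theorem noeth_of_fgen (hG : PC G) [IsNoetherianRing E] (P : PAct G E X) (h : P.FGen ⊤) : P.Noeth :=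
  fun f hf hmono => hall hG P ⊤ h f hf hmono (fun _ => le_top)

/-- maximal elements among the stable submodules with a property -/
theorem PAct.Noeth.exists_max {P : PAct G E X} (h : P.Noeth) (p : Submodule E X → Prop)
    (Y₀ : Submodule E X) (hst : P.Stable Y₀) (h0 : p Y₀) :
    ∃ Y, P.Stable Y ∧ p Y ∧ ∀ Y', P.Stable Y' → p Y' → Y ≤ Y' → Y' = Y := by
  have hwf : WellFoundedGT {Y : Submodule E X // P.Stable Y} := by
    rw [wellFoundedGT_iff_monotone_chain_condition]
    intro a
    obtain ⟨n, hn⟩ := h (fun n => (a n : Submodule E X)) (fun n => (a n).2) (fun i j hij => a.monotone hij)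
    exact ⟨n, fun m hm => Subtype.ext (hn m hm).symm⟩
  obtain ⟨Y, hY, hmax⟩ := hwf.wf.has_min {Y : {Y : Submodule E X // P.Stable Y} | p Y.1} ⟨⟨Y₀, hst⟩, h0⟩
  refine ⟨Y.1, Y.2, hY, fun Y' hY' hp hle => ?_⟩
  by_contra hne
  exact hmax ⟨Y', hY'⟩ hp (lt_of_le_of_ne hle (fun h => hne (congrArg Subtype.val h).symm))

theorem PAct.stable_bot (P : PAct G E X) : P.Stable ⊥ := by
  intro g y hy
  rw [Submodule.mem_bot] at hy
  rw [hy, map_zero]
  exact Submodule.zero_mem _

/-- the stable submodule generated by a set -/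
def PAct.gspan (P : PAct G E X) (s : Set X) : Submodule E X :=
  Submodule.span E {x : X | ∃ g : G, ∃ y ∈ s, x = P.ρ g y}

theorem PAct.gspan_stable (P : PAct G E X) (s : Set X) : P.Stable (P.gspan s) := by
  intro g y hy
  have h1 : P.gspan s ≤ P.act g⁻¹ (P.gspan s) := by
    rw [PAct.gspan, Submodule.span_le]
    rintro _ ⟨k, y, hy, rfl⟩
    change P.ρ k y ∈ P.act g⁻¹ (P.gspan s)
    have h2 : P.act g⁻¹ (P.act g (P.act g⁻¹ (P.gspan s))) = P.act g⁻¹ (P.gspan s) := by
      rw [P.act_mul g, mul_inv_cancel, P.act_one]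
    rw [← h2]
    obtain ⟨c, hc⟩ := P.mul g⁻¹ (g * k)
    rw [inv_mul_cancel_left] at hc
    have h3 : P.ρ k y = ((c⁻¹ : Eˣ) : E) • P.ρ g⁻¹ (P.ρ (g * k) y) := by
      rw [hc, smul_smul, Units.inv_mul, _root_.one_smul]
    rw [h3]
    refine Submodule.smul_mem _ _ ?_
    rw [P.ρ_mem_act, P.act_mul, mul_inv_cancel, P.act_one]
    exact Submodule.subset_span ⟨g * k, y, hy, rfl⟩
  have h4 := P.act_mono g h1 ((P.ρ_mem_act g _ _).2 hy)
  rwa [P.act_mul, mul_inv_cancel, P.act_one] at h4

theorem PAct.subset_gspan (P : PAct G E X) (s : Set X) : s ⊆ P.gspan s := by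
  intro y hy
  obtain ⟨c, hc⟩ := P.one_smul
  have h1 : y = ((c⁻¹ : Eˣ) : E) • P.ρ 1 y := by
    rw [hc, smul_smul, Units.inv_mul, _root_.one_smul]
  rw [h1]
  exact Submodule.smul_mem _ _ (Submodule.subset_span ⟨1, y, hy, rfl⟩)

theorem PAct.gspan_le (P : PAct G E X) {s : Set X} {Y : Submodule E X} (hY : P.Stable Y) (h : s ⊆ Y) :
    P.gspan s ≤ Y := by
  rw [PAct.gspan, Submodule.span_le]
  rintro _ ⟨g, y, hy, rfl⟩
  exact hY g y (h hy)

theorem PAct.gspan_mono (P : PAct G E X) {s t : Set X} (h : s ⊆ t) : P.gspan s ≤ P.gspan t :=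
  P.gspan_le (P.gspan_stable t) (h.trans (P.subset_gspan t))

theorem PAct.Noeth.fgen {P : PAct G E X} (h : P.Noeth) (Y : Submodule E X) (hY : P.Stable Y) : P.FGen Y := by
  classical
  obtain ⟨Z, hZ, ⟨s, hs, hZs⟩, hmax⟩ := h.exists_max
    (fun Z => ∃ s : Finset X, (s : Set X) ⊆ Y ∧ Z = P.gspan (s : Set X)) (P.gspan (∅ : Set X))
    (P.gspan_stable _) ⟨∅, by simp, by simp⟩
  refine ⟨s, ?_⟩
  change Y = P.gspan (s : Set X)
  apply le_antisymm
  · intro y hy
    have h1 := hmax (P.gspan ((insert y s : Finset X) : Set X)) (P.gspan_stable _)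
      ⟨insert y s, by
        rw [Finset.coe_insert]
        exact Set.insert_subset hy hs, rfl⟩
      (by
        rw [hZs]
        apply P.gspan_mono
        rw [Finset.coe_insert]
        exact Set.subset_insert _ _)
    rw [← hZs, ← h1]
    apply P.subset_gspan
    rw [Finset.coe_insert]
    exact Set.mem_insert _ _
  · exact P.gspan_le hY hs

/-- a finitely generated system stays finitely generated over a finite index subgroup -/
theorem PAct.FGen.res {P : PAct G E X} {Y : Submodule E X} (h : P.FGen Y) (H : Subgroup G) (hH : H.FiniteIndex) :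
    (P.res H).FGen Y := by
  classical
  obtain ⟨s, hs⟩ := h
  have : Finite (G ⧸ H) := inferInstance
  have : Fintype (G ⧸ H) := Fintype.ofFinite _
  refine ⟨(Finset.univ ×ˢ s).image (fun z : (G ⧸ H) × X => P.ρ (z.1.out)⁻¹ z.2), ?_⟩
  have hYst : P.Stable Y := by rw [hs]; exact P.gspan_stable (s : Set X)
  apply le_antisymm
  · conv_lhs => rw [hs]
    rw [Submodule.span_le]
    rintro _ ⟨g, y, hy, rfl⟩
    have h3 : g * (QuotientGroup.mk g⁻¹ : G ⧸ H).out ∈ H := by
      have h4 : (g⁻¹)⁻¹ * (QuotientGroup.mk g⁻¹ : G ⧸ H).out ∈ H := by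
        rw [← QuotientGroup.eq, QuotientGroup.out_eq']
      rwa [inv_inv] at h4
    obtain ⟨c, hc⟩ := P.mul (g * (QuotientGroup.mk g⁻¹ : G ⧸ H).out)
      ((QuotientGroup.mk g⁻¹ : G ⧸ H).out)⁻¹
    rw [mul_inv_cancel_right] at hc
    have h5 : P.ρ g y = ((c⁻¹ : Eˣ) : E) • P.ρ (g * (QuotientGroup.mk g⁻¹ : G ⧸ H).out)
        (P.ρ ((QuotientGroup.mk g⁻¹ : G ⧸ H).out)⁻¹ y) := by
      rw [hc, smul_smul, Units.inv_mul, _root_.one_smul]
    rw [h5]
    refine Submodule.smul_mem _ _ (Submodule.subset_span ?_)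
    refine ⟨⟨_, h3⟩, P.ρ ((QuotientGroup.mk g⁻¹ : G ⧸ H).out)⁻¹ y, ?_, rfl⟩
    rw [Finset.mem_image]
    exact ⟨((QuotientGroup.mk g⁻¹ : G ⧸ H), y), by simp [hy], rfl⟩
  · rw [Submodule.span_le]
    rintro _ ⟨g, y, hy, rfl⟩
    rw [Finset.mem_image] at hy
    obtain ⟨⟨q, z⟩, hz, rfl⟩ := hy
    apply hYst (g : G)
    apply hYst
    rw [hs]
    apply P.subset_gspan (s : Set X)
    simpa using hz

theorem PAct.Noeth.res (hG : PC G) [IsNoetherianRing E] {P : PAct G E X} (h : P.Noeth) (H : Subgroup G)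
    (hH : H.FiniteIndex) : (P.res H).Noeth :=
  noeth_of_fgen (hG.subgroup H) _ ((h.fgen ⊤ (fun _ _ _ => Submodule.mem_top)).res H hH)

theorem PAct.Noeth.sub {P : PAct G E X} (h : P.Noeth) (Y : Submodule E X) (hY : P.Stable Y) :
    (P.sub Y hY).Noeth := by
  intro f hf hmono
  obtain ⟨n, hn⟩ := h (fun n => (f n).map Y.subtype) (by
    rintro n g _ ⟨y, hy, rfl⟩
    exact ⟨(P.sub Y hY).ρ g y, hf n g y hy, rfl⟩) (fun i j hij => Submodule.map_mono (hmono hij))
  exact ⟨n, fun m hm => Submodule.map_injective_of_injective Y.injective_subtype (hn m hm)⟩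

theorem PAct.Noeth.quot {P : PAct G E X} (h : P.Noeth) (Y : Submodule E X) (hY : P.Stable Y) :
    (P.quot Y hY).Noeth := by
  intro f hf hmono
  obtain ⟨n, hn⟩ := h (fun n => (f n).comap Y.mkQ) (by
    intro n g y hy
    exact hf n g _ hy) (fun i j hij => Submodule.comap_mono (hmono hij))
  exact ⟨n, fun m hm => Submodule.comap_injective_of_surjective Y.mkQ_surjective (hn m hm)⟩

/-- a Noetherian system has a maximal stable submodule with any given property that holds for `⊥` -/
theorem PAct.Noeth.exists_maximal {P : PAct G E X} (h : P.Noeth) (p : Submodule E X → Prop) (h0 : p ⊥) :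
    ∃ Y, P.Stable Y ∧ p Y ∧ ∀ Y', P.Stable Y' → p Y' → Y ≤ Y' → Y' = Y :=
  h.exists_max p ⊥ P.stable_bot h0

end C3da71
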