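import Pool.Agent.Lib.MP_c3da71_al.ClBasic
import Pool.Agent.Lib.MP_c3da71_al.PHall

/-! # Formal properties of good systems -/

set_option autoImplicit false

namespace C3da71

variable {G : Type} [Group G] {E : Type} [DivisionRing E] {X : Type} [AddCommGroup X] [Module E X]

/-- push forward of `Cl` along an injective equivariant linear map -/
theorem Cl.map_injective {X' : Type} [AddCommGroup X'] [Module E X'] {h : X ≃+ X} {h' : X' ≃+ X'}
    (φ : X →ₗ[E] X') (hφ : Function.Injective φ) (heq : ∀ x, φ (h x) = h' (φ x)) {d l : ℕ}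
    {B0 B : Submodule E X} (hB : Stable h B) (h1 : Cl h d l B0 B) :
    Cl h' d l (B0.map φ) (B.map φ) := by
  classical
  have h2 := Cl.map (h := h) (h' := h') (fun Y => Y.map φ) ?_ 1 ?_ ?_ hB h1
  · rwa [one_mul] at h2
  · intro S hS
    ext x
    rw [Submodule.mem_sInf]
    constructor
    · rintro ⟨y, hy, rfl⟩ _ ⟨W, hW, rfl⟩
      exact ⟨y, (Submodule.mem_sInf.1 hy) W hW, rfl⟩
    · intro hx
      obtain ⟨W0, hW0⟩ := hS
      obtain ⟨y, hy, hyx⟩ := hx _ ⟨W0, hW0, rfl⟩
      refine ⟨y, ?_, hyx⟩
      rw [SetLike.mem_coe, Submodule.mem_sInf]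
      intro W hW
      obtain ⟨z, hz, hzx⟩ := hx _ ⟨W, hW, rfl⟩
      rw [← hφ (hzx.trans hyx.symm)]
      exact hz
  · rintro Y' Y n _ ⟨s, hs, hle⟩
    refine ⟨s.image φ, by rw [one_mul]; exact Finset.card_image_le.trans hs, ?_⟩
    have h3 := Submodule.map_mono (f := φ) hle
    rw [Submodule.map_sup, Submodule.map_span] at h3
    rw [Finset.coe_image]
    exact h3
  · intro Y hY x
    constructor
    · rintro ⟨y, hy, hyx⟩
      refine ⟨h.symm y, (hY _).1 (by rwa [AddEquiv.apply_symm_apply]), ?_⟩
      apply h'.injective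
      rw [← heq, AddEquiv.apply_symm_apply]
      exact hyx
    · rintro ⟨y, hy, rfl⟩
      exact ⟨h y, (hY y).2 hy, heq y⟩

/-- goodness passes to subsystems: `φ` injective and equivariant; `Cl.comap` -/
theorem good_of_injective {X' : Type} [AddCommGroup X'] [Module E X'] (P : PAct G E X) (P' : PAct G E X')
    (φ : X →ₗ[E] X') (hφ : Function.Injective φ) (heq : ∀ g x, φ (P.ρ g x) = P'.ρ g (φ x)) (h : P'.Good) : P.Good := by
  obtain ⟨d, l, h⟩ := h
  refine ⟨d, l, fun g B hfg hst => ?_⟩
  have hst' : C3da71.Stable (P'.ρ g) (B.map φ) := by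
    intro x
    constructor
    · rintro ⟨y, hy, hyx⟩
      refine ⟨(P.ρ g).symm y, (hst _).1 (by rwa [AddEquiv.apply_symm_apply]), ?_⟩
      apply (P'.ρ g).injective
      rw [← heq, AddEquiv.apply_symm_apply]
      exact hyx
    · rintro ⟨y, hy, rfl⟩
      exact ⟨P.ρ g y, (hst y).2 hy, heq g y⟩
  have h1 := h g (B.map φ) (hfg.map φ) hst'
  have h2 := Cl.comap (π := φ) (h := P.ρ g) (fun x => heq g x) h1 hst (Submodule.le_comap_map φ B)
  have h3 : B ⊓ (⊥ : Submodule E X').comap φ = ⊥ := by
    rw [eq_bot_iff]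
    rintro x ⟨_, hx⟩
    rw [SetLike.mem_coe, Submodule.mem_comap, Submodule.mem_bot] at hx
    rw [Submodule.mem_bot]
    exact hφ (by rw [hx, map_zero])
  rwa [h3] at h2

/-- extensions of good systems are good: `l = l1 + l2`, `d = max d1 d2`; for `B` use `B ⊓ Y` and the image of `B` in the quotient -/
theorem good_ext (P : PAct G E X) (Y : Submodule E X) (hY : P.Stable Y)
    (h1 : (P.sub Y hY).Good) (h2 : (P.quot Y hY).Good) : P.Good := by
  obtain ⟨d1, l1, h1⟩ := h1
  obtain ⟨d2, l2, h2⟩ := h2
  refine ⟨max d1 d2, l1 + l2, fun g B hfg hst => ?_⟩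
  have hYst : C3da71.Stable (P.ρ g) Y := (P.hst_iff g Y).2 (hY.act_eq g)
  -- lower part
  have hBY : C3da71.Stable ((P.sub Y hY).ρ g) (B.comap Y.subtype) := fun y => hst (y : X)
  have hfin : FiniteDimensional E B := Module.Finite.iff_fg.2 hfg
  have hfgY : (B.comap Y.subtype).FG := by
    have h3 : (B.comap Y.subtype).map Y.subtype ≤ B := Submodule.map_comap_le _ _
    have h4 : FiniteDimensional E ((B.comap Y.subtype).map Y.subtype) :=
      Submodule.finiteDimensional_of_le h3
    exact (Submodule.fg_map_iff Y.subtype Y.subtype_injective).1 (Module.Finite.iff_fg.1 h4)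
  have hlow := h1 g _ hfgY hBY
  have hlow2 := Cl.map_injective (h := (P.sub Y hY).ρ g) (h' := P.ρ g) Y.subtype
    Y.subtype_injective (fun x => rfl) hBY hlow
  rw [Submodule.map_bot, Submodule.map_comap_subtype] at hlow2
  -- upper part
  have hst' : C3da71.Stable ((P.quot Y hY).ρ g) (B.map Y.mkQ) := by
    intro x
    constructor
    · rintro ⟨y, hy, hyx⟩
      refine ⟨(P.ρ g).symm y, (hst _).1 (by rwa [AddEquiv.apply_symm_apply]), ?_⟩
      apply ((P.quot Y hY).ρ g).injective
      have h5 : ((P.quot Y hY).ρ g) (Y.mkQ ((P.ρ g).symm y)) = Y.mkQ y := by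
        change (Submodule.Quotient.mk (P.ρ g ((P.ρ g).symm y)) : X ⧸ Y) = _
        rw [AddEquiv.apply_symm_apply]
        rfl
      rw [h5]
      exact hyx
    · rintro ⟨y, hy, rfl⟩
      exact ⟨P.ρ g y, (hst y).2 hy, rfl⟩
  have hup := h2 g _ (hfg.map Y.mkQ) hst'
  have hup2 := Cl.comap (π := Y.mkQ) (h := P.ρ g) (h' := (P.quot Y hY).ρ g) (fun x => rfl) hup hst
    (Submodule.le_comap_map _ B)
  have h6 : (⊥ : Submodule E (X ⧸ Y)).comap Y.mkQ = Y := by
    rw [Submodule.comap_bot, Submodule.ker_mkQ]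
  rw [h6] at hup2
  have h7 : Y ⊓ B = B ⊓ Y := inf_comm _ _
  rw [h7] at hlow2
  exact Cl.trans bot_le (Cl.congr_h (le_max_left d1 d2) hlow2) inf_le_left
    (Cl.congr_h (le_max_right d1 d2) hup2)

/-- goodness passes from a finite index subgroup to the whole group: there is `m ≥ 1` with `g ^ m ∈ H` for all `g`; `Cl.of_pow` -/
theorem good_of_finiteIndex (P : PAct G E X) (H : Subgroup G) (hH : H.FiniteIndex)
    (h : (P.res H).Good) : P.Good := by
  obtain ⟨d, l, h⟩ := h
  set m := H.index.factorial with hm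
  have hpow : ∀ g : G, g ^ m ∈ H := by
    intro g
    obtain ⟨n, hn, hn2, hgn⟩ := Subgroup.exists_pow_mem_of_index_ne_zero hH.index_ne_zero g
    obtain ⟨c, hc⟩ := Nat.dvd_factorial hn hn2
    rw [hm, hc, pow_mul]
    exact H.pow_mem hgn c
  refine ⟨m * d, l, fun g B hfg hst => ?_⟩
  have h1 := h ⟨g ^ m, hpow g⟩ B hfg (P.stable_pow g m B hst)
  exact Cl.of_pow P g m (Nat.factorial_pos _) Stable.bot hst h1

/-- goodness passes to subgroups (groups mapping to `G`) -/
theorem good_comp (P : PAct G E X) (h : P.Good) {G' : Type} [Group G'] (f : G' →* G) : (P.comp f).Good := by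
  obtain ⟨d, l, h⟩ := h
  exact ⟨d, l, fun g B hfg hst => h (f g) B hfg hst⟩

/-- the zero system is good -/
theorem good_of_subsingleton (P : PAct G E X) (h : Subsingleton X) : P.Good := by
  refine ⟨0, 0, fun g B _ _ => ?_⟩
  intro x _
  rw [Submodule.mem_bot]
  exact Subsingleton.elim _ _

/-- finite dimensional systems are good -/
theorem good_of_finite (P : PAct G E X) (h : ∃ s : Finset X, Submodule.span E (s : Set X) = ⊤) : P.Good := by
  obtain ⟨s, hs⟩ := h
  refine ⟨s.card, 1, fun g B hfg hst => ?_⟩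
  refine Cl.of_dimLE Stable.bot bot_le ?_
  have h1 : DimLE (⊥ : Submodule E X) ⊤ s.card := ⟨s, le_rfl, by rw [hs]; simp⟩
  have h2 := h1.inf B
  rwa [bot_inf_eq, top_inf_eq] at h2

/-- if every nonzero Noetherian system over `G` has a nonzero good stable subspace, then every Noetherian system over `G` is good:
take a maximal good stable subspace (`PAct.Noeth.exists_maximal`), a nonzero good subspace of the quotient and `good_ext` -/
theorem good_of_exists (G : Type) [Group G]
    (h : ∀ (E : Type) [DivisionRing E] (X : Type) [AddCommGroup X] [Module E X] (P : PAct G E X), P.Noeth → Nontrivial X →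
      ∃ (Y : Submodule E X) (hY : P.Stable Y), Y ≠ ⊥ ∧ (P.sub Y hY).Good)
    (E : Type) [DivisionRing E] (X : Type) [AddCommGroup X] [Module E X] (P : PAct G E X) (hP : P.Noeth) : P.Good := by
  have hbot : P.Stable (⊥ : Submodule E X) := by
    intro g y hy
    rw [Submodule.mem_bot] at hy ⊢
    rw [hy, map_zero]
  obtain ⟨Y, hYst, ⟨hYst', hYg⟩, hmax⟩ := hP.exists_maximal
    (fun Y => ∃ hY : P.Stable Y, (P.sub Y hY).Good)
    ⟨hbot, good_of_subsingleton _ (by infer_instance)⟩
  have hYtop : Y = ⊤ := by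
    by_contra hne
    have hnt : Nontrivial (X ⧸ Y) := Submodule.Quotient.nontrivial_iff.2 hne
    obtain ⟨Z, hZst, hZne, hZg⟩ := h E (X ⧸ Y) (P.quot Y hYst) (hP.quot Y hYst) hnt
    let W : Submodule E X := Z.comap Y.mkQ
    have hWst : P.Stable W := fun g y hy => hZst g _ hy
    have hYW : Y ≤ W := by
      intro y hy
      change Y.mkQ y ∈ Z
      have : Y.mkQ y = 0 := by rw [Submodule.mkQ_apply, Submodule.Quotient.mk_eq_zero]; exact hy
      rw [this]
      exact Z.zero_mem
    let Y' : Submodule E W := Y.comap W.subtype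
    have hY'st : (P.sub W hWst).Stable Y' := fun g y hy => hYst g _ hy
    have hWgood : (P.sub W hWst).Good := by
      refine good_ext (P.sub W hWst) Y' hY'st ?_ ?_
      · refine good_of_injective _ (P.sub Y hYst)
          (LinearMap.codRestrict Y (W.subtype ∘ₗ Y'.subtype) (fun y => y.2)) ?_ ?_ hYg
        · intro a b hab
          apply Subtype.ext
          apply Subtype.ext
          exact congrArg (fun t : Y => (t : X)) hab
        · intro g x
          rfl
      · let φ : (W ⧸ Y') →ₗ[E] Z := Y'.liftQ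
          (LinearMap.codRestrict Z (Y.mkQ ∘ₗ W.subtype) (fun w => w.2)) (by
            intro y hy
            rw [LinearMap.mem_ker]
            apply Subtype.ext
            change Y.mkQ (y : X) = 0
            rw [Submodule.mkQ_apply, Submodule.Quotient.mk_eq_zero]
            exact hy)
        refine good_of_injective _ ((P.quot Y hYst).sub Z hZst) φ ?_ ?_ hZg
        · rw [← LinearMap.ker_eq_bot, eq_bot_iff]
          intro q hq
          obtain ⟨w, rfl⟩ := Submodule.Quotient.mk_surjective _ q
          rw [LinearMap.mem_ker] at hq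
          have h1 : Y.mkQ (w : X) = 0 := congrArg Subtype.val hq
          rw [Submodule.mkQ_apply, Submodule.Quotient.mk_eq_zero] at h1
          rw [Submodule.mem_bot, Submodule.Quotient.mk_eq_zero]
          exact h1
        · intro g q
          obtain ⟨w, rfl⟩ := Submodule.Quotient.mk_surjective _ q
          rfl
    have h2 := hmax W hWst ⟨hWst, hWgood⟩ hYW
    apply hZne
    rw [eq_bot_iff]
    intro q hq
    obtain ⟨x, rfl⟩ := Submodule.Quotient.mk_surjective _ q
    have hx : x ∈ W := hq
    rw [h2] at hx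
    rw [Submodule.mem_bot, Submodule.Quotient.mk_eq_zero]
    exact hx
  subst hYtop
  refine good_of_injective P (P.sub ⊤ hYst') (LinearMap.codRestrict ⊤ LinearMap.id (fun _ => trivial)) ?_ ?_ hYg
  · intro a b hab
    exact congrArg (fun t : (⊤ : Submodule E X) => (t : X)) hab
  · intro g x
    rfl

/-- finite groups: every nonzero system has a nonzero good stable subspace (the span of an orbit), so all Noetherian
systems are good -/
theorem good_of_finite_group (hG : Finite G) (P : PAct G E X) (hP : P.Noeth) : P.Good := by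
  classical
  refine good_of_exists G ?_ E X P hP
  intro E _ X _ _ P _ hX
  obtain ⟨x, hx⟩ := exists_ne (0 : X)
  have hfin : Fintype G := Fintype.ofFinite G
  let s : Finset X := Finset.univ.image (fun g : G => P.ρ g x)
  let Y : Submodule E X := Submodule.span E (s : Set X)
  have hYst : P.Stable Y := by
    intro g y hy
    have h1 : Y ≤ P.act g⁻¹ Y := by
      rw [Submodule.span_le]
      intro z hz
      simp only [s, Finset.coe_image, Finset.coe_univ, Set.image_univ, Set.mem_range] at hz
      obtain ⟨k, rfl⟩ := hz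
      rw [SetLike.mem_coe]
      obtain ⟨c, hc⟩ := P.mul g⁻¹ (g * k)
      have h2 : P.ρ k x = ((c⁻¹ : Eˣ) : E) • P.ρ g⁻¹ (P.ρ (g * k) x) := by
        rw [hc, smul_smul, Units.inv_mul, one_smul, inv_mul_cancel_left]
      rw [h2]
      refine Submodule.smul_mem _ _ ((P.ρ_mem_act _ _ _).2 (Submodule.subset_span ?_))
      simp only [s, Finset.coe_image, Finset.coe_univ, Set.image_univ, Set.mem_range]
      exact ⟨g * k, rfl⟩
    have h2 := P.act_mono g h1
    rw [P.act_mul, mul_inv_cancel, P.act_one] at h2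
    exact h2 ((P.ρ_mem_act g Y y).2 hy)
  refine ⟨Y, hYst, ?_, ?_⟩
  · intro hbot
    have h1 : P.ρ 1 x ∈ Y := Submodule.subset_span (by
      simp only [s, Finset.coe_image, Finset.coe_univ, Set.image_univ, Set.mem_range]
      exact ⟨1, rfl⟩)
    rw [hbot, Submodule.mem_bot] at h1
    exact hx ((AddEquiv.map_eq_zero_iff _).1 h1)
  · refine good_of_finite _ ?_
    have h1 : Y.FG := ⟨s, rfl⟩
    have h2 : Module.Finite E Y := Module.Finite.iff_fg.2 h1
    obtain ⟨t, ht⟩ := h2.fg_top
    exact ⟨t, ht⟩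

end C3da71
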