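import Pool.Agent.Lib.MP_c3da71_al.EZ
import Pool.Agent.Lib.MP_c3da71_al.Chains
import Pool.Agent.Lib.MP_c3da71_al.FPN

set_option autoImplicit false

namespace C3da71

/-- finite generation of an action -/
def AAct.FGen {Q A : Type} [Group Q] [AddCommGroup A] (P : AAct Q A) : Prop :=
  ∃ s : Finset A, ∀ B : AddSubgroup A, P.Stable B → (∀ x ∈ s, x ∈ B) → B = ⊤

/-- The conjugation action of `G ⧸ A` on the abelian normal subgroup `A`. -/
theorem exists_conj_act (G : Type) [Group G] (A : Subgroup G) [hAn : A.Normal]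
    (hA : ∀ a ∈ A, ∀ b ∈ A, a * b = b * a) :
    ∃ (M : Type) (_ : AddCommGroup M) (P : AAct (G ⧸ A) M) (ι : M → G),
      Function.Injective ι ∧ (∀ x, ι x ∈ A) ∧ (∀ a ∈ A, ∃ x, ι x = a) ∧
      (∀ x y, ι (x + y) = ι x * ι y) ∧ (∀ x, ι (-x) = (ι x)⁻¹) ∧ ι 0 = 1 ∧
      (∀ (n : ℕ) x, ι (n • x) = ι x ^ n) ∧
      (∀ (g : G) x, ι (P.ρ (QuotientGroup.mk g) x) = g * ι x * g⁻¹) := by
  let inst : CommGroup A :=
    { (inferInstance : Group A) with mul_comm := fun a b => Subtype.ext (hA a a.2 b b.2) }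
  have hker : ∀ a ∈ A, (MulAut.conjNormal a : A ≃* A) = 1 := by
    intro a ha
    ext x
    change ((MulAut.conjNormal a x : A) : G) = x
    rw [MulAut.conjNormal_apply, hA a ha x x.2, mul_inv_cancel_right]
  let c : (G ⧸ A) →* MulAut A := QuotientGroup.lift A (MulAut.conjNormal : G →* MulAut A)
    (fun a ha => MonoidHom.mem_ker.2 (hker a ha))
  have hc : ∀ (g : G), c (QuotientGroup.mk g) = MulAut.conjNormal g := fun g => rfl
  let P : AAct (G ⧸ A) (Additive A) :=
    { ρ := fun q => MulEquiv.toAdditive (c q)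
      one := fun x => by rw [map_one]; rfl
      mul := fun g h x => by rw [map_mul]; rfl }
  refine ⟨Additive A, inferInstance, P, fun x => ((Additive.toMul x : A) : G), ?_, ?_, ?_, ?_, ?_,
    ?_, ?_, ?_⟩
  · intro x y hxy
    exact Additive.toMul.injective (Subtype.ext hxy)
  · intro x; exact (Additive.toMul x : A).2
  · intro a ha; exact ⟨Additive.ofMul ⟨a, ha⟩, rfl⟩
  · intro x y; rfl
  · intro x; rfl
  · rfl
  · intro n x
    change (((Additive.toMul x : A) ^ n : A) : G) = _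
    rw [Subgroup.coe_pow]
  · intro g x
    change ((c (QuotientGroup.mk g) (Additive.toMul x) : A) : G) = _
    rw [hc, MulAut.conjNormal_apply]

theorem main_reduction
    (hp : ∀ (Q : Type) [Group Q], PC Q → ∀ (p : ℕ) [Fact p.Prime] (A : Type) [AddCommGroup A]
      [Module (ZMod p) A] (P : AAct Q A), P.Noeth → P.E)
    (h0 : ∀ (Q : Type) [Group Q], PC Q → ∀ (V : Type) [AddCommGroup V] [Module ℚ V]
      (P : AAct Q V), (∀ f : ℕ → Submodule ℚ V, (∀ n, P.Stable (f n).toAddSubgroup) →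
        Monotone f → ∃ n, ∀ m, n ≤ m → f m = f n) → P.E)
    (hHall : ∀ (Q : Type) [Group Q], PC Q → ∀ (A : Type) [AddCommGroup A] (P : AAct Q A),
      P.FGen → P.Noeth)
    (G : Type) [Group G] (hG : Group.FG G) (A : Subgroup G) [A.Normal]
    (hA : ∀ a ∈ A, ∀ b ∈ A, a * b = b * a) (hQ : PC (G ⧸ A)) :
    ∃ m : ℕ, ∀ (n : ℕ) (H : ℕ → Set G),
      (∀ i < n, Subgroup.centralizer (H i) ≤ Subgroup.centralizer (H (i + 1))) →
      {i : ℕ | i < n ∧ Subgroup.centralizer (H i) < Subgroup.centralizer (H (i + 1))}.ncard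
        ≤ m := by
  classical
  obtain ⟨M, instM, P, ι, hιinj, hιA, hιsurj, hιadd, hιneg, hι0, hιnsmul, hιρ⟩ :=
    exists_conj_act G A hA
  -- finite generation
  obtain ⟨S, hS⟩ := PC.fpn _ hQ G hG (QuotientGroup.mk' A) (QuotientGroup.mk'_surjective A)
  rw [QuotientGroup.ker_mk'] at hS
  have hSA : ∀ s ∈ S, s ∈ A := by
    intro s hs
    rw [← hS]
    exact Subgroup.subset_normalClosure hs
  choose! lift hlift using hιsurj
  have hFG : P.FGen := by
    refine ⟨S.image lift, fun B hB hsB => ?_⟩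
    rw [eq_top_iff]
    intro x _
    let BG : Subgroup G :=
      { carrier := {g | ∃ y ∈ B, ι y = g}
        mul_mem' := by
          rintro _ _ ⟨y, hy, rfl⟩ ⟨z, hz, rfl⟩
          exact ⟨y + z, B.add_mem hy hz, hιadd y z⟩
        one_mem' := ⟨0, B.zero_mem, hι0⟩
        inv_mem' := by
          rintro _ ⟨y, hy, rfl⟩
          exact ⟨-y, B.neg_mem hy, hιneg y⟩ }
    have hBGn : BG.Normal := by
      refine ⟨?_⟩
      rintro _ ⟨y, hy, rfl⟩ g
      exact ⟨P.ρ (QuotientGroup.mk g) y, hB _ y hy, hιρ g y⟩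
    have h1 : A ≤ BG := by
      rw [← hS]
      apply Subgroup.normalClosure_le_normal
      intro s hs
      exact ⟨lift s, hsB _ (Finset.mem_image_of_mem _ hs), hlift s (hSA s hs)⟩
    obtain ⟨y, hy, hyx⟩ := h1 (hιA x)
    rw [← hιinj hyx]
    exact hy
  have hN : P.Noeth := hHall _ hQ M P hFG
  obtain ⟨T, hT0, hT⟩ := hN.torsion_bound
  obtain ⟨e, he, hE⟩ := AAct.E_of_fields (hp _ hQ) (h0 _ hQ) P hN
  have hit : ∀ (g : G) (n : ℕ) (x : M), ι ((P.ρ (QuotientGroup.mk g))^[n] x) =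
      g ^ n * ι x * (g ^ n)⁻¹ := by
    intro g n x
    rw [P.iterate, ← QuotientGroup.mk_pow, hιρ]
  refine chains_of_E G A hA hQ he hT0 ?_ ?_
  · intro g v hv n hn hgv
    obtain ⟨x, rfl⟩ : ∃ x, ι x = v := ⟨lift v, hlift v hv⟩
    have h1 : (P.ρ (QuotientGroup.mk g))^[n] x = x := by
      apply hιinj
      rw [hit, hgv.eq, mul_inv_cancel_right]
    have h2 := hE _ x n hn h1
    have h3 := congrArg ι h2
    rw [hit, mul_inv_eq_iff_eq_mul] at h3
    exact h3
  · intro v hv k hk hvk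
    obtain ⟨x, rfl⟩ : ∃ x, ι x = v := ⟨lift v, hlift v hv⟩
    rw [← hιnsmul] at hvk
    have h1 : k • x = 0 := hιinj (hvk.trans hι0.symm)
    rw [← hιnsmul, hT x k hk h1, hι0]

/-- The frozen statement `S02989`, from the three remaining inputs. -/
theorem S02989_of
    (hp : ∀ (Q : Type) [Group Q], PC Q → ∀ (p : ℕ) [Fact p.Prime] (A : Type) [AddCommGroup A]
      [Module (ZMod p) A] (P : AAct Q A), P.Noeth → P.E)
    (h0 : ∀ (Q : Type) [Group Q], PC Q → ∀ (V : Type) [AddCommGroup V] [Module ℚ V]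
      (P : AAct Q V), (∀ f : ℕ → Submodule ℚ V, (∀ n, P.Stable (f n).toAddSubgroup) →
        Monotone f → ∃ n, ∀ m, n ≤ m → f m = f n) → P.E)
    (hHall : ∀ (Q : Type) [Group Q], PC Q → ∀ (A : Type) [AddCommGroup A] (P : AAct Q A),
      P.FGen → P.Noeth) :
    ∀ (G : Type) [Group G], Group.FG G →
      ∀ (A : Subgroup G) [A.Normal],
        (∀ a ∈ A, ∀ b ∈ A, a * b = b * a) →
        IsSolvable (G ⧸ A) →
        (∀ K : Subgroup (G ⧸ A), K.FG) →
        ∃ m : ℕ, ∀ (n : ℕ) (H : ℕ → Subgroup G),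
          (∀ i ≤ n, ∃ k : ℕ, ∃ K : ℕ → Subgroup G,
              K 0 = H i ∧ K k = ⊤ ∧
              ∀ j < k, K j ≤ K (j + 1) ∧ ((K j).subgroupOf (K (j + 1))).Normal) →
          (∀ i < n, Subgroup.centralizer ((H i : Set G)) ≤
              Subgroup.centralizer ((H (i + 1) : Set G))) →
          {i : ℕ | i < n ∧ Subgroup.centralizer ((H i : Set G)) <
              Subgroup.centralizer ((H (i + 1) : Set G))}.ncard ≤ m := by
  intro G _ hG A _ hA hsol hfg
  obtain ⟨m, hm⟩ := main_reduction hp h0 hHall G hG A hA ⟨hsol, hfg⟩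
  exact ⟨m, fun n H _ hH => hm n (fun i => (H i : Set G)) hH⟩

end C3da71
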