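import Pool.Agent.Lib.MP_c3da71_al.Hall
import Pool.Agent.Lib.MP_c3da71_al.Reduction

set_option autoImplicit false

namespace C3da71

theorem AAct.noeth_of_fgen (Q : Type) [Group Q] (hQ : PC Q) (A : Type) [AddCommGroup A]
    (P : AAct Q A) (h : P.FGen) : P.Noeth := by
  classical
  obtain ⟨s, hs⟩ := h
  let act : Q → Submodule ℤ A ≃o Submodule ℤ A := fun g =>
    Submodule.orderIsoMapComap ((P.ρ g).toIntLinearEquiv)
  have hact : ∀ g (B : Submodule ℤ A) x, x ∈ act g B ↔ P.ρ g⁻¹ x ∈ B := by
    intro g B x
    constructor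
    · rintro ⟨y, hy, rfl⟩
      have : P.ρ g⁻¹ ((P.ρ g) y) = y := P.inv_apply g y
      change P.ρ g⁻¹ ((P.ρ g) y) ∈ B
      rw [this]; exact hy
    · intro hx
      exact ⟨_, hx, P.apply_inv g x⟩
  let X₀ : Submodule ℤ A := Submodule.span ℤ (s : Set A)
  have hX₀fg : X₀.FG := ⟨s, rfl⟩
  have hN : IsNoetherian ℤ X₀ := isNoetherian_of_fg_of_noetherian _ hX₀fg
  have hacc : ACC (fun _ : Submodule ℤ A => True) X₀ := by
    intro f _ hfX hmono
    have hw : WellFoundedGT (Submodule ℤ X₀) := inferInstance
    obtain ⟨n, hn⟩ := (monotone_stabilizes_iff_noetherian (R := ℤ) (M := X₀)).2 hN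
      ⟨fun n => (f n).comap X₀.subtype, fun m n hmn => Submodule.comap_mono (hmono hmn)⟩
    refine ⟨n, fun m hm => ?_⟩
    have h1 : (f n).comap X₀.subtype = (f m).comap X₀.subtype := hn m hm
    have h2 : ∀ k, f k = ((f k).comap X₀.subtype).map X₀.subtype := by
      intro k
      rw [Submodule.map_comap_subtype, inf_eq_right.2 (hfX k)]
    rw [h2 m, h2 n, h1]
  have hH := PC.hall Q hQ (Submodule ℤ A) (fun _ => True) (fun _ _ => trivial)
    (fun _ _ _ _ => trivial) act (fun _ _ _ => trivial)
    (fun B _ => by ext x; rw [hact, inv_one, P.one])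
    (fun g h B _ => by ext x; rw [hact, hact, hact, mul_inv_rev, P.mul]) X₀ trivial hacc
  have htop : ⨆ g, act g X₀ = ⊤ := by
    let Y : Submodule ℤ A := ⨆ g, act g X₀
    have hst : P.Stable Y.toAddSubgroup := by
      intro g x hx
      have h1 : act g Y ≤ Y := by
        change act g (⨆ h, act h X₀) ≤ ⨆ h, act h X₀
        rw [(act g).map_iSup]
        apply iSup_le
        intro h
        have h2 : act g (act h X₀) = act (g * h) X₀ := by
          ext y; rw [hact, hact, hact, mul_inv_rev, P.mul]
        rw [h2]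
        exact le_iSup (fun h => act h X₀) (g * h)
      apply h1
      rw [hact, P.inv_apply]
      exact hx
    have h1 := hs Y.toAddSubgroup hst (fun x hx => by
      have h2 : act 1 X₀ ≤ Y := le_iSup (fun h => act h X₀) 1
      apply h2
      rw [hact, inv_one, P.one]
      exact Submodule.subset_span hx)
    rw [eq_top_iff]
    intro x _
    have : x ∈ Y.toAddSubgroup := by rw [h1]; trivial
    exact this
  intro f hf hmono
  obtain ⟨n, hn⟩ := hH (fun n => AddSubgroup.toIntSubmodule (f n))
    (fun n => ⟨trivial, fun g => by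
      ext x
      rw [hact]
      constructor
      · intro hx
        have := hf n g _ hx
        rw [P.apply_inv] at this
        exact this
      · intro hx
        exact hf n g⁻¹ x hx⟩)
    (fun n => by rw [htop]; exact le_top)
    (fun m n hmn => (AddSubgroup.toIntSubmodule).monotone (hmono hmn))
  exact ⟨n, fun m hm => (AddSubgroup.toIntSubmodule).injective (hn m hm)⟩

end C3da71
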