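import Mathlib

/-!
# MP_c3da71_al: the subspaces `X^(A)`

Abstract part of Case I.  `𝒢 χ` is a family of `D`-subspaces of `V` indexed by the homomorphisms
`χ : ℤ^r → ℝ`.  For a rational subspace `A` of `ℚ^r`,
`XA 𝒢 A = {x | ∃ T finite, T ∩ A = ∅, x ∈ 𝒢 χ for all χ killing A and not vanishing on T}`.
-/

set_option autoImplicit false

namespace C3da71

/-- the embedding `ℤ^r → ℚ^r`. -/
def cst {r : ℕ} : (Fin r → ℤ) →+ (Fin r → ℚ) where
  toFun b := fun i => (b i : ℚ)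
  map_zero' := by ext i; simp
  map_add' a b := by ext i; simp

@[simp] lemma cst_apply {r : ℕ} (b : Fin r → ℤ) (i : Fin r) : cst b i = (b i : ℚ) := rfl

section XA

variable {D V : Type*} [DivisionRing D] [AddCommGroup V] [Module D V] {r : ℕ}

/-- `χ` kills `A`. -/
def Kills (χ : (Fin r → ℤ) →+ ℝ) (A : Submodule ℚ (Fin r → ℚ)) : Prop :=
  ∀ b, cst b ∈ A → χ b = 0

/-- the subspace `X^(A)`. -/
def XA (𝒢 : ((Fin r → ℤ) →+ ℝ) → Submodule D V) (A : Submodule ℚ (Fin r → ℚ)) :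
    Submodule D V where
  carrier := {x | ∃ T : Finset (Fin r → ℤ), (∀ t ∈ T, cst t ∉ A) ∧
    ∀ χ, Kills χ A → (∀ t ∈ T, χ t ≠ 0) → x ∈ 𝒢 χ}
  zero_mem' := ⟨∅, by simp, fun χ _ _ => zero_mem _⟩
  add_mem' := by
    classical
    rintro x y ⟨T, hT, h⟩ ⟨T', hT', h'⟩
    refine ⟨T ∪ T', ?_, ?_⟩
    · intro t ht
      rcases Finset.mem_union.1 ht with ht | ht
      · exact hT t ht
      · exact hT' t ht
    · intro χ hχ hTχ
      exact add_mem (h χ hχ fun t ht => hTχ t (Finset.mem_union_left _ ht))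
        (h' χ hχ fun t ht => hTχ t (Finset.mem_union_right _ ht))
  smul_mem' := by
    rintro d x ⟨T, hT, h⟩
    exact ⟨T, hT, fun χ hχ hTχ => Submodule.smul_mem _ _ (h χ hχ hTχ)⟩

variable {𝒢 : ((Fin r → ℤ) →+ ℝ) → Submodule D V}

lemma mem_XA {A : Submodule ℚ (Fin r → ℚ)} {x : V} : x ∈ XA 𝒢 A ↔
    ∃ T : Finset (Fin r → ℤ), (∀ t ∈ T, cst t ∉ A) ∧
      ∀ χ, Kills χ A → (∀ t ∈ T, χ t ≠ 0) → x ∈ 𝒢 χ := Iff.rfl

/-- equivariance under maps. -/
lemma XA_map {V' : Type*} [AddCommGroup V'] [Module D V']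
    {𝒢' : ((Fin r → ℤ) →+ ℝ) → Submodule D V'} (g : V → V') {x : V}
    (A A' : Submodule ℚ (Fin r → ℚ)) (β : (Fin r → ℤ) ≃+ (Fin r → ℤ))
    (hβ : ∀ b, cst b ∈ A ↔ cst (β b) ∈ A')
    (hg : ∀ χ : (Fin r → ℤ) →+ ℝ, x ∈ 𝒢 (χ.comp β.toAddMonoidHom) → g x ∈ 𝒢' χ)
    (hx : x ∈ XA 𝒢 A) : g x ∈ XA 𝒢' A' := by
  classical
  obtain ⟨T, hT, h⟩ := hx
  refine ⟨T.image β, ?_, ?_⟩
  · intro t ht
    obtain ⟨s, hs, rfl⟩ := Finset.mem_image.1 ht
    exact fun h => hT s hs ((hβ s).2 h)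
  · intro χ hχ hTχ
    apply hg
    apply h
    · intro b hb
      exact hχ _ ((hβ b).1 hb)
    · intro t ht
      exact hTχ _ (Finset.mem_image_of_mem β ht)

/-- **The tree lemma.** -/
theorem XA_finite (c : ℕ) (x : V)
    (hx : ∀ A : Submodule ℚ (Fin r → ℚ), Module.finrank ℚ A < c → x ∈ XA 𝒢 A) :
    {A : Submodule ℚ (Fin r → ℚ) | Module.finrank ℚ A = c ∧ x ∉ XA 𝒢 A}.Finite := by
  classical
  have key : ∀ j ≤ c, ∃ L : Finset (Submodule ℚ (Fin r → ℚ)),
      (∀ A' ∈ L, Module.finrank ℚ A' = j) ∧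
      ∀ A : Submodule ℚ (Fin r → ℚ), x ∉ XA 𝒢 A → ∃ A' ∈ L, A' ≤ A := by
    intro j
    induction j with
    | zero =>
      intro _
      exact ⟨{⊥}, by simp, fun A _ => ⟨⊥, by simp, bot_le⟩⟩
    | succ j ih =>
      intro hj
      obtain ⟨L, hL, hL'⟩ := ih (by omega)
      have hw : ∀ A' ∈ L, ∃ T : Finset (Fin r → ℤ), (∀ t ∈ T, cst t ∉ A') ∧
          ∀ χ, Kills χ A' → (∀ t ∈ T, χ t ≠ 0) → x ∈ 𝒢 χ := by
        intro A' hA'
        exact hx A' (by rw [hL A' hA']; omega)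
      choose! T hT hTx using hw
      refine ⟨L.biUnion fun A' => (T A').image fun t => A' ⊔ Submodule.span ℚ {cst t}, ?_, ?_⟩
      · intro A hA
        obtain ⟨A', hA', hA⟩ := Finset.mem_biUnion.1 hA
        obtain ⟨t, ht, rfl⟩ := Finset.mem_image.1 hA
        have h1 : cst t ∉ A' := hT A' hA' t ht
        have h2 : Disjoint A' (Submodule.span ℚ {cst t}) := by
          rw [Submodule.disjoint_span_singleton]
          intro h; exact absurd h h1
        have h3 : Module.finrank ℚ (Submodule.span ℚ {cst t} : Submodule ℚ (Fin r → ℚ)) = 1 := by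
          apply finrank_span_singleton
          intro h0
          rw [h0] at h1
          exact h1 (zero_mem _)
        have h4 := Submodule.finrank_sup_add_finrank_inf_eq A' (Submodule.span ℚ {cst t})
        rw [h2.eq_bot, finrank_bot, hL A' hA', h3] at h4
        omega
      · intro A hA
        obtain ⟨A', hA', hle⟩ := hL' A hA
        obtain ⟨t, ht, htA⟩ : ∃ t ∈ T A', cst t ∈ A := by
          by_contra hcon
          push Not at hcon
          apply hA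
          refine ⟨T A', hcon, ?_⟩
          intro χ hχ hTχ
          exact hTx A' hA' χ (fun b hb => hχ b (hle hb)) hTχ
        refine ⟨A' ⊔ Submodule.span ℚ {cst t}, ?_, ?_⟩
        · exact Finset.mem_biUnion.2 ⟨A', hA', Finset.mem_image_of_mem _ ht⟩
        · apply sup_le hle
          rw [Submodule.span_singleton_le_iff_mem]
          exact htA
  obtain ⟨L, hL, hL'⟩ := key c le_rfl
  refine L.finite_toSet.subset ?_
  rintro A ⟨hA, hxA⟩
  obtain ⟨A', hA', hle⟩ := hL' A hxA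
  have : A' = A := Submodule.eq_of_le_of_finrank_eq hle (by rw [hL A' hA', hA])
  rw [← this]; exact hA'

/-- the rational extension of `χ`. -/
noncomputable def extQ (χ : (Fin r → ℤ) →+ ℝ) : (Fin r → ℚ) →ₗ[ℚ] ℝ where
  toFun q := ∑ i, (q i : ℝ) * χ (Pi.single i 1)
  map_add' p q := by
    rw [← Finset.sum_add_distrib]
    apply Finset.sum_congr rfl
    intro i _
    simp only [Pi.add_apply]
    push_cast; ring
  map_smul' c q := by
    simp only [Pi.smul_apply, smul_eq_mul, RingHom.id_apply]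
    rw [Rat.smul_def, Finset.mul_sum]
    apply Finset.sum_congr rfl
    intro i _
    push_cast; ring

lemma extQ_cst (χ : (Fin r → ℤ) →+ ℝ) (b : Fin r → ℤ) : extQ χ (cst b) = χ b := by
  classical
  have h1 : b = ∑ i, b i • (Pi.single i 1 : Fin r → ℤ) := by
    ext j
    simp [Finset.sum_apply, Pi.single_apply]
  conv_rhs => rw [h1]
  rw [map_sum]
  show ∑ i, ((cst b i : ℚ) : ℝ) * χ (Pi.single i 1) = _
  apply Finset.sum_congr rfl
  intro i _
  rw [map_zsmul, zsmul_eq_mul]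
  simp

/-- if `x` lies in all `X^(A)`, `A ≠ ⊤`, then it lies in all `𝒢 χ`, `χ ≠ 0`. -/
theorem mem_of_forall_XA {x : V} (hx : ∀ A : Submodule ℚ (Fin r → ℚ), A ≠ ⊤ → x ∈ XA 𝒢 A)
    {χ : (Fin r → ℤ) →+ ℝ} (hχ : χ ≠ 0) : x ∈ 𝒢 χ := by
  have h1 : LinearMap.ker (extQ χ) ≠ ⊤ := by
    intro h
    apply hχ
    refine AddMonoidHom.ext fun b => ?_
    have : cst b ∈ LinearMap.ker (extQ χ) := by rw [h]; trivial
    rw [LinearMap.mem_ker, extQ_cst] at this
    rw [this]; rfl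
  obtain ⟨T, hT, h⟩ := hx _ h1
  apply h χ
  · intro b hb
    rwa [LinearMap.mem_ker, extQ_cst] at hb
  · intro t ht h0
    apply hT t ht
    rwa [LinearMap.mem_ker, extQ_cst]

end XA

end C3da71
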