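import Pool.Agent.Lib.MP_c3da71_al.AR
import Pool.Agent.Lib.MP_c3da71_al.Perm
import Pool.Agent.Lib.MP_c3da71_al.XA

/-! # Case I -/

set_option autoImplicit false

namespace C3da71

/-! ### Rational extensions -/

section RatExt

variable {r : ℕ}

lemma cst_single (i : Fin r) : cst (Pi.single i 1 : Fin r → ℤ) = (Pi.single i 1 : Fin r → ℚ) := by
  ext k
  by_cases h : k = i
  · subst h; simp
  · simp [h]

lemma cst_injective : Function.Injective (cst : (Fin r → ℤ) →+ (Fin r → ℚ)) := by
  intro a b h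
  ext i
  have := congrFun h i
  simpa using this

/-- the rational extension of an additive endomorphism of `ℤ^r` -/
noncomputable def extE (f : (Fin r → ℤ) →+ (Fin r → ℤ)) : (Fin r → ℚ) →ₗ[ℚ] (Fin r → ℚ) where
  toFun q := ∑ i, q i • cst (f (Pi.single i 1))
  map_add' p q := by
    rw [← Finset.sum_add_distrib]
    exact Finset.sum_congr rfl fun i _ => add_smul _ _ _
  map_smul' c q := by
    simp only [RingHom.id_apply, Finset.smul_sum, smul_smul, Pi.smul_apply, smul_eq_mul]

lemma extE_cst (f : (Fin r → ℤ) →+ (Fin r → ℤ)) (b : Fin r → ℤ) : extE f (cst b) = cst (f b) := by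
  classical
  have h1 : b = ∑ i, b i • (Pi.single i 1 : Fin r → ℤ) := by
    ext j
    simp [Finset.sum_apply, Pi.single_apply]
  conv_rhs => rw [h1]
  rw [map_sum, map_sum]
  show ∑ i, (cst b i) • cst (f (Pi.single i 1)) = _
  refine Finset.sum_congr rfl fun i _ => ?_
  rw [map_zsmul, map_zsmul, cst_apply]
  exact Int.cast_smul_eq_zsmul ℚ (b i) _

lemma lin_ext_cst {M : Type*} [AddCommGroup M] [Module ℚ M] {f g : (Fin r → ℚ) →ₗ[ℚ] M}
    (h : ∀ b, f (cst b) = g (cst b)) : f = g := by
  classical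
  apply LinearMap.pi_ext'
  intro i
  ext
  have := h (Pi.single i 1)
  rw [cst_single] at this
  simpa using this

lemma extE_comp (f g : (Fin r → ℤ) →+ (Fin r → ℤ)) : extE (f.comp g) = (extE f).comp (extE g) := by
  apply lin_ext_cst
  intro b
  simp [extE_cst]

lemma extE_id : extE (AddMonoidHom.id (Fin r → ℤ)) = LinearMap.id := by
  apply lin_ext_cst
  intro b
  simp [extE_cst]

/-- clearing denominators -/
lemma exists_cst_eq (q : Fin r → ℚ) : ∃ n : ℕ, 0 < n ∧ ∃ b : Fin r → ℤ, cst b = (n : ℚ) • q := by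
  classical
  refine ⟨∏ i, (q i).den, Finset.prod_pos fun i _ => (q i).den_pos, ?_⟩
  have h : ∀ i, ∃ k : ℕ, ∏ i, (q i).den = (q i).den * k := fun i => Finset.dvd_prod_of_mem _ (Finset.mem_univ i)
  choose k hk using h
  refine ⟨fun i => k i * (q i).num, ?_⟩
  ext i
  rw [cst_apply, Pi.smul_apply, smul_eq_mul, hk i]
  have h2 : ((q i).den : ℚ) * q i = (q i).num := by
    rw [mul_comm]; exact Rat.mul_den_eq_num (q i)
  push_cast
  rw [mul_comm ((q i).den : ℚ), mul_assoc, h2]

end RatExt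

/-! ### The action of `G` on the rational subspaces of `ℚ ⊗ B` -/

section Act

variable {G : Type} [Group G] {B : Subgroup G} [B.Normal] {r : ℕ} (j : B ≃* Multiplicative (Fin r → ℤ))

/-- the action of `G` on `B = ℤ^r` -/
def conjZ (g : G) : (Fin r → ℤ) ≃+ (Fin r → ℤ) where
  toFun b := Multiplicative.toAdd (j (MulAut.conjNormal g (j.symm (Multiplicative.ofAdd b))))
  invFun b := Multiplicative.toAdd (j (MulAut.conjNormal g⁻¹ (j.symm (Multiplicative.ofAdd b))))
  left_inv b := by simp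
  right_inv b := by simp
  map_add' a b := by simp

lemma conjZ_apply (g : G) (b : Fin r → ℤ) :
    conjZ j g b = Multiplicative.toAdd (j (MulAut.conjNormal g (j.symm (Multiplicative.ofAdd b)))) := rfl

lemma conjZ_mul (g h : G) (b : Fin r → ℤ) : conjZ j (g * h) b = conjZ j g (conjZ j h b) := by
  simp [conjZ_apply, map_mul]

lemma conjZ_one (b : Fin r → ℤ) : conjZ j 1 b = b := by
  simp [conjZ_apply]

/-- the rational extension of the action on `B` -/
noncomputable def conjQ (g : G) : (Fin r → ℚ) →ₗ[ℚ] (Fin r → ℚ) := extE (conjZ j g).toAddMonoidHom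

lemma conjQ_cst (g : G) (b : Fin r → ℤ) : conjQ j g (cst b) = cst (conjZ j g b) := extE_cst _ _

lemma conjQ_mul (g h : G) : conjQ j (g * h) = (conjQ j g).comp (conjQ j h) := by
  apply lin_ext_cst
  intro b
  simp [conjQ_cst, conjZ_mul]

lemma conjQ_one : conjQ j (1 : G) = LinearMap.id := by
  apply lin_ext_cst
  intro b
  simp [conjQ_cst, conjZ_one]

/-- the action on rational subspaces -/
noncomputable def actQ (g : G) (A : Submodule ℚ (Fin r → ℚ)) : Submodule ℚ (Fin r → ℚ) := A.map (conjQ j g)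

lemma actQ_mul (g h : G) (A : Submodule ℚ (Fin r → ℚ)) : actQ j (g * h) A = actQ j g (actQ j h A) := by
  rw [actQ, actQ, actQ, conjQ_mul, Submodule.map_comp]

lemma actQ_one (A : Submodule ℚ (Fin r → ℚ)) : actQ j (1 : G) A = A := by
  rw [actQ, conjQ_one, Submodule.map_id]

lemma conjQ_inj (g : G) : Function.Injective (conjQ j g) := by
  apply Function.LeftInverse.injective (g := conjQ j g⁻¹)
  intro q
  have := conjQ_mul j g⁻¹ g
  rw [inv_mul_cancel, conjQ_one] at this
  exact (LinearMap.congr_fun this q).symm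

lemma mem_actQ (g : G) (A : Submodule ℚ (Fin r → ℚ)) (q : Fin r → ℚ) : conjQ j g q ∈ actQ j g A ↔ q ∈ A := by
  constructor
  · rintro ⟨q', hq', h⟩
    rwa [← conjQ_inj j g h]
  · intro h
    exact Submodule.mem_map_of_mem h

lemma finrank_actQ (g : G) (A : Submodule ℚ (Fin r → ℚ)) : Module.finrank ℚ (actQ j g A) = Module.finrank ℚ A :=
  LinearEquiv.finrank_eq (Submodule.equivMapOfInjective _ (conjQ_inj j g) A).symm

/-- the isolated subgroup of `B` attached to a rational subspace -/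
def isoB (A : Submodule ℚ (Fin r → ℚ)) : Subgroup G where
  carrier := {g | ∃ h : g ∈ B, cst (Multiplicative.toAdd (j ⟨g, h⟩)) ∈ A}
  mul_mem' := by
    rintro a b ⟨ha, ha'⟩ ⟨hb, hb'⟩
    refine ⟨B.mul_mem ha hb, ?_⟩
    have : (⟨a * b, B.mul_mem ha hb⟩ : B) = ⟨a, ha⟩ * ⟨b, hb⟩ := rfl
    rw [this, map_mul, toAdd_mul, map_add]
    exact A.add_mem ha' hb'
  one_mem' := by
    refine ⟨B.one_mem, ?_⟩
    have : (⟨1, B.one_mem⟩ : B) = 1 := rfl
    rw [this, map_one, toAdd_one, map_zero]
    exact A.zero_mem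
  inv_mem' := by
    rintro a ⟨ha, ha'⟩
    refine ⟨B.inv_mem ha, ?_⟩
    have : (⟨a⁻¹, B.inv_mem ha⟩ : B) = (⟨a, ha⟩ : B)⁻¹ := rfl
    rw [this, map_inv, toAdd_inv, map_neg]
    exact A.neg_mem ha'

omit [B.Normal] in
lemma mem_isoB {A : Submodule ℚ (Fin r → ℚ)} {g : G} :
    g ∈ isoB j A ↔ ∃ h : g ∈ B, cst (Multiplicative.toAdd (j ⟨g, h⟩)) ∈ A := Iff.rfl

/-- if the stabilizer of a proper nonzero rational subspace has finite index then `B` is not a plinth -/
theorem eq_bot_or_top_of_stab (hB : Plinth G B) (A : Submodule ℚ (Fin r → ℚ)) (H : Subgroup G) (hH : H.FiniteIndex)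
    (hst : ∀ h ∈ H, actQ j h A = A) : A = ⊥ ∨ A = ⊤ := by
  have h := hB.irr H hH (isoB j A) (fun b hb => hb.1) (by
    intro b hb n hn hbn
    obtain ⟨h1, h2⟩ := hbn
    refine ⟨hb, ?_⟩
    have : (⟨b ^ n, h1⟩ : B) = (⟨b, hb⟩ : B) ^ n := rfl
    rw [this, map_pow, toAdd_pow, map_nsmul] at h2
    have h3 := A.smul_mem ((n : ℚ)⁻¹) h2
    rwa [← Nat.cast_smul_eq_nsmul ℚ, smul_smul, inv_mul_cancel₀ (by positivity), one_smul] at h3) (by
    rintro h hh a ⟨ha, ha'⟩
    refine ⟨hB.normal.conj_mem a ha h, ?_⟩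
    rw [← hst h hh]
    have h1 : cst (Multiplicative.toAdd (j ⟨h * a * h⁻¹, hB.normal.conj_mem a ha h⟩)) =
        conjQ j h (cst (Multiplicative.toAdd (j ⟨a, ha⟩))) := by
      rw [conjQ_cst, conjZ_apply]
      congr 3
      apply Subtype.ext
      simp
    rw [h1, mem_actQ]
    exact ha')
  rcases h with h | h
  · left
    rw [Submodule.eq_bot_iff]
    intro q hq
    obtain ⟨n, hn, b, hb⟩ := exists_cst_eq q
    have h1 : ((j.symm (Multiplicative.ofAdd b) : B) : G) ∈ isoB j A := by
      refine ⟨(j.symm (Multiplicative.ofAdd b)).2, ?_⟩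
      rw [Subtype.coe_eta, MulEquiv.apply_symm_apply, toAdd_ofAdd, hb]
      exact A.smul_mem _ hq
    rw [h, Subgroup.mem_bot] at h1
    have h2 : j.symm (Multiplicative.ofAdd b) = 1 := Subtype.ext h1
    rw [MulEquiv.symm_apply_eq, map_one] at h2
    have h3 : b = 0 := h2
    rw [h3, map_zero] at hb
    have := smul_eq_zero.1 hb.symm
    rcases this with h | h
    · exfalso
      have : (n : ℚ) ≠ 0 := by positivity
      exact this h
    · exact h
  · right
    rw [Submodule.eq_top_iff']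
    intro q
    obtain ⟨n, hn, b, hb⟩ := exists_cst_eq q
    have h1 : ((j.symm (Multiplicative.ofAdd b) : B) : G) ∈ isoB j A := by
      rw [h]; exact (j.symm (Multiplicative.ofAdd b)).2
    obtain ⟨h2, h3⟩ := h1
    rw [Subtype.coe_eta, MulEquiv.apply_symm_apply, toAdd_ofAdd, hb] at h3
    have h4 := A.smul_mem ((n : ℚ)⁻¹) h3
    rwa [smul_smul, inv_mul_cancel₀ (by positivity), one_smul] at h4

/-- a finite `G`-stable set of rational subspaces consists of `⊥` and `⊤` -/
theorem eq_bot_or_top_of_finite (hB : Plinth G B) (S : Set (Submodule ℚ (Fin r → ℚ))) (hS : S.Finite)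
    (hst : ∀ A ∈ S, ∀ g : G, actQ j g A ∈ S) (A : Submodule ℚ (Fin r → ℚ)) (hA : A ∈ S) : A = ⊥ ∨ A = ⊤ := by
  classical
  let H : Subgroup G :=
    { carrier := {g | actQ j g A = A}
      mul_mem' := by
        intro a b ha hb
        simp only [Set.mem_ofPred_eq] at *
        rw [actQ_mul, hb, ha]
      one_mem' := actQ_one j A
      inv_mem' := by
        intro a ha
        simp only [Set.mem_ofPred_eq] at *
        have h := actQ_mul j a⁻¹ a A
        rw [inv_mul_cancel, actQ_one, ha] at h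
        exact h.symm }
  refine eq_bot_or_top_of_stab j hB A H ?_ (fun h hh => hh)
  have hfin : Finite (G ⧸ H) := by
    have : Finite S := hS
    let f : G ⧸ H → S := fun q => ⟨actQ j q.out A, hst A hA _⟩
    apply Finite.of_injective f
    intro q q' hqq
    have h1 : actQ j q.out A = actQ j q'.out A := congrArg Subtype.val hqq
    have h2 : (q.out)⁻¹ * q'.out ∈ H := by
      show actQ j _ A = A
      rw [actQ_mul, ← h1, ← actQ_mul, inv_mul_cancel, actQ_one]
    have h3 := QuotientGroup.eq.2 h2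
    rwa [QuotientGroup.out_eq', QuotientGroup.out_eq'] at h3
  exact Subgroup.finiteIndex_of_finite_quotient

end Act

/-- orbits of subspaces with stabilizer of finite index are finite -/
lemma PAct.finite_orbit {G : Type} [Group G] {E : Type} [Ring E] {X : Type} [AddCommGroup X] [Module E X]
    (P : PAct G E X) (Y : Submodule E X) (H : Subgroup G) (hH : H.index ≠ 0) (hst : ∀ h ∈ H, P.act h Y = Y) :
    {Z : Submodule E X | ∃ g : G, Z = P.act g Y}.Finite := by
  have : H.FiniteIndex := ⟨hH⟩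
  have hfin : Finite (G ⧸ H) := inferInstance
  refine (Set.finite_range fun q : G ⧸ H => P.act q.out Y).subset ?_
  rintro _ ⟨g, rfl⟩
  refine ⟨(g : G ⧸ H), ?_⟩
  obtain ⟨h, hh⟩ := QuotientGroup.mk_out_eq_mul H g
  show P.act _ Y = _
  rw [hh, ← P.act_mul, hst _ h.2]

/-- Case I (helper87's version (B)): `X ≠ 0` is torsion over `E * B`. Then `X` has a nonzero good stable subspace or `B` stabilizes a nonzero
finite dimensional subspace. -/
theorem icase {n : ℕ} (IH : AllGood n) {G : Type} [Group G] (hG : PC G) (hn : HC (n + 1) G) {B : Subgroup G}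
    (hB : Plinth G B) {E : Type} [DivisionRing E] {X : Type} [AddCommGroup X] [Module E X] (P : PAct G E X)
    (hP : P.Noeth) (hX : Nontrivial X) (htor : ∀ x : X, ¬ LinearIndependent E (fun b : B => P.ρ (b : G) x)) :
    (∃ (Y : Submodule E X) (hY : P.Stable Y), Y ≠ ⊥ ∧ (P.sub Y hY).Good) ∨
      (∃ V : Submodule E X, V ≠ ⊥ ∧ V.FG ∧ P.BStable B V) := by
  classical
  have hBn : B.Normal := hB.normal
  obtain ⟨r, ⟨j⟩⟩ := hB.free
  have hBc : ∀ a ∈ B, ∀ b ∈ B, a * b = b * a := by
    intro a ha b hb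
    have h : (⟨a, ha⟩ : B) * ⟨b, hb⟩ = ⟨b, hb⟩ * ⟨a, ha⟩ := by
      apply j.injective
      rw [map_mul, map_mul, mul_comm]
    exact congrArg Subtype.val h
  -- the subspaces `G_χ`
  let χB : ((Fin (r + 1) → ℤ) →+ ℝ) → B → ℝ := fun χ b => χ (Multiplicative.toAdd (j b))
  have hχB : ∀ χ a b, χB χ (a * b) = χB χ a + χB χ b := by
    intro χ a b
    show χ (Multiplicative.toAdd (j (a * b))) = _
    rw [map_mul, toAdd_mul, map_add]
  have hGX := fun χ => exists_GX P B hBc (χB χ) (hχB χ)
  choose 𝒢 h𝒢 hm𝒢 using hGX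
  -- equivariance of `X^(A)`
  have hXA : ∀ (g : G) (A : Submodule ℚ (Fin (r + 1) → ℚ)) (x : X), x ∈ XA 𝒢 A → P.ρ g x ∈ XA 𝒢 (actQ j g A) := by
    intro g A x hx
    refine XA_map (𝒢' := 𝒢) (P.ρ g) A (actQ j g A) (conjZ j g) ?_ ?_ hx
    · intro b
      rw [← conjQ_cst, mem_actQ]
    · intro χ hχ
      rw [hm𝒢] at hχ ⊢
      refine hχ.act hBn g _ ?_
      intro b c hbc
      have : c = MulAut.conjNormal g b := by
        apply Subtype.ext
        rw [hbc]; simp
      subst this
      show χ _ = χ (conjZ j g _)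
      rw [conjZ_apply]
      simp
  have hactXA : ∀ (g : G) (A : Submodule ℚ (Fin (r + 1) → ℚ)), P.act g (XA 𝒢 A) = XA 𝒢 (actQ j g A) := by
    have h1 : ∀ (g : G) (A : Submodule ℚ (Fin (r + 1) → ℚ)), P.act g (XA 𝒢 A) ≤ XA 𝒢 (actQ j g A) := by
      intro g A x hx
      have := hXA g A _ hx
      simpa using this
    intro g A
    refine le_antisymm (h1 g A) ?_
    have h2 := P.act_mono g (h1 g⁻¹ (actQ j g A))
    rwa [P.act_mul, mul_inv_cancel, P.act_one, ← actQ_mul, inv_mul_cancel, actQ_one] at h2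
  -- the filtration
  let Xc : ℕ → Submodule E X := fun c => ⨅ A : {A : Submodule ℚ (Fin (r + 1) → ℚ) // Module.finrank ℚ A < c}, XA 𝒢 A.1
  have hmem : ∀ c x, x ∈ Xc c ↔ ∀ A : Submodule ℚ (Fin (r + 1) → ℚ), Module.finrank ℚ A < c → x ∈ XA 𝒢 A := by
    intro c x
    simp only [Xc, Submodule.mem_iInf, Subtype.forall]
  have hstab : ∀ c, P.Stable (Xc c) := by
    intro c g x hx
    rw [hmem] at hx ⊢
    intro A hA
    have h1 := hXA g (actQ j g⁻¹ A) x (hx _ (by rw [finrank_actQ]; exact hA))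
    rwa [← actQ_mul, mul_inv_cancel, actQ_one] at h1
  have h1top : Xc 1 = ⊤ := by
    rw [Submodule.eq_top_iff']
    intro x
    rw [hmem]
    intro A hA
    have hA0 : A = ⊥ := by
      rw [← Submodule.finrank_eq_zero (R := ℚ)]
      omega
    subst hA0
    obtain ⟨T, hT, hTx⟩ := exists_finset_InG P B x (htor x)
    refine ⟨T.image fun b => Multiplicative.toAdd (j b), ?_, ?_⟩
    · intro t ht h0
      obtain ⟨b, hb, rfl⟩ := Finset.mem_image.1 ht
      apply hT b hb
      rw [Submodule.mem_bot, ← map_zero cst] at h0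
      have h1 := cst_injective h0
      have h2 : j b = 1 := h1
      rwa [map_eq_one_iff j j.injective] at h2
    · intro χ _ hχ
      rw [hm𝒢]
      refine hTx _ (hχB χ) ?_
      intro t ht
      exact hχ _ (Finset.mem_image_of_mem _ ht)
  by_cases hlast : Xc (r + 1) = ⊥
  · left
    -- the least `c` with `X_c = 0`
    have hex : ∃ c, Xc c = ⊥ := ⟨r + 1, hlast⟩
    let c := Nat.find hex
    have hc : Xc c = ⊥ := Nat.find_spec hex
    have hcle : c ≤ r + 1 := Nat.find_min' hex hlast
    have hc0 : c ≠ 0 := by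
      intro h0
      rw [h0] at hc
      have : Xc 0 = ⊤ := by
        rw [Submodule.eq_top_iff']
        intro x
        rw [hmem]
        intro A hA
        omega
      rw [this] at hc
      exact top_ne_bot hc
    have hc1 : c ≠ 1 := by
      intro h0
      rw [h0, h1top] at hc
      exact top_ne_bot hc
    obtain ⟨k, hk⟩ : ∃ k, c = k + 1 := ⟨c - 1, by omega⟩
    have hkne : Xc k ≠ ⊥ := Nat.find_min hex (show k < c by omega)
    rw [hk] at hc
    have hk1 : 1 ≤ k := by omega
    have hkr : k < r + 1 := by omega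
    refine ⟨Xc k, hstab k, hkne, ?_⟩
    let P' := P.sub (Xc k) (hstab k)
    have hP' : P'.Noeth := hP.sub _ _
    let XY : Submodule ℚ (Fin (r + 1) → ℚ) → Submodule E (Xc k) := fun A => (XA 𝒢 A).comap (Xc k).subtype
    have hact' : ∀ g A, P'.act g (XY A) = XY (actQ j g A) := by
      intro g A
      ext x
      show (P.ρ g).symm x ∈ XA 𝒢 A ↔ (x : X) ∈ XA 𝒢 (actQ j g A)
      rw [← hactXA]
      rfl
    have hfinA : ∀ x : Xc k, {A : Submodule ℚ (Fin (r + 1) → ℚ) | Module.finrank ℚ A = k ∧ x ∉ XY A}.Finite := by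
      intro x
      exact XA_finite k (x : X) ((hmem k x).1 x.2)
    let K : Set (Submodule E (Xc k)) := {Y | ∃ A : Submodule ℚ (Fin (r + 1) → ℚ), Module.finrank ℚ A = k ∧ Y = XY A}
    have hK : ∀ Y ∈ K, ∀ g : G, P'.act g Y ∈ K := by
      rintro _ ⟨A, hA, rfl⟩ g
      exact ⟨actQ j g A, by rw [finrank_actQ]; exact hA, hact' g A⟩
    have hKfin : ∀ x : Xc k, {Y : Submodule E (Xc k) | Y ∈ K ∧ x ∉ Y}.Finite := by
      intro x
      refine ((hfinA x).image XY).subset ?_
      rintro _ ⟨⟨A, hA, rfl⟩, hx⟩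
      exact ⟨A, ⟨hA, hx⟩, rfl⟩
    have hKbot : sInf K = ⊥ := by
      rw [Submodule.eq_bot_iff]
      intro x hx
      have h1 : (x : X) ∈ Xc (k + 1) := by
        rw [hmem]
        intro A hA
        rcases Nat.lt_succ_iff_lt_or_eq.1 hA with h | h
        · exact (hmem k x).1 x.2 A h
        · exact (Submodule.mem_sInf.1 hx) (XY A) ⟨A, h, rfl⟩
      rw [hc, Submodule.mem_bot] at h1
      exact Subtype.ext h1
    refine good_of_family hG P' hP' K hK hKfin hKbot ?_
    rintro _ ⟨A, hA, rfl⟩ hne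
    have hidx : (P'.stab (XY A)).index = 0 := by
      by_contra hidx
      have hfin := P'.finite_orbit (XY A) (P'.stab (XY A)) hidx (fun h hh => hh)
      -- the orbit of `A` is finite
      let S : Set (Submodule ℚ (Fin (r + 1) → ℚ)) := {A' | Module.finrank ℚ A' = k ∧ ∃ g : G, XY A' = P'.act g (XY A)}
      have hS : S.Finite := by
        have h1 : S ⊆ ⋃ Z ∈ {Z : Submodule E (Xc k) | ∃ g : G, Z = P'.act g (XY A)},
            {A' | Module.finrank ℚ A' = k ∧ XY A' = Z} := by
          rintro A' ⟨hA', g, hg⟩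
          refine Set.mem_biUnion (⟨g, rfl⟩ : P'.act g (XY A) ∈ {Z : Submodule E (Xc k) | ∃ g : G, Z = P'.act g (XY A)}) ?_
          exact ⟨hA', hg⟩
        refine Set.Finite.subset (hfin.biUnion ?_) h1
        rintro _ ⟨g, rfl⟩
        have hne' : P'.act g (XY A) ≠ ⊤ := by
          intro h
          apply hne
          have h2 := congrArg (P'.act g⁻¹) h
          rwa [P'.act_mul, inv_mul_cancel, P'.act_one, P'.act_top] at h2
        obtain ⟨x, hx⟩ : ∃ x, x ∉ P'.act g (XY A) := by
          by_contra hcon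
          push Not at hcon
          exact hne' ((Submodule.eq_top_iff'.2) hcon)
        refine (hfinA x).subset ?_
        rintro A' ⟨hA', hA''⟩
        refine ⟨hA', ?_⟩
        rw [hA'']
        exact hx
      have hSst : ∀ A' ∈ S, ∀ g : G, actQ j g A' ∈ S := by
        rintro A' ⟨hA', g', hg'⟩ g
        refine ⟨by rw [finrank_actQ]; exact hA', g * g', ?_⟩
        rw [← hact', hg', P'.act_mul]
      rcases eq_bot_or_top_of_finite j hB S hS hSst A ⟨hA, 1, (P'.act_one _).symm⟩ with h | h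
      · rw [h, finrank_bot] at hA; omega
      · rw [h, finrank_top] at hA
        simp at hA
        omega
    refine IH _ (hG.subgroup _) (hn.of_index_zero _ hidx) E _ _ ?_
    refine noeth_quot_stab hG P' hP' (XY A) ?_
    intro x
    refine (hKfin x).subset ?_
    rintro Z ⟨⟨g, rfl⟩, hx⟩
    exact ⟨hK _ ⟨A, hA, rfl⟩ g, hx⟩
  · right
    obtain ⟨x, hx, hx0⟩ := (Submodule.ne_bot_iff _).1 hlast
    rw [hmem] at hx
    have hx' : ∀ A : Submodule ℚ (Fin (r + 1) → ℚ), A ≠ ⊤ → x ∈ XA 𝒢 A := by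
      intro A hA
      apply hx
      have := Submodule.finrank_lt hA
      simpa using this
    obtain ⟨V, hV, hVB, hxV⟩ := exists_fd_of_forall_InG P B (r + 1) ⟨j⟩ x (by
      intro χ hχ ⟨b, hb⟩
      let χ' : (Fin (r + 1) → ℤ) →+ ℝ :=
        AddMonoidHom.mk' (fun b => χ (j.symm (Multiplicative.ofAdd b))) (by
          intro a b
          show χ (j.symm (Multiplicative.ofAdd (a + b))) = _
          rw [ofAdd_add, map_mul, hχ])
      have h1 : χB χ' = χ := by
        funext b
        show χ (j.symm (Multiplicative.ofAdd (Multiplicative.toAdd (j b)))) = χ b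
        simp
      have h2 : χ' ≠ 0 := by
        intro h0
        apply hb
        rw [← h1, h0]
        rfl
      have h3 := mem_of_forall_XA hx' h2
      rw [hm𝒢, h1] at h3
      exact h3)
    refine ⟨V, ?_, hV, hVB⟩
    intro h
    rw [h, Submodule.mem_bot] at hxV
    exact hx0 hxV

end C3da71
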