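import Pool.Agent.Lib.MP_c3da71_al.Root

set_option autoImplicit false

namespace C3da71

/-- Uniform root property of all centralizers of elements. -/
def LC (G : Type*) [Group G] : Prop :=
  ∃ e : ℕ, 1 ≤ e ∧ ∀ (g x : G) (n : ℕ), 1 ≤ n → Commute (g ^ n) x → Commute (g ^ e) x

theorem LC.step {G : Type*} [Group G] (N : Subgroup G) [N.Normal]
    (hN : ∀ a ∈ N, ∀ b ∈ N, a * b = b * a) {e T : ℕ} (he : 1 ≤ e) (hT0 : 1 ≤ T)
    (hE : ∀ (g v : G), v ∈ N → ∀ n : ℕ, 1 ≤ n → Commute (g ^ n) v → Commute (g ^ e) v)
    (hT : ∀ v ∈ N, ∀ k : ℕ, 1 ≤ k → v ^ k = 1 → v ^ T = 1) (h' : LC (G ⧸ N)) : LC G := by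
  obtain ⟨e', he', h'⟩ := h'
  refine ⟨e' * (e * T), Nat.mul_pos he' (Nat.mul_pos he hT0), fun g x n hn hgx => ?_⟩
  let inst : CommGroup N :=
    { (inferInstance : Group N) with mul_comm := fun a b => Subtype.ext (hN a a.2 b b.2) }
  set h := g ^ e' with hh
  have hcomm : Commute ((QuotientGroup.mk' N h)) (QuotientGroup.mk' N x) := by
    rw [hh, map_pow]
    refine h' _ _ n hn ?_
    rw [← map_pow]
    exact hgx.map (QuotientGroup.mk' N)
  have haN : h * x * h⁻¹ * x⁻¹ ∈ N := by
    rw [← QuotientGroup.ker_mk' N, MonoidHom.mem_ker]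
    rw [map_mul, map_mul, map_mul, map_inv, map_inv, hcomm.eq]
    group
  let a : N := ⟨_, haN⟩
  let M := Additive N
  let γ : M ≃+ M := MulEquiv.toAdditive (MulAut.conjNormal h : N ≃* N)
  let av : M := Additive.ofMul a
  have hit : ∀ (i : ℕ) (w : N), γ^[i] (Additive.ofMul w) =
      Additive.ofMul (MulAut.conjNormal (h ^ i) w) := by
    intro i
    induction i with
    | zero => intro w; simp
    | succ i ih =>
      intro w
      rw [Function.iterate_succ_apply]
      have h2 : γ (Additive.ofMul w) = Additive.ofMul (MulAut.conjNormal h w) := rfl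
      rw [h2, ih, pow_succ, map_mul]
      rfl
  have hprod : ∀ k : ℕ, ∃ w : N, h ^ k * x * (h ^ k)⁻¹ = w * x ∧
      Additive.ofMul w = ∑ i ∈ Finset.range k, γ^[i] av := by
    intro k
    induction k with
    | zero => exact ⟨1, by simp, by simp⟩
    | succ k ih =>
      obtain ⟨w, hw, hw2⟩ := ih
      refine ⟨MulAut.conjNormal h w * a, ?_, ?_⟩
      · have h3 : h ^ (k + 1) * x * (h ^ (k + 1))⁻¹ = h * (h ^ k * x * (h ^ k)⁻¹) * h⁻¹ := by
          rw [pow_succ']
          group
        rw [h3, hw]
        simp only [Subgroup.coe_mul, MulAut.conjNormal_apply, a]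
        group
      · rw [Finset.sum_range_succ']
        have h3 : ∀ i, γ^[i + 1] av = γ (γ^[i] av) := fun i =>
          Function.iterate_succ_apply' γ i av
        simp_rw [h3]
        rw [← map_sum, ← hw2]
        rfl
  have hiff : ∀ k : ℕ, Commute (h ^ k) x ↔ ∑ i ∈ Finset.range k, γ^[i] av = 0 := by
    intro k
    obtain ⟨w, hw, hw2⟩ := hprod k
    rw [← hw2]
    constructor
    · intro hc
      rw [hc.eq, mul_inv_cancel_right] at hw
      have h4 : (w : G) = 1 := by
        have := congrArg (fun t => t * x⁻¹) hw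
        simpa using this.symm
      exact Subtype.ext h4
    · intro hc
      have h4 : (w : G) = 1 := congrArg Subtype.val hc
      rw [h4, one_mul, mul_inv_eq_iff_eq_mul] at hw
      exact hw
  have hE' : ∀ (v : M) (n : ℕ), 1 ≤ n → γ^[n] v = v → γ^[e] v = v := by
    intro v n hn hv
    have h5 : ∀ (i : ℕ), γ^[i] v = v ↔ Commute (h ^ i) ((Additive.toMul v : N) : G) := by
      intro i
      have h6 := hit i (Additive.toMul v)
      rw [ofMul_toMul] at h6
      rw [h6]
      constructor
      · intro h7
        have h8 := congrArg (fun t : M => ((Additive.toMul t : N) : G)) h7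
        simp only [toMul_ofMul, MulAut.conjNormal_apply] at h8
        rw [mul_inv_eq_iff_eq_mul] at h8
        exact h8
      · intro h7
        apply Additive.toMul.injective
        apply Subtype.ext
        simp only [toMul_ofMul, MulAut.conjNormal_apply]
        rw [mul_inv_eq_iff_eq_mul]
        exact h7
    rw [h5] at hv ⊢
    exact hE h _ (Additive.toMul v : N).2 n hn hv
  have hT' : ∀ (v : M) (k : ℕ), 1 ≤ k → k • v = 0 → T • v = 0 := by
    intro v k hk hv
    have h7 : ((Additive.toMul v : N) : G) ^ k = 1 := by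
      have h9 : (Additive.toMul v : N) ^ k = 1 := hv
      rw [← Subgroup.coe_pow, h9, Subgroup.coe_one]
    have h8 := hT _ (Additive.toMul v : N).2 k hk h7
    rw [← Subgroup.coe_pow] at h8
    have h9 : (Additive.toMul v : N) ^ T = 1 := Subtype.ext h8
    exact h9
  rw [pow_mul, ← hh, hiff]
  refine sum_period γ hE' hT' av n hn ?_
  rw [← hiff, hh, ← pow_mul, mul_comm, pow_mul]
  exact hgx.pow_left e'

theorem PC.lc : ∀ (G : Type) [Group G], PC G → LC G := by
  apply PC.induction
  · intro G _ _
    refine ⟨1, le_rfl, fun g x n _ _ => ?_⟩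
    exact Subsingleton.elim _ _
  · intro G _ N _ hG hN ih
    let inst : CommGroup N :=
      { (inferInstance : Group N) with mul_comm := fun a b => Subtype.ext (hN a a.2 b b.2) }
    have hfg : Group.FG N := (Group.fg_iff_subgroup_fg N).2 (hG.fg N)
    let M := Additive N
    have hfgM : AddGroup.FG M := inferInstance
    have hM : Module.Finite ℤ M := Module.Finite.iff_addGroup_fg.mpr hfgM
    obtain ⟨T, hT, hTt⟩ := fgab_torsion_bound M
    obtain ⟨e, he, hper⟩ := fgab_period M
    refine LC.step N hN he hT ?_ ?_ ih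
    · intro g v hv n hn hgv
      let γ : M ≃+ M := MulEquiv.toAdditive (MulAut.conjNormal g : N ≃* N)
      have hit : ∀ (i : ℕ) (w : N), γ^[i] (Additive.ofMul w) =
          Additive.ofMul (MulAut.conjNormal (g ^ i) w) := by
        intro i
        induction i with
        | zero => intro w; simp
        | succ i ih =>
          intro w
          rw [Function.iterate_succ_apply]
          have h2 : γ (Additive.ofMul w) = Additive.ofMul (MulAut.conjNormal g w) := rfl
          rw [h2, ih, pow_succ, map_mul]
          rfl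
      have h5 : ∀ (i : ℕ), γ^[i] (Additive.ofMul (⟨v, hv⟩ : N)) = Additive.ofMul (⟨v, hv⟩ : N) ↔
          Commute (g ^ i) v := by
        intro i
        rw [hit i]
        constructor
        · intro h7
          have h8 := congrArg (fun t : M => ((Additive.toMul t : N) : G)) h7
          simp only [toMul_ofMul, MulAut.conjNormal_apply] at h8
          rw [mul_inv_eq_iff_eq_mul] at h8
          exact h8
        · intro h7
          apply Additive.toMul.injective
          apply Subtype.ext
          simp only [toMul_ofMul, MulAut.conjNormal_apply]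
          rw [mul_inv_eq_iff_eq_mul]
          exact h7
      rw [← h5] at hgv ⊢
      exact hper γ _ n hn hgv
    · intro v hv k hk hvk
      have h0 : (⟨v, hv⟩ : N) ^ k = 1 := Subtype.ext (by
        rw [Subgroup.coe_pow]; exact hvk)
      have h1 : k • (Additive.ofMul (⟨v, hv⟩ : N)) = 0 := h0
      have h2 := hTt _ k hk h1
      have h3 : (⟨v, hv⟩ : N) ^ T = 1 := h2
      have h4 := congrArg Subtype.val h3
      rw [Subgroup.coe_pow] at h4
      exact h4

end C3da71
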