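import Pool.Agent.Lib.MP_c3da71_al.Root

set_option autoImplicit false

namespace C3da71

/-- `B` is a torsion-free abelian subgroup normalized by the finite index subgroup `G0`. -/
structure FAN {G : Type} [Group G] (G0 B : Subgroup G) : Prop where
  fin : G0.index ≠ 0
  le : B ≤ G0
  norm : ∀ g ∈ G0, ∀ b ∈ B, g * b * g⁻¹ ∈ B
  comm : ∀ a ∈ B, ∀ b ∈ B, a * b = b * a
  tf : ∀ b ∈ B, ∀ n : ℕ, 1 ≤ n → b ^ n = 1 → b = 1
  ne : B ≠ ⊥

theorem exists_FAN_of_abelian {G : Type} [Group G] (hG : PC G) (G0 Z : Subgroup G)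
    (hfin : G0.index ≠ 0) (hle : Z ≤ G0) (hnorm : ∀ g ∈ G0, ∀ b ∈ Z, g * b * g⁻¹ ∈ Z)
    (hcomm : ∀ a ∈ Z, ∀ b ∈ Z, a * b = b * a)
    (hinf : ∃ z ∈ Z, ∀ n : ℕ, 1 ≤ n → z ^ n ≠ 1) : ∃ B : Subgroup G, FAN G0 B := by
  let inst : CommGroup Z :=
    { (inferInstance : Group Z) with mul_comm := fun a b => Subtype.ext (hcomm a a.2 b b.2) }
  have hfg : Group.FG Z := (Group.fg_iff_subgroup_fg Z).2 (hG.fg Z)
  have hfgM : AddGroup.FG (Additive Z) := inferInstance
  have hM : Module.Finite ℤ (Additive Z) := Module.Finite.iff_addGroup_fg.mpr hfgM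
  obtain ⟨T, hT, hTt⟩ := fgab_torsion_bound (Additive Z)
  have hTt' : ∀ z ∈ Z, ∀ k : ℕ, 1 ≤ k → z ^ k = 1 → z ^ T = 1 := by
    intro z hz k hk hzk
    have h0 : (⟨z, hz⟩ : Z) ^ k = 1 := Subtype.ext (by rw [Subgroup.coe_pow]; exact hzk)
    have h1 : k • (Additive.ofMul (⟨z, hz⟩ : Z)) = 0 := h0
    have h2 := hTt _ k hk h1
    have h3 : (⟨z, hz⟩ : Z) ^ T = 1 := h2
    have h4 := congrArg Subtype.val h3
    rw [Subgroup.coe_pow] at h4
    exact h4
  let B : Subgroup G :=
    { carrier := {g | ∃ z ∈ Z, z ^ T = g}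
      mul_mem' := by
        rintro _ _ ⟨y, hy, rfl⟩ ⟨z, hz, rfl⟩
        refine ⟨y * z, Z.mul_mem hy hz, ?_⟩
        have hc : Commute y z := hcomm y hy z hz
        exact hc.mul_pow T
      one_mem' := ⟨1, Z.one_mem, one_pow T⟩
      inv_mem' := by
        rintro _ ⟨y, hy, rfl⟩
        exact ⟨y⁻¹, Z.inv_mem hy, inv_pow y T⟩ }
  have hBZ : B ≤ Z := by
    rintro _ ⟨y, hy, rfl⟩
    exact Z.pow_mem hy T
  refine ⟨B, hfin, hBZ.trans hle, ?_, fun a ha b hb => hcomm a (hBZ ha) b (hBZ hb), ?_, ?_⟩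
  · rintro g hg _ ⟨y, hy, rfl⟩
    exact ⟨g * y * g⁻¹, hnorm g hg y hy, conj_pow⟩
  · rintro _ ⟨y, hy, rfl⟩ n hn h
    rw [← pow_mul] at h
    exact hTt' y hy (T * n) (Nat.mul_pos hT hn) h
  · obtain ⟨z, hz, hz1⟩ := hinf
    intro hbot
    have h1 : z ^ T ∈ B := ⟨z, hz, rfl⟩
    rw [hbot, Subgroup.mem_bot] at h1
    exact hz1 T hT h1

theorem exists_FAN : ∀ (G : Type) [Group G], PC G → Infinite G →
    ∃ G0 B : Subgroup G, FAN G0 B := by
  apply PC.induction (P := fun G _ => Infinite G → ∃ G0 B : Subgroup G, FAN G0 B)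
  · intro G _ _ hinf
    exact absurd hinf (by rw [not_infinite_iff_finite]; infer_instance)
  · intro G _ N hNn hG hN ih hinf
    by_cases hNinf : Infinite N
    · -- N infinite
      have hex : ∃ z ∈ N, ∀ n : ℕ, 1 ≤ n → z ^ n ≠ 1 := by
        by_contra hcon
        push Not at hcon
        let inst : CommGroup N :=
          { (inferInstance : Group N) with mul_comm := fun a b => Subtype.ext (hN a a.2 b b.2) }
        have hfg : Group.FG N := (Group.fg_iff_subgroup_fg N).2 (hG.fg N)
        have htors : IsMulTorsion N := by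
          intro z
          obtain ⟨n, hn, hzn⟩ := hcon z z.2
          rw [isOfFinOrder_iff_pow_eq_one]
          exact ⟨n, hn, Subtype.ext (by rw [Subgroup.coe_pow]; exact hzn)⟩
        have hfin : Finite N := CommGroup.finite_of_fg_isMulTorsion N htors
        exact not_finite_iff_infinite.2 hNinf hfin
      obtain ⟨B, hB⟩ := exists_FAN_of_abelian hG ⊤ N (by simp) le_top
        (fun g _ b hb => hNn.conj_mem b hb g) hN hex
      exact ⟨⊤, B, hB⟩
    · have hNfin : Finite N := not_infinite_iff_finite.1 hNinf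
      have hQinf : Infinite (G ⧸ N) := by
        by_contra h
        have h2 : Finite (G ⧸ N) := not_infinite_iff_finite.1 h
        have h3 : Finite G := by
          have := Finite.of_subgroup_quotient N
          exact this
        exact not_finite_iff_infinite.2 hinf h3
      obtain ⟨G1', B', hFAN⟩ := ih hQinf
      let G1 : Subgroup G := G1'.comap (QuotientGroup.mk' N)
      let C : Subgroup G := Subgroup.centralizer (N : Set G)
      have hC : C.index ≠ 0 := by
        have h1 : C = (MulAut.conjNormal : G →* MulAut N).ker := by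
          ext g
          rw [MonoidHom.mem_ker, Subgroup.mem_centralizer_iff]
          constructor
          · intro h
            ext x
            rw [MulAut.conjNormal_apply, ← h x x.2, mul_inv_cancel_right]
            rfl
          · intro h x hx
            have h2 := congrArg (fun f : MulAut N => ((f ⟨x, hx⟩ : N) : G)) h
            simp only [MulAut.conjNormal_apply, MulAut.one_apply] at h2
            rw [mul_inv_eq_iff_eq_mul] at h2
            exact h2.symm
        rw [h1]
        have : Finite (MulAut N) := inferInstance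
        exact Subgroup.FiniteIndex.index_ne_zero
      have hCnorm : ∀ g c : G, c ∈ C → g * c * g⁻¹ ∈ C := by
        intro g c hc
        rw [Subgroup.mem_centralizer_iff] at hc ⊢
        intro x hx
        have h1 := hc (g⁻¹ * x * g) (by
          have := hNn.conj_mem x hx g⁻¹
          rwa [inv_inv] at this)
        calc x * (g * c * g⁻¹) = g * ((g⁻¹ * x * g) * c) * g⁻¹ := by group
          _ = g * (c * (g⁻¹ * x * g)) * g⁻¹ := by rw [h1]
          _ = g * c * g⁻¹ * x := by group
      let G2 : Subgroup G := G1 ⊓ C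
      have hG1 : G1.index ≠ 0 := by
        change (G1'.comap (QuotientGroup.mk' N)).index ≠ 0
        rw [Subgroup.index_comap_of_surjective _ (QuotientGroup.mk'_surjective N)]
        exact hFAN.fin
      have hG2 : G2.index ≠ 0 := Subgroup.index_inf_ne_zero hG1 hC
      let A : Subgroup G := B'.comap (QuotientGroup.mk' N)
      let A2 : Subgroup G := A ⊓ C
      let Z : Subgroup G := A2 ⊓ Subgroup.centralizer (A2 : Set G)
      have hAG1 : A ≤ G1 := Subgroup.comap_mono hFAN.le
      have hZ1 : ∀ z ∈ Z, z ∈ A2 := fun z hz => hz.1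
      -- k-th powers
      let k := Nat.card N
      have hk : 1 ≤ k := Nat.card_pos
      have hpow : ∀ a ∈ A2, a ^ k ∈ Z := by
        intro a ha
        refine ⟨A2.pow_mem ha k, Subgroup.mem_centralizer_iff.2 ?_⟩
        intro b hb
        have hab : a * b * a⁻¹ * b⁻¹ ∈ N := by
          rw [← QuotientGroup.ker_mk' N, MonoidHom.mem_ker]
          have h1 := hFAN.comm _ ha.1 _ hb.1
          rw [map_mul, map_mul, map_mul, map_inv, map_inv, h1]
          group
        set n := a * b * a⁻¹ * b⁻¹ with hn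
        have han : a * n = n * a := (Subgroup.mem_centralizer_iff.1 ha.2 n hab).symm
        have hit : ∀ i : ℕ, a ^ i * b = n ^ i * b * a ^ i := by
          intro i
          induction i with
          | zero => simp
          | succ i ih =>
            have h3 : a * b = n * b * a := by rw [hn]; group
            have h4 : a * n ^ i = n ^ i * a := (Commute.pow_right han i : Commute a (n ^ i))
            calc a ^ (i + 1) * b = a * (a ^ i * b) := by rw [pow_succ']; group
              _ = a * (n ^ i * b * a ^ i) := by rw [ih]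
              _ = (a * n ^ i) * b * a ^ i := by group
              _ = n ^ i * (a * b) * a ^ i := by rw [h4]; group
              _ = n ^ i * (n * b * a) * a ^ i := by rw [h3]
              _ = n ^ (i + 1) * b * a ^ (i + 1) := by rw [pow_succ n i, pow_succ' a i]; group
        have hnk : n ^ k = 1 := by
          have h5 : (⟨n, hab⟩ : N) ^ k = 1 := pow_card_eq_one'
          have h6 := congrArg Subtype.val h5
          rw [Subgroup.coe_pow] at h6
          exact h6
        have h7 := hit k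
        rw [hnk, one_mul] at h7
        exact h7.symm
      have hex : ∃ z ∈ Z, ∀ n : ℕ, 1 ≤ n → z ^ n ≠ 1 := by
        obtain ⟨⟨b', hb'⟩, hb'1⟩ := Subgroup.ne_bot_iff_exists_ne_one.1 hFAN.ne
        have hb'2 : b' ≠ 1 := fun h => hb'1 (Subtype.ext h)
        obtain ⟨a, rfl⟩ := QuotientGroup.mk'_surjective N b'
        -- a power of a in C
        obtain ⟨m, hm, hmC⟩ : ∃ m : ℕ, 1 ≤ m ∧ a ^ m ∈ C := by
          obtain ⟨m, hm, _, hmC⟩ := Subgroup.exists_pow_mem_of_index_ne_zero hC a
          exact ⟨m, hm, hmC⟩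
        have haA2 : a ^ m ∈ A2 := ⟨A.pow_mem hb' m, hmC⟩
        refine ⟨(a ^ m) ^ k, hpow _ haA2, fun n hn h => hb'2 ?_⟩
        refine hFAN.tf _ hb' (m * k * n) (Nat.mul_pos (Nat.mul_pos hm hk) hn) ?_
        rw [← map_pow, pow_mul, pow_mul, h, map_one]
      have hA2norm : ∀ g ∈ G2, ∀ a ∈ A2, g * a * g⁻¹ ∈ A2 := by
        intro g hg a ha
        refine ⟨?_, hCnorm g a ha.2⟩
        change (QuotientGroup.mk' N) (g * a * g⁻¹) ∈ B'
        rw [map_mul, map_mul, map_inv]
        exact hFAN.norm _ hg.1 _ ha.1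
      have hZnorm : ∀ g ∈ G2, ∀ z ∈ Z, g * z * g⁻¹ ∈ Z := by
        intro g hg z hz
        refine ⟨hA2norm g hg z hz.1, Subgroup.mem_centralizer_iff.2 ?_⟩
        intro x hx
        have h1 : g⁻¹ * x * g ∈ A2 := by
          have := hA2norm g⁻¹ (G2.inv_mem hg) x hx
          rwa [inv_inv] at this
        have h2 := Subgroup.mem_centralizer_iff.1 hz.2 _ h1
        calc x * (g * z * g⁻¹) = g * ((g⁻¹ * x * g) * z) * g⁻¹ := by group
          _ = g * (z * (g⁻¹ * x * g)) * g⁻¹ := by rw [h2]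
          _ = g * z * g⁻¹ * x := by group
      obtain ⟨B, hB⟩ := exists_FAN_of_abelian hG G2 Z hG2
        (fun z hz => ⟨hAG1 hz.1.1, hz.1.2⟩) hZnorm
        (fun a ha b hb => Subgroup.mem_centralizer_iff.1 hb.2 a ha.1) hex
      exact ⟨G2, B, hB⟩

/-- A finitely generated torsion-free abelian group is free. -/
theorem exists_free_equiv (B : Type) [Group B] (hcomm : ∀ a b : B, a * b = b * a)
    (hfg : Group.FG B) (htf : ∀ b : B, ∀ n : ℕ, 1 ≤ n → b ^ n = 1 → b = 1) :
    ∃ r : ℕ, Nonempty (B ≃* Multiplicative (Fin r → ℤ)) := by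
  let inst : CommGroup B := { (inferInstance : Group B) with mul_comm := hcomm }
  have hfg' : Group.FG B := hfg
  have hfgM : AddGroup.FG (Additive B) := inferInstance
  have hM : Module.Finite ℤ (Additive B) := Module.Finite.iff_addGroup_fg.mpr hfgM
  have htf' : Module.IsTorsionFree ℤ (Additive B) := by
    rw [Module.isTorsionFree_iff_smul_eq_zero]
    intro r x h
    by_cases hr : r = 0
    · exact Or.inl hr
    · right
      have h3 : r.natAbs • x = 0 := by
        rcases Int.natAbs_eq r with h3 | h3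
        · rw [h3, natCast_zsmul] at h
          exact h
        · rw [h3, neg_smul, natCast_zsmul, neg_eq_zero] at h
          exact h
      exact htf (Additive.toMul x) r.natAbs (by omega) h3
  have hfree : Module.Free ℤ (Additive B) := inferInstance
  let b := Module.finBasis ℤ (Additive B)
  refine ⟨Module.finrank ℤ (Additive B), ⟨?_⟩⟩
  exact AddEquiv.toMultiplicativeRight b.equivFun.toAddEquiv

theorem relIndex_ne_zero_of_rank {G : Type} [Group G] {B C : Subgroup G} (hCB : C ≤ B)
    (hcomm : ∀ a ∈ B, ∀ b ∈ B, a * b = b * a) {r s : ℕ}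
    (e : B ≃* Multiplicative (Fin r → ℤ)) (e' : C ≃* Multiplicative (Fin s → ℤ)) (h : r ≤ s) :
    C.relIndex B ≠ 0 := by
  let inst : CommGroup B :=
    { (inferInstance : Group B) with mul_comm := fun a b => Subtype.ext (hcomm a a.2 b b.2) }
  let f : Additive B ≃+ (Fin r → ℤ) := AddEquiv.toMultiplicativeRight.symm e
  let fl : Additive B ≃ₗ[ℤ] (Fin r → ℤ) := f.toIntLinearEquiv
  have hfin : Module.Finite ℤ (Additive B) := Module.Finite.equiv fl.symm
  have hrk : Module.finrank ℤ (Additive B) = r := by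
    rw [fl.finrank_eq]; simp
  let C' : Subgroup B := C.subgroupOf B
  let S : Submodule ℤ (Additive B) := AddSubgroup.toIntSubmodule (Subgroup.toAddSubgroup C')
  let g : (C' : Type) ≃* C := Subgroup.subgroupOfEquivOfLe hCB
  let g' : S ≃+ (Fin s → ℤ) := AddEquiv.toMultiplicativeRight.symm (g.trans e')
  have hrk' : Module.finrank ℤ S = s := by
    rw [g'.toIntLinearEquiv.finrank_eq]; simp
  have h1 := index_ne_zero_of_finrank S (by rw [hrk, hrk']; exact h)
  exact h1

/-- **Plinths exist** (irreducible version). -/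
theorem exists_plinth' (G : Type) [Group G] (hG : PC G) (hinf : Infinite G) :
    ∃ G0 B : Subgroup G, FAN G0 B ∧
      (∃ r : ℕ, Nonempty (B ≃* Multiplicative (Fin (r + 1) → ℤ))) ∧
      ∀ H C : Subgroup G, H.index ≠ 0 → C ≤ B → (∀ h ∈ H, ∀ c ∈ C, h * c * h⁻¹ ∈ C) → C ≠ ⊥ →
        C.relIndex B ≠ 0 := by
  classical
  have hfree : ∀ G0 B : Subgroup G, FAN G0 B → ∃ r : ℕ,
      Nonempty (B ≃* Multiplicative (Fin r → ℤ)) := by
    intro G0 B h
    exact exists_free_equiv B (fun a b => Subtype.ext (h.comm a a.2 b b.2))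
      ((Group.fg_iff_subgroup_fg B).2 (hG.fg B))
      (fun b n hn hbn => Subtype.ext (h.tf b b.2 n hn (by
        have := congrArg Subtype.val hbn
        rwa [Subgroup.coe_pow] at this)))
  have hex : ∃ r : ℕ, ∃ G0 B : Subgroup G, FAN G0 B ∧
      Nonempty (B ≃* Multiplicative (Fin r → ℤ)) := by
    obtain ⟨G0, B, h⟩ := exists_FAN G hG hinf
    obtain ⟨r, hr⟩ := hfree G0 B h
    exact ⟨r, G0, B, h, hr⟩
  obtain ⟨G0, B, hFAN, ⟨e⟩⟩ := Nat.find_spec hex
  have hpos : Nat.find hex ≠ 0 := by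
    intro h0
    apply hFAN.ne
    rw [eq_bot_iff]
    intro b hb
    rw [Subgroup.mem_bot]
    have h1 : e ⟨b, hb⟩ = e 1 := by
      apply Multiplicative.toAdd.injective
      funext i
      exact absurd i.2 (by omega)
    exact congrArg Subtype.val (e.injective h1)
  refine ⟨G0, B, hFAN, ⟨Nat.find hex - 1, ⟨?_⟩⟩, ?_⟩
  · rw [Nat.sub_add_cancel (by omega)]
    exact e
  · intro H C hH hCB hnorm hC
    let C' : Subgroup G := C ⊓ (H ⊓ G0)
    have hidx : (H ⊓ G0).index ≠ 0 := Subgroup.index_inf_ne_zero hH hFAN.fin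
    have hFAN' : FAN (H ⊓ G0) C' := by
      refine ⟨hidx, inf_le_right, ?_, fun a ha b hb => hFAN.comm a (hCB ha.1) b (hCB hb.1),
        fun b hb n hn h => hFAN.tf b (hCB hb.1) n hn h, ?_⟩
      · intro g hg b hb
        refine ⟨hnorm g hg.1 b hb.1, ?_⟩
        exact (H ⊓ G0).mul_mem ((H ⊓ G0).mul_mem hg hb.2) ((H ⊓ G0).inv_mem hg)
      · obtain ⟨⟨c, hc⟩, hc1'⟩ := Subgroup.ne_bot_iff_exists_ne_one.1 hC
        have hc1 : c ≠ 1 := fun h => hc1' (Subtype.ext h)
        obtain ⟨m, hm, _, hmC⟩ := Subgroup.exists_pow_mem_of_index_ne_zero hidx c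
        intro hbot
        have h1 : c ^ m ∈ C' := ⟨C.pow_mem hc m, hmC⟩
        rw [hbot, Subgroup.mem_bot] at h1
        exact hc1 (hFAN.tf c (hCB hc) m hm h1)
    obtain ⟨s, ⟨e'⟩⟩ := hfree _ _ hFAN'
    have hle : Nat.find hex ≤ s := Nat.find_min' hex ⟨_, _, hFAN', ⟨e'⟩⟩
    have h1 := relIndex_ne_zero_of_rank (inf_le_left.trans hCB : C' ≤ B) hFAN.comm e e' hle
    have h2 := Subgroup.relIndex_dvd_of_le_left B (inf_le_left : C' ≤ C)
    intro h3
    rw [h3, Nat.zero_dvd] at h2
    exact h1 h2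

/-- **Plinths exist**, nested form. -/
theorem exists_plinth_nested (G : Type) [Group G] (hG : PC G) (hinf : Infinite G) :
    ∃ G0 : Subgroup G, G0.index ≠ 0 ∧ ∃ B : Subgroup G0, B.Normal ∧
      (∃ r : ℕ, Nonempty (B ≃* Multiplicative (Fin (r + 1) → ℤ))) ∧
      ∀ H C : Subgroup G0, H.index ≠ 0 → C ≤ B → (∀ h ∈ H, ∀ c ∈ C, h * c * h⁻¹ ∈ C) → C ≠ ⊥ →
        C.relIndex B ≠ 0 := by
  obtain ⟨G0, B, hFAN, ⟨r, ⟨e⟩⟩, hirr⟩ := exists_plinth' G hG hinf
  refine ⟨G0, hFAN.fin, B.subgroupOf G0, ⟨?_⟩, ⟨r, ⟨?_⟩⟩, ?_⟩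
  · intro b hb g
    exact hFAN.norm g g.2 b hb
  · exact (Subgroup.subgroupOfEquivOfLe hFAN.le).trans e
  · intro H C hH hCB hnorm hC
    have h1 := hirr (H.map G0.subtype) (C.map G0.subtype) ?_ ?_ ?_ ?_
    · have h2 : B = (B.subgroupOf G0).map G0.subtype := by
        rw [Subgroup.subgroupOf_map_subtype, inf_eq_left.2 hFAN.le]
      rw [h2, Subgroup.relIndex_map_map_of_injective _ _ G0.subtype_injective] at h1
      exact h1
    · have h3 : (H.map G0.subtype).relIndex G0 * G0.index = (H.map G0.subtype).index :=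
        Subgroup.relIndex_mul_index (Subgroup.map_subtype_le H)
      rw [← h3]
      refine mul_ne_zero ?_ hFAN.fin
      have h4 : (H.map G0.subtype).relIndex G0 = H.index := by
        have h5 : (H.map G0.subtype).subgroupOf G0 = H :=
          Subgroup.comap_map_eq_self_of_injective G0.subtype_injective H
        rw [Subgroup.relIndex, h5]
      rw [h4]
      exact hH
    · rintro _ ⟨c, hc, rfl⟩
      exact hCB hc
    · rintro _ ⟨h, hh, rfl⟩ _ ⟨c, hc, rfl⟩
      exact ⟨_, hnorm h hh c hc, rfl⟩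
    · intro hbot
      rw [Subgroup.map_eq_bot_iff, Subgroup.ker_subtype] at hbot
      exact hC (eq_bot_iff.2 hbot)

end C3da71
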