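import Pool.Agent.Lib.MP_c3da71_al.Defs
import Pool.Agent.Lib.MP_c3da71_al.PlinthEx

/-! # Existence of plinths -/

set_option autoImplicit false

namespace C3da71

/-- Every infinite polycyclic group has a finite index subgroup with a plinth: choose a finite index subgroup `G0` and a normal subgroup `B ≅ ℤ^(r+1)` of it with
`r` minimal. -/
theorem exists_plinth {G : Type} [Group G] (hG : PC G) (hinf : Infinite G) :
    ∃ G0 : Subgroup G, G0.FiniteIndex ∧ ∃ B : Subgroup G0, Plinth G0 B := by
  obtain ⟨G0, hG0, B, hBn, hfree, hirr⟩ := exists_plinth_nested G hG hinf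
  refine ⟨G0, ⟨hG0⟩, B, hBn, hfree, fun H hH A hAB hiso hnorm => ?_⟩
  by_cases hA : A = ⊥
  · exact Or.inl hA
  · right
    have h1 := hirr H A hH.index_ne_zero hAB hnorm hA
    apply le_antisymm hAB
    intro b hb
    obtain ⟨n, hn, _, hbn⟩ := Subgroup.exists_pow_mem_of_relIndex_ne_zero h1 hb
    exact hiso b hb n hn hbn.1

end C3da71
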