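import Pool.Agent.Lib.MP_c3da71_al.TOre
import Pool.Agent.Lib.MP_c3da71_al.GoodBasic
import Pool.Agent.Lib.MP_c3da71_al.FgAb

/-! # Case T -/

set_option autoImplicit false

namespace C3da71

namespace TC

theorem exists_chi (r : ℕ) : ∃ χ : (Fin r → ℤ) →+ ℝ, Function.Injective χ := by
  classical
  obtain ⟨x, hx⟩ : ∃ x : ℝ, Transcendental ℤ x :=
    ⟨liouvilleNumber (2 : ℕ), transcendental_liouvilleNumber (le_refl 2)⟩
  let χ : (Fin r → ℤ) →+ ℝ :=
    { toFun := fun f => ∑ i, (f i : ℝ) * x ^ (i : ℕ)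
      map_zero' := by simp
      map_add' := by
        intro f g
        rw [← Finset.sum_add_distrib]
        apply Finset.sum_congr rfl
        intro i _
        rw [Pi.add_apply]; push_cast; ring }
  refine ⟨χ, ?_⟩
  rw [injective_iff_map_eq_zero]
  intro f hf
  let p : Polynomial ℤ := ∑ i : Fin r, Polynomial.monomial (i : ℕ) (f i)
  have hp : Polynomial.aeval x p = 0 := by
    rw [← hf]
    simp only [p, map_sum, Polynomial.aeval_monomial]
    rfl
  have hp0 : p = 0 := by
    by_contra hne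
    exact hx ⟨p, hne, hp⟩
  funext i
  have h1 : p.coeff (i : ℕ) = f i := by
    simp only [p, Polynomial.finsetSum_coeff, Polynomial.coeff_monomial]
    rw [Finset.sum_eq_single i]
    · simp
    · intro j _ hji
      rw [if_neg]
      intro h
      exact hji (Fin.ext h)
    · simp
  rw [← h1, hp0]; simp

section general

variable {D V : Type*} [DivisionRing D] [AddCommGroup V] [Module D V]

theorem Cl.congr_stable {h h' : V ≃+ V} (hs : ∀ Y : Submodule D V, Stable h Y → Stable h' Y)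
    {n l : ℕ} : ∀ {B₀ B : Submodule D V}, Cl h n l B₀ B → Cl h' n l B₀ B := by
  induction l with
  | zero => exact fun h => h
  | succ l ih =>
    rintro B₀ B ⟨B', hs', h0, h1, hc, hx⟩
    refine ⟨B', hs _ hs', h0, h1, ih hc, ?_⟩
    intro x hxB hxB'
    obtain ⟨C, hCs, hBC, hCB, hxC, f, hf⟩ := hx x hxB hxB'
    exact ⟨C, hs _ hCs, hBC, hCB, hxC, f, hf⟩

theorem stable_map_subtype {h : V ≃+ V} {A : Submodule D V} (hA : Stable h A) {hA' : A ≃+ A}
    (hcoe : ∀ x : A, ((hA' x : A) : V) = h x) {Y : Submodule D A} (hY : Stable hA' Y) :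
    Stable h (Y.map A.subtype) := by
  intro x
  constructor
  · intro hx
    obtain ⟨y, hy, hxy⟩ := Submodule.mem_map.1 hx
    have hxA : x ∈ A := (hA x).1 (by rw [← hxy]; exact y.2)
    refine Submodule.mem_map.2 ⟨⟨x, hxA⟩, ?_, rfl⟩
    rw [← hY]
    have : hA' ⟨x, hxA⟩ = y := by
      ext
      rw [hcoe]; exact hxy.symm
    rw [this]; exact hy
  · intro hx
    obtain ⟨y, hy, rfl⟩ := Submodule.mem_map.1 hx
    exact Submodule.mem_map.2 ⟨hA' y, (hY y).2 hy, hcoe y⟩

theorem Cl.of_sub {h : V ≃+ V} {A : Submodule D V} (hA : Stable h A) {hA' : A ≃+ A}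
    (hcoe : ∀ x : A, ((hA' x : A) : V) = h x) {n l : ℕ} :
    ∀ {B₀ B : Submodule D A}, Cl hA' n l B₀ B → Cl h n l (B₀.map A.subtype) (B.map A.subtype) := by
  induction l with
  | zero =>
    intro B₀ B hc
    exact Submodule.map_mono hc
  | succ l ih =>
    rintro B₀ B ⟨B', hs', h0, h1, hc, hx⟩
    refine ⟨B'.map A.subtype, stable_map_subtype hA hcoe hs', Submodule.map_mono h0,
      Submodule.map_mono h1, ih hc, ?_⟩
    intro x hxB hxB'
    obtain ⟨y, hy, rfl⟩ := Submodule.mem_map.1 hxB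
    have hyB' : y ∉ B' := fun h => hxB' (Submodule.mem_map_of_mem h)
    obtain ⟨C, hCs, hBC, hCB, hxC, f, hf⟩ := hx y hy hyB'
    obtain ⟨p, hp⟩ := A.subtype.exists_leftInverse_of_injective (by simp)
    refine ⟨C.map A.subtype, stable_map_subtype hA hcoe hCs, Submodule.map_mono hBC,
      Submodule.map_mono hCB, ?_, f ∘ₗ p, ?_⟩
    · intro h
      obtain ⟨z, hz, hzy⟩ := Submodule.mem_map.1 h
      have : z = y := by ext; exact hzy
      rw [this] at hz
      exact hxC hz
    · rintro z ⟨hz, hk⟩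
      obtain ⟨y', hy', rfl⟩ := Submodule.mem_map.1 hz
      have h2 : p (A.subtype y') = y' := LinearMap.congr_fun hp y'
      rw [SetLike.mem_coe, LinearMap.mem_ker, LinearMap.comp_apply, h2] at hk
      exact Submodule.mem_map_of_mem (hf ⟨hy', hk⟩)

end general

section sub

variable {D K B : Type*} [DivisionRing D] [DivisionRing K] [AddCommGroup B]
  {F : FracData D K B}

/-- restriction of a semilinear automorphism to a stable subspace -/
theorem exists_sub {V : Type*} [AddCommGroup V] [Module K V] {h : V ≃+ V} (t : TAct F h)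
    (U : Submodule K V) (hU : ∀ x, h x ∈ U ↔ x ∈ U) :
    ∃ (h' : U ≃+ U) (t' : TAct F h'), (∀ x : U, ((h' x : U) : V) = h x) ∧ t'.β = t.β := by
  let h' : U ≃+ U :=
    { toFun := fun x => ⟨h x, (hU x).2 x.2⟩
      invFun := fun x => ⟨h.symm x, (hU _).1 (by simp)⟩
      left_inv := fun x => by simp
      right_inv := fun x => by simp
      map_add' := fun x y => by ext; simp }
  refine ⟨h', ⟨t.σ, t.τ, t.β, ?_, t.hτ, t.hβ⟩, fun x => rfl, rfl⟩
  intro k x
  ext
  exact t.hσ k x

end sub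

section main

variable {G : Type} [Group G] {E : Type} [DivisionRing E] {X : Type} [AddCommGroup X] [Module E X]
  {K : Type} [DivisionRing K] {X1 : Type} [AddCommGroup X1] [Module K X1] {r : ℕ}
  {F : FracData E K (Fin r → ℤ)} {ι : X →+ X1}

/-- the preimage of a `K`-subspace -/
def J (hιE : ∀ (e : E) (x : X), ι (e • x) = F.i e • ι x) (Y : Submodule K X1) : Submodule E X where
  carrier := {x | ι x ∈ Y}
  zero_mem' := by simp
  add_mem' := by
    intro a b ha hb
    simp only [Set.mem_ofPred_eq] at *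
    rw [map_add]; exact add_mem ha hb
  smul_mem' := by
    intro c x hx
    simp only [Set.mem_ofPred_eq] at *
    rw [hιE]; exact Y.smul_mem _ hx

theorem mem_J (hιE : ∀ (e : E) (x : X), ι (e • x) = F.i e • ι x) (Y : Submodule K X1) (x : X) :
    x ∈ J hιE Y ↔ ι x ∈ Y := Iff.rfl

/-- one layer -/
theorem layer (hιE : ∀ (e : E) (x : X), ι (e • x) = F.i e • ι x) {ρh : X ≃+ X} {ρ1h : X1 ≃+ X1}
    (t : TAct F ρ1h) (hρ : ∀ x, ρ1h (ι x) = ι (ρh x))
    (hfix : ∀ b k, 0 < k → t.β^[k] b = b → t.β b = b)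
    {d : ℕ} (C Y : Submodule K X1) (hC : Stable ρ1h C) (hY : Stable ρ1h Y) (hCY : C ≤ Y)
    (hdim : DimLE C Y d) (A : Submodule E X) (hA : Stable ρh A) (hAfg : A.FG)
    (hAY : A ≤ J hιE Y) : Cl ρh d d (A ⊓ J hιE C) A := by
  classical
  obtain ⟨χ, hχ⟩ := exists_chi r
  obtain ⟨h2, t2, hπ, hβ2⟩ := t.exists_quot C (fun x => hC x)
  have hU : ∀ x, h2 x ∈ Y.map C.mkQ ↔ x ∈ Y.map C.mkQ := by
    intro x
    obtain ⟨x, rfl⟩ := C.mkQ_surjective x
    have hmem : ∀ z : X1, C.mkQ z ∈ Y.map C.mkQ ↔ z ∈ Y := by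
      intro z
      constructor
      · intro hz
        obtain ⟨y, hy, hyz⟩ := Submodule.mem_map.1 hz
        have : z - y ∈ C := by
          rw [← Submodule.ker_mkQ C, LinearMap.mem_ker, map_sub, hyz, sub_self]
        have h3 := Y.add_mem (hCY this) hy
        simpa using h3
      · exact fun hz => Submodule.mem_map_of_mem hz
    rw [← hπ, hmem, hmem]
    exact hY x
  obtain ⟨h3, t3, hcoe, hβ3⟩ := exists_sub t2 (Y.map C.mkQ) hU
  -- dimension
  obtain ⟨s, hs, hYs⟩ := hdim
  have hle : Y.map C.mkQ ≤ Submodule.span K ((s.image C.mkQ : Finset (X1 ⧸ C)) : Set (X1 ⧸ C)) := by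
    rw [Finset.coe_image, ← Submodule.map_span]
    rintro z hz
    obtain ⟨y, hy, rfl⟩ := Submodule.mem_map.1 hz
    obtain ⟨c, hc, w, hw, rfl⟩ := Submodule.mem_sup.1 (hYs hy)
    have : C.mkQ (c + w) = C.mkQ w := by
      rw [map_add]; simpa using hc
    rw [this]
    exact Submodule.mem_map_of_mem hw
  have hfd0 : FiniteDimensional K (Submodule.span K ((s.image C.mkQ : Finset (X1 ⧸ C)) : Set (X1 ⧸ C))) :=
    FiniteDimensional.span_finset K _
  have hfd : FiniteDimensional K (Y.map C.mkQ) := Submodule.finiteDimensional_of_le hle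
  have hrk : Module.finrank K (Y.map C.mkQ) ≤ d := by
    refine (Submodule.finrank_mono hle).trans ?_
    refine (finrank_span_finset_le_card _).trans ?_
    exact Finset.card_image_le.trans hs
  let _ : Module E (Y.map C.mkQ) := Module.compHom (Y.map C.mkQ) F.i
  have hD : ∀ (e : E) (x : Y.map C.mkQ), e • x = F.i e • x := fun _ _ => rfl
  -- the restriction of `ρh` to `A`
  let hA' : A ≃+ A :=
    { toFun := fun x => ⟨ρh x, (hA x).2 x.2⟩
      invFun := fun x => ⟨ρh.symm x, (hA _).1 (by simp)⟩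
      left_inv := fun x => by simp
      right_inv := fun x => by simp
      map_add' := fun x y => by ext; simp }
  let π : A →ₗ[E] (Y.map C.mkQ) :=
    { toFun := fun a => ⟨C.mkQ (ι a), Submodule.mem_map_of_mem (hAY a.2)⟩
      map_add' := by
        intro a b
        ext
        simp
      map_smul' := by
        intro e a
        rw [RingHom.id_apply, hD]
        ext
        simp [hιE] }
  have hπA : ∀ x, π (hA' x) = h3 (π x) := by
    intro x
    ext
    rw [hcoe]
    show C.mkQ (ι (ρh x)) = h2 (C.mkQ (ι x))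
    rw [← hπ, hρ]
  have hfdA : FiniteDimensional E A := Module.Finite.iff_fg.2 hAfg
  have hWfd : FiniteDimensional E ((⊤ : Submodule E A).map π) := inferInstance
  have hWs : Stable h3 ((⊤ : Submodule E A).map π) := by
    intro x
    constructor
    · intro hx
      obtain ⟨y, -, hxy⟩ := Submodule.mem_map.1 hx
      refine Submodule.mem_map.2 ⟨hA'.symm y, trivial, ?_⟩
      apply h3.injective
      rw [← hπA, AddEquiv.apply_symm_apply, hxy]
    · intro hx
      obtain ⟨y, -, rfl⟩ := Submodule.mem_map.1 hx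
      exact Submodule.mem_map.2 ⟨hA' y, trivial, hπA y⟩
  have h4 := TAct.caseT hχ d (Y.map C.mkQ) hD h3 t3 (by rw [hβ3, hβ2]; exact hfix) hrk le_rfl
    ((⊤ : Submodule E A).map π) hWfd hWs
  have h5 := Cl.comap (π := π) (h := hA') hπA h4 Stable.top (Submodule.le_comap_map π ⊤)
  have h6 := Cl.of_sub hA (hA' := hA') (fun _ => rfl) h5
  have e1 : (⊤ : Submodule E A).map A.subtype = A := by simp
  have e2 : (⊤ ⊓ (⊥ : Submodule E (Y.map C.mkQ)).comap π).map A.subtype = A ⊓ J hιE C := by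
    ext x
    constructor
    · intro hx
      obtain ⟨y, hy, rfl⟩ := Submodule.mem_map.1 hx
      refine ⟨y.2, ?_⟩
      have h7 : π y = 0 := hy.2
      have h8 : C.mkQ (ι y) = 0 := congrArg Subtype.val h7
      rw [SetLike.mem_coe, mem_J]
      simpa using h8
    · rintro ⟨hxA, hxC⟩
      refine Submodule.mem_map.2 ⟨⟨x, hxA⟩, ⟨trivial, ?_⟩, rfl⟩
      show π ⟨x, hxA⟩ = 0
      ext
      show C.mkQ (ι x) = 0
      have : ι x ∈ C := hxC
      simpa using this
  rwa [e1, e2] at h6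

theorem chain (hιE : ∀ (e : E) (x : X), ι (e • x) = F.i e • ι x) {ρh : X ≃+ X} {ρ1h : X1 ≃+ X1}
    (t : TAct F ρ1h) (hρ : ∀ x, ρ1h (ι x) = ι (ρh x))
    (hfix : ∀ b k, 0 < k → t.β^[k] b = b → t.β b = b) {d : ℕ} (l : ℕ) :
    ∀ (Y0 Y : Submodule K X1), Stable ρ1h Y → Cl ρ1h d l Y0 Y → ∀ (A : Submodule E X), Stable ρh A →
      A.FG → A ≤ J hιE Y → Cl ρh d (l * d) (A ⊓ J hιE Y0) A := by
  classical
  have hJs : ∀ Y : Submodule K X1, Stable ρ1h Y → Stable ρh (J hιE Y) := by
    intro Y hY x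
    rw [mem_J, mem_J, ← hρ]
    exact hY _
  induction l with
  | zero =>
    intro Y0 Y _ hc A _ _ hA
    rw [Nat.zero_mul]
    exact le_inf le_rfl (fun x hx => hc (hA hx))
  | succ l ih =>
    rintro Y0 Y hYs ⟨Y', hs', h0, h1, hc, hx⟩ A hAs hAfg hAY
    have hfdA : FiniteDimensional E A := Module.Finite.iff_fg.2 hAfg
    have hfg : (A ⊓ J hιE Y').FG := by
      have : FiniteDimensional E (A ⊓ J hιE Y' : Submodule E X) :=
        Submodule.finiteDimensional_of_le inf_le_left
      exact Module.Finite.iff_fg.1 this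
    have h2 := ih Y0 Y' hs' hc (A ⊓ J hιE Y') (hAs.inf (hJs _ hs')) hfg inf_le_right
    have e1 : A ⊓ J hιE Y' ⊓ J hιE Y0 = A ⊓ J hιE Y0 := by
      rw [inf_assoc]
      congr 1
      exact inf_eq_right.2 (fun x hx => h0 hx)
    rw [e1] at h2
    have h3 : Cl ρh d d (A ⊓ J hιE Y') A := by
      refine Cl.subdirect hAs inf_le_left ?_
      intro x hxA hxY'
      have hιx : ι x ∉ Y' := fun h => hxY' ⟨hxA, h⟩
      obtain ⟨C, hCs, hBC, hCB, hxC, f, hf⟩ := hx (ι x) (hAY hxA) hιx
      refine ⟨A ⊓ J hιE C, hAs.inf (hJs _ hCs), inf_le_inf le_rfl (fun y hy => hBC hy),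
        inf_le_left, fun h => hxC h.2, ?_⟩
      exact layer hιE t hρ hfix C Y hCs hYs hCB ((dimLE_iff_detect hCB).2 ⟨f, hf⟩) A hAs hAfg hAY
    have h01 : A ⊓ J hιE Y0 ≤ A ⊓ J hιE Y' := inf_le_inf le_rfl (fun y hy => h0 hy)
    have h4 := Cl.trans h01 h2 inf_le_left h3
    rwa [← Nat.succ_mul] at h4

end main

end TC

/-- Case T: if `X` is torsion-free over `E * B`, `B ≅ ℤ^r` normal in `G` and all Noetherian systems over `G ⧸ B` are good then `P` is good.

Proof. If `X = 0` use `good_of_subsingleton`. Otherwise `exists_ore` gives `K, X1, F, ι, ρ1, T`. `G ⧸ B` acts on the `K`-space `X1`: a system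
`P1 : PAct (G ⧸ B) K X1` (choose representatives; `ρ1 b = F.u b •` and `ρ1 g ρ1 h = (unit of E) • ρ1 (g h)` by density of `X`), Noetherian because `Y ↦ ι⁻¹ Y` is injective
on `K`-subspaces. `IH` gives `d, l` for `P1`. Let `e` be the constant of `fgab_period` for `ℤ^r`; put `h = g ^ e`: all `(T h).β`-periodic points of `ℤ^r` are
fixed. Claim: `Cl (P.ρ h) d (l * d) ⊥ W` for `W` f.g. and `g`-stable: `W1 = span_K ι(W)` is f.g. and stable under `ρ1 h`, `Cl (P1.ρ h̄) d l ⊥ W1`. Show by induction on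
the length: if `Cl (ρ1 h) d l Y0 Y` over `K`, then `Cl (P.ρ h) d (l * d) (W ⊓ ι⁻¹ Y0) (W ⊓ ι⁻¹ Y)`. For the top layer `Y' ≤ Y` and `C` with `Y/C` of `K`-dimension `≤ d`: the image of
`W ⊓ ι⁻¹ Y` in the `K`-space `Y / C` (use `TAct.exists_quot`, restricted to the stable `K`-subspace `Y / C` of dimension `≤ d`) is f.d. over `E` and `h`-stable, so
`TAct.caseT` gives `Cl h d d ⊥ _`; `Cl.comap` gives `Cl (P.ρ h) d d (W ⊓ ι⁻¹ C) (W ⊓ ι⁻¹ Y)`; `Cl.subdirect`, `Cl.trans`.
Finally `Cl.of_pow`. -/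
theorem tcase {n : ℕ} (IH : AllGood n) {G : Type} [Group G] (hG : PC G) {B : Subgroup G} [B.Normal] {r : ℕ}
    (hB : Nonempty (B ≃* Multiplicative (Fin r → ℤ))) (hn : HC n (G ⧸ B))
    {E : Type} [DivisionRing E] {X : Type} [AddCommGroup X] [Module E X]
    (P : PAct G E X) (hP : P.Noeth) (hTF : P.TF B) : P.Good := by
  classical
  cases subsingleton_or_nontrivial X with
  | inl h => exact good_of_subsingleton P h
  | inr hX =>
  obtain ⟨j⟩ := hB
  obtain ⟨K, _, X1, _, _, F, ι, ρ1, T, hι, hιE, hιB, hρ, hτ, hβ, hden⟩ :=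
    exists_ore P B inferInstance r j hX hTF
  obtain ⟨x0, hx0⟩ := exists_ne (0 : X)
  have hιx0 : ι x0 ≠ 0 := fun h => hx0 (hι (by rw [h, map_zero]))
  -- elements of the span of the `u b` map `ι X` to itself
  have hev : ∀ (s : (Fin r → ℤ) →₀ E) (x : X), ∃ y : X, F.ev s • ι x = ι y := by
    intro s x
    induction s using Finsupp.induction_linear with
    | zero => exact ⟨0, by simp⟩
    | add f g hf hg =>
      obtain ⟨y, hy⟩ := hf
      obtain ⟨z, hz⟩ := hg
      exact ⟨y + z, by rw [F.ev_add, add_smul, hy, hz, map_add]⟩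
    | single b e =>
      refine ⟨e • P.ρ ((j.symm (Multiplicative.ofAdd b) : B) : G) x, ?_⟩
      rw [hιE, hιB, F.ev_single, mul_smul]
      simp
  -- uniqueness of extensions
  have hext : ∀ (f f' : X1 → X1) (σ σ' : K ≃+* K), (∀ k x, f (k • x) = σ k • f x) →
      (∀ k x, f' (k • x) = σ' k • f' x) → (∀ x, f (ι x) = f' (ι x)) → f (ι x0) ≠ 0 →
      ∀ x, f x = f' x := by
    intro f f' σ σ' hf hf' hff' hf0 y
    obtain ⟨s, hs, x, hx⟩ := hden y
    have hs0 : F.ev s ≠ 0 := fun h => hs (F.ev_inj h)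
    have h1 : σ (F.ev s) = σ' (F.ev s) := by
      obtain ⟨z, hz⟩ := hev s x0
      have h2 : σ (F.ev s) • f (ι x0) = σ' (F.ev s) • f (ι x0) := by
        rw [← hf, hz, hff', hff' x0, ← hf', hz]
      have h3 : (σ (F.ev s) - σ' (F.ev s)) • f (ι x0) = 0 := by
        rw [sub_smul, h2, sub_self]
      rcases smul_eq_zero.1 h3 with h4 | h4
      · exact sub_eq_zero.1 h4
      · exact absurd h4 hf0
    have h2 : σ (F.ev s) • f y = σ (F.ev s) • f' y := by
      rw [← hf, hx, hff', ← hx, hf', h1]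
    have h3 : σ (F.ev s) ≠ 0 := by simpa using hs0
    exact smul_right_injective _ h3 h2
  -- `ρ1 (b g)` and `ρ1 g` differ by a scalar
  have hmul : ∀ g h : G, ∃ c : Kˣ, ∀ x, ρ1 g (ρ1 h x) = (c : K) • ρ1 (g * h) x := by
    intro g h
    obtain ⟨c, hc⟩ := P.mul g h
    let c' : Kˣ := Units.map (F.i : E →* K) c
    refine ⟨c', ?_⟩
    refine hext (fun x => ρ1 g (ρ1 h x)) (fun x => (c' : K) • ρ1 (g * h) x)
      ((T h).σ.trans (T g).σ) ((T (g * h)).σ.trans (MulSemiringAction.toRingEquiv (ConjAct Kˣ) K (ConjAct.toConjAct c')))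
      ?_ ?_ ?_ ?_
    · intro k x
      rw [(T h).hσ, (T g).hσ]; rfl
    · intro k x
      rw [(T (g * h)).hσ]
      rw [RingEquiv.trans_apply, MulSemiringAction.toRingEquiv_apply_apply, ConjAct.units_smul_def,
        ConjAct.ofConjAct_toConjAct, smul_smul, smul_smul]
      congr 1
      rw [mul_assoc, mul_assoc, Units.inv_mul, mul_one]
    · intro x
      rw [hρ, hρ, hρ, hc, hιE]; rfl
    · rw [hρ, hρ]
      intro h0
      have := hι (h0.trans (map_zero ι).symm)
      simp at this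
      exact hx0 this
  have hB1 : ∀ (b : B), ∃ c : Kˣ, ∀ x, ρ1 (b : G) x = (c : K) • x := by
    intro b
    let c : Kˣ := Units.mk0 (F.u (Multiplicative.toAdd (j b))) (F.u_ne _)
    refine ⟨c, ?_⟩
    refine hext (fun x => ρ1 (b : G) x) (fun x => (c : K) • x) (T (b : G)).σ
      (MulSemiringAction.toRingEquiv (ConjAct Kˣ) K (ConjAct.toConjAct c)) ?_ ?_ ?_ ?_
    · exact (T (b : G)).hσ
    · intro k x
      rw [MulSemiringAction.toRingEquiv_apply_apply, ConjAct.units_smul_def,
        ConjAct.ofConjAct_toConjAct, smul_smul, smul_smul]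
      congr 1
      rw [mul_assoc, mul_assoc, Units.inv_mul, mul_one]
    · intro x
      rw [hρ, hιB]; rfl
    · rw [hρ]
      intro h0
      have := hι (h0.trans (map_zero ι).symm)
      simp at this
      exact hx0 this
  have hcoset : ∀ g h : G, (g : G ⧸ B) = (h : G ⧸ B) → ∃ c : Kˣ, ∀ x, ρ1 g x = (c : K) • ρ1 h x := by
    intro g h hgh
    have hb : g * h⁻¹ ∈ B := by
      have : (g⁻¹ * h) ∈ B := QuotientGroup.eq.1 hgh
      have h2 : h⁻¹ * g ∈ B := by
        have := B.inv_mem this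
        simpa using this
      have := (inferInstance : B.Normal).conj_mem _ h2 h
      simpa [mul_assoc] using this
    obtain ⟨c, hc⟩ := hmul (g * h⁻¹) h
    obtain ⟨c', hc'⟩ := hB1 ⟨g * h⁻¹, hb⟩
    refine ⟨c⁻¹ * c', fun x => ?_⟩
    have h1 := hc x
    rw [inv_mul_cancel_right] at h1
    have h2 := hc' (ρ1 h x)
    rw [h1] at h2
    rw [Units.val_mul, mul_smul, ← h2, smul_smul, Units.inv_mul, one_smul]
  -- the system over `G ⧸ B`
  let P1 : PAct (G ⧸ B) K X1 :=
    { ρ := fun q => ρ1 q.out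
      σ := fun q => (T q.out).σ
      semi := fun q k x => (T q.out).hσ k x
      mul := by
        intro q q'
        obtain ⟨c, hc⟩ := hmul q.out q'.out
        obtain ⟨c', hc'⟩ := hcoset (q.out * q'.out) (q * q').out (by
          rw [QuotientGroup.mk_mul, QuotientGroup.out_eq', QuotientGroup.out_eq', QuotientGroup.out_eq'])
        refine ⟨c * c', fun x => ?_⟩
        rw [hc, hc', smul_smul]; rfl }
  have hst : ∀ (g : G) (Y : Submodule K X1), C3da71.Stable (ρ1 g) Y ↔ C3da71.Stable (P1.ρ (g : G ⧸ B)) Y := by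
    intro g Y
    obtain ⟨c, hc⟩ := hcoset g (g : G ⧸ B).out (by rw [QuotientGroup.out_eq'])
    have h1 : ∀ x, ρ1 g x ∈ Y ↔ P1.ρ (g : G ⧸ B) x ∈ Y := by
      intro x
      show ρ1 g x ∈ Y ↔ ρ1 (g : G ⧸ B).out x ∈ Y
      rw [hc]
      constructor
      · intro h
        have := Y.smul_mem ((c⁻¹ : Kˣ) : K) h
        rwa [smul_smul, Units.inv_mul, one_smul] at this
      · exact fun h => Y.smul_mem _ h
    constructor
    · intro h x
      rw [← h1]; exact h x
    · intro h x
      rw [h1]; exact h x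
  have hJdense : ∀ Y Y' : Submodule K X1, TC.J hιE Y ≤ TC.J hιE Y' → Y ≤ Y' := by
    intro Y Y' h y hy
    obtain ⟨s, hs, x, hx⟩ := hden y
    have hs0 : F.ev s ≠ 0 := fun h => hs (F.ev_inj h)
    have h1 : x ∈ TC.J hιE Y := by
      rw [TC.mem_J, ← hx]; exact Y.smul_mem _ hy
    have h2 : ι x ∈ Y' := h h1
    rw [← hx] at h2
    have := Y'.smul_mem (F.ev s)⁻¹ h2
    rwa [smul_smul, inv_mul_cancel₀ hs0, one_smul] at this
  have hN1 : P1.Noeth := by
    intro f hf hmono
    have hstab : ∀ m, P.Stable (TC.J hιE (f m)) := by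
      intro m g x hx
      rw [TC.mem_J, ← hρ]
      have h1 : C3da71.Stable (P1.ρ (g : G ⧸ B)) (f m) := by
        rw [P1.hst_iff]
        exact PAct.Stable.act_eq (hf m) _
      exact ((hst g (f m)).2 h1 _).2 hx
    obtain ⟨N, hN⟩ := hP (fun m => TC.J hιE (f m)) hstab
      (fun a b hab x hx => hmono hab hx)
    refine ⟨N, fun m hm => le_antisymm ?_ ?_⟩
    · exact hJdense _ _ (le_of_eq (hN m hm))
    · exact hmono hm
  obtain ⟨d, l, hgood⟩ := IH (G ⧸ B) (hG.quotient B) hn K X1 P1 hN1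
  obtain ⟨e, he, hper⟩ := fgab_period (Fin r → ℤ)
  refine ⟨e * d, l * d, fun g W hWfg hW => ?_⟩
  -- periodic points
  have hβconj : ∀ (g : G) (b : B), (T g).β (Multiplicative.toAdd (j b)) =
      Multiplicative.toAdd (j ⟨g * b * g⁻¹, (inferInstance : B.Normal).conj_mem _ b.2 g⟩) :=
    fun g b => hβ g b _ rfl
  have hβpow : ∀ (k : ℕ) (v : Fin r → ℤ), (T (g ^ k)).β v = ((T g).β)^[k] v := by
    intro k v
    obtain ⟨b, rfl⟩ : ∃ b : B, Multiplicative.toAdd (j b) = v := ⟨j.symm (Multiplicative.ofAdd v), by simp⟩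
    have : ∀ k : ℕ, ((T g).β)^[k] (Multiplicative.toAdd (j b)) =
        Multiplicative.toAdd (j ⟨g ^ k * b * (g ^ k)⁻¹, (inferInstance : B.Normal).conj_mem _ b.2 _⟩) := by
      intro k
      induction k with
      | zero => simp
      | succ k ih =>
        rw [Function.iterate_succ_apply', ih, hβconj]
        congr 3
        simp only [pow_succ']
        group
    rw [this, hβconj]
  have hfix : ∀ b k, 0 < k → ((T (g ^ e)).β)^[k] b = b → (T (g ^ e)).β b = b := by
    intro b k hk hb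
    have h1 : ∀ (k : ℕ) (v : Fin r → ℤ), ((T (g ^ e)).β)^[k] v = ((T g).β)^[e * k] v := by
      intro k v
      induction k with
      | zero => rfl
      | succ k ih =>
        rw [Function.iterate_succ_apply', ih, hβpow, ← Function.iterate_add_apply, Nat.mul_succ, add_comm]
    rw [h1] at hb
    rw [hβpow]
    exact hper (T g).β b (e * k) (Nat.mul_pos he hk) hb
  have hWh : C3da71.Stable (P.ρ (g ^ e)) W := PAct.stable_pow P g e W hW
  -- the span of `ι W`
  let W1 : Submodule K X1 := Submodule.span K (ι '' (W : Set X))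
  have hW1st : C3da71.Stable (ρ1 (g ^ e)) W1 := by
    have h1 : ∀ x ∈ W1, ρ1 (g ^ e) x ∈ W1 := by
      intro x hx
      refine Submodule.span_induction (p := fun x _ => ρ1 (g ^ e) x ∈ W1) ?_ ?_ ?_ ?_ hx
      · rintro x ⟨w, hw, rfl⟩
        rw [hρ]
        exact Submodule.subset_span ⟨_, (hWh w).2 hw, rfl⟩
      · rw [map_zero]; exact zero_mem _
      · intro x y _ _ hx hy
        rw [map_add]; exact add_mem hx hy
      · intro k x _ hx
        rw [(T (g ^ e)).hσ]; exact Submodule.smul_mem _ _ hx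
    have h2 : ∀ x ∈ W1, (ρ1 (g ^ e)).symm x ∈ W1 := by
      intro x hx
      refine Submodule.span_induction (p := fun x _ => (ρ1 (g ^ e)).symm x ∈ W1) ?_ ?_ ?_ ?_ hx
      · rintro x ⟨w, hw, rfl⟩
        have h3 : (ρ1 (g ^ e)).symm (ι w) = ι ((P.ρ (g ^ e)).symm w) := by
          rw [AddEquiv.symm_apply_eq, hρ]; simp
        rw [h3]
        exact Submodule.subset_span ⟨_, (hWh _).1 (by simpa using hw), rfl⟩
      · rw [map_zero]; exact zero_mem _
      · intro x y _ _ hx hy
        rw [map_add]; exact add_mem hx hy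
      · intro k x _ hx
        have h3 : (ρ1 (g ^ e)).symm (k • x) = (T (g ^ e)).σ.symm k • (ρ1 (g ^ e)).symm x := by
          rw [AddEquiv.symm_apply_eq, (T (g ^ e)).hσ]; simp
        rw [h3]; exact Submodule.smul_mem _ _ hx
    intro x
    exact ⟨fun hx => by simpa using h2 _ hx, h1 x⟩
  have hW1fg : W1.FG := by
    obtain ⟨s, hs⟩ := hWfg
    refine ⟨s.image ι, le_antisymm ?_ ?_⟩
    · apply Submodule.span_mono
      rw [Finset.coe_image]
      apply Set.image_mono
      rw [← hs]; exact Submodule.subset_span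
    · apply Submodule.span_le.2
      rintro x ⟨w, hw, rfl⟩
      have hw' : w ∈ Submodule.span E (s : Set X) := by rw [hs]; exact hw
      refine Submodule.span_induction (p := fun w _ => ι w ∈ Submodule.span K
        ((s.image ι : Finset X1) : Set X1)) ?_ ?_ ?_ ?_ hw'
      · intro w hw
        exact Submodule.subset_span (by rw [Finset.coe_image]; exact ⟨w, hw, rfl⟩)
      · rw [map_zero]; exact zero_mem _
      · intro x y _ _ hx hy
        rw [map_add]; exact add_mem hx hy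
      · intro k x _ hx
        rw [hιE]; exact Submodule.smul_mem _ _ hx
  have hc1 := hgood ((g ^ e : G) : G ⧸ B) W1 hW1fg ((hst _ _).1 hW1st)
  have hc2 : Cl (ρ1 (g ^ e)) d l ⊥ W1 := TC.Cl.congr_stable (fun Y hY => (hst _ Y).2 hY) hc1
  have hWJ : W ≤ TC.J hιE W1 := fun x hx => Submodule.subset_span ⟨x, hx, rfl⟩
  have hc3 := TC.chain hιE (T (g ^ e)) (fun x => hρ (g ^ e) x) hfix l ⊥ W1 hW1st hc2 W hWh hWfg hWJ
  have e1 : W ⊓ TC.J hιE ⊥ = ⊥ := by
    rw [eq_bot_iff]
    rintro x ⟨-, hx⟩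
    have h1 : ι x = 0 := hx
    exact hι (h1.trans (map_zero ι).symm)
  rw [e1] at hc3
  exact Cl.of_pow P g e he C3da71.Stable.bot hW hc3

end C3da71
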