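import Pool.Agent.Lib.MP_c3da71_al.FCase
import Pool.Agent.Lib.MP_c3da71_al.ICase
import Pool.Agent.Lib.MP_c3da71_al.TCase
import Pool.Agent.Lib.MP_c3da71_al.Plinths

/-! # The main theorem on systems: Noetherian systems over polycyclic groups are good -/

set_option autoImplicit false

namespace C3da71

/-- a nonzero good stable subspace of a stable subspace is one of the whole space -/
theorem exists_good_of_sub {G : Type} [Group G] {E : Type} [DivisionRing E] {X : Type} [AddCommGroup X] [Module E X]
    (P : PAct G E X) (T : Submodule E X) (hT : P.Stable T)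
    (h : ∃ (Y : Submodule E T) (hY : (P.sub T hT).Stable Y), Y ≠ ⊥ ∧ ((P.sub T hT).sub Y hY).Good) :
    ∃ (Y : Submodule E X) (hY : P.Stable Y), Y ≠ ⊥ ∧ (P.sub Y hY).Good := by
  obtain ⟨Y, hY, hne, hgood⟩ := h
  have hs : P.Stable (Y.map T.subtype) := by
    rintro g _ ⟨y, hy, rfl⟩
    exact ⟨(P.sub T hT).ρ g y, hY g y hy, rfl⟩
  refine ⟨Y.map T.subtype, hs, ?_, ?_⟩
  · intro h0
    apply hne
    apply Submodule.map_injective_of_injective T.subtype_injective
    rw [h0, Submodule.map_bot]
  · let e : Y ≃ₗ[E] (Y.map T.subtype) := Submodule.equivMapOfInjective T.subtype T.subtype_injective Y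
    refine good_of_injective _ _ e.symm.toLinearMap e.symm.injective ?_ hgood
    intro g x
    obtain ⟨y, rfl⟩ := e.surjective x
    apply e.injective
    have h1 : e (e.symm.toLinearMap (((P.sub (Y.map T.subtype) hs).ρ g) (e y))) =
        ((P.sub (Y.map T.subtype) hs).ρ g) (e y) := e.apply_symm_apply _
    rw [h1]
    apply Subtype.ext
    have h2 : e.symm.toLinearMap (e y) = y := e.symm_apply_apply y
    rw [h2]
    rfl

/-- the induction step over a group with a plinth -/
theorem exists_good {n : ℕ} (IH : AllGood n) {G : Type} [Group G] (hG : PC G) (hn : HC (n + 1) G) {B : Subgroup G}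
    (hB : Plinth G B) (E : Type) [DivisionRing E] (X : Type) [AddCommGroup X] [Module E X] (P : PAct G E X)
    (hP : P.Noeth) (hX : Nontrivial X) :
    ∃ (Y : Submodule E X) (hY : P.Stable Y), Y ≠ ⊥ ∧ (P.sub Y hY).Good := by
  have hBn := hB.normal
  obtain ⟨r, ⟨j⟩⟩ := hB.free
  have hinf : Infinite B := by
    refine (Equiv.infinite_iff (j.toEquiv.trans Multiplicative.toAdd)).2 ?_
    infer_instance
  obtain ⟨T, hT, hTmem⟩ := exists_torsion P B hBn (r + 1) ⟨j⟩
  by_cases hT0 : T = ⊥
  · -- torsion-free
    have hTF : P.TF B := by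
      intro x hx
      by_contra hcon
      exact hx (by simpa [hT0] using (hTmem x).2 hcon)
    have hgood := tcase IH hG ⟨j⟩ (hn.quotient_of_infinite B hinf) P hP hTF
    refine ⟨⊤, fun g y _ => trivial, ?_, ?_⟩
    · exact top_ne_bot
    · exact good_of_injective (P.sub ⊤ fun g y _ => trivial) P (Submodule.subtype ⊤) (Submodule.subtype_injective _)
        (fun g x => rfl) hgood
  · -- torsion part
    apply exists_good_of_sub P T hT
    have hTn : Nontrivial T := Submodule.nontrivial_iff_ne_bot.2 hT0
    rcases icase IH hG hn hB (P.sub T hT) (hP.sub T hT) hTn (by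
      intro x hx
      refine (hTmem x).1 x.2 ?_
      exact (LinearMap.linearIndependent_iff T.subtype (by simp)).2 hx) with h | ⟨V, hV0, hV, hVB⟩
    · exact h
    · exact fcase IH hG hn hinf (P.sub T hT) (hP.sub T hT) V hV0 hV hVB

theorem allGood : ∀ n : ℕ, AllGood n := by
  intro n
  induction n with
  | zero =>
    intro G _ hG hn E _ X _ _ P hP
    exact good_of_finite_group hn.zero P hP
  | succ n IH =>
    intro G _ hG hn E _ X _ _ P hP
    by_cases hfin : Finite G
    · exact good_of_finite_group hfin P hP
    obtain ⟨G0, hG0, B, hB⟩ := exists_plinth hG (not_finite_iff_infinite.1 hfin)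
    refine good_of_finiteIndex P G0 hG0 ?_
    exact good_of_exists G0 (fun E _ X _ _ P hP hX => exists_good IH (hG.subgroup G0) (hn.subgroup G0) hB E X P hP hX)
      E X (P.res G0) (hP.res hG G0 hG0)

/-- **Main theorem on systems.** -/
theorem main_good {G : Type} [Group G] (hG : PC G) {E : Type} [DivisionRing E] {X : Type} [AddCommGroup X] [Module E X]
    (P : PAct G E X) (hP : P.Noeth) : P.Good := by
  obtain ⟨n, hn⟩ := hG.exists_HC
  exact allGood n G hG hn E X P hP

end C3da71
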