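import Mathlib

set_option autoImplicit false

namespace C3da71

/-- the iterated `3`-divisible filtration is exhausted and `3` is injective: then an endomorphism
congruent to `1` modulo `3` has no nontrivial periodic points. Prime period. -/
theorem mink_prime {V : Type*} [AddCommGroup V] (h3 : ∀ v : V, (3 : ℕ) • v = 0 → v = 0)
    (hsep : ∀ v : V, (∀ k : ℕ, ∃ w : V, v = (3 ^ k : ℕ) • w) → v = 0)
    (γ : AddMonoid.End V) (hγ : ∀ v, ∃ w, γ v = v + (3 : ℕ) • w) {p : ℕ} (hp : p.Prime) (v : V)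
    (hv : γ^[p] v = v) : γ v = v := by
  set w := γ v - v with hw
  suffices hw0 : w = 0 from sub_eq_zero.1 hw0
  apply hsep
  -- congruence: γ^i w ≡ w mod 3^(k+1) if w in 3^k
  have hstep : ∀ (k : ℕ) (u : V), (∃ z, u = (3 ^ k : ℕ) • z) →
      ∃ z, γ u = u + (3 ^ (k + 1) : ℕ) • z := by
    rintro k u ⟨z, rfl⟩
    obtain ⟨y, hy⟩ := hγ z
    refine ⟨y, ?_⟩
    rw [map_nsmul, hy, smul_add, smul_smul, pow_succ]
  have hiter : ∀ (k : ℕ) (u : V), (∃ z, u = (3 ^ k : ℕ) • z) → ∀ i : ℕ,
      ∃ z, γ^[i] u = u + (3 ^ (k + 1) : ℕ) • z := by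
    intro k u hu i
    induction i with
    | zero => exact ⟨0, by simp⟩
    | succ i ih =>
      obtain ⟨z, hz⟩ := ih
      obtain ⟨z', hz'⟩ := hstep k u hu
      rw [Function.iterate_succ_apply', hz, map_add, hz', map_nsmul]
      exact ⟨z' + γ z, by rw [smul_add]; abel⟩
  have hsum : ∑ i ∈ Finset.range p, γ^[i] w = 0 := by
    have h1 : ∀ n : ℕ, ∑ i ∈ Finset.range n, γ^[i] w = γ^[n] v - v := by
      intro n
      induction n with
      | zero => simp
      | succ n ih =>
        rw [Finset.sum_range_succ, ih]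
        have h2 : γ^[n] w = γ^[n + 1] v - γ^[n] v := by
          rw [hw, Function.iterate_succ_apply]
          exact iterate_map_sub γ n (γ v) v
        rw [h2]
        abel
    rw [h1, hv, sub_self]
  intro k
  induction k with
  | zero => exact ⟨w, by simp⟩
  | succ k ih =>
    by_cases hp3 : p = 3
    · subst hp3
      obtain ⟨z, hz⟩ := hstep k w ih
      obtain ⟨z', hz'⟩ := hstep (k + 1) ((3 ^ (k + 1) : ℕ) • z) ⟨z, rfl⟩
      have h1 : w + γ w + γ (γ w) = 0 := by
        simpa [Finset.sum_range_succ] using hsum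
      rw [hz, map_add, hz, hz'] at h1
      have h2 : (3 : ℕ) • (w + (3 ^ (k + 1) : ℕ) • z + (3 ^ (k + 1) : ℕ) • z') = 0 := by
        rw [← h1]
        have h4 : (3 ^ (k + 1 + 1) : ℕ) • z' = (3 : ℕ) • ((3 ^ (k + 1) : ℕ) • z') := by
          rw [smul_smul, pow_succ' 3 (k + 1)]
        rw [h4]
        abel
      have h3' := h3 _ h2
      refine ⟨-(z + z'), ?_⟩
      rw [smul_neg, smul_add]
      rw [add_assoc] at h3'
      exact eq_neg_of_add_eq_zero_left h3'
    · -- p w ∈ 3^(k+1) V, p prime to 3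
      have hex : ∀ n : ℕ, ∃ z, ∑ i ∈ Finset.range n, γ^[i] w = n • w + (3 ^ (k + 1) : ℕ) • z := by
        intro n
        induction n with
        | zero => exact ⟨0, by simp⟩
        | succ n ih2 =>
          obtain ⟨z, hz⟩ := ih2
          obtain ⟨z', hz'⟩ := hiter k w ih n
          refine ⟨z + z', ?_⟩
          rw [Finset.sum_range_succ, hz, hz', add_smul, one_smul, smul_add]
          abel
      obtain ⟨z, hz⟩ := hex p
      rw [hsum] at hz
      have hcop : Nat.Coprime p (3 ^ (k + 1)) := by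
        apply Nat.Coprime.pow_right
        exact (Nat.coprime_primes hp Nat.prime_three).2 hp3
      have hbez := Nat.gcd_eq_gcd_ab p (3 ^ (k + 1))
      rw [hcop] at hbez
      refine ⟨- (Nat.gcdA p (3 ^ (k + 1)) • z) + Nat.gcdB p (3 ^ (k + 1)) • w, ?_⟩
      have h5 : (p : ℤ) • w = -(((3 ^ (k + 1) : ℕ) : ℤ) • z) := by
        rw [natCast_zsmul, natCast_zsmul]
        exact eq_neg_of_add_eq_zero_left hz.symm
      rw [← natCast_zsmul]
      set a := Nat.gcdA p (3 ^ (k + 1))
      set b := Nat.gcdB p (3 ^ (k + 1))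
      set q : ℤ := ((3 ^ (k + 1) : ℕ) : ℤ)
      calc w = ((p : ℤ) * a + q * b) • w := by rw [← hbez]; simp
        _ = a • ((p : ℤ) • w) + q • (b • w) := by
          rw [add_smul, mul_comm (p : ℤ) a, mul_smul, mul_smul]
        _ = q • (-(a • z) + b • w) := by
          rw [h5, smul_add, smul_neg, smul_neg, smul_comm a q z]

theorem mink {V : Type*} [AddCommGroup V] (h3 : ∀ v : V, (3 : ℕ) • v = 0 → v = 0)
    (hsep : ∀ v : V, (∀ k : ℕ, ∃ w : V, v = (3 ^ k : ℕ) • w) → v = 0) :
    ∀ (n : ℕ) (γ : AddMonoid.End V) (_ : ∀ v, ∃ w, γ v = v + (3 : ℕ) • w) (v : V)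
      (_ : 1 ≤ n) (_ : γ^[n] v = v), γ v = v := by
  intro n
  induction n using Nat.strong_induction_on with
  | _ n ih =>
    intro γ hγ v hn hv
    by_cases hn1 : n = 1
    · subst hn1; simpa using hv
    obtain ⟨p, hp, m, rfl⟩ := Nat.exists_prime_and_dvd hn1
    have hm : 1 ≤ m := by
      rcases Nat.eq_zero_or_pos m with h | h
      · subst h; simp at hn
      · exact h
    have hγm : ∀ (m : ℕ) (v : V), ∃ w, (γ^m) v = v + (3 : ℕ) • w := by
      intro m
      induction m with
      | zero => intro v; exact ⟨0, by simp⟩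
      | succ m ihm =>
        intro v
        obtain ⟨w, hw⟩ := hγ v
        obtain ⟨w', hw'⟩ := ihm (γ v)
        refine ⟨w + w', ?_⟩
        rw [pow_succ]
        change (γ^m) (γ v) = _
        rw [hw', hw, smul_add]
        abel
    have hpow : ∀ (m : ℕ), ⇑(γ^m) = γ^[m] := fun m => by
      induction m with
      | zero => rfl
      | succ m ih => rw [pow_succ, Function.iterate_succ, ← ih]; rfl
    have h1 : (γ^m) v = v := by
      refine mink_prime h3 hsep (γ^m) (hγm m) hp v ?_
      have h2 : (⇑(γ^m))^[p] = γ^[p * m] := by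
        rw [hpow, ← Function.iterate_mul, mul_comm]
      rw [h2]
      exact hv
    have hlt : m < p * m := by
      have := hp.two_le
      nlinarith
    refine ih m hlt γ hγ v hm ?_
    rw [← hpow]
    exact h1

end C3da71
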