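import Pool.Agent.Lib.MP_c3da71_al.PHall

/-! # The operator ring `R = P.opRing B` and its modules

`R`-submodules of `X` are the `B`-stable `E`-subspaces. -/

set_option autoImplicit false

namespace C3da71

namespace PAct

variable {G : Type} [Group G] {E : Type} [DivisionRing E] {X : Type} [AddCommGroup X] [Module E X]

/-- a scalar as an element of the operator ring -/
def opScalar (P : PAct G E X) (B : Subgroup G) (e : E) : P.opRing B :=
  ⟨DistribSMul.toAddMonoidHom X e, Subring.subset_closure (Or.inl ⟨e, fun _ => rfl⟩)⟩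

/-- `ρ b` as an element of the operator ring -/
def opElt (P : PAct G E X) (B : Subgroup G) (b : B) : P.opRing B :=
  ⟨(P.ρ (b : G)).toAddMonoidHom, Subring.subset_closure (Or.inr ⟨b, b.2, fun _ => rfl⟩)⟩

@[simp] theorem opScalar_smul (P : PAct G E X) (B : Subgroup G) (e : E) (x : X) : P.opScalar B e • x = e • x := rfl

@[simp] theorem opElt_smul (P : PAct G E X) (B : Subgroup G) (b : B) (x : X) : P.opElt B b • x = P.ρ (b : G) x := rfl

/-- the monomial operators `e ρ(b)` -/
def opMon (P : PAct G E X) (B : Subgroup G) : Submonoid (AddMonoid.End X) where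
  carrier := {f | ∃ (b : B) (e : E), ∀ x, f x = e • P.ρ (b : G) x}
  one_mem' := by
    obtain ⟨c, hc⟩ := P.one_smul
    refine ⟨1, ((c⁻¹ : Eˣ) : E), fun x => ?_⟩
    change x = _
    rw [OneMemClass.coe_one, hc, smul_smul, Units.inv_mul, _root_.one_smul]
  mul_mem' := by
    rintro f f' ⟨b, e, h⟩ ⟨b', e', h'⟩
    obtain ⟨c, hc⟩ := P.mul (b : G) (b' : G)
    refine ⟨b * b', e * P.σ b e' * c, fun x => ?_⟩
    change f (f' x) = _
    rw [h', h, P.semi, hc, smul_smul, smul_smul]
    rfl

/-- every operator in the ring is a finite sum `∑ s(b) ρ(b)` -/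
theorem mem_opRing (P : PAct G E X) (B : Subgroup G) (f : P.opRing B) :
    ∃ s : B →₀ E, ∀ x : X, f • x = s.sum fun b e => e • P.ρ (b : G) x := by
  have h1 : Submonoid.closure ({f | ∃ e : E, ∀ x, f x = e • x} ∪ {f | ∃ b ∈ B, ∀ x, f x = P.ρ b x} :
      Set (AddMonoid.End X)) ≤ P.opMon B := by
    rw [Submonoid.closure_le]
    rintro g (⟨e, he⟩ | ⟨b, hb, he⟩)
    · obtain ⟨c, hc⟩ := P.one_smul
      refine ⟨1, e * ((c⁻¹ : Eˣ) : E), fun x => ?_⟩
      rw [he, OneMemClass.coe_one, hc, smul_smul, mul_assoc, Units.inv_mul, mul_one]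
    · exact ⟨⟨b, hb⟩, 1, fun x => by rw [he, _root_.one_smul]⟩
  have h2 : (f : AddMonoid.End X) ∈ AddSubgroup.closure
      ((Submonoid.closure ({f | ∃ e : E, ∀ x, f x = e • x} ∪ {f | ∃ b ∈ B, ∀ x, f x = P.ρ b x} :
      Set (AddMonoid.End X)) : Submonoid (AddMonoid.End X)) : Set (AddMonoid.End X)) :=
    Subring.mem_closure_iff.1 f.2
  have key : ∀ g : AddMonoid.End X, g ∈ AddSubgroup.closure
      ((Submonoid.closure ({f | ∃ e : E, ∀ x, f x = e • x} ∪ {f | ∃ b ∈ B, ∀ x, f x = P.ρ b x} :
      Set (AddMonoid.End X)) : Submonoid (AddMonoid.End X)) : Set (AddMonoid.End X)) →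
      ∃ s : B →₀ E, ∀ x : X, g x = s.sum fun b e => e • P.ρ (b : G) x := by
    intro g hg
    induction hg using AddSubgroup.closure_induction with
    | mem g hg =>
      obtain ⟨b, e, he⟩ := h1 hg
      refine ⟨Finsupp.single b e, fun x => ?_⟩
      rw [he, Finsupp.sum_single_index]
      rw [zero_smul]
    | zero =>
      refine ⟨0, fun x => ?_⟩
      rw [Finsupp.sum_zero_index]
      rfl
    | add g g' _ _ h h' =>
      obtain ⟨s, hs⟩ := h
      obtain ⟨s', hs'⟩ := h'
      refine ⟨s + s', fun x => ?_⟩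
      rw [Finsupp.sum_add_index' (fun b => by rw [zero_smul]) (fun b e e' => by rw [add_smul])]
      rw [← hs, ← hs']
      rfl
    | neg g _ h =>
      obtain ⟨s, hs⟩ := h
      refine ⟨-s, fun x => ?_⟩
      rw [Finsupp.sum_neg_index (fun b => by rw [zero_smul])]
      change -(g x) = _
      rw [hs, Finsupp.sum, Finsupp.sum, ← Finset.sum_neg_distrib]
      exact Finset.sum_congr rfl fun b _ => by rw [neg_smul]
  exact key f h2

/-- `B`-stable subspaces as `R`-submodules -/
def toR (P : PAct G E X) (B : Subgroup G) (Y : Submodule E X) (hY : P.BStable B Y) : Submodule (P.opRing B) X where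
  carrier := Y
  add_mem' := Y.add_mem
  zero_mem' := Y.zero_mem
  smul_mem' := by
    intro f x hx
    obtain ⟨s, hs⟩ := P.mem_opRing B f
    rw [hs]
    exact Submodule.sum_mem _ fun b _ => Y.smul_mem _ (hY b b.2 x hx)

/-- `R`-submodules as subspaces -/
def ofR (P : PAct G E X) (B : Subgroup G) (V : Submodule (P.opRing B) X) : Submodule E X where
  carrier := V
  add_mem' := V.add_mem
  zero_mem' := V.zero_mem
  smul_mem' := fun e x hx => V.smul_mem (P.opScalar B e) hx

@[simp] theorem mem_toR (P : PAct G E X) (B : Subgroup G) (Y : Submodule E X) (hY : P.BStable B Y) (x : X) :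
    x ∈ P.toR B Y hY ↔ x ∈ Y := Iff.rfl

@[simp] theorem mem_ofR (P : PAct G E X) (B : Subgroup G) (V : Submodule (P.opRing B) X) (x : X) :
    x ∈ P.ofR B V ↔ x ∈ V := Iff.rfl

theorem bstable_ofR (P : PAct G E X) (B : Subgroup G) (V : Submodule (P.opRing B) X) : P.BStable B (P.ofR B V) :=
  fun b hb y hy => V.smul_mem (P.opElt B ⟨b, hb⟩) hy

/-- conjugation of additive endomorphisms by an additive automorphism -/
def conjEnd (φ : X ≃+ X) : AddMonoid.End X →+* AddMonoid.End X where
  toFun f := φ.toAddMonoidHom.comp (AddMonoidHom.comp f φ.symm.toAddMonoidHom)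
  map_one' := by
    ext x
    change φ (φ.symm x) = x
    simp
  map_mul' f f' := by
    ext x
    change φ (f (f' (φ.symm x))) = φ (f (φ.symm (φ (f' (φ.symm x)))))
    simp
  map_zero' := by
    ext x
    change φ 0 = 0
    simp
  map_add' f f' := by
    ext x
    change φ (f (φ.symm x) + f' (φ.symm x)) = φ (f (φ.symm x)) + φ (f' (φ.symm x))
    simp

omit [Module E X] [DivisionRing E] in
theorem conjEnd_apply (φ : X ≃+ X) (f : AddMonoid.End X) (x : X) : conjEnd φ f x = φ (f (φ.symm x)) := rfl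

theorem opRing_scalar (P : PAct G E X) (B : Subgroup G) (e : E) (f : AddMonoid.End X) (hf : ∀ x, f x = e • x) :
    f ∈ P.opRing B := Subring.subset_closure (Or.inl ⟨e, hf⟩)

theorem opRing_mon (P : PAct G E X) (B : Subgroup G) (e : E) (b : G) (hb : b ∈ B) (f : AddMonoid.End X)
    (hf : ∀ x, f x = e • P.ρ b x) : f ∈ P.opRing B := by
  have : f = (P.opScalar B e : AddMonoid.End X) * (P.opElt B ⟨b, hb⟩ : AddMonoid.End X) := by
    ext x
    exact hf x
  rw [this]
  exact Subring.mul_mem _ (P.opScalar B e).2 (P.opElt B ⟨b, hb⟩).2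

theorem conj_mem (P : PAct G E X) (B : Subgroup G) [hn : B.Normal] (g : G) (f : AddMonoid.End X)
    (hf : f ∈ P.opRing B) : conjEnd (P.ρ g) f ∈ P.opRing B := by
  have : P.opRing B ≤ (P.opRing B).comap (conjEnd (P.ρ g)) := by
    unfold opRing
    rw [Subring.closure_le]
    rintro f (⟨e, he⟩ | ⟨b, hb, he⟩)
    · apply P.opRing_scalar B (P.σ g e)
      intro x
      rw [conjEnd_apply, he, P.semi]
      simp
    · obtain ⟨c, hc⟩ := P.mul g b
      obtain ⟨c', hc'⟩ := P.mul (g * b * g⁻¹) g
      apply P.opRing_mon B ((c : E) * ((c'⁻¹ : Eˣ) : E)) (g * b * g⁻¹) (hn.conj_mem b hb g)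
      intro x
      have h1 : P.ρ (g * b) ((P.ρ g).symm x) = ((c'⁻¹ : Eˣ) : E) • P.ρ (g * b * g⁻¹) x := by
        have := hc' ((P.ρ g).symm x)
        rw [AddEquiv.apply_symm_apply, inv_mul_cancel_right] at this
        rw [this, smul_smul, Units.inv_mul, _root_.one_smul]
      rw [conjEnd_apply, he, hc, h1, smul_smul]
  exact this hf

theorem conj_symm_mem (P : PAct G E X) (B : Subgroup G) [hn : B.Normal] (g : G) (f : AddMonoid.End X)
    (hf : f ∈ P.opRing B) : conjEnd (P.ρ g).symm f ∈ P.opRing B := by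
  have : P.opRing B ≤ (P.opRing B).comap (conjEnd (P.ρ g).symm) := by
    unfold opRing
    rw [Subring.closure_le]
    rintro f (⟨e, he⟩ | ⟨b, hb, he⟩)
    · apply P.opRing_scalar B ((P.σ g).symm e)
      intro x
      rw [conjEnd_apply, he, P.symm_smul]
      simp
    · obtain ⟨c, hc⟩ := P.mul b g
      obtain ⟨c', hc'⟩ := P.mul g (g⁻¹ * b * g)
      apply P.opRing_mon B ((P.σ g).symm ((c : E) * ((c'⁻¹ : Eˣ) : E))) (g⁻¹ * b * g)
        (by simpa using hn.conj_mem b hb g⁻¹)
      intro x
      have h1 : P.ρ (b * g) x = ((c'⁻¹ : Eˣ) : E) • P.ρ g (P.ρ (g⁻¹ * b * g) x) := by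
        have := hc' x
        rw [show g * (g⁻¹ * b * g) = b * g by group] at this
        rw [this, smul_smul, Units.inv_mul, _root_.one_smul]
      rw [conjEnd_apply, AddEquiv.symm_symm, he, hc, h1, smul_smul, P.symm_smul]
      simp
  exact this hf

/-- conjugation by `ρ g` on the operator ring of a normal subgroup -/
theorem exists_conj (P : PAct G E X) (B : Subgroup G) [B.Normal] (g : G) :
    ∃ c : P.opRing B ≃+* P.opRing B, ∀ (f : P.opRing B) (x : X), P.ρ g (f • x) = c f • P.ρ g x := by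
  refine ⟨{ toFun := fun f => ⟨conjEnd (P.ρ g) f, P.conj_mem B g f f.2⟩
            invFun := fun f => ⟨conjEnd (P.ρ g).symm f, P.conj_symm_mem B g f f.2⟩
            left_inv := ?_
            right_inv := ?_
            map_mul' := ?_
            map_add' := ?_ }, ?_⟩
  · intro f
    apply Subtype.ext
    apply AddMonoidHom.ext
    intro x
    change (P.ρ g).symm (P.ρ g ((f : AddMonoid.End X) ((P.ρ g).symm (P.ρ g x)))) = (f : AddMonoid.End X) x
    simp
  · intro f
    apply Subtype.ext
    apply AddMonoidHom.ext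
    intro x
    change P.ρ g ((P.ρ g).symm ((f : AddMonoid.End X) (P.ρ g ((P.ρ g).symm x)))) = (f : AddMonoid.End X) x
    simp
  · intro f f'
    exact Subtype.ext (map_mul (conjEnd (P.ρ g)) _ _)
  · intro f f'
    exact Subtype.ext (map_add (conjEnd (P.ρ g)) _ _)
  · intro f x
    change P.ρ g ((f : AddMonoid.End X) x) = P.ρ g ((f : AddMonoid.End X) ((P.ρ g).symm (P.ρ g x)))
    simp

/-- the action of `g` on `R`-submodules -/
noncomputable def actR (P : PAct G E X) (B : Subgroup G) [B.Normal] (g : G) (V : Submodule (P.opRing B) X) :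
    Submodule (P.opRing B) X where
  carrier := {x | (P.ρ g).symm x ∈ V}
  add_mem' := by
    intro a b ha hb
    simp only [Set.mem_ofPred_eq, map_add] at *
    exact V.add_mem ha hb
  zero_mem' := by simp
  smul_mem' := by
    obtain ⟨c, hc⟩ := P.exists_conj B g
    intro f x hx
    simp only [Set.mem_ofPred_eq] at *
    have : (P.ρ g).symm (f • x) = c.symm f • (P.ρ g).symm x := by
      rw [AddEquiv.symm_apply_eq, hc]
      simp
    rw [this]
    exact V.smul_mem _ hx

@[simp] theorem mem_actR (P : PAct G E X) (B : Subgroup G) [B.Normal] (g : G) (V : Submodule (P.opRing B) X) (x : X) :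
    x ∈ P.actR B g V ↔ (P.ρ g).symm x ∈ V := Iff.rfl

theorem ofR_actR (P : PAct G E X) (B : Subgroup G) [B.Normal] (g : G) (V : Submodule (P.opRing B) X) :
    P.ofR B (P.actR B g V) = P.act g (P.ofR B V) := rfl

theorem actR_mul (P : PAct G E X) (B : Subgroup G) [B.Normal] (g h : G) (V : Submodule (P.opRing B) X) :
    P.actR B g (P.actR B h V) = P.actR B (g * h) V := by
  ext x
  exact iff_of_eq (congrArg (fun W : Submodule E X => x ∈ W) (P.act_mul g h (P.ofR B V)))

theorem actR_one (P : PAct G E X) (B : Subgroup G) [B.Normal] (V : Submodule (P.opRing B) X) :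
    P.actR B 1 V = V := by
  ext x
  exact iff_of_eq (congrArg (fun W : Submodule E X => x ∈ W) (P.act_one (P.ofR B V)))

/-- elements of `B` fix all `R`-submodules -/
theorem actR_of_mem (P : PAct G E X) (B : Subgroup G) [B.Normal] (b : G) (hb : b ∈ B) (V : Submodule (P.opRing B) X) :
    P.actR B b V = V := by
  have hst : (P.res B).Stable (P.ofR B V) := fun b y hy => P.bstable_ofR B V b b.2 y hy
  ext x
  exact iff_of_eq (congrArg (fun W : Submodule E X => x ∈ W) (hst.act_eq ⟨b, hb⟩))

/-- the semilinearity of `(ρ g)⁻¹` over the operator ring, in the form needed for transport of homomorphisms -/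
theorem exists_conj_symm (P : PAct G E X) (B : Subgroup G) [B.Normal] (g : G) :
    ∃ c : P.opRing B ≃+* P.opRing B, (∀ (f : P.opRing B) (x : X), P.ρ g (f • x) = c f • P.ρ g x) ∧
      (∀ (f : P.opRing B) (x : X), (P.ρ g).symm (f • x) = c.symm f • (P.ρ g).symm x) := by
  obtain ⟨c, hc⟩ := P.exists_conj B g
  refine ⟨c, hc, fun f x => ?_⟩
  rw [AddEquiv.symm_apply_eq, hc]
  simp

/-- transport of homomorphisms: `x ↦ ρ g (f ((ρ g)⁻¹ x))` -/
theorem exists_actR_hom (P : PAct G E X) (B : Subgroup G) [B.Normal] (g : G) (V : Submodule (P.opRing B) X)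
    (f : V →ₗ[P.opRing B] X) :
    ∃ f' : P.actR B g V →ₗ[P.opRing B] X, ∀ (x : X) (hx : x ∈ P.actR B g V), f' ⟨x, hx⟩ = P.ρ g (f ⟨(P.ρ g).symm x, hx⟩) := by
  obtain ⟨c, hc, hc'⟩ := P.exists_conj_symm B g
  refine ⟨{ toFun := fun x => P.ρ g (f ⟨(P.ρ g).symm x, x.2⟩)
            map_add' := ?_
            map_smul' := ?_ }, fun x hx => rfl⟩
  · intro x y
    rw [← map_add, ← map_add]
    congr 2
    apply Subtype.ext
    exact map_add _ _ _
  · intro r x
    have h1 : (⟨(P.ρ g).symm ((r • x : P.actR B g V) : X), (r • x).2⟩ : V)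
        = c.symm r • (⟨(P.ρ g).symm x, x.2⟩ : V) := Subtype.ext (hc' r x)
    rw [h1, map_smul, hc]
    simp

theorem actR_equiv (P : PAct G E X) (B : Subgroup G) [B.Normal] (g : G) (V W : Submodule (P.opRing B) X)
    (h : Nonempty (V ≃ₗ[P.opRing B] W)) : Nonempty (P.actR B g V ≃ₗ[P.opRing B] P.actR B g W) := by
  obtain ⟨e⟩ := h
  obtain ⟨c, hc, hc'⟩ := P.exists_conj_symm B g
  refine ⟨{ toFun := fun x => ⟨P.ρ g (e ⟨(P.ρ g).symm x, x.2⟩), ?_⟩
            invFun := fun x => ⟨P.ρ g (e.symm ⟨(P.ρ g).symm x, x.2⟩), ?_⟩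
            map_add' := ?_
            map_smul' := ?_
            left_inv := ?_
            right_inv := ?_ }⟩
  · rw [mem_actR, AddEquiv.symm_apply_apply]
    exact (e _).2
  · intro x y
    apply Subtype.ext
    have h1 : (⟨(P.ρ g).symm ((x + y : P.actR B g V) : X), (x + y).2⟩ : V)
        = (⟨(P.ρ g).symm x, x.2⟩ : V) + (⟨(P.ρ g).symm y, y.2⟩ : V) := Subtype.ext (map_add _ _ _)
    change P.ρ g ((e ⟨(P.ρ g).symm ((x + y : P.actR B g V) : X), (x + y).2⟩ : W) : X)
      = P.ρ g ((e ⟨(P.ρ g).symm x, x.2⟩ : W) : X) + P.ρ g ((e ⟨(P.ρ g).symm y, y.2⟩ : W) : X)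
    rw [h1, map_add, Submodule.coe_add, map_add]
  · intro r x
    apply Subtype.ext
    have h1 : (⟨(P.ρ g).symm ((r • x : P.actR B g V) : X), (r • x).2⟩ : V)
        = c.symm r • (⟨(P.ρ g).symm x, x.2⟩ : V) := Subtype.ext (hc' r x)
    change P.ρ g ((e ⟨(P.ρ g).symm ((r • x : P.actR B g V) : X), (r • x).2⟩ : W) : X)
      = r • P.ρ g ((e ⟨(P.ρ g).symm x, x.2⟩ : W) : X)
    rw [h1, map_smul, Submodule.coe_smul, hc]
    simp
  · rw [mem_actR, AddEquiv.symm_apply_apply]
    exact (e.symm _).2
  · intro x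
    apply Subtype.ext
    simp
  · intro x
    apply Subtype.ext
    simp

/-- finitely generated `R`-submodules are Noetherian (`B` polycyclic): `hall` for `P.res B` -/
theorem isNoetherian_opRing (P : PAct G E X) (B : Subgroup G) (hB : PC B) (V : Submodule (P.opRing B) X) (hV : V.FG) :
    IsNoetherian (P.opRing B) V := by
  have hfg : (P.res B).FGen (P.ofR B V) := by
    obtain ⟨s, hs⟩ := hV
    refine ⟨s, le_antisymm ?_ ?_⟩
    · intro x hx
      have hx' : x ∈ Submodule.span (P.opRing B) (s : Set X) := by rw [hs]; exact hx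
      have hst : P.BStable B (Submodule.span E {x : X | ∃ g : B, ∃ y ∈ s, x = (P.res B).ρ g y}) := by
        intro b hb y hy
        induction hy using Submodule.span_induction with
        | mem y hy =>
          obtain ⟨b', z, hz, rfl⟩ := hy
          obtain ⟨c, hc⟩ := P.mul b (b' : G)
          have : P.ρ b ((P.res B).ρ b' z) = (c : E) • (P.res B).ρ (⟨b, hb⟩ * b') z := hc z
          rw [this]
          exact Submodule.smul_mem _ _ (Submodule.subset_span ⟨_, z, hz, rfl⟩)
        | zero => rw [map_zero]; exact Submodule.zero_mem _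
        | add y z _ _ hy hz => rw [map_add]; exact Submodule.add_mem _ hy hz
        | smul e y _ hy => rw [P.semi]; exact Submodule.smul_mem _ _ hy
      have hle : Submodule.span (P.opRing B) (s : Set X) ≤ P.toR B _ hst := by
        rw [Submodule.span_le]
        intro y hy
        obtain ⟨c, hc⟩ := P.one_smul
        have h1 : y = ((c⁻¹ : Eˣ) : E) • (P.res B).ρ 1 y := by
          change y = ((c⁻¹ : Eˣ) : E) • P.ρ 1 y
          rw [hc, smul_smul, Units.inv_mul, _root_.one_smul]
        have h2 : y ∈ Submodule.span E {x : X | ∃ g : B, ∃ y ∈ s, x = (P.res B).ρ g y} := by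
          rw [h1]
          exact Submodule.smul_mem _ _ (Submodule.subset_span ⟨1, y, hy, rfl⟩)
        exact h2
      exact hle hx'
    · rw [Submodule.span_le]
      rintro x ⟨b, y, hy, rfl⟩
      have hyV : y ∈ V := by rw [← hs]; exact Submodule.subset_span hy
      exact P.bstable_ofR B V b b.2 y hyV
  rw [← monotone_stabilizes_iff_noetherian]
  intro f
  obtain ⟨n, hn⟩ := hall hB (P.res B) (P.ofR B V) hfg (fun n => P.ofR B ((f n).map V.subtype))
    (fun n b y hy => P.bstable_ofR B _ b b.2 y hy)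
    (fun a b hab x hx => Submodule.map_mono (f.monotone hab) hx)
    (fun n x hx => by
      obtain ⟨y, _, rfl⟩ := (Submodule.mem_map.1 hx : ∃ y, y ∈ f n ∧ V.subtype y = x)
      exact y.2)
  refine ⟨n, fun m hm => ?_⟩
  have h1 := hn m hm
  have h2 : (f m).map V.subtype = (f n).map V.subtype := by
    ext x
    exact iff_of_eq (congrArg (fun W : Submodule E X => x ∈ W) h1)
  exact (Submodule.map_injective_of_injective V.injective_subtype h2).symm

end PAct

end C3da71
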