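import Mathlib

/-! # Extension of semilinear bijections to Ore localizations -/

set_option autoImplicit false

namespace C3da71

open OreLocalization

section

variable {R : Type*} [Ring R] {S : Submonoid R} [OreSet S] {X : Type*} [AddCommGroup X] [Module R X]

/-- extension of a semilinear map to the localization -/
noncomputable def oreExt (φ : X →+ X) (c : R →+* R) (hc : ∀ s : S, c s ∈ S) (h : ∀ (f : R) (x : X), φ (f • x) = c f • φ x) :
    OreLocalization S X → OreLocalization S X :=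
  liftExpand (fun x s => φ x /ₒ (⟨c s, hc s⟩ : S)) (by
    intro x t s ht
    have h1 : c t * c s ∈ S := by
      have := hc ⟨t * s, ht⟩
      rwa [map_mul] at this
    have h2 := OreLocalization.expand (φ x) (⟨c s, hc s⟩ : S) (c t) h1
    show φ x /ₒ (⟨c s, hc s⟩ : S) = φ (t • x) /ₒ (⟨c (t * s), hc ⟨t * s, ht⟩⟩ : S)
    rw [h2, ← h]
    congr 1
    apply Subtype.ext
    show c t * c s = c (t * s)
    rw [map_mul])

variable (φ : X →+ X) (c : R →+* R) (hc : ∀ s : S, c s ∈ S) (h : ∀ (f : R) (x : X), φ (f • x) = c f • φ x)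

lemma oreExt_oreDiv (x : X) (s : S) : oreExt φ c hc h (x /ₒ s) = φ x /ₒ (⟨c s, hc s⟩ : S) := rfl

lemma oreExt_add (y z : OreLocalization S X) : oreExt φ c hc h (y + z) = oreExt φ c hc h y + oreExt φ c hc h z := by
  induction y with | _ x1 s1
  induction z with | _ x2 s2
  have h1 : (oreDenom (s1 : R) s2 : R) * (s1 : R) = oreNum (s1 : R) s2 * (s2 : R) := ore_eq (s1 : R) s2
  rw [oreDiv_add_char s1 s2 _ _ h1, oreExt_oreDiv, oreExt_oreDiv, oreExt_oreDiv]
  have h2 : ((⟨c (oreDenom (s1 : R) s2), hc _⟩ : S) : R) * ((⟨c s1, hc s1⟩ : S) : R) =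
      c (oreNum (s1 : R) s2) * ((⟨c s2, hc s2⟩ : S) : R) := by
    show c _ * c _ = c _ * c _
    rw [← map_mul, ← map_mul, h1]
  rw [oreDiv_add_char _ _ _ _ h2]
  have h3 : φ (oreDenom (s1 : R) s2 • x1 + oreNum (s1 : R) s2 • x2) =
      (⟨c (oreDenom (s1 : R) s2), hc _⟩ : S) • φ x1 + c (oreNum (s1 : R) s2) • φ x2 := by
    rw [map_add, h, Submonoid.smul_def, h]
    rfl
  rw [h3]
  congr 1
  apply Subtype.ext
  show c (_ * _) = c _ * c _
  rw [map_mul]

lemma oreExt_smul (ψ : R →+ R) (hψ : ∀ f, ψ f = c f) (k : OreLocalization S R) (y : OreLocalization S X) :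
    oreExt φ c hc h (k • y) = oreExt (X := R) ψ c hc (by intro f x; simp [hψ]) k • oreExt φ c hc h y := by
  induction k with | _ r1 s1
  induction y with | _ x2 s2
  have h1 : (oreDenom r1 s2 : R) * r1 = oreNum r1 s2 * (s2 : R) := ore_eq r1 s2
  rw [oreDiv_smul_char r1 x2 s1 s2 _ _ h1, oreExt_oreDiv, oreExt_oreDiv, oreExt_oreDiv]
  have h2 : ((⟨c (oreDenom r1 s2), hc _⟩ : S) : R) * (ψ r1) = c (oreNum r1 s2) * ((⟨c s2, hc s2⟩ : S) : R) := by
    show c _ * _ = c _ * c _
    rw [hψ, ← map_mul, ← map_mul, h1]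
  rw [oreDiv_smul_char _ _ _ _ _ _ h2, h]
  congr 1
  apply Subtype.ext
  show c (_ * _) = c _ * c _
  rw [map_mul]

lemma oreExt_comp (φ' : X →+ X) (c' : R →+* R) (hc' : ∀ s : S, c' s ∈ S) (h' : ∀ (f : R) (x : X), φ' (f • x) = c' f • φ' x)
    (h1 : ∀ x, φ' (φ x) = x) (h2 : ∀ f, c' (c f) = f) (y : OreLocalization S X) :
    oreExt φ' c' hc' h' (oreExt φ c hc h y) = y := by
  induction y with | _ x s
  rw [oreExt_oreDiv, oreExt_oreDiv, h1]
  congr 1
  apply Subtype.ext
  exact h2 s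

/-- extension of a semilinear bijection to the localization -/
noncomputable def oreEquiv (φ : X ≃+ X) (c : R ≃+* R) (hc : ∀ s : S, c s ∈ S) (hc' : ∀ s : S, c.symm s ∈ S)
    (h : ∀ (f : R) (x : X), φ (f • x) = c f • φ x) : OreLocalization S X ≃+ OreLocalization S X where
  toFun := oreExt φ.toAddMonoidHom c.toRingHom hc h
  invFun := oreExt φ.symm.toAddMonoidHom c.symm.toRingHom hc' (by
    intro f x
    show φ.symm (f • x) = c.symm f • φ.symm x
    rw [AddEquiv.symm_apply_eq, h]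
    simp)
  left_inv y := by
    apply oreExt_comp
    · intro x; simp
    · intro x; simp
  right_inv y := by
    apply oreExt_comp
    · intro x; simp
    · intro x; simp
  map_add' := oreExt_add _ _ _ _

lemma oreEquiv_oreDiv (φ : X ≃+ X) (c : R ≃+* R) (hc : ∀ s : S, c s ∈ S) (hc' : ∀ s : S, c.symm s ∈ S)
    (h : ∀ (f : R) (x : X), φ (f • x) = c f • φ x) (x : X) (s : S) :
    oreEquiv φ c hc hc' h (x /ₒ s) = φ x /ₒ (⟨c s, hc s⟩ : S) := rfl

/-- extension of a ring automorphism to the localization -/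
noncomputable def oreRingEquiv (c : R ≃+* R) (hc : ∀ s : S, c s ∈ S) (hc' : ∀ s : S, c.symm s ∈ S) :
    OreLocalization S R ≃+* OreLocalization S R :=
  { oreEquiv (X := R) c.toAddEquiv c hc hc' (by intro f x; simp) with
    map_mul' := by
      intro k y
      exact oreExt_smul (X := R) c.toAddEquiv.toAddMonoidHom c.toRingHom hc (by intro f x; simp)
        c.toAddEquiv.toAddMonoidHom (fun _ => rfl) k y }

lemma oreRingEquiv_oreDiv (c : R ≃+* R) (hc : ∀ s : S, c s ∈ S) (hc' : ∀ s : S, c.symm s ∈ S) (x : R) (s : S) :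
    oreRingEquiv c hc hc' (x /ₒ s) = c x /ₒ (⟨c s, hc s⟩ : S) := rfl

lemma oreEquiv_smul (φ : X ≃+ X) (c : R ≃+* R) (hc : ∀ s : S, c s ∈ S) (hc' : ∀ s : S, c.symm s ∈ S)
    (h : ∀ (f : R) (x : X), φ (f • x) = c f • φ x) (k : OreLocalization S R) (y : OreLocalization S X) :
    oreEquiv φ c hc hc' h (k • y) = oreRingEquiv c hc hc' k • oreEquiv φ c hc hc' h y :=
  oreExt_smul φ.toAddMonoidHom c.toRingHom hc h c.toAddEquiv.toAddMonoidHom (fun f => rfl) k y

end

end C3da71
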