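import Pool.Agent.Lib.MP_c3da71_al.RSpan

/-!
# MP_c3da71_al: case T, independence over `K`
-/

set_option autoImplicit false

namespace C3da71

/-- A semilinear automorphism `h` of `V`, compatible with an automorphism `σ` of `K` preserving
`D` and permuting the lines `D u b`. -/
structure TAct {D K B V : Type*} [DivisionRing D] [DivisionRing K] [AddCommGroup B]
    [AddCommGroup V] [Module K V] (F : FracData D K B) (h : V ≃+ V) where
  σ : K ≃+* K
  τ : D ≃+* D
  β : B ≃+ B
  hσ : ∀ (k : K) (x : V), h (k • x) = σ k • h x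
  hτ : ∀ d, σ (F.i d) = F.i (τ d)
  hβ : ∀ b, ∃ d : D, d ≠ 0 ∧ σ (F.u b) = F.i d * F.u (β b)

variable {D K B V : Type*} [DivisionRing D] [DivisionRing K] [AddCommGroup B]
  [AddCommGroup V] [Module K V] [Module D V] {F : FracData D K B} {h : V ≃+ V}

namespace TAct

variable (t : TAct F h) (hD : ∀ (d : D) (x : V), d • x = F.i d • x)
include hD

/-- `Rsp P W` is stable if `P` is `β`-invariant and `W` is stable. -/
lemma stable_Rsp {P : B → Prop} (hP : ∀ b, P (t.β b) ↔ P b) {W : Submodule D V}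
    (hW : Stable h W) : Stable h (F.Rsp P W) := by
  have h1 : ∀ x ∈ F.Rsp P W, h x ∈ F.Rsp P W := by
    intro x hx
    refine Submodule.span_induction (p := fun x _ => h x ∈ F.Rsp P W) ?_ ?_ ?_ ?_ hx
    · rintro x ⟨b, hb, w, hw, rfl⟩
      obtain ⟨d, -, hd⟩ := t.hβ b
      rw [t.hσ, hd, mul_smul, ← hD]
      exact Submodule.smul_mem _ _ (F.mem_Rsp_of ((hP b).2 hb) ((hW w).2 hw))
    · rw [map_zero]; exact zero_mem _
    · intro x y _ _ hx hy
      rw [map_add]; exact add_mem hx hy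
    · intro d x _ hx
      rw [hD, t.hσ, t.hτ, ← hD]
      exact Submodule.smul_mem _ _ hx
  have h2 : ∀ x ∈ F.Rsp P W, h.symm x ∈ F.Rsp P W := by
    intro x hx
    refine Submodule.span_induction (p := fun x _ => h.symm x ∈ F.Rsp P W) ?_ ?_ ?_ ?_ hx
    · rintro x ⟨b, hb, w, hw, rfl⟩
      obtain ⟨d, hd0, hd⟩ := t.hβ (t.β.symm b)
      rw [AddEquiv.apply_symm_apply] at hd
      have hw' : h.symm w ∈ W := (hW _).1 (by simpa using hw)
      obtain ⟨d', hd'⟩ : ∃ d', d = t.τ d' := ⟨t.τ.symm d, by simp⟩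
      have hd'0 : d' ≠ 0 := by rintro rfl; simp at hd'; exact hd0 hd'
      have e1 : h (F.i d'⁻¹ • F.u (t.β.symm b) • h.symm w) = F.u b • w := by
        rw [t.hσ, t.hσ, hd, t.hτ, hd', AddEquiv.apply_symm_apply, ← mul_smul, ← mul_assoc,
          ← map_mul, map_inv₀, inv_mul_cancel₀ (by rwa [← hd']), map_one, one_mul]
      rw [← e1, AddEquiv.symm_apply_apply, ← hD]
      exact Submodule.smul_mem _ _ (F.mem_Rsp_of ((hP _).1 (by simpa using hb)) hw')
    · rw [map_zero]; exact zero_mem _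
    · intro x y _ _ hx hy
      rw [map_add]; exact add_mem hx hy
    · intro d x _ hx
      have : h.symm (d • x) = (t.τ.symm d) • h.symm x := by
        apply h.injective
        rw [AddEquiv.apply_symm_apply, hD, hD, t.hσ, t.hτ, AddEquiv.apply_symm_apply]
        simp
      rw [this]
      exact Submodule.smul_mem _ _ hx
  intro x
  constructor
  · intro hx
    simpa using h2 _ hx
  · exact h1 x

omit hD [Module D V] in
lemma iter_u (n : ℕ) (b : B) (x : V) :
    ∃ d : D, d ≠ 0 ∧ h^[n] (F.u b • x) = F.i d • F.u (t.β^[n] b) • h^[n] x := by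
  induction n with
  | zero => exact ⟨1, one_ne_zero, by simp⟩
  | succ n ih =>
    obtain ⟨d, hd, h1⟩ := ih
    obtain ⟨e, he, h2⟩ := t.hβ (t.β^[n] b)
    refine ⟨t.τ d * e, mul_ne_zero (by simpa using hd) he, ?_⟩
    rw [Function.iterate_succ_apply', h1, t.hσ, t.hσ, t.hτ, h2, Function.iterate_succ_apply',
      Function.iterate_succ_apply', ← mul_smul, ← mul_smul, map_mul, mul_assoc]

omit hD [Module K V] [Module D V] in
lemma iter_ne {h : V ≃+ V} (n : ℕ) {x : V} (hx : x ≠ 0) : h^[n] x ≠ 0 := by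
  induction n with
  | zero => simpa
  | succ n ih =>
    rw [Function.iterate_succ_apply']
    exact fun h0 => ih (h.injective (by rw [h0, map_zero]))

omit hD [Module K V] in
lemma iter_mem {h : V ≃+ V} {W : Submodule D V} (hW : Stable h W) (n : ℕ) {x : V} (hx : x ∈ W) :
    h^[n] x ∈ W := by
  induction n with
  | zero => simpa
  | succ n ih =>
    rw [Function.iterate_succ_apply']
    exact (hW _).2 ih

omit hD [Module K V] [Module D V] in
lemma iter_sum {h : V ≃+ V} {ι : Type*} (n : ℕ) (s : Finset ι) (f : ι → V) :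
    h^[n] (∑ i ∈ s, f i) = ∑ i ∈ s, h^[n] (f i) := by
  induction n with
  | zero => simp
  | succ n ih =>
    rw [Function.iterate_succ_apply', ih, map_sum]
    simp [Function.iterate_succ_apply']

/-- the subgroup of fixed points of `β`. -/
def A (t : TAct F h) : AddSubgroup B where
  carrier := {b | t.β b = b}
  zero_mem' := by simp
  add_mem' := by
    intro a b ha hb
    simp only [Set.mem_ofPred_eq] at *
    rw [map_add, ha, hb]
  neg_mem' := by
    intro a ha
    simp only [Set.mem_ofPred_eq] at *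
    rw [map_neg, ha]

omit hD [Module D V] in
lemma mem_A {b : B} : b ∈ t.A ↔ t.β b = b := Iff.rfl

variable {χ : B →+ ℝ} {v : K → ℝ} {w : V → ℝ}

/-- **(*)** the pieces of `R W` over different cosets of `A` are independent. -/
theorem star (hχ : Function.Injective χ) (hv : F.IsVal χ v) (hw : IsVVal v w)
    (hfix : ∀ b n, 0 < n → t.β^[n] b = b → t.β b = b) (W : Submodule D V)
    [FiniteDimensional D W] (hW : Stable h W) :
    iSupIndep (fun c : B ⧸ t.A => F.Rsp (fun b => (QuotientAddGroup.mk b : B ⧸ t.A) = c) W) := by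
  classical
  rw [iSupIndep_iff_finsetSum_eq_zero_imp_eq_zero]
  intro s y hy hsum c0 hc0
  by_contra hne0
  -- the nonzero part
  set s' := s.filter (fun c => y c ≠ 0) with hs'
  have hs'ne : s'.Nonempty := ⟨c0, by simp [hs', hc0, hne0]⟩
  have hsum' : ∑ c ∈ s', y c = 0 := by
    rw [← hsum]
    apply Finset.sum_filter_of_ne
    intro c _ hc; exact hc
  -- representatives
  have hrep : ∀ c : B ⧸ t.A, ∃ b : B, (QuotientAddGroup.mk b : B ⧸ t.A) = c :=
    fun c => QuotientAddGroup.mk_surjective c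
  choose r hr using hrep
  have hz : ∀ c ∈ s', ∃ (T : Finset B) (z : V), (∀ b ∈ T, t.β b = b) ∧
      z ∈ F.Rsp (fun b => b ∈ T) W ∧ z ≠ 0 ∧ y c = F.u (r c) • z := by
    intro c hc
    have hcs : c ∈ s := (Finset.mem_filter.1 hc).1
    have hyc : y c ≠ 0 := (Finset.mem_filter.1 hc).2
    obtain ⟨d, hd, hinv⟩ := F.u_inv (r c)
    have h1 : (F.u (r c))⁻¹ • y c ∈ F.Rsp (fun b => t.β b = b) W := by
      rw [hinv, mul_smul, ← hD]
      apply Submodule.smul_mem
      refine FracData.smul_Rsp hD _ ?_ (hy c hcs)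
      intro b hb
      have h2 : (QuotientAddGroup.mk (r c) : B ⧸ t.A) = QuotientAddGroup.mk b := by rw [hb, hr]
      rw [QuotientAddGroup.eq] at h2
      exact h2
    obtain ⟨T, hT, hz⟩ := FracData.exists_finite hD h1
    refine ⟨T, _, hT, hz, smul_ne_zero (inv_ne_zero (F.u_ne _)) hyc, ?_⟩
    rw [smul_inv_smul₀ (F.u_ne _)]
  choose! T z hTfix hzT hz0 hyz using hz
  -- the finite set of values
  have hfin : ∀ c ∈ s', {r : ℝ | ∃ x ∈ F.Rsp (fun b => b ∈ T c) W, x ≠ 0 ∧ w x = r}.Finite := by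
    intro c hc
    have : FiniteDimensional D (F.Rsp (fun b => b ∈ T c) W) :=
      FracData.Rsp_fg hD (by simp) W
    exact IsVVal.finite_values hD hv hw _
  set Φ : Set ℝ := ⋃ c ∈ s', {r : ℝ | ∃ x ∈ F.Rsp (fun b => b ∈ T c) W, x ≠ 0 ∧ w x = r} with hΦ
  have hΦfin : Φ.Finite := by
    apply Set.Finite.biUnion (Finset.finite_toSet s')
    intro c hc; exact hfin c hc
  set Ψ : Set ℝ := Set.image2 (fun a b => a - b) Φ Φ with hΨ
  have hΨfin : Ψ.Finite := hΦfin.image2 _ hΦfin
  -- for each `n` there is a coincidence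
  have hcoin : ∀ n : ℕ, ∃ p : (B ⧸ t.A) × (B ⧸ t.A), p ∈ s' ×ˢ s' ∧ p.1 ≠ p.2 ∧
      χ (t.β^[n] (r p.1 - r p.2)) ∈ Ψ := by
    intro n
    have h0 : ∑ c ∈ s', h^[n] (y c) = 0 := by
      rw [← iter_sum, hsum', iterate_map_zero]
    have h1 : ∃ c ∈ s', ∃ c' ∈ s', w (h^[n] (y c)) = w (h^[n] (y c')) ∧ c ≠ c' := by
      by_contra hcon
      push Not at hcon
      exact IsVVal.sum_ne_zero hv hw s' (fun c => h^[n] (y c)) hs'ne
        (fun c hc => iter_ne n (Finset.mem_filter.1 hc).2) hcon h0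
    obtain ⟨c, hc, c', hc', he, hcc⟩ := h1
    have hval : ∀ c ∈ s', ∃ φ ∈ Φ, w (h^[n] (y c)) = χ (t.β^[n] (r c)) + φ := by
      intro c hc
      obtain ⟨d, hd, h2⟩ := t.iter_u n (r c) (z c)
      have hzn : h^[n] (z c) ≠ 0 := iter_ne n (hz0 c hc)
      have hmem : h^[n] (z c) ∈ F.Rsp (fun b => b ∈ T c) W := by
        apply iter_mem _ n (hzT c hc)
        apply t.stable_Rsp hD _ hW
        intro b
        constructor
        · intro hb
          have := hTfix c hc _ hb
          have h3 : t.β b = b := t.β.injective this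
          rwa [h3] at hb
        · intro hb
          rw [hTfix c hc _ hb]; exact hb
      refine ⟨w (h^[n] (z c)), ?_, ?_⟩
      · rw [hΦ]
        simp only [Set.mem_iUnion]
        exact ⟨c, hc, _, hmem, hzn, rfl⟩
      · rw [hyz c hc, h2, hw.smul _ _ ((map_ne_zero F.i).2 hd) (smul_ne_zero (F.u_ne _) hzn),
          hv.scal hd, zero_add, hw.smul _ _ (F.u_ne _) hzn, hv.u]
    obtain ⟨φ, hφ, h3⟩ := hval c hc
    obtain ⟨φ', hφ', h4⟩ := hval c' hc'
    refine ⟨(c, c'), Finset.mk_mem_product hc hc', hcc, ?_⟩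
    simp only
    rw [iterate_map_sub, map_sub]
    refine ⟨φ', hφ', φ, hφ, ?_⟩
    simp only
    rw [h3, h4] at he
    linarith
  choose p hp using hcoin
  -- pigeonhole
  obtain ⟨n, -, m, -, hnm, heq⟩ := Set.Infinite.exists_ne_map_eq_of_mapsTo
    (s := (Set.univ : Set ℕ)) (t := (↑(s' ×ˢ s') : Set ((B ⧸ t.A) × (B ⧸ t.A))) ×ˢ Ψ)
    (f := fun n => (p n, χ (t.β^[n] (r (p n).1 - r (p n).2)))) Set.infinite_univ
    (fun n _ => ⟨(hp n).1, (hp n).2.2⟩) ((Finset.finite_toSet _).prod hΨfin)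
  wlog hlt : n < m generalizing n m
  · exact this m n hnm.symm heq.symm (lt_of_le_of_ne (not_lt.1 hlt) hnm.symm)
  simp only [Prod.mk.injEq] at heq
  obtain ⟨h1, h2⟩ := heq
  rw [← h1] at h2
  have h3 := hχ h2
  set δ := r (p n).1 - r (p n).2 with hδ
  have h4 : t.β^[m - n] (t.β^[n] δ) = t.β^[n] δ := by
    rw [← Function.iterate_add_apply, Nat.sub_add_cancel hlt.le, ← h3]
  have h5 := hfix _ _ (Nat.sub_pos_of_lt hlt) h4
  have h6 : t.β δ = δ := by
    apply t.β.injective.iterate n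
    rw [← Function.iterate_succ_apply, Function.iterate_succ_apply']
    exact h5
  apply (hp n).2.1
  rw [← hr (p n).1, ← hr (p n).2, QuotientAddGroup.eq]
  have h7 : δ ∈ t.A := h6
  have : -r (p n).1 + r (p n).2 = -δ := by rw [hδ]; abel
  rw [this]
  exact neg_mem h7

end TAct

end C3da71
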