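import Pool.Agent.Lib.MP_c3da71_al.Defs

/-! # Torsion elements over `E * B`, `B = ℤ^r` -/

set_option autoImplicit false

namespace C3da71

/-! ### Counting in boxes -/

theorem exists_box (r c : ℕ) : ∃ n : ℕ, 2 * c ≤ n ∧ n ^ r < 2 * (n - 2 * c) ^ r := by
  refine ⟨4 * c * r + 2 * c + 1, by omega, ?_⟩
  set n := 4 * c * r + 2 * c + 1 with hn
  have hnc : 2 * c ≤ n := by omega
  have hn0 : (0 : ℝ) < n := by
    rw [hn]; positivity
  have h1 : (n : ℝ) - 2 * c = n * (1 + (-(2 * c / n))) := by
    field_simp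
    ring
  have h2 : (-2 : ℝ) ≤ -(2 * c / n) := by
    have : (2 * c / n : ℝ) ≤ 1 := by
      rw [div_le_one hn0]
      exact_mod_cast hnc
    linarith
  have h3 := one_add_mul_le_pow h2 r
  have h4 : (1 : ℝ) / 2 < 1 + r * (-(2 * c / n)) := by
    have : (r : ℝ) * (2 * c / n) < 1 / 2 := by
      rw [mul_div_assoc', div_lt_iff₀ hn0]
      rw [hn]
      push_cast
      nlinarith [(Nat.cast_nonneg c : (0 : ℝ) ≤ c)]
    linarith
  have h5 : (n : ℝ) ^ r < 2 * ((n : ℝ) - 2 * c) ^ r := by
    rw [h1, mul_pow]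
    have h6 : (0 : ℝ) < (n : ℝ) ^ r := by positivity
    nlinarith
  have h7 : ((n - 2 * c : ℕ) : ℝ) = (n : ℝ) - 2 * c := by
    rw [Nat.cast_sub hnc]; push_cast; ring
  rw [← h7] at h5
  exact_mod_cast h5

/-- the box -/
noncomputable def box (r : ℕ) (a b : ℤ) : Finset (Fin r → ℤ) := Fintype.piFinset fun _ => Finset.Ico a b

lemma mem_box {r : ℕ} {a b : ℤ} {x : Fin r → ℤ} : x ∈ box r a b ↔ ∀ i, a ≤ x i ∧ x i < b := by
  simp [box]

lemma card_box {r : ℕ} (a b : ℤ) : (box r a b).card = (b - a).toNat ^ r := by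
  simp [box]

/-! ### Torsion -/

section

variable {G : Type} [Group G] {E : Type} [DivisionRing E] {X : Type} [AddCommGroup X] [Module E X]
variable (P : PAct G E X) {B : Subgroup G} {r : ℕ} (j : B ≃* Multiplicative (Fin r → ℤ))

/-- the orbit of `x` under `B = ℤ^r` -/
def orb (x : X) (b : Fin r → ℤ) : X := P.ρ ((j.symm (Multiplicative.ofAdd b) : B) : G) x

lemma orb_add (x y : X) (b : Fin r → ℤ) : orb P j (x + y) b = orb P j x b + orb P j y b := by
  simp [orb]

/-- translates of a relation -/
lemma orb_mem_of_relation (x : X) (F : Finset (Fin r → ℤ)) (e : (Fin r → ℤ) → E) (m : Fin r → ℤ) (hm : m ∈ F)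
    (he : e m ≠ 0) (hrel : ∑ s ∈ F, e s • orb P j x s = 0) (a : Fin r → ℤ) :
    orb P j x (a + m) ∈ Submodule.span E ((fun s => orb P j x (a + s)) '' ((F.erase m : Finset _) : Set (Fin r → ℤ))) := by
  classical
  let g : G := ((j.symm (Multiplicative.ofAdd a) : B) : G)
  have h1 : ∀ s, ∃ c : Eˣ, P.ρ g (orb P j x s) = (c : E) • orb P j x (a + s) := by
    intro s
    obtain ⟨c, hc⟩ := P.mul g ((j.symm (Multiplicative.ofAdd s) : B) : G)
    refine ⟨c, ?_⟩
    show P.ρ g (P.ρ _ x) = _
    rw [hc]
    simp only [orb, g, ofAdd_add, map_mul, Subgroup.coe_mul]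
  choose c hc using h1
  have h2 : ∑ s ∈ F, (P.σ g (e s) * (c s : E)) • orb P j x (a + s) = 0 := by
    have := congrArg (P.ρ g) hrel
    rw [map_zero, map_sum] at this
    rw [← this]
    refine Finset.sum_congr rfl fun s _ => ?_
    rw [P.semi, hc, smul_smul]
  rw [← Finset.add_sum_erase _ _ hm] at h2
  have h3 : P.σ g (e m) * (c m : E) ≠ 0 := by
    refine mul_ne_zero ?_ (c m).ne_zero
    rwa [Ne, map_eq_zero_iff _ (P.σ g).injective]
  have h4 : (P.σ g (e m) * (c m : E)) • orb P j x (a + m) ∈
      Submodule.span E ((fun s => orb P j x (a + s)) '' ((F.erase m : Finset _) : Set (Fin r → ℤ))) := by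
    rw [add_eq_zero_iff_eq_neg] at h2
    rw [h2]
    refine Submodule.neg_mem _ (Submodule.sum_mem _ fun s hs => Submodule.smul_mem _ _ ?_)
    exact Submodule.subset_span ⟨s, hs, rfl⟩
  have h5 := Submodule.smul_mem _ (P.σ g (e m) * (c m : E))⁻¹ h4
  rwa [smul_smul, inv_mul_cancel₀ h3, one_smul] at h5

/-- dimension count for a torsion element -/
theorem finrank_torsion (x : X) (hx : ¬ LinearIndependent E (orb P j x)) :
    ∃ c : ℕ, ∀ c', c ≤ c' → ∀ n : ℕ, 2 * c' ≤ n →
      Module.finrank E (Submodule.span E (orb P j x '' (box r 0 n : Set (Fin r → ℤ)))) + (n - 2 * c') ^ r ≤ n ^ r := by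
  classical
  rw [not_linearIndependent_iff] at hx
  obtain ⟨F, e, hrel, i0, hi0, he0⟩ := hx
  -- restrict to the support
  let F' := F.filter fun s => e s ≠ 0
  have hrel' : ∑ s ∈ F', e s • orb P j x s = 0 := by
    rw [← hrel]
    apply Finset.sum_subset (Finset.filter_subset _ _)
    intro s hs hs'
    have : e s = 0 := by
      by_contra h
      exact hs' (Finset.mem_filter.2 ⟨hs, h⟩)
    rw [this, zero_smul]
  have hF' : F'.Nonempty := ⟨i0, Finset.mem_filter.2 ⟨hi0, he0⟩⟩
  obtain ⟨m, hmF, hm⟩ : ∃ m ∈ F', ∀ s ∈ F', toLex s ≤ toLex m :=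
    Finset.exists_max_image F' (fun s => toLex s) hF'
  have hem : e m ≠ 0 := (Finset.mem_filter.1 hmF).2
  -- bound for `F' - m`
  let c : ℕ := ∑ s ∈ F', ∑ i, ((s - m) i).natAbs
  have hc : ∀ s ∈ F', ∀ i, |(s - m) i| ≤ (c : ℤ) := by
    intro s hs i
    rw [Int.abs_eq_natAbs]
    have h1 : ((s - m) i).natAbs ≤ ∑ i, ((s - m) i).natAbs :=
      Finset.single_le_sum (f := fun i => ((s - m) i).natAbs) (fun _ _ => Nat.zero_le _) (Finset.mem_univ i)
    have h2 : ∑ i, ((s - m) i).natAbs ≤ c :=
      Finset.single_le_sum (f := fun s => ∑ i, ((s - m) i).natAbs) (fun _ _ => Nat.zero_le _) hs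
    exact_mod_cast h1.trans h2
  refine ⟨c, fun c' hcc n hn => ?_⟩
  -- the span is generated by the elements outside the inner box
  have hinner : box r (c' : ℤ) (n - c') ⊆ box r 0 n := by
    intro b hb
    rw [mem_box] at hb ⊢
    intro i
    have := hb i
    constructor <;> omega
  have key : ∀ b ∈ box r 0 n, orb P j x b ∈
      Submodule.span E (orb P j x '' ((box r 0 n \ box r (c' : ℤ) (n - c') : Finset _) : Set (Fin r → ℤ))) := by
    have wf : WellFounded fun p q : box r 0 n => toLex p.1 < toLex q.1 := by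
      have : Std.Irrefl fun p q : box r 0 n => toLex p.1 < toLex q.1 := ⟨fun p => lt_irrefl _⟩
      have : IsTrans (box r 0 n) fun p q : box r 0 n => toLex p.1 < toLex q.1 := ⟨fun p q s h1 h2 => lt_trans h1 h2⟩
      exact Finite.wellFounded_of_trans_of_irrefl _
    intro b hb
    induction' hbb : (⟨b, hb⟩ : box r 0 n) using wf.induction with p ih generalizing b
    subst hbb
    by_cases hin : b ∈ box r (c' : ℤ) (n - c')
    · have h1 := orb_mem_of_relation P j x F' e m hmF hem hrel' (b - m)
      rw [sub_add_cancel] at h1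
      refine Submodule.span_le.2 ?_ h1
      rintro _ ⟨s, hs, rfl⟩
      have hs' := Finset.mem_erase.1 hs
      have h2 : b - m + s ∈ box r 0 n := by
        rw [mem_box] at hin ⊢
        intro i
        have h3 := hin i
        have h4 := abs_le.1 (hc s hs'.2 i)
        simp only [Pi.add_apply, Pi.sub_apply] at *
        constructor <;> omega
      refine ih ⟨b - m + s, h2⟩ ?_ (b - m + s) h2 rfl
      show toLex (b - m + s) < toLex b
      have h5 : toLex s < toLex m := lt_of_le_of_ne (hm s hs'.2) (fun h => hs'.1 (toLex.injective h))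
      have h6 : toLex (b - m + s) = toLex (b - m) + toLex s := rfl
      have h7 : toLex b = toLex (b - m) + toLex m := by
        rw [← toLex_add, sub_add_cancel]
      rw [h6, h7]
      exact add_lt_add_of_le_of_lt le_rfl h5
    · exact Submodule.subset_span ⟨b, Finset.mem_coe.2 (Finset.mem_sdiff.2 ⟨hb, hin⟩), rfl⟩
  have hle : Submodule.span E (orb P j x '' (box r 0 n : Set (Fin r → ℤ))) ≤
      Submodule.span E (orb P j x '' ((box r 0 n \ box r (c' : ℤ) (n - c') : Finset _) : Set (Fin r → ℤ))) := by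
    rw [Submodule.span_le]
    rintro _ ⟨b, hb, rfl⟩
    exact key b hb
  have hfin : Module.Finite E (Submodule.span E (orb P j x '' ((box r 0 n \ box r (c' : ℤ) (n - c') : Finset _) : Set (Fin r → ℤ)))) := by
    apply Module.Finite.span_of_finite
    exact (Finset.finite_toSet _).image _
  have h1 := Submodule.finrank_mono hle
  have h2 : Module.finrank E (Submodule.span E (orb P j x '' ((box r 0 n \ box r (c' : ℤ) (n - c') : Finset _) : Set (Fin r → ℤ)))) ≤
      (box r 0 n \ box r (c' : ℤ) (n - c')).card := by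
    rw [← Finset.coe_image]
    exact (finrank_span_finset_le_card _).trans Finset.card_image_le
  have h3 : (box r 0 n \ box r (c' : ℤ) (n - c')).card + (n - 2 * c') ^ r = n ^ r := by
    have h4 := Finset.card_sdiff_add_card_eq_card hinner
    rw [card_box, card_box] at h4
    have h5 : ((n : ℤ) - c' - c').toNat = n - 2 * c' := by omega
    have h6 : ((n : ℤ) - 0).toNat = n := by omega
    rw [h5, h6] at h4
    exact h4
  omega

/-- sums of torsion elements are torsion -/
theorem torsion_add (x y : X) (hx : ¬ LinearIndependent E (orb P j x)) (hy : ¬ LinearIndependent E (orb P j y)) :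
    ¬ LinearIndependent E (orb P j (x + y)) := by
  classical
  intro h
  obtain ⟨c1, hc1⟩ := finrank_torsion P j x hx
  obtain ⟨c2, hc2⟩ := finrank_torsion P j y hy
  obtain ⟨n, hn, hlt⟩ := exists_box r (max c1 c2)
  have h1 := hc1 _ (le_max_left c1 c2) n hn
  have h2 := hc2 _ (le_max_right c1 c2) n hn
  have hle : Submodule.span E (orb P j (x + y) '' (box r 0 n : Set (Fin r → ℤ))) ≤
      Submodule.span E (orb P j x '' (box r 0 n : Set (Fin r → ℤ))) ⊔
      Submodule.span E (orb P j y '' (box r 0 n : Set (Fin r → ℤ))) := by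
    rw [Submodule.span_le]
    rintro _ ⟨b, hb, rfl⟩
    rw [orb_add]
    exact Submodule.add_mem_sup (Submodule.subset_span ⟨b, hb, rfl⟩) (Submodule.subset_span ⟨b, hb, rfl⟩)
  have hf1 : Module.Finite E (Submodule.span E (orb P j x '' (box r 0 n : Set (Fin r → ℤ)))) :=
    Module.Finite.span_of_finite _ ((Finset.finite_toSet _).image _)
  have hf2 : Module.Finite E (Submodule.span E (orb P j y '' (box r 0 n : Set (Fin r → ℤ)))) :=
    Module.Finite.span_of_finite _ ((Finset.finite_toSet _).image _)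
  have h3 := Submodule.finrank_mono hle
  have h4 := Submodule.finrank_add_le_finrank_add_finrank
    (Submodule.span E (orb P j x '' (box r 0 n : Set (Fin r → ℤ))))
    (Submodule.span E (orb P j y '' (box r 0 n : Set (Fin r → ℤ))))
  have h5 : Module.finrank E (Submodule.span E (orb P j (x + y) '' (box r 0 n : Set (Fin r → ℤ)))) = n ^ r := by
    rw [← Finset.coe_image]
    have h6 : LinearIndependent E ((↑) : (Finset.image (orb P j (x + y)) (box r 0 n)) → X) := by
      have := (h.comp ((↑) : (box r 0 n : Set (Fin r → ℤ)) → (Fin r → ℤ)) Subtype.val_injective).linearIndepOn_id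
      refine this.mono ?_ 
      intro z hz
      rw [Finset.mem_coe, Finset.mem_image] at hz
      obtain ⟨b, hb, rfl⟩ := hz
      exact ⟨⟨b, hb⟩, rfl⟩
    rw [finrank_span_finset_eq_card h6, Finset.card_image_of_injective _ h.injective, card_box]
    congr 1
  omega

/-- transport of linear independence by semilinear maps -/
theorem li_semilin {ι ι' : Type*} (v : ι → X) (v' : ι' → X) (φ : X →+ X) (τ : E ≃+* E)
    (hφ : ∀ e x, φ (e • x) = τ e • φ x) (f : ι → ι') (hf : Function.Injective f) (c : ι → Eˣ)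
    (h : ∀ i, φ (v i) = (c i : E) • v' (f i)) (hv' : LinearIndependent E v') : LinearIndependent E v := by
  classical
  rw [linearIndependent_iff']
  intro s e hs i hi
  have h1 := congrArg φ hs
  rw [map_zero, map_sum] at h1
  have h2 : ∑ i ∈ s, (τ (e i) * (c i : E)) • v' (f i) = 0 := by
    rw [← h1]
    refine Finset.sum_congr rfl fun i _ => ?_
    rw [hφ, h, smul_smul]
  have h3 := (linearIndependent_iff'.1 (hv'.comp f hf)) s (fun i => τ (e i) * (c i : E)) h2 i hi
  rcases mul_eq_zero.1 h3 with h4 | h4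
  · rwa [map_eq_zero_iff _ τ.injective] at h4
  · exact absurd h4 (c i).ne_zero

lemma li_orb (x : X) : LinearIndependent E (orb P j x) ↔ LinearIndependent E (fun b : B => P.ρ (b : G) x) := by
  have h : orb P j x = (fun b : B => P.ρ (b : G) x) ∘ (Multiplicative.ofAdd.trans j.symm.toEquiv) := rfl
  rw [h, linearIndependent_equiv]

theorem torsion_smul (e : E) (x : X) (hx : ¬ LinearIndependent E (orb P j x)) :
    ¬ LinearIndependent E (orb P j (e • x)) := by
  intro h
  have he : e ≠ 0 := by
    rintro rfl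
    have := h.ne_zero 0
    simp [orb] at this
  apply hx
  let c : (Fin r → ℤ) → Eˣ := fun b =>
    (Units.mk0 (P.σ ((j.symm (Multiplicative.ofAdd b) : B) : G) e)
      (by rwa [Ne, map_eq_zero_iff _ (P.σ _).injective]))⁻¹
  refine li_semilin (orb P j x) (orb P j (e • x)) (AddMonoidHom.id X) (RingEquiv.refl E) (fun _ _ => rfl) id
    Function.injective_id c ?_ h
  intro b
  have h1 : orb P j (e • x) b = P.σ ((j.symm (Multiplicative.ofAdd b) : B) : G) e • orb P j x b := P.semi _ _ _
  show orb P j x b = (c b : E) • orb P j (e • x) b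
  rw [h1, smul_smul]
  have h2 : (c b : E) * P.σ ((j.symm (Multiplicative.ofAdd b) : B) : G) e = 1 := by
    simp only [c, Units.val_inv_eq_inv_val, Units.val_mk0]
    exact inv_mul_cancel₀ (by rwa [Ne, map_eq_zero_iff _ (P.σ _).injective])
  rw [h2, one_smul]

end

/-- The elements `x ∈ X` that are torsion over `E * B` (`B ≅ ℤ^r` normal) form a stable subspace. -/
theorem exists_torsion' {G : Type} [Group G] {E : Type} [DivisionRing E] {X : Type} [AddCommGroup X] [Module E X]
    (P : PAct G E X) (B : Subgroup G) (hB : B.Normal) (r : ℕ)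
    (hBr : Nonempty (B ≃* Multiplicative (Fin r → ℤ))) :
    ∃ T : Submodule E X, P.Stable T ∧ ∀ x, x ∈ T ↔ ¬ LinearIndependent E (fun b : B => P.ρ (b : G) x) := by
  classical
  obtain ⟨j⟩ := hBr
  refine ⟨{ carrier := {x | ¬ LinearIndependent E (fun b : B => P.ρ (b : G) x)}
            add_mem' := ?_
            zero_mem' := ?_
            smul_mem' := ?_ }, ?_, fun x => Iff.rfl⟩
  · intro x y hx hy
    simp only [Set.mem_ofPred_eq, ← li_orb P j] at *
    exact torsion_add P j x y hx hy
  · simp only [Set.mem_ofPred_eq]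
    intro h
    exact h.ne_zero 1 (map_zero _)
  · intro e x hx
    simp only [Set.mem_ofPred_eq, ← li_orb P j] at *
    exact torsion_smul P j e x hx
  · intro g x hx
    have hx' : ¬ LinearIndependent E (fun b : B => P.ρ (b : G) x) := hx
    show ¬ LinearIndependent E (fun b : B => P.ρ (b : G) (P.ρ g x))
    intro h
    apply hx'
    have h1 : ∀ b : B, ∃ c : Eˣ, P.ρ g (P.ρ (b : G) x) = (c : E) • P.ρ ((MulAut.conjNormal g b : B) : G) (P.ρ g x) := by
      intro b
      obtain ⟨c1, hc1⟩ := P.mul g b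
      obtain ⟨c2, hc2⟩ := P.mul ((MulAut.conjNormal g b : B) : G) g
      refine ⟨c1 * c2⁻¹, ?_⟩
      have h2 : ((MulAut.conjNormal g b : B) : G) * g = g * b := by
        rw [MulAut.conjNormal_apply]; group
      rw [hc1, hc2, h2, smul_smul, Units.val_mul, mul_assoc, Units.inv_mul, mul_one]
    choose c hc using h1
    exact li_semilin (fun b : B => P.ρ (b : G) x) (fun b : B => P.ρ (b : G) (P.ρ g x)) (P.ρ g).toAddMonoidHom (P.σ g)
      (fun e x => P.semi g e x) (fun b => MulAut.conjNormal g b) (MulAut.conjNormal g).injective c hc h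

end C3da71
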