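import Pool.Agent.Lib.MP_c3da71_al.OpRing
import Pool.Agent.Lib.MP_c3da71_al.TStar
import Pool.Agent.Lib.MP_c3da71_al.Torsion
import Pool.Agent.Lib.MP_c3da71_al.OreExt

/-! # Case T: construction of the localization -/

set_option autoImplicit false

namespace C3da71

open OreLocalization
open scoped nonZeroDivisors

namespace PAct

variable {G : Type} [Group G] {E : Type} [DivisionRing E] {X : Type} [AddCommGroup X] [Module E X]
variable (P : PAct G E X) (B : Subgroup G)

theorem op_ext {f g : P.opRing B} (h : ∀ x : X, f • x = g • x) : f = g := by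
  apply Subtype.ext
  apply AddMonoidHom.ext
  exact h

/-- operators with given coefficients -/
noncomputable def op (s : B →₀ E) : P.opRing B := s.sum fun b e => P.opScalar B e * P.opElt B b

lemma op_smul (s : B →₀ E) (x : X) : P.op B s • x = s.sum fun b e => e • P.ρ (b : G) x := by
  unfold op
  rw [Finsupp.sum, Finset.sum_smul]
  rfl

lemma exists_op (f : P.opRing B) : ∃ s : B →₀ E, f = P.op B s := by
  obtain ⟨s, hs⟩ := P.mem_opRing B f
  refine ⟨s, P.op_ext B fun x => ?_⟩
  rw [hs, op_smul]

lemma op_zero : P.op B 0 = 0 := by simp [op]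

variable {B}

/-- nonzero combinations do not kill nonzero vectors -/
lemma TF.sum_ne (h : P.TF B) {s : B →₀ E} (hs : s ≠ 0) {x : X} (hx : x ≠ 0) : P.op B s • x ≠ 0 := by
  intro h0
  rw [op_smul] at h0
  apply hs
  exact (linearIndependent_iff.1 (h x hx)) s h0

lemma TF.smul_ne (h : P.TF B) {f : P.opRing B} (hf : f ≠ 0) {x : X} (hx : x ≠ 0) : f • x ≠ 0 := by
  obtain ⟨s, rfl⟩ := P.exists_op B f
  apply h.sum_ne P _ hx
  rintro rfl
  exact hf (P.op_zero B)

lemma TF.noZeroDivisors (h : P.TF B) [Nontrivial X] : NoZeroDivisors (P.opRing B) := by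
  refine ⟨?_⟩
  intro f g hfg
  by_contra hcon
  push Not at hcon
  obtain ⟨x, hx⟩ := exists_ne (0 : X)
  have h1 := h.smul_ne P hcon.1 (h.smul_ne P hcon.2 hx)
  rw [smul_smul, hfg, zero_smul] at h1
  exact h1 rfl

lemma op_nontrivial [Nontrivial X] : Nontrivial (P.opRing B) := by
  refine ⟨⟨1, 0, ?_⟩⟩
  intro h
  obtain ⟨x, hx⟩ := exists_ne (0 : X)
  apply hx
  rw [← _root_.one_smul (P.opRing B) x, h, zero_smul]

/-- the Ore condition -/
theorem TF.ore (hTF : P.TF B) [Nontrivial X] {r : ℕ} (hBr : Nonempty (B ≃* Multiplicative (Fin r → ℤ)))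
    (f g : P.opRing B) (hg : g ≠ 0) : ∃ a b : P.opRing B, a ≠ 0 ∧ a * f = b * g := by
  classical
  obtain ⟨x0, hx0⟩ := exists_ne (0 : X)
  -- `Y = R g x0`
  let Y : Submodule E X := P.ofR B (Submodule.span (P.opRing B) {g • x0})
  have hYmem : ∀ y, y ∈ Y ↔ ∃ b : P.opRing B, b • g • x0 = y := by
    intro y
    exact Submodule.mem_span_singleton
  have hY : (P.res B).Stable Y := by
    intro b y hy
    exact P.bstable_ofR B _ (b : G) b.2 y hy
  let Q := (P.res B).quot Y hY
  obtain ⟨j⟩ := hBr
  obtain ⟨T, hT, hTm⟩ := exists_torsion' Q ⊤ inferInstance r ⟨(Subgroup.topEquiv).trans j⟩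
  -- operators on the quotient
  have hQ : ∀ (s : B →₀ E) (x : X), (Submodule.Quotient.mk (P.op B s • x) : X ⧸ Y) =
      s.sum fun b e => e • Q.ρ b (Submodule.Quotient.mk x) := by
    intro s x
    rw [op_smul, Finsupp.sum, Finsupp.sum]
    have : (Submodule.Quotient.mk (∑ a ∈ s.support, s a • P.ρ (a : G) x) : X ⧸ Y) =
        Submodule.mkQ Y (∑ a ∈ s.support, s a • P.ρ (a : G) x) := rfl
    rw [this, map_sum]
    rfl
  -- torsion elements of the quotient
  have htor : ∀ x : X, (Submodule.Quotient.mk x : X ⧸ Y) ∈ T ↔ ∃ s : B →₀ E, s ≠ 0 ∧ P.op B s • x ∈ Y := by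
    intro x
    rw [hTm]
    have h1 : LinearIndependent E (fun b : (⊤ : Subgroup B) => Q.ρ (b : B) (Submodule.Quotient.mk x)) ↔
        LinearIndependent E (fun b : B => Q.ρ b (Submodule.Quotient.mk x)) :=
      linearIndependent_equiv (Subgroup.topEquiv (G := B)).toEquiv (f := fun b : B => Q.ρ b (Submodule.Quotient.mk x))
    rw [h1, linearIndependent_iff]
    push Not
    constructor
    · rintro ⟨s, hs, hs0⟩
      refine ⟨s, hs0, ?_⟩
      rw [← Submodule.Quotient.mk_eq_zero, hQ]
      exact hs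
    · rintro ⟨s, hs, hs0⟩
      refine ⟨s, ?_, hs⟩
      rw [← Submodule.Quotient.mk_eq_zero, hQ] at hs0
      exact hs0
  -- `x0` is torsion modulo `Y`
  have hx0T : (Submodule.Quotient.mk x0 : X ⧸ Y) ∈ T := by
    rw [htor]
    obtain ⟨s, hs⟩ := P.exists_op B g
    refine ⟨s, ?_, ?_⟩
    · rintro rfl
      exact hg (by rw [hs, op_zero])
    · rw [← hs, hYmem]
      exact ⟨1, _root_.one_smul _ _⟩
  -- `f x0` is torsion modulo `Y`
  have hfx : (Submodule.Quotient.mk (f • x0) : X ⧸ Y) ∈ T := by
    obtain ⟨s, rfl⟩ := P.exists_op B f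
    rw [hQ]
    exact Submodule.sum_mem _ fun b _ => Submodule.smul_mem _ _ (hT b _ hx0T)
  rw [htor] at hfx
  obtain ⟨s, hs, hsY⟩ := hfx
  rw [hYmem] at hsY
  obtain ⟨b, hb⟩ := hsY
  refine ⟨P.op B s, b, ?_, ?_⟩
  · intro h0
    have := hTF.sum_ne P hs hx0
    rw [h0, zero_smul] at this
    exact this rfl
  · by_contra hcon
    have h1 := hTF.smul_ne P (sub_ne_zero.2 hcon) hx0
    apply h1
    rw [sub_smul, mul_smul, mul_smul, hb, sub_self]

/-- scalars as a ring homomorphism into the operator ring -/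
def opScalarHom (P : PAct G E X) (B : Subgroup G) : E →+* P.opRing B where
  toFun := P.opScalar B
  map_one' := P.op_ext B fun x => by
    rw [opScalar_smul, _root_.one_smul, _root_.one_smul]
  map_mul' a b := P.op_ext B fun x => by
    rw [mul_smul, opScalar_smul, opScalar_smul, opScalar_smul, mul_smul]
  map_zero' := P.op_ext B fun x => by
    rw [opScalar_smul, zero_smul, zero_smul]
  map_add' a b := P.op_ext B fun x => by
    rw [add_smul, opScalar_smul, opScalar_smul, opScalar_smul, add_smul]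

end PAct

/-- Let `B ≅ ℤ^r` be normal in `G` and let `X ≠ 0` be torsion-free over `E * B`. Then the localization exists. -/
theorem exists_ore' {G : Type} [Group G] {E : Type} [DivisionRing E] {X : Type} [AddCommGroup X] [Module E X]
    (P : PAct G E X) (B : Subgroup G) (hB : B.Normal) (r : ℕ)
    (j : B ≃* Multiplicative (Fin r → ℤ)) (hX : Nontrivial X) (hTF : P.TF B) :
    ∃ (K : Type) (_ : DivisionRing K) (X1 : Type) (_ : AddCommGroup X1) (_ : Module K X1)
      (F : FracData E K (Fin r → ℤ)) (ι : X →+ X1) (ρ1 : G → (X1 ≃+ X1)) (T : ∀ g : G, TAct F (ρ1 g)),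
      Function.Injective ι ∧ (∀ (e : E) (x : X), ι (e • x) = F.i e • ι x) ∧
      (∀ (b : B) (x : X), ι (P.ρ (b : G) x) = F.u (Multiplicative.toAdd (j b)) • ι x) ∧
      (∀ (g : G) (x : X), ρ1 g (ι x) = ι (P.ρ g x)) ∧
      (∀ (g : G) (d : E), (T g).τ d = P.σ g d) ∧
      (∀ (g : G) (b c : B), (c : G) = g * b * g⁻¹ →
        (T g).β (Multiplicative.toAdd (j b)) = Multiplicative.toAdd (j c)) ∧
      (∀ y : X1, ∃ s : (Fin r → ℤ) →₀ E, s ≠ 0 ∧ ∃ x : X, F.ev s • y = ι x) := by
  classical
  have hnzd : NoZeroDivisors (P.opRing B) := hTF.noZeroDivisors P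
  have hnt : Nontrivial (P.opRing B) := P.op_nontrivial
  have hore : Nonempty (OreSet (P.opRing B)⁰) := by
    rw [nonempty_oreSet_iff_of_noZeroDivisors]
    intro f s
    obtain ⟨a, b, ha, hab⟩ := hTF.ore P ⟨j⟩ f s (nonZeroDivisors.coe_ne_zero s)
    exact ⟨b, ⟨a, mem_nonZeroDivisors_of_ne_zero ha⟩, hab⟩
  obtain ⟨hore⟩ := hore
  -- embedding of the operator ring
  let ν : P.opRing B →+* OreLocalization (P.opRing B)⁰ (P.opRing B) := numeratorRingHom
  have hν : Function.Injective ν := numeratorHom_inj inf_le_left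
  have hνdef : ∀ f, ν f = f /ₒ (1 : (P.opRing B)⁰) := fun f => rfl
  let el : (Fin r → ℤ) → P.opRing B := fun b => P.opElt B (j.symm (Multiplicative.ofAdd b))
  have hel : ∀ b (x : X), el b • x = P.ρ ((j.symm (Multiplicative.ofAdd b) : B) : G) x := fun b x => rfl
  -- translation of coefficients
  let eqv : B ≃ (Fin r → ℤ) := j.toEquiv.trans Multiplicative.toAdd
  have hop : ∀ s : (Fin r → ℤ) →₀ E, (s.sum fun b d => (ν.comp (P.opScalarHom B)) d * ν (el b)) =
      ν (P.op B (s.mapDomain eqv.symm)) := by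
    intro s
    rw [PAct.op, Finsupp.sum_mapDomain_index_inj eqv.symm.injective, Finsupp.sum, Finsupp.sum, map_sum]
    refine Finset.sum_congr rfl fun b _ => ?_
    rw [map_mul]
    rfl
  have hop' : ∀ f : P.opRing B, ∃ s : (Fin r → ℤ) →₀ E,
      (s.sum fun b d => (ν.comp (P.opScalarHom B)) d * ν (el b)) = ν f := by
    intro f
    obtain ⟨s, rfl⟩ := P.exists_op B f
    refine ⟨s.mapDomain eqv, ?_⟩
    rw [hop, ← Finsupp.mapDomain_comp]
    have : (eqv.symm : (Fin r → ℤ) → B) ∘ eqv = id := by
      funext b; simp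
    rw [this, Finsupp.mapDomain_id]
  have hν0 : ∀ f, f ≠ 0 → ν f ≠ 0 := fun f hf => by
    rwa [Ne, map_eq_zero_iff ν hν]
  have hel0 : ∀ b, el b ≠ 0 := by
    intro b h0
    obtain ⟨x, hx⟩ := exists_ne (0 : X)
    have h1 := hel b x
    rw [h0, zero_smul] at h1
    exact hx ((map_eq_zero_iff _ (P.ρ _).injective).1 h1.symm)
  let F : FracData E (OreLocalization (P.opRing B)⁰ (P.opRing B)) (Fin r → ℤ) :=
    { i := ν.comp (P.opScalarHom B)
      u := fun b => ν (el b)
      u_ne := fun b => hν0 _ (hel0 b)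
      u_mul := by
        intro b b'
        obtain ⟨c, hc⟩ := P.mul ((j.symm (Multiplicative.ofAdd b) : B) : G) ((j.symm (Multiplicative.ofAdd b') : B) : G)
        refine ⟨c, c.ne_zero, ?_⟩
        rw [← map_mul]
        show _ = ν _ * ν _
        rw [← map_mul]
        congr 1
        refine P.op_ext B fun x => ?_
        rw [mul_smul, mul_smul, hel, hel, hc]
        show _ = (c : E) • (el (b + b') • x)
        rw [hel, ofAdd_add, map_mul, Subgroup.coe_mul]
      u_comm := by
        intro b d
        refine ⟨P.σ ((j.symm (Multiplicative.ofAdd b) : B) : G) d, ?_⟩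
        show ν _ * ν _ = ν _ * ν _
        rw [← map_mul, ← map_mul]
        congr 1
        refine P.op_ext B fun x => ?_
        rw [mul_smul, mul_smul]
        exact P.semi _ _ _
      indep := by
        intro s hs
        rw [hop] at hs
        rw [map_eq_zero_iff ν hν] at hs
        by_contra hcon
        obtain ⟨x, hx⟩ := exists_ne (0 : X)
        have h1 : s.mapDomain eqv.symm ≠ 0 := by
          intro h0
          apply hcon
          apply Finsupp.mapDomain_injective eqv.symm.injective
          rw [h0, Finsupp.mapDomain_zero]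
        have h2 := hTF.sum_ne P h1 hx
        rw [hs, zero_smul] at h2
        exact h2 rfl
      frac := by
        intro y
        induction y with | _ f s
        obtain ⟨s', hs'⟩ := hop' (s : P.opRing B)
        obtain ⟨t', ht'⟩ := hop' f
        refine ⟨s', t', ?_, ?_⟩
        · rintro rfl
          rw [Finsupp.sum_zero_index] at hs'
          exact hν0 _ (nonZeroDivisors.coe_ne_zero s) hs'.symm
        · rw [hs', ht', hνdef, hνdef]
          exact OreLocalization.mul_cancel }
  have hFev : ∀ s : (Fin r → ℤ) →₀ E, F.ev s = ν (P.op B (s.mapDomain eqv.symm)) := hop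
  let ι : X →+ OreLocalization (P.opRing B)⁰ X :=
    { toFun := fun x => x /ₒ (1 : (P.opRing B)⁰)
      map_zero' := zero_oreDiv _
      map_add' := fun x y => add_oreDiv.symm }
  have hι : ∀ x, ι x = x /ₒ (1 : (P.opRing B)⁰) := fun x => rfl
  have hνι : ∀ (f : P.opRing B) (x : X), ν f • ι x = ι (f • x) := by
    intro f x
    rw [hνdef, hι, hι, smul_div_one]
  -- conjugation
  have hconj := fun g => P.exists_conj B g
  choose c hc using hconj
  have hcS : ∀ g (s : (P.opRing B)⁰), c g s ∈ (P.opRing B)⁰ := by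
    intro g s
    apply mem_nonZeroDivisors_of_ne_zero
    rw [Ne, map_eq_zero_iff _ (c g).injective]
    exact nonZeroDivisors.coe_ne_zero s
  have hcS' : ∀ g (s : (P.opRing B)⁰), (c g).symm s ∈ (P.opRing B)⁰ := by
    intro g s
    apply mem_nonZeroDivisors_of_ne_zero
    rw [Ne, map_eq_zero_iff _ (c g).symm.injective]
    exact nonZeroDivisors.coe_ne_zero s
  let ρ1 : G → (OreLocalization (P.opRing B)⁰ X ≃+ OreLocalization (P.opRing B)⁰ X) := fun g =>
    oreEquiv (P.ρ g) (c g) (hcS g) (hcS' g) (hc g)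
  have hcν : ∀ g f, oreRingEquiv (c g) (hcS g) (hcS' g) (ν f) = ν (c g f) := by
    intro g f
    rw [hνdef, hνdef, oreRingEquiv_oreDiv]
    congr 1
    apply Subtype.ext
    exact map_one _
  have hρι : ∀ g x, ρ1 g (ι x) = ι (P.ρ g x) := by
    intro g x
    rw [hι, hι]
    show oreEquiv _ _ _ _ _ _ = _
    rw [oreEquiv_oreDiv]
    congr 1
    apply Subtype.ext
    exact map_one _
  let T : ∀ g : G, TAct F (ρ1 g) := fun g =>
    { σ := oreRingEquiv (c g) (hcS g) (hcS' g)
      τ := P.σ g
      β :=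
        { toFun := fun b => Multiplicative.toAdd (j (MulAut.conjNormal g (j.symm (Multiplicative.ofAdd b))))
          invFun := fun b => Multiplicative.toAdd (j (MulAut.conjNormal g⁻¹ (j.symm (Multiplicative.ofAdd b))))
          left_inv := fun b => by simp
          right_inv := fun b => by simp
          map_add' := fun a b => by simp }
      hσ := fun k x => oreEquiv_smul _ _ _ _ _ _ _
      hτ := by
        intro d
        show oreRingEquiv (c g) (hcS g) (hcS' g) (ν _) = ν _
        rw [hcν]
        congr 1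
        refine P.op_ext B fun x => ?_
        obtain ⟨y, rfl⟩ := (P.ρ g).surjective x
        rw [← hc]
        exact P.semi _ _ _
      hβ := by
        intro b
        let b' : B := j.symm (Multiplicative.ofAdd b)
        obtain ⟨c1, hc1⟩ := P.mul g (b' : G)
        obtain ⟨c2, hc2⟩ := P.mul ((MulAut.conjNormal g b' : B) : G) g
        refine ⟨((c1 * c2⁻¹ : Eˣ) : E), Units.ne_zero _, ?_⟩
        show oreRingEquiv (c g) (hcS g) (hcS' g) (ν _) = ν _ * ν _
        rw [hcν, ← map_mul]
        congr 1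
        refine P.op_ext B fun x => ?_
        obtain ⟨y, rfl⟩ := (P.ρ g).surjective x
        rw [← hc, mul_smul]
        show P.ρ g (P.ρ (b' : G) y) = ((c1 * c2⁻¹ : Eˣ) : E) • (el _ • P.ρ g y)
        rw [hel]
        have h1 : j.symm (Multiplicative.ofAdd (Multiplicative.toAdd (j (MulAut.conjNormal g b')))) = MulAut.conjNormal g b' := by
          simp
        have h2 : ((MulAut.conjNormal g b' : B) : G) * g = g * b' := by
          rw [MulAut.conjNormal_apply]; group
        show _ = ((c1 * c2⁻¹ : Eˣ) : E) •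
          P.ρ ((j.symm (Multiplicative.ofAdd (Multiplicative.toAdd (j (MulAut.conjNormal g b')))) : B) : G) (P.ρ g y)
        rw [h1, hc1, hc2, h2, smul_smul, Units.val_mul, mul_assoc, Units.inv_mul, mul_one] }
  refine ⟨OreLocalization (P.opRing B)⁰ (P.opRing B), inferInstance, OreLocalization (P.opRing B)⁰ X, inferInstance,
    inferInstance, F, ι, ρ1, T, ?_, ?_, ?_, hρι, ?_, ?_, ?_⟩
  · -- injectivity
    intro x y hxy
    rw [hι, hι, oreDiv_eq_iff] at hxy
    obtain ⟨u, v, h1, h2⟩ := hxy
    have h3 : (u : P.opRing B) = v := by simpa using h2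
    rw [Submonoid.smul_def, ← h3, ← sub_eq_zero, ← smul_sub] at h1
    by_contra hcon
    exact hTF.smul_ne P (nonZeroDivisors.coe_ne_zero u) (sub_ne_zero.2 (Ne.symm hcon)) h1
  · intro e x
    show _ = ν _ • ι x
    rw [hνι]
    rfl
  · intro b x
    show _ = ν _ • ι x
    rw [hνι, hel]
    simp
  · intro g d
    rfl
  · intro g b c' hbc
    show Multiplicative.toAdd (j (MulAut.conjNormal g (j.symm (Multiplicative.ofAdd (Multiplicative.toAdd (j b)))))) = _
    have : c' = MulAut.conjNormal g b := by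
      apply Subtype.ext
      rw [hbc]; simp
    rw [this]
    simp
  · intro y
    induction y with | _ x s
    obtain ⟨s', hs'⟩ := P.exists_op B (s : P.opRing B)
    refine ⟨s'.mapDomain eqv, ?_, x, ?_⟩
    · intro h0
      have h1 : s' = 0 := by
        apply Finsupp.mapDomain_injective eqv.injective
        rw [h0, Finsupp.mapDomain_zero]
      rw [h1, PAct.op_zero] at hs'
      exact nonZeroDivisors.coe_ne_zero s hs'
    · rw [hFev, ← Finsupp.mapDomain_comp]
      have : (eqv.symm : (Fin r → ℤ) → B) ∘ eqv = id := by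
        funext b; simp
      rw [this, Finsupp.mapDomain_id, ← hs', hνdef, hι]
      exact OreLocalization.smul_cancel

end C3da71
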