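import Pool.Agent.Lib.MP_c3da71_al.PC

set_option autoImplicit false

namespace C3da71

theorem fgab_induction {P : ∀ (G : Type) [Group G], Prop}
    (hcyc : ∀ (G : Type) [Group G], IsCyclic G → P G)
    (hext : ∀ (G : Type) [Group G] (N : Subgroup G) [N.Normal], PC G → P N → P (G ⧸ N) → P G) :
    ∀ (n : ℕ) (A : Type) [Group A] (_ : PC A) (_ : ∀ a b : A, a * b = b * a)
      (s : Finset A) (_ : s.card ≤ n) (_ : Subgroup.closure (s : Set A) = ⊤), P A := by
  classical
  intro n
  induction n with
  | zero =>
    intro A _ _ _ s hs hcl
    have h0 : s = ∅ := Finset.card_eq_zero.1 (Nat.le_zero.1 hs)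
    subst h0
    apply hcyc
    rw [Finset.coe_empty, Subgroup.closure_empty] at hcl
    have : Subsingleton A := by
      refine ⟨fun a b => ?_⟩
      have ha : a ∈ (⊤ : Subgroup A) := trivial
      have hb : b ∈ (⊤ : Subgroup A) := trivial
      rw [← hcl, Subgroup.mem_bot] at ha hb
      rw [ha, hb]
    exact isCyclic_of_subsingleton
  | succ n ih =>
    intro A _ hA hcomm s hs hcl
    rcases s.eq_empty_or_nonempty with h0 | ⟨a, ha⟩
    · exact ih A hA hcomm s (by rw [h0]; simp) hcl
    · let inst : CommGroup A := { (inferInstance : Group A) with mul_comm := hcomm }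
      have hnormal : (Subgroup.zpowers a).Normal :=
        ⟨fun x hx g => by rw [hcomm g x, mul_assoc, mul_inv_cancel, mul_one]; exact hx⟩
      refine hext A (Subgroup.zpowers a) hA (hcyc _ ?_) ?_
      · exact Subgroup.isCyclic_zpowers a
      · refine ih (A ⧸ Subgroup.zpowers a) (hA.quotient _) ?_
          ((s.erase a).image (QuotientGroup.mk' (Subgroup.zpowers a))) ?_ ?_
        · intro x y
          obtain ⟨x, rfl⟩ := QuotientGroup.mk_surjective x
          obtain ⟨y, rfl⟩ := QuotientGroup.mk_surjective y
          rw [← QuotientGroup.mk_mul, ← QuotientGroup.mk_mul, hcomm]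
        · refine Finset.card_image_le.trans ?_
          rw [Finset.card_erase_of_mem ha]
          omega
        · rw [Finset.coe_image, ← MonoidHom.map_closure]
          rw [eq_top_iff]
          intro q _
          obtain ⟨x, rfl⟩ := QuotientGroup.mk_surjective q
          have hx : x ∈ Subgroup.closure (s : Set A) := by rw [hcl]; trivial
          have hle : Subgroup.closure (s : Set A) ≤
              (Subgroup.closure ((s.erase a : Finset A) : Set A)) ⊔ Subgroup.zpowers a := by
            rw [Subgroup.closure_le]
            intro y hy
            by_cases hya : y = a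
            · subst hya
              exact Subgroup.mem_sup_right (Subgroup.mem_zpowers y)
            · exact Subgroup.mem_sup_left (Subgroup.subset_closure (by
                simpa [hya] using hy))
          have h1 := hle hx
          have h2 : ((Subgroup.closure ((s.erase a : Finset A) : Set A)) ⊔
              Subgroup.zpowers a) = ((Subgroup.closure ((s.erase a : Finset A) : Set A)).map
                (QuotientGroup.mk' (Subgroup.zpowers a))).comap
                (QuotientGroup.mk' (Subgroup.zpowers a)) := by
            rw [Subgroup.comap_map_eq, QuotientGroup.ker_mk']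
          rw [h2] at h1
          exact h1

/-- Induction principle for polycyclic groups: cyclic groups and extensions. -/
theorem PC.rec_ext {P : ∀ (G : Type) [Group G], Prop}
    (hcyc : ∀ (G : Type) [Group G], IsCyclic G → P G)
    (hext : ∀ (G : Type) [Group G] (N : Subgroup G) [N.Normal], PC G → P N → P (G ⧸ N) → P G) :
    ∀ (G : Type) [Group G], PC G → P G := by
  apply PC.induction
  · intro G _ _
    exact hcyc G isCyclic_of_subsingleton
  · intro G _ N _ hG hN hQ
    refine hext G N hG ?_ hQ
    obtain ⟨s, hs⟩ := (Group.fg_def.1 ((Group.fg_iff_subgroup_fg N).2 (hG.fg N)) )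
    exact fgab_induction hcyc hext s.card N (hG.subgroup N)
      (fun x y => Subtype.ext (hN x x.2 y y.2)) s le_rfl hs

end C3da71
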