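import Pool.Agent.Lib.MP_c3da71_al.FgAb
import Pool.Agent.Lib.MP_c3da71_al.Cl

set_option autoImplicit false

namespace C3da71

/-- the core of the extension argument -/
theorem period_ext {W : Type*} [AddCommGroup W] (h : W ≃+ W) {m E κ N : ℕ} {a : W}
    (ha : h^[N] a = a) (h1 : h^[E] (h^[m] a - a) = h^[m] a - a)
    (hκ : ∀ b : W, N • b = 0 → κ • b = 0) : h^[m * E * κ] a = a := by
  set b : W := h^[m] a - a with hb
  have hadd : ∀ (m : ℕ) (x y : W), h^[m] (x + y) = h^[m] x + h^[m] y :=
    fun m x y => iterate_map_add h m x y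
  have hha : ∀ k : ℕ, ∃ c : W, h^[m * k] a = a + c ∧ h^[E] c = c := by
    intro k
    induction k with
    | zero => exact ⟨0, by simp, by simp⟩
    | succ k ih =>
      obtain ⟨c, hc, hc2⟩ := ih
      refine ⟨b + h^[m] c, ?_, ?_⟩
      · rw [Nat.mul_succ, add_comm, Function.iterate_add_apply, hc, hadd]
        have : h^[m] a = a + b := by rw [hb]; abel
        rw [this]; abel
      · have h7 : h^[E] (h^[m] c) = h^[m] (h^[E] c) := by
          rw [← Function.iterate_add_apply, Nat.add_comm, Function.iterate_add_apply]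
        rw [hadd, h1, h7, hc2]
  obtain ⟨c, hc, hc2⟩ := hha E
  set g : W → W := h^[m * E] with hg
  have hgc : g c = c := by
    rw [hg, mul_comm, Function.iterate_mul]
    exact Function.iterate_fixed hc2 m
  have hsm : ∀ k : ℕ, g (k • c) = k • c := by
    intro k
    induction k with
    | zero => rw [zero_smul, hg]; simp
    | succ k ih => rw [succ_nsmul, hg, hadd, ← hg, ih, hgc]
  have hiter : ∀ k : ℕ, g^[k] a = a + k • c := by
    intro k
    induction k with
    | zero => simp
    | succ k ih =>
      rw [Function.iterate_succ_apply', ih]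
      have h4 : g a = a + c := hc
      have h3 : g (a + k • c) = g a + g (k • c) := by
        rw [hg, hadd]
      rw [h3, hsm, h4, succ_nsmul]; abel
  have hn0 : N • c = 0 := by
    have h5 : g^[N] a = a := by
      rw [hg, ← Function.iterate_mul, mul_comm, Function.iterate_mul]
      exact Function.iterate_fixed ha _
    rw [hiter] at h5
    simpa using h5
  rw [Function.iterate_mul, ← hg, hiter, hκ c hn0, add_zero]

/-- the automorphism of a quotient -/
def quotMap {W : Type*} [AddCommGroup W] (h : W ≃+ W) (B : AddSubgroup W)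
    (hB : ∀ x, h x ∈ B ↔ x ∈ B) : (W ⧸ B) ≃+ (W ⧸ B) :=
  QuotientAddGroup.congr B B h (by
    ext x
    constructor
    · rintro ⟨y, hy, rfl⟩
      exact (hB y).2 hy
    · intro hx
      exact ⟨h.symm x, (hB _).1 (by simpa using hx), by simp⟩)

theorem quotMap_mk {W : Type*} [AddCommGroup W] (h : W ≃+ W) (B : AddSubgroup W)
    (hB : ∀ x, h x ∈ B ↔ x ∈ B) (x : W) :
    quotMap h B hB (QuotientAddGroup.mk x) = QuotientAddGroup.mk (h x) := rfl

theorem quotMap_iterate {W : Type*} [AddCommGroup W] (h : W ≃+ W) (B : AddSubgroup W)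
    (hB : ∀ x, h x ∈ B ↔ x ∈ B) (n : ℕ) : ∀ x : W,
    (quotMap h B hB)^[n] (QuotientAddGroup.mk x) = QuotientAddGroup.mk (h^[n] x) := by
  induction n with
  | zero => intro x; rfl
  | succ n ih =>
    intro x
    rw [Function.iterate_succ_apply, Function.iterate_succ_apply, quotMap_mk, ih]

theorem mk_eq_iff_sub_mem {W : Type*} [AddCommGroup W] (B : AddSubgroup W) (x y : W) :
    (QuotientAddGroup.mk x : W ⧸ B) = QuotientAddGroup.mk y ↔ x - y ∈ B := by
  rw [eq_comm, QuotientAddGroup.eq, neg_add_eq_sub]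

theorem section_period {k V : Type*} [DivisionRing k] [AddCommGroup V] [Module k V]
    (h : V ≃+ V) (n m κ : ℕ)
    (hfac : ∀ B C : Submodule k V, Stable h B → Stable h C → C ≤ B →
      (∃ f : V →ₗ[k] (Fin n → k), B ⊓ LinearMap.ker f ≤ C) →
      ∀ a ∈ B, ∀ N : ℕ, 1 ≤ N → h^[N] a - a ∈ C → h^[m] a - a ∈ C)
    (hκ : ∀ (C : Submodule k V) (b : V) (N : ℕ), 1 ≤ N → N • b ∈ C → κ • b ∈ C) (l : ℕ) :
    ∀ B₀ B : Submodule k V, Stable h B₀ → Stable h B → Cl h n l B₀ B →
      ∀ a ∈ B, ∀ N : ℕ, 1 ≤ N → h^[N] a - a ∈ B₀ → h^[(m * κ) ^ l] a - a ∈ B₀ := by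
  induction l with
  | zero =>
    intro B₀ B hB₀ hB hCl a ha N hN haN
    have h1 : a ∈ B₀ := hCl ha
    rw [pow_zero]
    exact B₀.sub_mem ((hB₀ a).2 h1) h1
  | succ l ih =>
    rintro B₀ B hB₀ hB ⟨B', hB', hB₀B', hB'B, hCl, hres⟩ a ha N hN haN
    have hit : ∀ (C : Submodule k V), Stable h C → ∀ (i : ℕ) x, x ∈ C → h^[i] x ∈ C := by
      intro C hC i
      induction i with
      | zero => exact fun x hx => hx
      | succ i ih =>
        intro x hx
        rw [Function.iterate_succ_apply]
        exact ih _ ((hC x).2 hx)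
    have hsub : ∀ (m : ℕ) (x y : V), h^[m] (x - y) = h^[m] x - h^[m] y :=
      fun m x y => iterate_map_sub h m x y
    have h1 : h^[m] a - a ∈ B' := by
      by_contra hcon
      obtain ⟨C, hC, hB'C, hCB, hnot, hf⟩ := hres (h^[m] a - a)
        (B.sub_mem (hit B hB m a ha) ha) hcon
      exact hnot (hfac B C hB hC hCB hf a ha N hN (hB'C (hB₀B' haN)))
    have h2 : h^[N] (h^[m] a - a) - (h^[m] a - a) ∈ B₀ := by
      have h3 : h^[N] (h^[m] a - a) - (h^[m] a - a) = h^[m] (h^[N] a - a) - (h^[N] a - a) := by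
        rw [hsub, hsub, ← Function.iterate_add_apply, ← Function.iterate_add_apply,
          Nat.add_comm N m]
        abel
      rw [h3]
      exact B₀.sub_mem (hit B₀ hB₀ m _ haN) haN
    have h3 := ih B₀ B' hB₀ hB' hCl _ h1 N hN h2
    -- pass to the quotient
    let q := quotMap h B₀.toAddSubgroup hB₀
    have hq : ∀ (i : ℕ) (x : V), q^[i] (QuotientAddGroup.mk x) = QuotientAddGroup.mk (h^[i] x) :=
      quotMap_iterate h B₀.toAddSubgroup hB₀
    have h4 : q^[m * (m * κ) ^ l * κ] (QuotientAddGroup.mk a) = QuotientAddGroup.mk a := by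
      refine period_ext (N := N) q ?_ ?_ ?_
      · rw [hq, mk_eq_iff_sub_mem]; exact haN
      · rw [hq m, ← QuotientAddGroup.mk_sub, hq, mk_eq_iff_sub_mem]; exact h3
      · intro b
        obtain ⟨b, rfl⟩ := QuotientAddGroup.mk_surjective b
        intro hb
        rw [← QuotientAddGroup.mk_nsmul, QuotientAddGroup.eq_zero_iff] at hb ⊢
        exact hκ B₀ b N hN hb
    rw [hq, mk_eq_iff_sub_mem] at h4
    have h5 : m * (m * κ) ^ l * κ = (m * κ) ^ (l + 1) := by ring
    rw [h5] at h4
    exact h4

/-- a finite permutation-type bound -/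
theorem period_finite_quot {W : Type*} [AddCommGroup W] (h : W ≃+ W) (B C : AddSubgroup W)
    (hB : ∀ x, h x ∈ B ↔ x ∈ B) (hC : ∀ x, h x ∈ C ↔ x ∈ C) (M : ℕ)
    (s : Finset W) (hs : s.card ≤ M) (hcov : ∀ a ∈ B, ∃ x ∈ s, a - x ∈ C) :
    ∀ a ∈ B, h^[M.factorial] a - a ∈ C := by
  classical
  intro a ha
  have hit : ∀ (i : ℕ) x, x ∈ B → h^[i] x ∈ B := by
    intro i
    induction i with
    | zero => exact fun x hx => hx
    | succ i ih =>
      intro x hx
      rw [Function.iterate_succ_apply]
      exact ih _ ((hB x).2 hx)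
  -- pigeonhole among a, ha, ..., h^M a
  choose! r hr1 hr2 using hcov
  have hmaps : ∀ i ∈ Finset.range (M + 1), r (h^[i] a) ∈ s := fun i _ => hr1 _ (hit i a ha)
  obtain ⟨i, hi, j, hj, hij, heq⟩ := Finset.exists_ne_map_eq_of_card_lt_of_maps_to
    (by rw [Finset.card_range]; omega : s.card < (Finset.range (M + 1)).card) hmaps
  have key : ∀ i j : ℕ, i < j → j ≤ M → r (h^[i] a) = r (h^[j] a) →
      h^[M.factorial] a - a ∈ C := by
    intro i j hij hjM heq
    have h1 : h^[j] a - h^[i] a ∈ C := by
      have h2 := hr2 _ (hit i a ha)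
      have h3 := hr2 _ (hit j a ha)
      rw [heq] at h2
      have h4 : h^[j] a - h^[i] a = (h^[j] a - r (h^[j] a)) - (h^[i] a - r (h^[j] a)) := by abel
      rw [h4]
      exact C.sub_mem h3 h2
    -- cancel h^i
    have h5 : ∀ (i : ℕ) x, h^[i] x ∈ C → x ∈ C := by
      intro i
      induction i with
      | zero => exact fun x hx => hx
      | succ i ih =>
        intro x hx
        rw [Function.iterate_succ_apply] at hx
        exact (hC x).1 (ih _ hx)
    have h6 : h^[j - i] a - a ∈ C := by
      apply h5 i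
      rw [iterate_map_sub h i, ← Function.iterate_add_apply, Nat.add_sub_cancel' hij.le]
      exact h1
    obtain ⟨c, hc⟩ := Nat.dvd_factorial (by omega : 0 < j - i) (by omega : j - i ≤ M)
    rw [hc, Function.iterate_mul]
    have h7 : ∀ c : ℕ, (h^[j - i])^[c] a - a ∈ C := by
      intro c
      induction c with
      | zero => simp
      | succ c ih =>
        rw [Function.iterate_succ_apply']
        have h8 : h^[j - i] ((h^[j - i])^[c] a) - a =
            h^[j - i] ((h^[j - i])^[c] a - a) + (h^[j - i] a - a) := by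
          rw [iterate_map_sub h (j - i)]
          abel
        rw [h8]
        refine C.add_mem ?_ h6
        have h9 : ∀ (i : ℕ) x, x ∈ C → h^[i] x ∈ C := by
          intro i
          induction i with
          | zero => exact fun x hx => hx
          | succ i ih =>
            intro x hx
            rw [Function.iterate_succ_apply]
            exact ih _ ((hC x).2 hx)
        exact h9 _ _ ih
    exact h7 c
  rcases lt_or_gt_of_ne hij with h1 | h1
  · exact key i j h1 (by rw [Finset.mem_range] at hj; omega) heq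
  · exact key j i h1 (by rw [Finset.mem_range] at hi; omega) heq.symm

/-- Final use over `F_p`: the period is bounded in terms of `n`, `l`. -/
theorem period_modp (p : ℕ) [Fact p.Prime] {V : Type*} [AddCommGroup V] [Module (ZMod p) V]
    (h : V ≃+ V) (n l : ℕ) (B : Submodule (ZMod p) V) (hB : Stable h B) (hCl : Cl h n l ⊥ B)
    (a : V) (ha : a ∈ B) (N : ℕ) (hN : 1 ≤ N) (haN : h^[N] a = a) :
    h^[((p ^ n).factorial * p) ^ l] a = a := by
  classical
  have h1 := section_period h n (p ^ n).factorial p ?_ ?_ l ⊥ B Stable.bot hB hCl a ha N hN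
    (by rw [haN, sub_self]; exact Submodule.zero_mem _)
  · rw [Submodule.mem_bot, sub_eq_zero] at h1
    exact h1
  · intro B C hB hC _ ⟨f, hf⟩ a ha N _ _
    let g : (Fin n → ZMod p) → V := fun y => if hy : ∃ b ∈ B, f b = y then hy.choose else 0
    have hg : ∀ b ∈ B, g (f b) ∈ B ∧ f (g (f b)) = f b := by
      intro b hb
      have hy : ∃ b' ∈ B, f b' = f b := ⟨b, hb, rfl⟩
      have : g (f b) = hy.choose := dif_pos hy
      rw [this]
      exact hy.choose_spec
    refine period_finite_quot h B.toAddSubgroup C.toAddSubgroup hB hC (p ^ n)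
      (Finset.univ.image g) ?_ ?_ a ha
    · refine Finset.card_image_le.trans ?_
      rw [Finset.card_univ, Fintype.card_fun, ZMod.card, Fintype.card_fin]
    · intro b hb
      refine ⟨g (f b), Finset.mem_image_of_mem _ (Finset.mem_univ _), ?_⟩
      apply hf
      refine ⟨B.sub_mem hb (hg b hb).1, ?_⟩
      rw [SetLike.mem_coe, LinearMap.mem_ker, map_sub, (hg b hb).2, sub_self]
  · intro C b N _ _
    have : p • b = 0 := by
      rw [← Nat.cast_smul_eq_nsmul (ZMod p), CharP.cast_eq_zero, zero_smul]
    rw [this]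
    exact C.zero_mem

/-- bounded periods in torsion-free groups spanned by few elements -/
theorem exists_lattice_exponent (n : ℕ) : ∃ m : ℕ, 1 ≤ m ∧ ∀ (W : Type) [AddCommGroup W]
    (h : W ≃+ W) (a : W) (N : ℕ) (_ : 1 ≤ N) (_ : h^[N] a = a)
    (_ : ∀ (x : W) (k : ℕ), 1 ≤ k → k • x = 0 → x = 0)
    (_ : ∀ (r : ℕ) (x : Fin r → W), (∀ j, x j ∈ AddSubgroup.closure
      (Set.range (fun i : ℕ => h^[i] a))) → n < r → ∃ c : Fin r → ℤ, (∃ j, c j ≠ 0) ∧
      ∑ j, c j • x j = 0), h^[m] a = a := by
  classical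
  choose e he1 he2 using fun r : ℕ => fgab_period (Fin r → ℤ)
  refine ⟨∏ r ∈ Finset.range (n + 1), e r, Nat.pos_of_ne_zero
    (Finset.prod_ne_zero_iff.2 (fun r _ => Nat.one_le_iff_ne_zero.1 (he1 r))), ?_⟩
  intro W _ h a N hN haN htf hdep
  let L : AddSubgroup W := AddSubgroup.closure (Set.range (fun i : ℕ => h^[i] a))
  have haL : a ∈ L := AddSubgroup.subset_closure ⟨0, rfl⟩
  have hL1 : ∀ x ∈ L, h x ∈ L := by
    have h1 : L ≤ L.comap (h : W →+ W) := by
      rw [AddSubgroup.closure_le]
      rintro _ ⟨i, rfl⟩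
      change h (h^[i] a) ∈ L
      rw [← Function.iterate_succ_apply' h]
      exact AddSubgroup.subset_closure ⟨i + 1, rfl⟩
    exact fun x hx => h1 hx
  have hfix : ∀ i : ℕ, h^[N] (h^[i] a) = h^[i] a := by
    intro i
    rw [← Function.iterate_add_apply, add_comm, Function.iterate_add_apply, haN]
  have hL2 : ∀ x ∈ L, h.symm x ∈ L := by
    have h1 : L ≤ L.comap (h.symm : W →+ W) := by
      rw [AddSubgroup.closure_le]
      rintro _ ⟨i, rfl⟩
      change h.symm (h^[i] a) ∈ L
      have h2 : h.symm (h^[i] a) = h^[N - 1 + i] a := by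
        rw [AddEquiv.symm_apply_eq, ← Function.iterate_succ_apply' h]
        have h3 : (N - 1 + i).succ = N + i := by omega
        rw [h3, Function.iterate_add_apply, hfix]
      rw [h2]
      exact AddSubgroup.subset_closure ⟨_, rfl⟩
    exact fun x hx => h1 hx
  let γ : L ≃+ L :=
    { toFun := fun x => ⟨h x, hL1 x x.2⟩
      invFun := fun x => ⟨h.symm x, hL2 x x.2⟩
      left_inv := fun x => Subtype.ext (h.symm_apply_apply x)
      right_inv := fun x => Subtype.ext (h.apply_symm_apply x)
      map_add' := fun x y => Subtype.ext (map_add h (x : W) (y : W)) }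
  have hγ : ∀ (i : ℕ) (x : L), ((γ^[i] x : L) : W) = h^[i] (x : W) := by
    intro i
    induction i with
    | zero => intro x; rfl
    | succ i ih =>
      intro x
      rw [Function.iterate_succ_apply, Function.iterate_succ_apply, ih]
      rfl
  -- finite generation
  have hLfg : AddGroup.FG L := by
    rw [AddGroup.fg_iff_addSubgroup_fg]
    refine ⟨(Finset.range N).image (fun i => h^[i] a), ?_⟩
    apply le_antisymm
    · rw [AddSubgroup.closure_le]
      intro x hx
      simp only [Finset.coe_image, Set.mem_image] at hx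
      obtain ⟨i, _, rfl⟩ := hx
      exact AddSubgroup.subset_closure ⟨i, rfl⟩
    · rw [AddSubgroup.closure_le]
      rintro _ ⟨i, rfl⟩
      apply AddSubgroup.subset_closure
      simp only [Finset.coe_image, Set.mem_image, Finset.coe_range, Set.mem_Iio]
      refine ⟨i % N, Nat.mod_lt _ hN, ?_⟩
      have h3 : ∀ q : ℕ, h^[i % N + N * q] a = h^[i % N] a := by
        intro q
        rw [Function.iterate_add_apply, Function.iterate_mul, Function.iterate_fixed haN]
      have h4 := h3 (i / N)
      rw [Nat.mod_add_div] at h4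
      exact h4.symm
  have hLfin : Module.Finite ℤ L := Module.Finite.iff_addGroup_fg.mpr hLfg
  have hLtf : Module.IsTorsionFree ℤ L := by
    rw [Module.isTorsionFree_iff_smul_eq_zero]
    intro r x hx
    by_cases hr : r = 0
    · exact Or.inl hr
    · right
      have h3 : r.natAbs • x = 0 := by
        rcases Int.natAbs_eq r with h3 | h3
        · rw [h3, natCast_zsmul] at hx
          exact hx
        · rw [h3, neg_smul, natCast_zsmul, neg_eq_zero] at hx
          exact hx
      apply Subtype.ext
      exact htf x r.natAbs (by omega) (congrArg Subtype.val h3)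
  have hLfree : Module.Free ℤ L := inferInstance
  let b := Module.finBasis ℤ L
  set r := Module.finrank ℤ L with hr
  have hrn : r ≤ n := by
    by_contra hcon
    push Not at hcon
    obtain ⟨c, ⟨j, hj⟩, hc⟩ := hdep r (fun j => (b j : W)) (fun j => (b j).2) hcon
    have h5 : ∑ j, c j • b j = 0 := by
      apply Subtype.ext
      have h6 := map_sum L.subtype (fun j => c j • b j) Finset.univ
      rw [AddSubgroup.coe_subtype] at h6
      rw [h6]
      exact hc
    have h6 := Fintype.linearIndependent_iff.1 b.linearIndependent c h5 j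
    exact hj h6
  -- transport to ℤ^r
  let φ : L ≃+ (Fin r → ℤ) := b.equivFun.toAddEquiv
  let γ' : (Fin r → ℤ) ≃+ (Fin r → ℤ) := (φ.symm.trans γ).trans φ
  have hγ' : ∀ (i : ℕ) (x : L), γ'^[i] (φ x) = φ (γ^[i] x) := by
    intro i
    induction i with
    | zero => intro x; rfl
    | succ i ih =>
      intro x
      rw [Function.iterate_succ_apply, Function.iterate_succ_apply]
      have h7 : γ' (φ x) = φ (γ x) := by
        change φ (γ (φ.symm (φ x))) = φ (γ x)
        rw [AddEquiv.symm_apply_apply]
      rw [h7, ih]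
  have h8 : γ'^[e r] (φ ⟨a, haL⟩) = φ ⟨a, haL⟩ := by
    refine he2 r γ' _ N hN ?_
    rw [hγ']
    congr 1
    apply Subtype.ext
    rw [hγ]
    exact haN
  rw [hγ'] at h8
  have h9 : h^[e r] a = a := by
    have h10 := congrArg Subtype.val (φ.injective h8)
    rw [hγ] at h10
    exact h10
  obtain ⟨c, hc⟩ := Finset.dvd_prod_of_mem e (Finset.mem_range.2 (by omega : r < n + 1))
  rw [hc, Function.iterate_mul]
  exact Function.iterate_fixed h9 c

/-- Final use over `ℚ`. -/
theorem period_rat (n l : ℕ) : ∃ E : ℕ, 1 ≤ E ∧ ∀ (V : Type) [AddCommGroup V] [Module ℚ V]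
    (h : V ≃+ V) (B : Submodule ℚ V) (_ : Stable h B) (_ : Cl h n l ⊥ B)
    (a : V) (_ : a ∈ B) (N : ℕ) (_ : 1 ≤ N) (_ : h^[N] a = a), h^[E] a = a := by
  classical
  obtain ⟨m, hm, hlat⟩ := exists_lattice_exponent n
  refine ⟨(m * 1) ^ l, Nat.pos_of_ne_zero (pow_ne_zero _ (by omega)), ?_⟩
  intro V _ _ h B hB hCl a ha N hN haN
  have hdiv : ∀ (C : Submodule ℚ V) (b : V) (N : ℕ), 1 ≤ N → N • b ∈ C → b ∈ C := by
    intro C b N hN hb
    have h1 : b = (N : ℚ)⁻¹ • (N • b) := by
      rw [← Nat.cast_smul_eq_nsmul ℚ, smul_smul, inv_mul_cancel₀, one_smul]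
      exact_mod_cast (by omega : N ≠ 0)
    rw [h1]
    exact C.smul_mem _ hb
  have h1 := section_period h n m 1 ?_ ?_ l ⊥ B Stable.bot hB hCl a ha N hN
    (by rw [haN, sub_self]; exact Submodule.zero_mem _)
  · rw [Submodule.mem_bot, sub_eq_zero] at h1
    exact h1
  · intro B C hB hC hCB ⟨f, hf⟩ a ha N hN haN
    let q := quotMap h C.toAddSubgroup hC
    have hq : ∀ (i : ℕ) (x : V), q^[i] (QuotientAddGroup.mk x) = QuotientAddGroup.mk (h^[i] x) :=
      quotMap_iterate h C.toAddSubgroup hC
    have hit : ∀ (i : ℕ) x, x ∈ B → h^[i] x ∈ B := by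
      intro i
      induction i with
      | zero => exact fun x hx => hx
      | succ i ih =>
        intro x hx
        rw [Function.iterate_succ_apply]
        exact ih _ ((hB x).2 hx)
    have h2 : q^[m] (QuotientAddGroup.mk a) = QuotientAddGroup.mk a := by
      refine hlat (V ⧸ C.toAddSubgroup) q (QuotientAddGroup.mk a) N hN ?_ ?_ ?_
      · rw [hq, mk_eq_iff_sub_mem]; exact haN
      · intro x k hk hx
        obtain ⟨x, rfl⟩ := QuotientAddGroup.mk_surjective x
        rw [← QuotientAddGroup.mk_nsmul, QuotientAddGroup.eq_zero_iff] at hx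
        rw [QuotientAddGroup.eq_zero_iff]
        exact hdiv C x k hk hx
      · intro r x hx hr
        have hle : AddSubgroup.closure (Set.range (fun i : ℕ => q^[i] (QuotientAddGroup.mk a))) ≤
            B.toAddSubgroup.map (QuotientAddGroup.mk' C.toAddSubgroup) := by
          rw [AddSubgroup.closure_le]
          rintro _ ⟨i, rfl⟩
          exact ⟨h^[i] a, hit i a ha, (hq i a).symm⟩
        choose y hyB hyx using fun j => hle (hx j)
        have hdep : ¬ LinearIndependent ℤ (fun j => f (y j)) := by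
          rw [LinearIndependent.iff_fractionRing ℤ ℚ]
          intro hli
          have := hli.fintype_card_le_finrank
          simp at this
          omega
        obtain ⟨c, hc, j, hj⟩ := Fintype.not_linearIndependent_iff.1 hdep
        refine ⟨c, ⟨j, hj⟩, ?_⟩
        have h3 : ∑ j, c j • y j ∈ C := by
          apply hf
          refine ⟨B.sum_mem (fun j _ => zsmul_mem (hyB j) _), ?_⟩
          rw [SetLike.mem_coe, LinearMap.mem_ker, map_sum, ← hc]
          apply Finset.sum_congr rfl
          intro j _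
          rw [map_zsmul]
        have h4 : (QuotientAddGroup.mk' C.toAddSubgroup) (∑ j, c j • y j) = 0 :=
          (QuotientAddGroup.eq_zero_iff _).2 h3
        rw [map_sum] at h4
        rw [← h4]
        apply Finset.sum_congr rfl
        intro j _
        rw [map_zsmul, hyx]
    rw [hq, mk_eq_iff_sub_mem] at h2
    exact h2
  · intro C b N hN hb
    rw [one_smul]
    exact hdiv C b N hN hb

end C3da71
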