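import Pool.Agent.Lib.MP_c3da71_al.VVal

/-!
# MP_c3da71_al: `D`-spans `Rsp P W = ∑_{P b} u b • W`
-/

set_option autoImplicit false

namespace C3da71

variable {D K B V : Type*} [DivisionRing D] [DivisionRing K] [AddCommGroup B]
  [AddCommGroup V] [Module K V] [Module D V]

namespace FracData

variable (F : FracData D K B)

/-- the `D`-span of the `u b • w`, `P b`, `w ∈ W`. -/
def Rsp (P : B → Prop) (W : Submodule D V) : Submodule D V :=
  Submodule.span D {x | ∃ b, P b ∧ ∃ w ∈ W, x = F.u b • w}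

lemma mem_Rsp_of {P : B → Prop} {W : Submodule D V} {b : B} (hb : P b) {w : V} (hw : w ∈ W) :
    F.u b • w ∈ F.Rsp P W := Submodule.subset_span ⟨b, hb, w, hw, rfl⟩

lemma Rsp_mono {P Q : B → Prop} {W W' : Submodule D V} (h : ∀ b, P b → Q b) (hW : W ≤ W') :
    F.Rsp P W ≤ F.Rsp Q W' := by
  apply Submodule.span_mono
  rintro x ⟨b, hb, w, hw, rfl⟩
  exact ⟨b, h b hb, w, hW hw, rfl⟩

section

variable {F} (hD : ∀ (d : D) (x : V), d • x = F.i d • x)
include hD

omit hD in
lemma Rsp_le {P : B → Prop} {W W' : Submodule D V}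
    (h : ∀ b, P b → ∀ w ∈ W, F.u b • w ∈ W') : F.Rsp P W ≤ W' := by
  apply Submodule.span_le.2
  rintro x ⟨b, hb, w, hw, rfl⟩
  exact h b hb w hw

/-- every element of `Rsp P W` is a finite sum. -/
lemma exists_finsupp {P : B → Prop} {W : Submodule D V} {x : V} (hx : x ∈ F.Rsp P W) :
    ∃ f : B →₀ V, (∀ b ∈ f.support, P b) ∧ (∀ b, f b ∈ W) ∧ (f.sum fun b w => F.u b • w) = x := by
  classical
  refine Submodule.span_induction (p := fun x _ => ∃ f : B →₀ V, (∀ b ∈ f.support, P b) ∧
    (∀ b, f b ∈ W) ∧ (f.sum fun b w => F.u b • w) = x) ?_ ?_ ?_ ?_ hx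
  · rintro x ⟨b, hb, w, hw, rfl⟩
    refine ⟨Finsupp.single b w, ?_, ?_, by simp⟩
    · intro b' hb'
      have := Finsupp.support_single_subset hb'
      simp at this
      rwa [this]
    · intro b'
      rw [Finsupp.single_apply]
      split_ifs
      · exact hw
      · exact zero_mem _
  · exact ⟨0, by simp, by simp, by simp⟩
  · rintro x y - - ⟨f, hf, hfW, rfl⟩ ⟨g, hg, hgW, rfl⟩
    refine ⟨f + g, ?_, fun b => add_mem (hfW b) (hgW b), ?_⟩
    · intro b hb
      rcases Finset.mem_union.1 (Finsupp.support_add hb) with h | h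
      · exact hf b h
      · exact hg b h
    · rw [Finsupp.sum_add_index']
      · intro b; simp
      · intro b w w'; rw [smul_add]
  · rintro d x - ⟨f, hf, hfW, rfl⟩
    have hc : ∀ b, ∃ d' : D, F.i d * F.u b = F.u b * F.i d' := fun b => F.u_comm' b d
    choose c hc using hc
    refine ⟨Finsupp.onFinset f.support (fun b => c b • f b) ?_, ?_, ?_, ?_⟩
    · intro b hb
      rw [Finsupp.mem_support_iff]
      rintro h
      rw [h, smul_zero] at hb
      exact hb rfl
    · intro b hb
      apply hf b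
      rw [Finsupp.mem_support_iff] at hb ⊢
      intro h
      apply hb
      simp [h]
    · intro b
      exact W.smul_mem _ (hfW b)
    · rw [Finsupp.onFinset_sum (hf := _) (hg := by intro b; simp), Finsupp.sum, Finset.smul_sum]
      apply Finset.sum_congr rfl
      intro b _
      rw [hD, hD, ← mul_smul, ← mul_smul, hc]

lemma smul_Rsp {P Q : B → Prop} {W : Submodule D V} (c : B) (h : ∀ b, P b → Q (c + b)) {x : V}
    (hx : x ∈ F.Rsp P W) : F.u c • x ∈ F.Rsp Q W := by
  refine Submodule.span_induction (p := fun x _ => F.u c • x ∈ F.Rsp Q W) ?_ ?_ ?_ ?_ hx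
  · rintro x ⟨b, hb, w, hw, rfl⟩
    obtain ⟨d, -, hd⟩ := F.u_mul c b
    rw [← mul_smul, hd, mul_smul, ← hD]
    exact Submodule.smul_mem _ _ (F.mem_Rsp_of (h b hb) hw)
  · rw [smul_zero]; exact zero_mem _
  · intro x y _ _ hx hy
    rw [smul_add]; exact add_mem hx hy
  · intro d x _ hx
    obtain ⟨d', hd'⟩ := F.u_comm c d
    rw [hD, ← mul_smul, hd', mul_smul, ← hD]
    exact Submodule.smul_mem _ _ hx

lemma Rsp_Rsp {P Q S : B → Prop} {W : Submodule D V} (h : ∀ b c, P b → Q c → S (b + c)) :
    F.Rsp P (F.Rsp Q W) ≤ F.Rsp S W := by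
  apply Rsp_le
  intro b hb w hw
  exact smul_Rsp hD b (fun c hc => h b c hb hc) hw

lemma R_smul_Rsp {P Q S : B → Prop} {W : Submodule D V} (h : ∀ b c, P b → Q c → S (b + c)) {k : K}
    (hk : k ∈ F.R P) {x : V} (hx : x ∈ F.Rsp Q W) : k • x ∈ F.Rsp S W := by
  refine F.R_induction (p := fun k => k • x ∈ F.Rsp S W) ?_ ?_ ?_ hk
  · rw [zero_smul]; exact zero_mem _
  · intro k k' hk hk'
    rw [add_smul]; exact add_mem hk hk'
  · intro b d hb
    rw [mul_smul, ← hD]
    exact Submodule.smul_mem _ _ (smul_Rsp hD b (fun c hc => h b c hb hc) hx)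

lemma R_smul_mem {P : B → Prop} {W : Submodule D V} {k : K}
    (hk : k ∈ F.R P) {x : V} (hx : x ∈ W) : k • x ∈ F.Rsp P W := by
  refine F.R_induction (p := fun k => k • x ∈ F.Rsp P W) ?_ ?_ ?_ hk
  · rw [zero_smul]; exact zero_mem _
  · intro k k' hk hk'
    rw [add_smul]; exact add_mem hk hk'
  · intro b d hb
    rw [mul_smul, ← hD]
    exact Submodule.smul_mem _ _ (F.mem_Rsp_of hb hx)

lemma Rsp_fg {P : B → Prop} (hP : {b | P b}.Finite) (W : Submodule D V) [FiniteDimensional D W] :
    FiniteDimensional D (F.Rsp P W) := by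
  classical
  obtain ⟨T, hT⟩ := (Submodule.fg_iff_finiteDimensional W).2 inferInstance
  apply (Submodule.fg_iff_finiteDimensional _).1
  refine ⟨(hP.toFinset ×ˢ T).image (fun p => F.u p.1 • p.2), ?_⟩
  apply le_antisymm
  · apply Submodule.span_le.2
    intro x hx
    simp only [Finset.coe_image, Set.mem_image, Finset.mem_coe, Finset.mem_product] at hx
    obtain ⟨⟨b, t⟩, ⟨hb, ht⟩, rfl⟩ := hx
    exact F.mem_Rsp_of (by simpa using hb) (hT ▸ Submodule.subset_span ht)
  · apply Rsp_le
    intro b hb w hw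
    rw [← hT] at hw
    refine Submodule.span_induction (p := fun w _ => F.u b • w ∈ Submodule.span D _)
      ?_ ?_ ?_ ?_ hw
    · intro t ht
      apply Submodule.subset_span
      simp only [Finset.coe_image, Set.mem_image, Finset.mem_coe, Finset.mem_product]
      exact ⟨(b, t), ⟨by simpa using hb, ht⟩, rfl⟩
    · rw [smul_zero]; exact zero_mem _
    · intro x y _ _ hx hy
      rw [smul_add]; exact add_mem hx hy
    · intro d x _ hx
      obtain ⟨d', hd'⟩ := F.u_comm b d
      rw [hD, ← mul_smul, hd', mul_smul, ← hD]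
      exact Submodule.smul_mem _ _ hx

lemma Rsp_single_finrank (b : B) (W : Submodule D V) [FiniteDimensional D W] :
    Module.finrank D (F.Rsp (fun c => c = b) W) ≤ Module.finrank D W := by
  classical
  let e := Module.finBasis D W
  have : F.Rsp (fun c => c = b) W ≤ Submodule.span D
      (Set.range (fun j => F.u b • ((e j : W) : V))) := by
    apply Rsp_le
    rintro _ rfl w hw
    have : (w : V) ∈ Submodule.span D (Set.range (fun j => ((e j : W) : V))) := by
      have h1 : (⟨w, hw⟩ : W) ∈ Submodule.span D (Set.range e) := by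
        rw [e.span_eq]; trivial
      have h2 := Submodule.mem_map_of_mem (f := W.subtype) h1
      rw [Submodule.map_span, ← Set.range_comp] at h2
      exact h2
    refine Submodule.span_induction (p := fun w _ => F.u _ • w ∈ Submodule.span D _)
      ?_ ?_ ?_ ?_ this
    · rintro _ ⟨j, rfl⟩
      exact Submodule.subset_span ⟨j, rfl⟩
    · rw [smul_zero]; exact zero_mem _
    · intro x y _ _ hx hy
      rw [smul_add]; exact add_mem hx hy
    · intro d x _ hx
      obtain ⟨d', hd'⟩ := F.u_comm _ d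
      rw [hD, ← mul_smul, hd', mul_smul, ← hD]
      exact Submodule.smul_mem _ _ hx
  have hfin : FiniteDimensional D (Submodule.span D
      (Set.range (fun j => F.u b • ((e j : W) : V)))) :=
    FiniteDimensional.span_of_finite D (Set.finite_range _)
  refine (Submodule.finrank_mono this).trans ?_
  refine (finrank_range_le_card _).trans ?_
  simp

/-- an element of `Rsp P W` only uses finitely many `b`. -/
lemma exists_finite {P : B → Prop} {W : Submodule D V} {x : V} (hx : x ∈ F.Rsp P W) :
    ∃ T : Finset B, (∀ b ∈ T, P b) ∧ x ∈ F.Rsp (fun b => b ∈ T) W := by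
  obtain ⟨f, hf, hW, rfl⟩ := exists_finsupp hD hx
  refine ⟨f.support, hf, ?_⟩
  unfold Finsupp.sum
  exact Submodule.sum_mem _ fun b hb => F.mem_Rsp_of hb (hW b)

end

end FracData

end C3da71
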