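import Pool.Agent.Lib.MP_c3da71_al.Ore

/-! # Case T: construction of the localization; the torsion part -/

set_option autoImplicit false

namespace C3da71

variable {G : Type} [Group G] {E : Type} [DivisionRing E] {X : Type} [AddCommGroup X] [Module E X]

/-- The elements `x ∈ X` that are torsion over `E * B` (`B ≅ ℤ^r` normal) form a stable subspace. -/
theorem exists_torsion (P : PAct G E X) (B : Subgroup G) (hB : B.Normal) (r : ℕ)
    (hBr : Nonempty (B ≃* Multiplicative (Fin r → ℤ))) :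
    ∃ T : Submodule E X, P.Stable T ∧ ∀ x, x ∈ T ↔ ¬ LinearIndependent E (fun b : B => P.ρ (b : G) x) :=
  exists_torsion' P B hB r hBr

/-- Let `B ≅ ℤ^r` be normal in `G` and let `X ≠ 0` be torsion-free over `E * B`. Then the localization exists: a division ring `K` of fractions
of `E * B` and the `K`-space `X1 = K ⊗ X ⊇ X`, with the extended action of `G`. -/
theorem exists_ore (P : PAct G E X) (B : Subgroup G) (hB : B.Normal) (r : ℕ)
    (j : B ≃* Multiplicative (Fin r → ℤ)) (hX : Nontrivial X) (hTF : P.TF B) :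
    ∃ (K : Type) (_ : DivisionRing K) (X1 : Type) (_ : AddCommGroup X1) (_ : Module K X1)
      (F : FracData E K (Fin r → ℤ)) (ι : X →+ X1) (ρ1 : G → (X1 ≃+ X1)) (T : ∀ g : G, TAct F (ρ1 g)),
      Function.Injective ι ∧ (∀ (e : E) (x : X), ι (e • x) = F.i e • ι x) ∧
      (∀ (b : B) (x : X), ι (P.ρ (b : G) x) = F.u (Multiplicative.toAdd (j b)) • ι x) ∧
      (∀ (g : G) (x : X), ρ1 g (ι x) = ι (P.ρ g x)) ∧
      (∀ (g : G) (d : E), (T g).τ d = P.σ g d) ∧
      (∀ (g : G) (b c : B), (c : G) = g * b * g⁻¹ →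
        (T g).β (Multiplicative.toAdd (j b)) = Multiplicative.toAdd (j c)) ∧
      (∀ y : X1, ∃ s : (Fin r → ℤ) →₀ E, s ≠ 0 ∧ ∃ x : X, F.ev s • y = ι x) :=
  exists_ore' P B hB r j hX hTF

end C3da71
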