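import Pool.Agent.Lib.MP_c3da71_al.MainGood
import Pool.Agent.Lib.MP_c3da71_al.Reduction
import Pool.Agent.Lib.MP_c3da71_al.HallZ
import Pool.Agent.Lib.MP_c3da71_al.Period

/-! # Bounded periods over the prime fields; the frozen statement -/

set_option autoImplicit false

namespace C3da71

/-- an action over a field as a system -/
def AAct.toPAct {Q A : Type} [Group Q] [AddCommGroup A] {k : Type} [Field k] [Module k A] (P : AAct Q A)
    (hlin : ∀ g (c : k) x, P.ρ g (c • x) = c • P.ρ g x) : PAct Q k A where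
  ρ := P.ρ
  σ := fun _ => RingEquiv.refl k
  semi := hlin
  mul := fun g h => ⟨1, fun x => by rw [P.mul]; simp⟩

/-- the span of a finite orbit -/
theorem exists_orbit_span {k V : Type} [Field k] [AddCommGroup V] [Module k V] (h : V ≃+ V)
    (hlin : ∀ (c : k) x, h (c • x) = c • h x) (a : V) (N : ℕ) (hN : 1 ≤ N) (haN : h^[N] a = a) :
    ∃ B : Submodule k V, B.FG ∧ Stable h B ∧ a ∈ B := by
  classical
  let B : Submodule k V := Submodule.span k (Set.range (fun i : ℕ => h^[i] a))
  have hfix : ∀ i : ℕ, h^[N] (h^[i] a) = h^[i] a := by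
    intro i
    rw [← Function.iterate_add_apply, add_comm, Function.iterate_add_apply, haN]
  let hl : V →ₗ[k] V := { toFun := h, map_add' := map_add h, map_smul' := hlin }
  have hsymlin : ∀ (c : k) x, h.symm (c • x) = c • h.symm x := by
    intro c x
    rw [AddEquiv.symm_apply_eq, hlin, AddEquiv.apply_symm_apply]
  let hl' : V →ₗ[k] V := { toFun := h.symm, map_add' := map_add h.symm, map_smul' := hsymlin }
  have h1 : B ≤ B.comap hl := by
    rw [Submodule.span_le]
    rintro _ ⟨i, rfl⟩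
    change h (h^[i] a) ∈ B
    rw [← Function.iterate_succ_apply' h]
    exact Submodule.subset_span ⟨i + 1, rfl⟩
  have h2 : B ≤ B.comap hl' := by
    rw [Submodule.span_le]
    rintro _ ⟨i, rfl⟩
    change h.symm (h^[i] a) ∈ B
    have h2 : h.symm (h^[i] a) = h^[N - 1 + i] a := by
      rw [AddEquiv.symm_apply_eq, ← Function.iterate_succ_apply' h]
      have h3 : (N - 1 + i).succ = N + i := by omega
      rw [h3, Function.iterate_add_apply, hfix]
    rw [h2]
    exact Submodule.subset_span ⟨_, rfl⟩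
  refine ⟨B, ?_, ?_, Submodule.subset_span ⟨0, rfl⟩⟩
  · refine ⟨(Finset.range N).image (fun i => h^[i] a), ?_⟩
    apply le_antisymm
    · rw [Submodule.span_le]
      intro x hx
      simp only [Finset.coe_image, Set.mem_image] at hx
      obtain ⟨i, _, rfl⟩ := hx
      exact Submodule.subset_span ⟨i, rfl⟩
    · rw [Submodule.span_le]
      rintro _ ⟨i, rfl⟩
      apply Submodule.subset_span
      simp only [Finset.coe_image, Set.mem_image, Finset.coe_range, Set.mem_Iio]
      refine ⟨i % N, Nat.mod_lt _ hN, ?_⟩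
      have h3 : ∀ q : ℕ, h^[i % N + N * q] a = h^[i % N] a := by
        intro q
        rw [Function.iterate_add_apply, Function.iterate_mul, Function.iterate_fixed haN]
      have h4 := h3 (i / N)
      rw [Nat.mod_add_div] at h4
      exact h4.symm
  · intro x
    constructor
    · intro hx
      have h3 : h.symm (h x) ∈ B := h2 hx
      rwa [AddEquiv.symm_apply_apply] at h3
    · intro hx
      exact h1 hx

theorem E_modp (Q : Type) [Group Q] (hQ : PC Q) (p : ℕ) [Fact p.Prime] (A : Type) [AddCommGroup A]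
    [Module (ZMod p) A] (P : AAct Q A) (hP : P.Noeth) : P.E := by
  have hlin : ∀ g (c : ZMod p) x, P.ρ g (c • x) = c • P.ρ g x := fun g c x =>
    ZMod.map_smul (P.ρ g) c x
  let P' : PAct Q (ZMod p) A := P.toPAct hlin
  have hP' : P'.Noeth := by
    intro f hf hmono
    obtain ⟨n, hn⟩ := hP (fun n => (f n).toAddSubgroup) (fun n => hf n)
      (fun m n hmn => hmono hmn)
    exact ⟨n, fun m hm => Submodule.toAddSubgroup_injective (hn m hm)⟩
  obtain ⟨d, l, hgood⟩ := main_good hQ P' hP'
  refine ⟨((p ^ d).factorial * p) ^ l, Nat.pos_of_ne_zero (pow_ne_zero _ (Nat.mul_ne_zero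
    (Nat.factorial_ne_zero _) (Fact.out (p := p.Prime)).ne_zero)), fun g a n hn ha => ?_⟩
  obtain ⟨B, hBfg, hBst, haB⟩ := exists_orbit_span (P.ρ g) (hlin g) a n hn ha
  exact period_modp p (P.ρ g) d l B hBst (hgood g B hBfg hBst) a haB n hn ha

theorem E_rat (Q : Type) [Group Q] (hQ : PC Q) (V : Type) [AddCommGroup V] [Module ℚ V]
    (P : AAct Q V) (hP : ∀ f : ℕ → Submodule ℚ V, (∀ n, P.Stable (f n).toAddSubgroup) →
        Monotone f → ∃ n, ∀ m, n ≤ m → f m = f n) : P.E := by
  have hlin : ∀ g (c : ℚ) x, P.ρ g (c • x) = c • P.ρ g x := fun g c x =>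
    map_rat_smul (P.ρ g) c x
  let P' : PAct Q ℚ V := P.toPAct hlin
  have hP' : P'.Noeth := fun f hf hmono => hP f hf hmono
  obtain ⟨d, l, hgood⟩ := main_good hQ P' hP'
  obtain ⟨E, hE, hper⟩ := period_rat d l
  refine ⟨E, hE, fun g a n hn ha => ?_⟩
  obtain ⟨B, hBfg, hBst, haB⟩ := exists_orbit_span (P.ρ g) (hlin g) a n hn ha
  exact hper V (P.ρ g) B hBst (hgood g B hBfg hBst) a haB n hn ha

theorem main :
    ∀ (G : Type) [Group G], Group.FG G →
      ∀ (A : Subgroup G) [A.Normal],
        (∀ a ∈ A, ∀ b ∈ A, a * b = b * a) →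
        IsSolvable (G ⧸ A) →
        (∀ K : Subgroup (G ⧸ A), K.FG) →
        ∃ m : ℕ, ∀ (n : ℕ) (H : ℕ → Subgroup G),
          (∀ i ≤ n, ∃ k : ℕ, ∃ K : ℕ → Subgroup G,
              K 0 = H i ∧ K k = ⊤ ∧
              ∀ j < k, K j ≤ K (j + 1) ∧ ((K j).subgroupOf (K (j + 1))).Normal) →
          (∀ i < n, Subgroup.centralizer ((H i : Set G)) ≤
              Subgroup.centralizer ((H (i + 1) : Set G))) →
          {i : ℕ | i < n ∧ Subgroup.centralizer ((H i : Set G)) <
              Subgroup.centralizer ((H (i + 1) : Set G))}.ncard ≤ m :=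
  S02989_of (fun Q _ hQ p _ A _ _ P hP => E_modp Q hQ p A P hP) (fun Q _ hQ V _ _ P hP => E_rat Q hQ V P hP)
    (fun Q _ hQ A _ P h => AAct.noeth_of_fgen Q hQ A P h)

end C3da71
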