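import Pool.Agent.Lib.MP_c3da71_al.Val
import Pool.Agent.Lib.MP_c3da71_al.Cl

/-!
# MP_c3da71_al: coordinate valuations on a finite dimensional `K`-space, and `R`-spans
-/

set_option autoImplicit false

namespace C3da71

variable {D K B V : Type*} [DivisionRing D] [DivisionRing K] [AddCommGroup B]
  [AddCommGroup V] [Module K V]

/-- `w` is a valuation on the `K`-space `V` compatible with `v`. -/
structure IsVVal (v : K → ℝ) (w : V → ℝ) : Prop where
  smul : ∀ (k : K) (x : V), k ≠ 0 → x ≠ 0 → w (k • x) = v k + w x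
  add : ∀ x y : V, x ≠ 0 → y ≠ 0 → x + y ≠ 0 → min (w x) (w y) ≤ w (x + y)

namespace IsVVal

variable {v : K → ℝ} {w : V → ℝ} {F : FracData D K B} {χ : B →+ ℝ}

lemma neg (hv : F.IsVal χ v) (hw : IsVVal v w) {x : V} (hx : x ≠ 0) : w (-x) = w x := by
  have h1 : v (-1) = 0 := by
    have := hv.scal (d := (-1 : D)) (by simp)
    simpa using this
  have := hw.smul (-1) x (by simp) hx
  rw [h1, zero_add] at this
  simpa using this

lemma add_of_lt (hv : F.IsVal χ v) (hw : IsVVal v w) {x y : V} (hx : x ≠ 0) (hy : y ≠ 0)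
    (h : w x < w y) : x + y ≠ 0 ∧ w (x + y) = w x := by
  have h0 : x + y ≠ 0 := by
    intro h0
    have : y = -x := (neg_eq_of_add_eq_zero_right h0).symm
    rw [this, neg hv hw hx] at h
    exact lt_irrefl _ h
  refine ⟨h0, le_antisymm ?_ ?_⟩
  · have h1 := hw.add (x + y) (-y) h0 (by simpa using hy) (by simpa using hx)
    rw [neg hv hw hy, add_neg_cancel_right] at h1
    rcases min_le_iff.1 h1 with h2 | h2
    · exact h2
    · exact absurd h2 (not_le.2 h)
  · have h1 := hw.add x y hx hy h0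
    rcases min_le_iff.1 h1 with h2 | h2
    · exact h2
    · exact (h.le.trans h2)

/-- a sum of nonzero vectors with distinct values is not zero. -/
lemma sum_ne_zero (hv : F.IsVal χ v) (hw : IsVVal v w) {ι : Type*} (s : Finset ι)
    (x : ι → V) (hs : s.Nonempty) (hx : ∀ i ∈ s, x i ≠ 0)
    (hd : ∀ i ∈ s, ∀ j ∈ s, w (x i) = w (x j) → i = j) :
    ∑ i ∈ s, x i ≠ 0 := by
  classical
  suffices h : ∀ s : Finset ι, s.Nonempty → (∀ i ∈ s, x i ≠ 0) →
      (∀ i ∈ s, ∀ j ∈ s, w (x i) = w (x j) → i = j) →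
      ∑ i ∈ s, x i ≠ 0 ∧ ∃ i ∈ s, w (∑ i ∈ s, x i) = w (x i) ∧ ∀ j ∈ s, w (x i) ≤ w (x j) from
    (h s hs hx hd).1
  intro s hs
  induction hs using Finset.Nonempty.cons_induction with
  | singleton a =>
    intro hx hd
    refine ⟨by simpa using hx, a, by simp, by simp, by simp⟩
  | cons a s ha hs ih =>
    intro hx hd
    obtain ⟨h1, i, hi, h2, h3⟩ := ih (fun i hi => hx i (Finset.mem_cons_of_mem hi))
      (fun i hi j hj => hd i (Finset.mem_cons_of_mem hi) j (Finset.mem_cons_of_mem hj))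
    rw [Finset.sum_cons]
    have hne : w (x a) ≠ w (∑ i ∈ s, x i) := by
      rw [h2]
      intro h
      have := hd a (Finset.mem_cons_self _ _) i (Finset.mem_cons_of_mem hi) h
      exact ha (this ▸ hi)
    rcases lt_or_gt_of_ne hne with h | h
    · obtain ⟨h4, h5⟩ := add_of_lt hv hw (hx a (Finset.mem_cons_self _ _)) h1 h
      refine ⟨h4, a, Finset.mem_cons_self _ _, h5, ?_⟩
      intro j hj
      rcases Finset.mem_cons.1 hj with rfl | hj
      · exact le_rfl
      · exact h.le.trans (h2 ▸ h3 j hj)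
    · obtain ⟨h4, h5⟩ := add_of_lt hv hw h1 (hx a (Finset.mem_cons_self _ _)) h
      rw [add_comm] at h4 h5
      refine ⟨h4, i, Finset.mem_cons_of_mem hi, h5.trans h2, ?_⟩
      intro j hj
      rcases Finset.mem_cons.1 hj with rfl | hj
      · exact h2 ▸ h.le
      · exact h3 j hj

/-- finite dimensional `D`-subspaces have finitely many values. -/
lemma finite_values [Module D V] (hD : ∀ (d : D) (x : V), d • x = F.i d • x)
    (hv : F.IsVal χ v) (hw : IsVVal v w) (E : Submodule D V) [FiniteDimensional D E] :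
    {r : ℝ | ∃ x ∈ E, x ≠ 0 ∧ w x = r}.Finite := by
  classical
  by_contra hinf
  obtain ⟨t, ht, hcard⟩ := (Set.not_finite.1 hinf).exists_subset_card_eq (Module.finrank D E + 1)
  have hex : ∀ r : t, ∃ x : E, (x : V) ≠ 0 ∧ w x = r := by
    intro r
    obtain ⟨x, hx, h0, hr⟩ := ht r.2
    exact ⟨⟨x, hx⟩, h0, hr⟩
  choose x hx0 hxr using hex
  have hli : LinearIndependent D x := by
    rw [linearIndependent_iff']
    intro s g hg i hi
    by_contra hne
    have hs : (s.filter (fun i => g i ≠ 0)).Nonempty := ⟨i, by simp [hi, hne]⟩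
    have hval : ∀ j, g j ≠ 0 → (g j • (x j : V)) ≠ 0 ∧ w (g j • (x j : V)) = j := by
      intro j hj
      rw [hD]
      refine ⟨smul_ne_zero ((map_ne_zero F.i).2 hj) (hx0 j), ?_⟩
      rw [hw.smul _ _ ((map_ne_zero F.i).2 hj) (hx0 j), hv.scal hj, zero_add, hxr]
    have h1 := sum_ne_zero hv hw (s.filter (fun i => g i ≠ 0)) (fun j => g j • (x j : V)) hs
      (by
        intro j hj
        exact (hval j (Finset.mem_filter.1 hj).2).1)
      (by
        intro j hj k hk h
        rw [(hval j (Finset.mem_filter.1 hj).2).2, (hval k (Finset.mem_filter.1 hk).2).2] at h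
        exact Subtype.ext h)
    apply h1
    have h2 : ∑ j ∈ s, g j • (x j : V) = 0 := by
      have := congrArg (Subtype.val : E → V) hg
      simpa using this
    rw [← h2]
    apply Finset.sum_filter_of_ne
    intro j _ hj hg
    apply hj
    rw [hg, zero_smul]
  have h1 := hli.fintype_card_le_finrank
  rw [Fintype.card_coe, hcard] at h1
  omega

/-- Existence of coordinate valuations. -/
lemma exists_vval (hv : F.IsVal χ v) {ι : Type*} [Finite ι] (e : Module.Basis ι K V) :
    ∃ w : V → ℝ, IsVVal v w ∧ ∀ x, x ≠ 0 → (∀ j, e.repr x j ≠ 0 → w x ≤ v (e.repr x j)) ∧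
      ∃ j, e.repr x j ≠ 0 ∧ w x = v (e.repr x j) := by
  classical
  have hex : ∀ x : V, ∃ r : ℝ, x ≠ 0 → (∀ j, e.repr x j ≠ 0 → r ≤ v (e.repr x j)) ∧
      ∃ j, e.repr x j ≠ 0 ∧ r = v (e.repr x j) := by
    intro x
    by_cases hx : x = 0
    · exact ⟨0, fun h => absurd hx h⟩
    · have hne : (e.repr x).support.Nonempty := by
        rw [Finsupp.support_nonempty_iff]
        intro h
        exact hx (by simpa using h)
      obtain ⟨j, hj, hmin⟩ := (e.repr x).support.exists_min_image (fun j => v (e.repr x j)) hne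
      refine ⟨v (e.repr x j), fun _ => ⟨?_, j, by simpa using hj, rfl⟩⟩
      intro j' hj'
      exact hmin j' (by simpa using hj')
  choose w hw using hex
  refine ⟨w, ⟨?_, ?_⟩, hw⟩
  · intro k x hk hx
    have hkx : k • x ≠ 0 := smul_ne_zero hk hx
    obtain ⟨h1, j, hj, h2⟩ := hw x hx
    obtain ⟨h3, j', hj', h4⟩ := hw (k • x) hkx
    have e1 : e.repr (k • x) j = k * e.repr x j := by simp
    have e2 : e.repr (k • x) j' = k * e.repr x j' := by simp
    rw [e2] at hj' h4
    have h5 := right_ne_zero_of_mul hj'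
    apply le_antisymm
    · have := h3 j (by rw [e1]; exact mul_ne_zero hk hj)
      rw [e1, hv.mul _ _ hk hj, ← h2] at this
      exact this
    · rw [h4, hv.mul _ _ hk h5]
      have := h1 j' h5
      linarith
  · intro x y hx hy hxy
    obtain ⟨h1, -⟩ := hw x hx
    obtain ⟨h2, -⟩ := hw y hy
    obtain ⟨-, j, hj, h4⟩ := hw (x + y) hxy
    have e1 : e.repr (x + y) j = e.repr x j + e.repr y j := by simp
    rw [h4, e1]
    rw [e1] at hj
    by_cases hx0 : e.repr x j = 0
    · rw [hx0, zero_add] at hj ⊢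
      exact min_le_iff.2 (Or.inr (h2 j hj))
    by_cases hy0 : e.repr y j = 0
    · rw [hy0, add_zero]
      exact min_le_iff.2 (Or.inl (h1 j hx0))
    refine le_trans ?_ (hv.add _ _ hx0 hy0 hj)
    exact min_le_min (h1 j hx0) (h2 j hy0)

end IsVVal

end C3da71
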