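import Mathlib

/-!
# MP_c3da71_al: valuations on the division ring of fractions of a crossed product `D * B`

`FracData D K B`: `K` is a division ring containing (a copy of) the division ring `D`, for every
`b : B` there is a unit `u b` of `K` normalising `D`, `u b * u b' ∈ Dˣ u (b + b')`, the `u b` are
left linearly independent over `D`, and every element of `K` is a left fraction `s⁻¹ t` with
`s, t` in the span `R` of the `u b`.

Every injective homomorphism `χ : B →+ ℝ` gives a valuation `v` on `K`, trivial on `D`, with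
`v (u b) = χ b` (`FracData.exists_val`).
-/

set_option autoImplicit false

namespace C3da71

/-- `K` is a division ring of left fractions of the crossed product `D * B`. -/
structure FracData (D K B : Type*) [DivisionRing D] [DivisionRing K] [AddCommGroup B] where
  i : D →+* K
  u : B → K
  u_ne : ∀ b, u b ≠ 0
  u_mul : ∀ b b', ∃ d : D, d ≠ 0 ∧ u b * u b' = i d * u (b + b')
  u_comm : ∀ b (d : D), ∃ d' : D, u b * i d = i d' * u b
  indep : ∀ f : B →₀ D, (f.sum fun b d => i d * u b) = 0 → f = 0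
  frac : ∀ x : K, ∃ s t : B →₀ D, s ≠ 0 ∧
    (s.sum fun b d => i d * u b) * x = t.sum fun b d => i d * u b

namespace FracData

variable {D K B : Type*} [DivisionRing D] [DivisionRing K] [AddCommGroup B]
variable (F : FracData D K B)

/-- the evaluation map from finitely supported functions to `K`. -/
noncomputable def ev (f : B →₀ D) : K := f.sum fun b d => F.i d * F.u b

@[simp] lemma ev_zero : F.ev 0 = 0 := by simp [ev]

lemma ev_add (f g : B →₀ D) : F.ev (f + g) = F.ev f + F.ev g := by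
  unfold ev
  rw [Finsupp.sum_add_index']
  · intro b; simp
  · intro b d d'; simp [add_mul]

lemma ev_single (b : B) (d : D) : F.ev (Finsupp.single b d) = F.i d * F.u b := by
  unfold ev
  rw [Finsupp.sum_single_index]
  simp

lemma ev_neg (f : B →₀ D) : F.ev (-f) = - F.ev f := by
  have := F.ev_add f (-f)
  rw [add_neg_cancel, ev_zero] at this
  exact (neg_eq_of_add_eq_zero_right this.symm).symm

lemma ev_inj {f : B →₀ D} (h : F.ev f = 0) : f = 0 := F.indep f h

/-- Elements of `K` which are combinations of `u b` with `b` satisfying `P`. -/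
def R (P : B → Prop) : AddSubgroup K where
  carrier := {x | ∃ f : B →₀ D, (∀ b ∈ f.support, P b) ∧ F.ev f = x}
  zero_mem' := ⟨0, by simp, by simp⟩
  add_mem' := by
    classical
    rintro x y ⟨f, hf, rfl⟩ ⟨g, hg, rfl⟩
    refine ⟨f + g, ?_, F.ev_add f g⟩
    intro b hb
    rcases Finset.mem_union.1 (Finsupp.support_add hb) with h | h
    · exact hf b h
    · exact hg b h
  neg_mem' := by
    rintro x ⟨f, hf, rfl⟩
    exact ⟨-f, by simpa using hf, F.ev_neg f⟩

lemma mem_R {P : B → Prop} {x : K} :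
    x ∈ F.R P ↔ ∃ f : B →₀ D, (∀ b ∈ f.support, P b) ∧ F.ev f = x := Iff.rfl

lemma R_mono {P Q : B → Prop} (h : ∀ b, P b → Q b) : F.R P ≤ F.R Q := by
  rintro x ⟨f, hf, rfl⟩
  exact ⟨f, fun b hb => h b (hf b hb), rfl⟩

lemma single_mem_R {P : B → Prop} {b : B} (h : P b) (d : D) : F.i d * F.u b ∈ F.R P := by
  classical
  refine ⟨Finsupp.single b d, ?_, F.ev_single b d⟩
  intro b' hb'
  have := Finsupp.support_single_subset hb'
  simp at this
  rwa [this]

lemma R_induction {P : B → Prop} {p : K → Prop} (h0 : p 0) (hadd : ∀ x y, p x → p y → p (x + y))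
    (hs : ∀ b d, P b → p (F.i d * F.u b)) {x : K} (hx : x ∈ F.R P) : p x := by
  classical
  obtain ⟨f, hf, rfl⟩ := hx
  unfold ev
  rw [Finsupp.sum]
  refine Finset.sum_induction _ p hadd h0 ?_
  intro b hb
  exact hs b _ (hf b hb)

lemma D_mul_mem_R {P : B → Prop} (d : D) {x : K} (hx : x ∈ F.R P) : F.i d * x ∈ F.R P := by
  refine F.R_induction (p := fun x => F.i d * x ∈ F.R P) (by simp [zero_mem]) ?_ ?_ hx
  · intro x y hx hy
    simpa [mul_add] using add_mem hx hy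
  · intro b d' hb
    rw [← mul_assoc, ← map_mul]
    exact F.single_mem_R hb _

lemma mul_single_mem {P : B → Prop} {b b' : B} (d d' : D) (h : P (b + b')) :
    (F.i d * F.u b) * (F.i d' * F.u b') ∈ F.R P := by
  obtain ⟨d₁, hd₁⟩ := F.u_comm b d'
  obtain ⟨d₂, -, hd₂⟩ := F.u_mul b b'
  have : (F.i d * F.u b) * (F.i d' * F.u b') = F.i (d * d₁ * d₂) * F.u (b + b') := by
    calc (F.i d * F.u b) * (F.i d' * F.u b') = F.i d * (F.u b * F.i d') * F.u b' := by
          simp only [mul_assoc]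
      _ = F.i d * F.i d₁ * (F.u b * F.u b') := by rw [hd₁]; simp only [mul_assoc]
      _ = _ := by rw [hd₂]; simp only [map_mul, mul_assoc]
  rw [this]
  exact F.single_mem_R h _

lemma mul_mem_R {P Q S : B → Prop} (h : ∀ b b', P b → Q b' → S (b + b')) {x y : K}
    (hx : x ∈ F.R P) (hy : y ∈ F.R Q) : x * y ∈ F.R S := by
  refine F.R_induction (p := fun x => x * y ∈ F.R S) (by simp [zero_mem]) ?_ ?_ hx
  · intro x x' hx hx'
    simpa [add_mul] using add_mem hx hx'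
  · intro b d hb
    refine F.R_induction (p := fun y => (F.i d * F.u b) * y ∈ F.R S) (by simp [zero_mem]) ?_ ?_ hy
    · intro y y' hy hy'
      simpa [mul_add] using add_mem hy hy'
    · intro b' d' hb'
      exact F.mul_single_mem d d' (h _ _ hb hb')

/-! ### leading terms -/

variable (χ : B →+ ℝ)

/-- `x` has leading term at `b`. -/
def Lead (x : K) (b : B) : Prop :=
  ∃ d : D, d ≠ 0 ∧ x - F.i d * F.u b ∈ F.R (fun b' => χ b < χ b')

variable {χ}

lemma Lead.mem {x : K} {b : B} (h : F.Lead χ x b) : x ∈ F.R (fun b' => χ b ≤ χ b') := by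
  obtain ⟨d, -, hd⟩ := h
  have h1 := F.R_mono (Q := fun b' => χ b ≤ χ b') (fun b' h => h.le) hd
  have h2 := F.single_mem_R (P := fun b' => χ b ≤ χ b') (b := b) le_rfl d
  simpa using add_mem h1 h2

lemma exists_lead (hχ : Function.Injective χ) {f : B →₀ D} (hf : f ≠ 0) :
    ∃ b ∈ f.support, F.Lead χ (F.ev f) b := by
  classical
  obtain ⟨b, hb, hmin⟩ := f.support.exists_min_image χ (Finsupp.support_nonempty_iff.2 hf)
  refine ⟨b, hb, f b, by simpa using hb, ?_⟩
  refine ⟨f.erase b, ?_, ?_⟩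
  · intro b' hb'
    rw [Finsupp.support_erase, Finset.mem_erase] at hb'
    exact lt_of_le_of_ne (hmin b' hb'.2) (fun h => hb'.1 (hχ h.symm))
  · have := F.ev_add (Finsupp.single b (f b)) (f.erase b)
    rw [Finsupp.single_add_erase, ev_single] at this
    rw [this]; abel

lemma Lead.ne_zero {x : K} {b : B} (h : F.Lead χ x b) : x ≠ 0 := by
  classical
  rintro rfl
  obtain ⟨d, hd, f, hf, he⟩ := h
  have : F.ev (f + Finsupp.single b d) = 0 := by
    rw [ev_add, ev_single, he]; abel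
  have h1 := F.ev_inj this
  have h2 := DFunLike.congr_fun h1 b
  simp only [Finsupp.coe_add, Pi.add_apply, Finsupp.single_eq_same, Finsupp.coe_zero,
    Pi.zero_apply] at h2
  have h3 : f b = 0 := by
    by_contra h
    exact absurd (hf b (by simpa using h)) (lt_irrefl _)
  rw [h3, zero_add] at h2
  exact hd h2

lemma lead_not_lt {x : K} {b : B} (h : F.Lead χ x b) (h' : x ∈ F.R (fun c => χ b < χ c)) :
    False := by
  obtain ⟨d, hd, h1⟩ := h
  have h2 : F.i d * F.u b ∈ F.R (fun c => χ b < χ c) := by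
    have := sub_mem h' h1
    simpa using this
  have h3 : F.Lead χ (0 : K) b := ⟨d, hd, by simpa using neg_mem h2⟩
  exact h3.ne_zero F rfl

lemma Lead.le_of_mem {x : K} {b : B} {r : ℝ} (h : F.Lead χ x b)
    (h' : x ∈ F.R (fun c => r ≤ χ c)) : r ≤ χ b := by
  by_contra hlt
  push Not at hlt
  exact F.lead_not_lt h (F.R_mono (fun c hc => lt_of_lt_of_le hlt hc) h')

lemma Lead.unique (hχ : Function.Injective χ) {x : K} {b b' : B} (h : F.Lead χ x b)
    (h' : F.Lead χ x b') : b = b' := by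
  apply hχ
  apply le_antisymm
  · exact h'.le_of_mem F (h.mem F)
  · exact h.le_of_mem F (h'.mem F)

lemma Lead.mul {x y : K} {b c : B} (hx : F.Lead χ x b) (hy : F.Lead χ y c) :
    F.Lead χ (x * y) (b + c) := by
  obtain ⟨d, hd, h1⟩ := hx
  obtain ⟨e, he, h2⟩ := hy
  obtain ⟨e', he'⟩ := F.u_comm b e
  obtain ⟨d₂, hd₂0, hd₂⟩ := F.u_mul b c
  have he'0 : e' ≠ 0 := by
    rintro rfl
    rw [map_zero, zero_mul] at he'
    rcases mul_eq_zero.1 he' with h | h
    · exact F.u_ne b h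
    · exact he ((map_eq_zero F.i).1 h)
  refine ⟨d * e' * d₂, mul_ne_zero (mul_ne_zero hd he'0) hd₂0, ?_⟩
  have key : (F.i d * F.u b) * (F.i e * F.u c) = F.i (d * e' * d₂) * F.u (b + c) := by
    calc (F.i d * F.u b) * (F.i e * F.u c) = F.i d * (F.u b * F.i e) * F.u c := by
          simp only [mul_assoc]
      _ = F.i d * F.i e' * (F.u b * F.u c) := by rw [he']; simp only [mul_assoc]
      _ = _ := by rw [hd₂]; simp only [map_mul, mul_assoc]
  have h3 : (F.i d * F.u b) * (y - F.i e * F.u c) ∈ F.R (fun c' => χ (b + c) < χ c') := by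
    refine F.mul_mem_R (P := fun b' => χ b ≤ χ b') (Q := fun c' => χ c < χ c') ?_
      (F.single_mem_R (P := fun b' => χ b ≤ χ b') le_rfl d) h2
    intro b' c' hb' hc'
    simp only [map_add]; linarith
  have h4 : (x - F.i d * F.u b) * y ∈ F.R (fun c' => χ (b + c) < χ c') := by
    refine F.mul_mem_R (P := fun b' => χ b < χ b') (Q := fun c' => χ c ≤ χ c') ?_
      h1 (Lead.mem F ⟨e, he, h2⟩)
    intro b' c' hb' hc'
    simp only [map_add]; linarith
  have : x * y - F.i (d * e' * d₂) * F.u (b + c) =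
      (x - F.i d * F.u b) * y + (F.i d * F.u b) * (y - F.i e * F.u c) := by
    rw [← key]; noncomm_ring
  rw [this]
  exact add_mem h4 h3

/-- Every nonzero element of `R` has a leading term. -/
lemma exists_lead' (hχ : Function.Injective χ) {P : B → Prop} {x : K} (hx : x ∈ F.R P)
    (h0 : x ≠ 0) : ∃ b, P b ∧ F.Lead χ x b := by
  obtain ⟨f, hf, rfl⟩ := hx
  have : f ≠ 0 := by rintro rfl; simp at h0
  obtain ⟨b, hb, h⟩ := F.exists_lead hχ this
  exact ⟨b, hf b hb, h⟩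

/-- Ore condition. -/
lemma ore {s t : K} (ht0 : t ≠ 0) :
    ∃ p q : K, p ≠ 0 ∧ p ∈ F.R (fun _ => True) ∧ q ∈ F.R (fun _ => True) ∧ p * s = q * t := by
  obtain ⟨p, q, hp, h⟩ := F.frac (s * t⁻¹)
  refine ⟨F.ev p, F.ev q, fun h => hp (F.ev_inj h), ⟨p, by simp, rfl⟩, ⟨q, by simp, rfl⟩, ?_⟩
  have h' : F.ev p * (s * t⁻¹) = F.ev q := h
  rw [← h', mul_assoc, mul_assoc, inv_mul_cancel₀ ht0, mul_one]

variable (χ)

/-- `b` is the value of `x`. -/
def VRel (x : K) (b : B) : Prop :=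
  ∃ p b₁ b₂, F.Lead χ p b₁ ∧ F.Lead χ (p * x) b₂ ∧ b = b₂ - b₁

variable {χ}

lemma Lead.memR {x : K} {b : B} (h : F.Lead χ x b) : x ∈ F.R (fun _ => True) :=
  F.R_mono (fun _ _ => trivial) (h.mem F)

lemma VRel.unique (hχ : Function.Injective χ) {x : K} {b b' : B} (h : F.VRel χ x b)
    (h' : F.VRel χ x b') : b = b' := by
  obtain ⟨p, b₁, b₂, h1, h2, rfl⟩ := h
  obtain ⟨p', c₁, c₂, h3, h4, rfl⟩ := h'
  obtain ⟨a, c, ha, haR, hcR, hac⟩ := F.ore (s := p) (h3.ne_zero F)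
  have hc : c ≠ 0 := by
    rintro rfl
    rw [zero_mul] at hac
    rcases mul_eq_zero.1 hac with h | h
    · exact ha h
    · exact h1.ne_zero F h
  obtain ⟨α, -, hα⟩ := F.exists_lead' hχ haR ha
  obtain ⟨γ, -, hγ⟩ := F.exists_lead' hχ hcR hc
  have e1 := Lead.unique F hχ (hα.mul F h1) (by rw [hac]; exact hγ.mul F h3)
  have e2 := Lead.unique F hχ (hα.mul F h2) (b' := γ + c₂) (by
    rw [← mul_assoc, hac, mul_assoc]; exact hγ.mul F h4)
  have : (α + b₂) - (α + b₁) = (γ + c₂) - (γ + c₁) := by rw [e1, e2]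
  simpa using this

lemma exists_vrel (hχ : Function.Injective χ) {x : K} (hx : x ≠ 0) : ∃ b, F.VRel χ x b := by
  obtain ⟨s, t, hs, h⟩ := F.frac x
  have h' : F.ev s * x = F.ev t := h
  have hs0 : F.ev s ≠ 0 := fun h => hs (F.ev_inj h)
  obtain ⟨b₁, -, h1⟩ := F.exists_lead hχ hs
  have ht : t ≠ 0 := by
    rintro rfl
    rw [ev_zero] at h'
    rcases mul_eq_zero.1 h' with h | h
    · exact hs0 h
    · exact hx h
  obtain ⟨b₂, -, h2⟩ := F.exists_lead hχ ht
  exact ⟨b₂ - b₁, F.ev s, b₁, b₂, h1, by rw [h']; exact h2, rfl⟩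

lemma VRel.mul (hχ : Function.Injective χ) {x y : K} {b c : B} (hx : F.VRel χ x b)
    (hy : F.VRel χ y c) : F.VRel χ (x * y) (b + c) := by
  obtain ⟨p, b₁, b₂, h1, h2, rfl⟩ := hx
  obtain ⟨p', c₁, c₂, h3, h4, rfl⟩ := hy
  obtain ⟨a, c, ha, haR, hcR, hac⟩ := F.ore (s := p * x) (h3.ne_zero F)
  have hc : c ≠ 0 := by
    rintro rfl
    rw [zero_mul] at hac
    rcases mul_eq_zero.1 hac with h | h
    · exact ha h
    · exact h2.ne_zero F h
  obtain ⟨α, -, hα⟩ := F.exists_lead' hχ haR ha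
  obtain ⟨γ, -, hγ⟩ := F.exists_lead' hχ hcR hc
  have e1 := Lead.unique F hχ (hα.mul F h2) (b' := γ + c₁) (by rw [hac]; exact hγ.mul F h3)
  refine ⟨a * p, α + b₁, γ + c₂, hα.mul F h1, ?_, ?_⟩
  · have : a * p * (x * y) = c * (p' * y) := by
      rw [← mul_assoc c, ← hac]; simp only [mul_assoc]
    rw [this]; exact hγ.mul F h4
  · have e2 : γ = α + b₂ - c₁ := by rw [e1]; abel
    rw [e2]; abel

lemma Lead.add (hχ : Function.Injective χ) {x y : K} {b c : B} (hx : F.Lead χ x b)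
    (hy : F.Lead χ y c) (h0 : x + y ≠ 0) :
    ∃ e, F.Lead χ (x + y) e ∧ min (χ b) (χ c) ≤ χ e := by
  have h1 : x + y ∈ F.R (fun e => min (χ b) (χ c) ≤ χ e) :=
    add_mem (F.R_mono (fun e he => le_trans (min_le_left _ _) he) (hx.mem F))
      (F.R_mono (fun e he => le_trans (min_le_right _ _) he) (hy.mem F))
  obtain ⟨e, he, hl⟩ := F.exists_lead' hχ h1 h0
  exact ⟨e, hl, he⟩

lemma VRel.add (hχ : Function.Injective χ) {x y : K} {b c : B} (hx : F.VRel χ x b)
    (hy : F.VRel χ y c) (h0 : x + y ≠ 0) :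
    ∃ e, F.VRel χ (x + y) e ∧ min (χ b) (χ c) ≤ χ e := by
  obtain ⟨p, b₁, b₂, h1, h2, rfl⟩ := hx
  obtain ⟨p', c₁, c₂, h3, h4, rfl⟩ := hy
  obtain ⟨a, c, ha, haR, hcR, hac⟩ := F.ore (s := p) (h3.ne_zero F)
  have hc : c ≠ 0 := by
    rintro rfl
    rw [zero_mul] at hac
    rcases mul_eq_zero.1 hac with h | h
    · exact ha h
    · exact h1.ne_zero F h
  obtain ⟨α, -, hα⟩ := F.exists_lead' hχ haR ha
  obtain ⟨γ, -, hγ⟩ := F.exists_lead' hχ hcR hc
  have e1 := Lead.unique F hχ (hα.mul F h1) (b' := γ + c₁) (by rw [hac]; exact hγ.mul F h3)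
  have e2 : a * p * (x + y) = a * (p * x) + c * (p' * y) := by
    rw [mul_add, ← mul_assoc c, ← hac]; simp only [mul_assoc]
  have hne : a * (p * x) + c * (p' * y) ≠ 0 := by
    rw [← e2]
    exact mul_ne_zero (mul_ne_zero ha (h1.ne_zero F)) h0
  obtain ⟨e, he, hle⟩ := Lead.add F hχ (hα.mul F h2) (hγ.mul F h4) hne
  refine ⟨e - (α + b₁), ⟨a * p, α + b₁, e, hα.mul F h1, by rw [e2]; exact he, rfl⟩, ?_⟩
  have e3 : χ (α + b₁) = χ (γ + c₁) := by rw [e1]
  simp only [map_sub, map_add] at hle e3 ⊢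
  rcases min_le_iff.1 hle with h | h
  · exact min_le_iff.2 (Or.inl (by linarith))
  · exact min_le_iff.2 (Or.inr (by linarith))

lemma u_zero : ∃ d : D, d ≠ 0 ∧ F.u 0 = F.i d := by
  obtain ⟨d, hd, h⟩ := F.u_mul 0 0
  rw [add_zero] at h
  exact ⟨d, hd, mul_right_cancel₀ (F.u_ne 0) h⟩

lemma lead_single (b : B) {d : D} (hd : d ≠ 0) : F.Lead χ (F.i d * F.u b) b :=
  ⟨d, hd, by simp [zero_mem]⟩

lemma lead_u (b : B) : F.Lead χ (F.u b) b := by
  simpa using F.lead_single (χ := χ) b one_ne_zero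

lemma lead_D {d : D} (hd : d ≠ 0) : F.Lead χ (F.i d) 0 := by
  obtain ⟨e, he, h⟩ := F.u_zero
  have : F.i d = F.i (d * e⁻¹) * F.u 0 := by
    rw [h, ← map_mul, mul_assoc, inv_mul_cancel₀ he, mul_one]
  rw [this]
  exact F.lead_single 0 (mul_ne_zero hd (inv_ne_zero he))

lemma Lead.vrel {x : K} {b : B} (h : F.Lead χ x b) : F.VRel χ x b :=
  ⟨F.i 1, 0, b, F.lead_D one_ne_zero, by simpa using h, by simp⟩

/-- **The valuation attached to an injective homomorphism `χ : B →+ ℝ`.** -/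
theorem exists_val (hχ : Function.Injective χ) :
    ∃ v : K → ℝ, (∀ x y, x ≠ 0 → y ≠ 0 → v (x * y) = v x + v y) ∧
      (∀ x y, x ≠ 0 → y ≠ 0 → x + y ≠ 0 → min (v x) (v y) ≤ v (x + y)) ∧
      (∀ x b, F.Lead χ x b → v x = χ b) := by
  classical
  have hex : ∀ x : K, ∃ b, x ≠ 0 → F.VRel χ x b := by
    intro x
    by_cases hx : x = 0
    · exact ⟨0, fun h => absurd hx h⟩
    · obtain ⟨b, hb⟩ := F.exists_vrel hχ hx
      exact ⟨b, fun _ => hb⟩
  choose w hw using hex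
  have hw' : ∀ {x b}, x ≠ 0 → F.VRel χ x b → w x = b := fun hx hb =>
    VRel.unique F hχ (hw _ hx) hb
  refine ⟨fun x => χ (w x), ?_, ?_, ?_⟩
  · intro x y hx hy
    simp only
    rw [hw' (mul_ne_zero hx hy) (VRel.mul F hχ (hw x hx) (hw y hy)), map_add]
  · intro x y hx hy hxy
    obtain ⟨e, he, hle⟩ := VRel.add F hχ (hw x hx) (hw y hy) hxy
    simp only
    rw [hw' hxy he]
    exact hle
  · intro x b h
    simp only
    rw [hw' (h.ne_zero F) (h.vrel F)]

/-- right-handed commutation. -/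
lemma u_comm' (b : B) (d : D) : ∃ d' : D, F.i d * F.u b = F.u b * F.i d' := by
  obtain ⟨e, he, h1⟩ := F.u_mul b (-b)
  obtain ⟨e0, he0, h0⟩ := F.u_zero
  rw [add_neg_cancel, h0, ← map_mul] at h1
  -- `u (-b) = (u b)⁻¹ * i (e * e0)`
  have h2 : F.u (-b) = (F.u b)⁻¹ * F.i (e * e0) := by
    rw [← h1, ← mul_assoc, inv_mul_cancel₀ (F.u_ne b), one_mul]
  have hc : e * e0 ≠ 0 := mul_ne_zero he he0
  have hc' : F.i (e * e0) ≠ 0 := (map_ne_zero F.i).2 hc
  obtain ⟨d', h3⟩ := F.u_comm (-b) ((e * e0)⁻¹ * d * (e * e0))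
  rw [h2] at h3
  refine ⟨d', ?_⟩
  have h4 : (F.u b)⁻¹ * F.i d = F.i d' * (F.u b)⁻¹ := by
    have h5 : (F.u b)⁻¹ * F.i (e * e0) * F.i ((e * e0)⁻¹ * d * (e * e0)) =
        (F.u b)⁻¹ * F.i d * F.i (e * e0) := by
      have h7 : (e * e0) * ((e * e0)⁻¹ * d * (e * e0)) = d * (e * e0) := by
        rw [mul_assoc (e * e0)⁻¹, ← mul_assoc (e * e0), mul_inv_cancel₀ hc, one_mul]
      rw [mul_assoc (F.u b)⁻¹, ← map_mul, h7, mul_assoc (F.u b)⁻¹, ← map_mul]
    rw [h5, ← mul_assoc] at h3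
    exact mul_right_cancel₀ hc' h3
  have h6 : F.u b * ((F.u b)⁻¹ * F.i d) * F.u b = F.u b * (F.i d' * (F.u b)⁻¹) * F.u b := by
    rw [h4]
  rwa [← mul_assoc, mul_inv_cancel₀ (F.u_ne b), one_mul, mul_assoc, mul_assoc,
    inv_mul_cancel₀ (F.u_ne b), mul_one] at h6

lemma u_inv (b : B) : ∃ d : D, d ≠ 0 ∧ (F.u b)⁻¹ = F.i d * F.u (-b) := by
  obtain ⟨e, he, h1⟩ := F.u_mul (-b) b
  obtain ⟨e0, he0, h0⟩ := F.u_zero
  rw [neg_add_cancel, h0, ← map_mul] at h1
  have hc : e * e0 ≠ 0 := mul_ne_zero he he0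
  refine ⟨(e * e0)⁻¹, inv_ne_zero hc, ?_⟩
  apply inv_eq_of_mul_eq_one_left
  rw [mul_assoc, h1, ← map_mul, inv_mul_cancel₀ hc, map_one]

/-- `v` is a valuation attached to `χ`. -/
structure IsVal (χ : B →+ ℝ) (v : K → ℝ) : Prop where
  mul : ∀ x y, x ≠ 0 → y ≠ 0 → v (x * y) = v x + v y
  add : ∀ x y, x ≠ 0 → y ≠ 0 → x + y ≠ 0 → min (v x) (v y) ≤ v (x + y)
  lead : ∀ x b, F.Lead χ x b → v x = χ b

theorem exists_isVal (hχ : Function.Injective χ) : ∃ v : K → ℝ, F.IsVal χ v := by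
  obtain ⟨v, h1, h2, h3⟩ := F.exists_val hχ
  exact ⟨v, h1, h2, h3⟩

variable {F}

lemma IsVal.u {v : K → ℝ} (hv : F.IsVal χ v) (b : B) : v (F.u b) = χ b :=
  hv.lead _ _ (F.lead_u b)

lemma IsVal.scal {v : K → ℝ} (hv : F.IsVal χ v) {d : D} (hd : d ≠ 0) : v (F.i d) = 0 := by
  rw [hv.lead _ _ (F.lead_D hd), map_zero]

end FracData

end C3da71
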